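import Pool.Agent.helper35.CliqueUp6

/-!
# The upper bound for all `q ≥ 2`
-/

set_option autoImplicit false

namespace Pool.Agent.helper35.CliqueUp

open Pool.Agent.CliqueGame

theorem hasClique_anti {V : Type*} {p q : ℕ} (hpq : p ≤ q) {M : Set (Sym2 V)} (h : HasClique q M) :
    HasClique p M := by
  obtain ⟨S, h1, h2⟩ := h
  obtain ⟨T, hT1, hT2⟩ := Finset.exists_subset_card_eq (s := S) (n := p) (by omega)
  exact ⟨T, hT2, fun x hx y hy hxy => h2 x (hT1 hx) y (hT1 hy) hxy⟩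

theorem makerWins_anti {p q m : ℕ} (hpq : p ≤ q) (h : MakerWinsWithin q m) :
    MakerWinsWithin p m := by
  obtain ⟨σ, hσ⟩ := h
  exact ⟨σ, fun b => ⟨(hσ b).1, fun hb => hasClique_anti hpq ((hσ b).2 hb)⟩⟩

/-- **Upper bound** for all `q ≥ 2`: Maker wins the `K_q`-game within `q^100 * 2^(2q/3)` moves. -/
theorem upper_all {q : ℕ} (hq : 2 ≤ q) :
    ∃ m : ℕ, MakerWinsWithin q m ∧ (m : ℝ) ≤ (q : ℝ) ^ 100 * (2 : ℝ) ^ ((2 : ℝ) * q / 3) := by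
  have hq2 : (2 : ℝ) ≤ q := by exact_mod_cast hq
  have hp : (0 : ℝ) < (2 : ℝ) ^ ((2 : ℝ) * q / 3) := by positivity
  by_cases h5 : 5 ≤ q
  · obtain ⟨m, h1, h2⟩ := upper h5
    refine ⟨m, h1, h2.trans ?_⟩
    apply mul_le_mul_of_nonneg_right _ hp.le
    exact pow_le_pow_right₀ (by linarith) (by norm_num)
  · obtain ⟨m, h1, h2⟩ := upper_nat (q := 5) le_rfl
    refine ⟨m, makerWins_anti (by omega) h1, ?_⟩
    have h3 : (m : ℝ) ≤ 8 * (5 : ℝ) ^ 24 * 2 ^ (2 * (5 / 3)) := by exact_mod_cast h2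
    have h4 : (8 : ℝ) * (5 : ℝ) ^ 24 * 2 ^ (2 * (5 / 3)) ≤ (2 : ℝ) ^ 100 := by norm_num
    have h5' : (2 : ℝ) ^ 100 ≤ (q : ℝ) ^ 100 := pow_le_pow_left₀ (by norm_num) hq2 100
    have h6 : (1 : ℝ) ≤ (2 : ℝ) ^ ((2 : ℝ) * q / 3) :=
      Real.one_le_rpow (by norm_num) (by positivity)
    calc (m : ℝ) ≤ (q : ℝ) ^ 100 * 1 := by rw [mul_one]; linarith
      _ ≤ _ := mul_le_mul_of_nonneg_left h6 (by positivity)

theorem moveNumber_le_all {q : ℕ} (hq : 2 ≤ q) :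
    (moveNumber q : ℝ) ≤ (q : ℝ) ^ 100 * (2 : ℝ) ^ ((2 : ℝ) * q / 3) := by
  obtain ⟨m, h1, h2⟩ := upper_all hq
  refine le_trans ?_ h2
  have : moveNumber q ≤ m := Nat.sInf_le h1
  exact_mod_cast this

/-- the set in the definition of the move number is nonempty -/
theorem exists_makerWins (q : ℕ) : ∃ m, MakerWinsWithin q m := by
  by_cases hq : 2 ≤ q
  · obtain ⟨m, h1, _⟩ := upper_all hq
    exact ⟨m, h1⟩
  · obtain ⟨m, h1, _⟩ := upper_all (q := 2) le_rfl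
    exact ⟨m, makerWins_anti (by omega) h1⟩

end Pool.Agent.helper35.CliqueUp
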