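import Pool.Agent.helper35.Nuc12
import Pool.Agent.helper43.Nuclei.Conf

/-!
The algebraic core of the theorem on `(q+1)`-sets with `q-1` nuclei in `AG(2,q)`, stated for the
shared interface structure `Pool.Agent.Nuclei.Conf`.
-/

namespace Pool.Agent.helper35.NucCore

variable {F : Type*} [Field F] [Fintype F]

/-- the shared interface structure implies the one used in `Nuc3` to `Nuc12` -/
theorem conf_of {S N : Finset (Fin 3 → F)} (h : Pool.Agent.Nuclei.Conf S N) :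
    Pool.Agent.helper35.Nuc.Conf S N where
  S2 := h.S2
  cardS := h.cardS
  cardN := h.cardN
  N2 := h.N2
  Nindep := h.Nindep
  nuc := by
    intro n hn w hw h0
    have h0' : ∑ i, w i * n i = 0 := by
      rw [← h0]; exact Finset.sum_congr rfl (fun i _ => mul_comm _ _)
    obtain ⟨s, hs, hu⟩ := h.nuc n hn w hw h0'
    have hc : ∀ s : Fin 3 → F, ∑ i, s i * w i = ∑ i, w i * s i := fun s =>
      Finset.sum_congr rfl (fun i _ => mul_comm _ _)
    refine ⟨s, ⟨hs.1, by rw [hc]; exact hs.2⟩, ?_⟩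
    intro y hy
    exact hu y ⟨hy.1, by rw [← hc]; exact hy.2⟩
  diff := h.diff
  modid := fun n hn a => h.modid n hn a

theorem core (S N : Finset (Fin 3 → F)) (h : Pool.Agent.Nuclei.Conf S N)
    (h0 : ∑ n ∈ N, n = 0) :
    Fintype.card F = 5 ∧ ∀ n1 ∈ N, ∀ n2 ∈ N, ∀ m1 ∈ N, ∀ m2 ∈ N, n1 ≠ n2 → m1 ≠ m2 →
      ∀ t : F, n1 - n2 = t • (m1 - m2) → (n1 = m1 ∧ n2 = m2) ∨ (n1 = m2 ∧ n2 = m1) :=
  (conf_of h).core' h0

end Pool.Agent.helper35.NucCore
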