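import Mathlib

open MeasureTheory Set Filter Topology
open scoped ENNReal

namespace Pool.Agent.helper35.Polar

/-- tangent line inequality for `x ↦ x^(-s)` -/
lemma tangent {a b s : ℝ} (ha : 0 < a) (hb : 0 < b) (hs : 0 < s) :
    a ^ (-s) - s * a ^ (-s - 1) * (b - a) ≤ b ^ (-s) := by
  have h1 : b ^ (-s) = a ^ (-s) * (b / a) ^ (-s) := by
    rw [Real.div_rpow hb.le ha.le]
    have : a ^ (-s) ≠ 0 := (Real.rpow_pos_of_pos ha _).ne'
    field_simp
  have h2 : 1 - s * (b / a - 1) ≤ (b / a) ^ (-s) := by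
    have hba : 0 < b / a := div_pos hb ha
    rw [Real.rpow_def_of_pos hba]
    have h3 := Real.add_one_le_exp (Real.log (b / a) * -s)
    have h4 := Real.log_le_sub_one_of_pos hba
    nlinarith
  have h5 : a ^ (-s - 1) = a ^ (-s) / a := by
    rw [Real.rpow_sub_one ha.ne']
  rw [h1, h5]
  have h6 : 0 < a ^ (-s) := Real.rpow_pos_of_pos ha _
  calc a ^ (-s) - s * (a ^ (-s) / a) * (b - a) = a ^ (-s) * (1 - s * (b / a - 1)) := by
        field_simp
    _ ≤ a ^ (-s) * (b / a) ^ (-s) := by gcongr

lemma midpoint_convex {a b s : ℝ} (ha : 0 < a) (hb : 0 < b) (hs : 0 < s) :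
    2 * ((a + b) / 2) ^ (-s) ≤ a ^ (-s) + b ^ (-s) := by
  have hm : 0 < (a + b) / 2 := by positivity
  have h1 := tangent hm ha hs
  have h2 := tangent hm hb hs
  have : s * ((a + b) / 2) ^ (-s - 1) * (a - (a + b) / 2)
      + s * ((a + b) / 2) ^ (-s - 1) * (b - (a + b) / 2) = 0 := by ring
  linarith

/-- Abel summation inequality -/
lemma abel (w t : ℕ → ℝ) (n : ℕ) (hw0 : ∀ i < n, 0 ≤ w i)
    (hw : ∀ i, i + 1 < n → w (i + 1) ≤ w i)
    (ht : ∀ m ≤ n, ∑ i ∈ Finset.range m, t i ≤ 0) :
    ∑ i ∈ Finset.range n, w i * t i ≤ 0 := by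
  have key : ∀ m, m + 1 ≤ n →
      ∑ i ∈ Finset.range (m + 1), w i * t i ≤ w m * ∑ i ∈ Finset.range (m + 1), t i := by
    intro m
    induction m with
    | zero =>
      intro _
      simp
    | succ m ih =>
      intro hm
      rw [Finset.sum_range_succ, Finset.sum_range_succ (fun i => t i), mul_add]
      have h1 := ih (by omega)
      have h2 : w m * ∑ i ∈ Finset.range (m + 1), t i
          ≤ w (m + 1) * ∑ i ∈ Finset.range (m + 1), t i :=
        mul_le_mul_of_nonpos_right (hw m hm) (ht (m + 1) (by omega))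
      linarith
  rcases Nat.eq_zero_or_pos n with hn | hn
  · subst hn; simp
  · obtain ⟨m, rfl⟩ : ∃ m, n = m + 1 := ⟨n - 1, by omega⟩
    have h1 := key m le_rfl
    have h2 : w m * ∑ i ∈ Finset.range (m + 1), t i ≤ 0 :=
      mul_nonpos_of_nonneg_of_nonpos (hw0 m (by omega)) (ht (m + 1) le_rfl)
    linarith

/-- Karamata-type inequality for `x ↦ x^(-s)` -/
lemma karamata (a b : ℕ → ℝ) (n : ℕ) (s : ℝ) (hs : 0 < s)
    (ha : ∀ i < n, 0 < a i) (hb : ∀ i < n, 0 < b i)
    (hmono : ∀ i, i + 1 < n → a i ≤ a (i + 1))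
    (hsum : ∀ m ≤ n, ∑ i ∈ Finset.range m, b i ≤ ∑ i ∈ Finset.range m, a i) :
    ∑ i ∈ Finset.range n, (a i) ^ (-s) ≤ ∑ i ∈ Finset.range n, (b i) ^ (-s) := by
  have h1 : ∑ i ∈ Finset.range n, (s * (a i) ^ (-s - 1)) * (b i - a i) ≤ 0 := by
    apply abel (fun i => s * (a i) ^ (-s - 1)) (fun i => b i - a i) n
    · intro i hi
      have := Real.rpow_pos_of_pos (ha i hi) (-s - 1)
      positivity
    · intro i hi
      have h2 : (a (i + 1)) ^ (-s - 1) ≤ (a i) ^ (-s - 1) :=
        Real.rpow_le_rpow_of_nonpos (ha i (by omega)) (hmono i hi) (by linarith)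
      exact mul_le_mul_of_nonneg_left h2 hs.le
    · intro m hm
      rw [Finset.sum_sub_distrib]
      linarith [hsum m hm]
  have h2 : ∑ i ∈ Finset.range n, ((a i) ^ (-s) - (s * (a i) ^ (-s - 1)) * (b i - a i))
      ≤ ∑ i ∈ Finset.range n, (b i) ^ (-s) := by
    refine Finset.sum_le_sum fun i hi => ?_
    exact tangent (ha i (Finset.mem_range.1 hi)) (hb i (Finset.mem_range.1 hi)) hs
  rw [Finset.sum_sub_distrib] at h2
  linarith

/-- The polarization bound on an interval. -/
lemma interval_upper (N : ℕ) (hN : 0 < N) (L : ℝ) (hL : 0 < L) (u : ℕ → ℝ)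
    (hu0 : ∀ j < N, 0 ≤ u j) (huL : ∀ j < N, u j ≤ L) (hmono : ∀ i, i + 1 < N → u i ≤ u (i + 1))
    (s : ℝ) (hs : 0 < s) :
    ∃ z : ℝ, 0 ≤ z ∧ z ≤ L ∧ (∀ j < N, 0 < |z - u j|) ∧
      ∑ j ∈ Finset.range N, |z - u j| ^ (-s) ≤
        2 * ∑ i ∈ Finset.range N, (((i : ℝ) + 1 / 2) * (L / N)) ^ (-s) := by
  have hNr : (0:ℝ) < N := by exact_mod_cast hN
  set h : ℝ := L / N with hh
  have hpos : 0 < h := by positivity
  have hNh : N * h = L := by rw [hh]; field_simp
  set c : ℝ := (∑ j ∈ Finset.range N, u j) / N - L / 2 with hc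
  set D : ℕ → ℝ := fun m => ∑ j ∈ Finset.range m, (u j - (((j : ℝ) + 1 / 2) * h + c)) with hD
  have hsumid : ∀ m : ℕ, ∑ j ∈ Finset.range m, ((j : ℝ) + 1 / 2) = (m : ℝ) ^ 2 / 2 := by
    intro m
    induction m with
    | zero => simp
    | succ m ih => rw [Finset.sum_range_succ, ih]; push_cast; ring
  have hD0 : D 0 = 0 := by simp [hD]
  have hDN : D N = 0 := by
    simp only [hD]
    rw [Finset.sum_sub_distrib, Finset.sum_add_distrib, ← Finset.sum_mul, hsumid, Finset.sum_const,
      Finset.card_range, nsmul_eq_mul, hc, hh]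
    field_simp
    ring
  have hsum_nonneg : 0 ≤ ∑ j ∈ Finset.range N, u j :=
    Finset.sum_nonneg fun j hj => hu0 j (Finset.mem_range.1 hj)
  have hsum_le : ∑ j ∈ Finset.range N, u j ≤ N * L := by
    calc ∑ j ∈ Finset.range N, u j ≤ ∑ j ∈ Finset.range N, L :=
          Finset.sum_le_sum fun j hj => huL j (Finset.mem_range.1 hj)
      _ = N * L := by simp
  have hc1 : -(L / 2) ≤ c := by
    rw [hc]
    have : 0 ≤ (∑ j ∈ Finset.range N, u j) / N := by positivity
    linarith
  have hc2 : c ≤ L / 2 := by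
    rw [hc]
    have : (∑ j ∈ Finset.range N, u j) / N ≤ L := by
      rw [div_le_iff₀ hNr]
      linarith
    linarith
  -- choice of l
  obtain ⟨l, hlN, hlmin, hz0, hzL⟩ : ∃ l ≤ N, (∀ m ≤ N, D l ≤ D m) ∧ 0 ≤ l * h + c ∧
      l * h + c ≤ L := by
    obtain ⟨l, hl, hlmin⟩ := Finset.exists_min_image (Finset.range (N + 1)) D ⟨0, by simp⟩
    rw [Finset.mem_range] at hl
    have hlmin' : ∀ m ≤ N, D l ≤ D m := fun m hm => hlmin m (by simp; omega)
    by_cases hneg : D l < 0
    · -- interior
      have hl0 : l ≠ 0 := by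
        rintro rfl
        rw [hD0] at hneg
        exact lt_irrefl _ hneg
      have hlN : l ≠ N := by
        rintro rfl
        rw [hDN] at hneg
        exact lt_irrefl _ hneg
      obtain ⟨k, rfl⟩ : ∃ k, l = k + 1 := ⟨l - 1, by omega⟩
      refine ⟨k + 1, by omega, hlmin', ?_, ?_⟩
      · have h1 := hlmin' k (by omega)
        simp only [hD] at h1
        rw [Finset.sum_range_succ] at h1
        have h2 := hu0 k (by omega)
        push_cast
        nlinarith
      · have h1 := hlmin' (k + 1 + 1) (by omega)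
        simp only [hD] at h1
        rw [Finset.sum_range_succ _ (k + 1)] at h1
        have h2 := huL (k + 1) (by omega)
        push_cast at h1 ⊢
        nlinarith
    · have hge : 0 ≤ D l := not_lt.1 hneg
      have hzero : D l = 0 := le_antisymm (by rw [← hD0]; exact hlmin' 0 (by omega)) hge
      by_cases hcs : 0 ≤ c
      · refine ⟨0, by omega, fun m hm => ?_, ?_, ?_⟩
        · rw [hD0, ← hzero]; exact hlmin' m hm
        · simpa using hcs
        · simp; linarith
      · refine ⟨N, le_rfl, fun m hm => ?_, ?_, ?_⟩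
        · rw [hDN, ← hzero]; exact hlmin' m hm
        · rw [hNh]; linarith
        · rw [hNh]; linarith
  set z : ℝ := l * h + c with hz
  -- monotonicity for indices
  have hmono' : ∀ i j, i ≤ j → j < N → u i ≤ u j := by
    intro i j hij hj
    induction j, hij using Nat.le_induction with
    | base => exact le_rfl
    | succ j hij ih => exact (ih (by omega)).trans (hmono j hj)
  -- right part
  have hright : ∀ m, l + m ≤ N →
      ∑ i ∈ Finset.range m, (((i : ℝ) + 1 / 2) * h) ≤ ∑ i ∈ Finset.range m, (u (l + i) - z) := by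
    intro m hm
    have h1 := hlmin (l + m) hm
    simp only [hD] at h1
    rw [Finset.sum_range_add] at h1
    have h2 : 0 ≤ ∑ i ∈ Finset.range m, (u (l + i) - ((((l + i : ℕ) : ℝ) + 1 / 2) * h + c)) := by
      linarith
    have h3 : ∑ i ∈ Finset.range m, (u (l + i) - ((((l + i : ℕ) : ℝ) + 1 / 2) * h + c))
        = ∑ i ∈ Finset.range m, (u (l + i) - z) - ∑ i ∈ Finset.range m, (((i : ℝ) + 1 / 2) * h) := by
      rw [← Finset.sum_sub_distrib]
      refine Finset.sum_congr rfl fun i _ => ?_
      rw [hz]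
      push_cast
      ring
    linarith
  -- left part
  have hleft : ∀ m ≤ l,
      ∑ i ∈ Finset.range m, (((i : ℝ) + 1 / 2) * h) ≤
        ∑ i ∈ Finset.range m, (z - u (l - 1 - i)) := by
    intro m hm
    have h1 := hlmin (l - m) (by omega)
    have h2 : D l = D (l - m) + ∑ i ∈ Finset.range m,
        (u (l - 1 - i) - ((((l - 1 - i : ℕ) : ℝ) + 1 / 2) * h + c)) := by
      simp only [hD]
      have e1 : l = (l - m) + m := by omega
      conv_lhs => rw [e1, Finset.sum_range_add]
      congr 1
      rw [← Finset.sum_range_reflect]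
      refine Finset.sum_congr rfl fun i hi => ?_
      have hi' := Finset.mem_range.1 hi
      have e2 : l - m + (m - 1 - i) = l - 1 - i := by omega
      rw [e2]
    have h3 : ∑ i ∈ Finset.range m,
        (u (l - 1 - i) - ((((l - 1 - i : ℕ) : ℝ) + 1 / 2) * h + c))
        = ∑ i ∈ Finset.range m, (((i : ℝ) + 1 / 2) * h)
          - ∑ i ∈ Finset.range m, (z - u (l - 1 - i)) := by
      rw [← Finset.sum_sub_distrib]
      refine Finset.sum_congr rfl fun i hi => ?_
      have hi' := Finset.mem_range.1 hi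
      have e3 : ((l - 1 - i : ℕ) : ℝ) = (l : ℝ) - 1 - i := by
        rw [Nat.sub_sub, Nat.cast_sub (by omega)]
        push_cast
        ring
      rw [e3, hz]
      ring
    linarith
  -- positivity
  have hposr : ∀ i, l + i < N → 0 < u (l + i) - z := by
    intro i hi
    have h1 := hright 1 (by omega)
    simp only [Finset.sum_range_one, Nat.cast_zero, zero_add, add_zero] at h1
    have h2 := hmono' l (l + i) (by omega) hi
    linarith
  have hposl : ∀ i, i < l → 0 < z - u (l - 1 - i) := by
    intro i hi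
    have h1 := hleft 1 (by omega)
    simp only [Finset.sum_range_one, Nat.cast_zero, zero_add] at h1
    have h2 := hmono' (l - 1 - i) (l - 1 - 0) (by omega) (by omega)
    linarith
  have hbpos : ∀ i : ℕ, 0 < ((i : ℝ) + 1 / 2) * h := fun i => by positivity
  refine ⟨z, hz0, hzL, ?_, ?_⟩
  · intro j hj
    rw [abs_pos, sub_ne_zero]
    by_cases hjl : j < l
    · have h1 := hposl (l - 1 - j) (by omega)
      have e1 : l - 1 - (l - 1 - j) = j := by omega
      rw [e1] at h1
      linarith
    · have h1 := hposr (j - l) (by omega)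
      have e1 : l + (j - l) = j := by omega
      rw [e1] at h1
      linarith
  · -- split the sum
    have e1 : N = l + (N - l) := by omega
    have hsplit : ∑ j ∈ Finset.range N, |z - u j| ^ (-s)
        = ∑ i ∈ Finset.range l, (z - u (l - 1 - i)) ^ (-s)
          + ∑ i ∈ Finset.range (N - l), (u (l + i) - z) ^ (-s) := by
      conv_lhs => rw [e1, Finset.sum_range_add]
      congr 1
      · rw [← Finset.sum_range_reflect]
        refine Finset.sum_congr rfl fun i hi => ?_
        have hi' := Finset.mem_range.1 hi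
        rw [abs_of_pos (hposl i hi')]
      · refine Finset.sum_congr rfl fun i hi => ?_
        have hi' := Finset.mem_range.1 hi
        rw [abs_sub_comm, abs_of_pos (hposr i (by omega))]
    rw [hsplit, two_mul]
    have hsub : ∀ m ≤ N, ∑ i ∈ Finset.range m, (((i : ℝ) + 1 / 2) * h) ^ (-s)
        ≤ ∑ i ∈ Finset.range N, (((i : ℝ) + 1 / 2) * h) ^ (-s) := by
      intro m hm
      refine Finset.sum_le_sum_of_subset_of_nonneg (Finset.range_subset_range.2 hm) ?_
      intro i _ _
      exact (Real.rpow_pos_of_pos (hbpos i) _).le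
    refine add_le_add (le_trans ?_ (hsub l hlN)) (le_trans ?_ (hsub (N - l) (by omega)))
    · apply karamata (fun i => z - u (l - 1 - i)) (fun i => ((i : ℝ) + 1 / 2) * h) l s hs hposl
        (fun i _ => hbpos i)
      · intro i hi
        have := hmono' (l - 1 - (i + 1)) (l - 1 - i) (by omega) (by omega)
        linarith
      · exact hleft
    · apply karamata (fun i => u (l + i) - z) (fun i => ((i : ℝ) + 1 / 2) * h) (N - l) s hs
        (fun i hi => hposr i (by omega)) (fun i _ => hbpos i)
      · intro i hi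
        have := hmono (l + i) (by omega)
        have e2 : l + (i + 1) = l + i + 1 := by ring
        simp only [e2]
        linarith
      · intro m hm
        exact hright m (by omega)

end Pool.Agent.helper35.Polar
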