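import Mathlib
import Pool.Agent.helper35.Polar1

open MeasureTheory Set Filter Topology
open scoped ENNReal

namespace Pool.Agent.helper35.Polar

/-- collapse map -/
noncomputable def phi (K : Set ℝ) (x : ℝ) : ℝ := (volume (K ∩ Iic x)).toReal

lemma vol_ne_top {K : Set ℝ} (hK : IsCompact K) (T : Set ℝ) : volume (K ∩ T) ≠ ⊤ :=
  ne_top_of_le_ne_top hK.measure_lt_top.ne (measure_mono inter_subset_left)

lemma phi_sub {K : Set ℝ} (hK : IsCompact K) {x y : ℝ} (hxy : x ≤ y) :
    phi K y - phi K x = (volume (K ∩ Ioc x y)).toReal := by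
  have h1 : K ∩ Iic y = (K ∩ Iic x) ∪ (K ∩ Ioc x y) := by
    rw [← inter_union_distrib_left, Iic_union_Ioc_eq_Iic hxy]
  have h2 : Disjoint (K ∩ Iic x) (K ∩ Ioc x y) := by
    rw [Set.disjoint_left]
    rintro z ⟨_, hz1⟩ ⟨_, hz2⟩
    exact not_lt.2 (mem_Iic.1 hz1) hz2.1
  have h3 : volume (K ∩ Iic y) = volume (K ∩ Iic x) + volume (K ∩ Ioc x y) := by
    rw [h1, measure_union h2 (hK.measurableSet.inter measurableSet_Ioc)]
  rw [phi, phi, h3, ENNReal.toReal_add (vol_ne_top hK _) (vol_ne_top hK _)]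
  ring

lemma phi_mono {K : Set ℝ} (hK : IsCompact K) : Monotone (phi K) := by
  intro x y hxy
  have := phi_sub hK hxy
  have h2 : 0 ≤ (volume (K ∩ Ioc x y)).toReal := ENNReal.toReal_nonneg
  linarith

lemma phi_sub_le {K : Set ℝ} (hK : IsCompact K) {x y : ℝ} (hxy : x ≤ y) :
    phi K y - phi K x ≤ y - x := by
  rw [phi_sub hK hxy]
  have h1 : volume (K ∩ Ioc x y) ≤ ENNReal.ofReal (y - x) := by
    rw [← Real.volume_Ioc]
    exact measure_mono inter_subset_right
  calc (volume (K ∩ Ioc x y)).toReal ≤ (ENNReal.ofReal (y - x)).toReal :=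
        ENNReal.toReal_mono ENNReal.ofReal_ne_top h1
    _ = y - x := ENNReal.toReal_ofReal (by linarith)

lemma abs_phi_sub_le {K : Set ℝ} (hK : IsCompact K) (x y : ℝ) :
    |phi K y - phi K x| ≤ |y - x| := by
  rcases le_total x y with h | h
  · rw [abs_of_nonneg (by linarith [phi_mono hK h]), abs_of_nonneg (by linarith)]
    exact phi_sub_le hK h
  · rw [abs_sub_comm, abs_sub_comm y x, abs_of_nonneg (by linarith [phi_mono hK h]),
      abs_of_nonneg (by linarith)]
    exact phi_sub_le hK h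

lemma phi_continuous {K : Set ℝ} (hK : IsCompact K) : Continuous (phi K) := by
  have : LipschitzWith 1 (phi K) := by
    apply LipschitzWith.of_dist_le_mul
    intro x y
    rw [Real.dist_eq, Real.dist_eq]
    simpa using abs_phi_sub_le hK y x
  exact this.continuous

lemma phi_nonneg (K : Set ℝ) (x : ℝ) : 0 ≤ phi K x := ENNReal.toReal_nonneg

lemma phi_le {K : Set ℝ} (hK : IsCompact K) (x : ℝ) : phi K x ≤ (volume K).toReal :=
  ENNReal.toReal_mono hK.measure_lt_top.ne (measure_mono inter_subset_left)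

lemma phi_surj {K : Set ℝ} (hK : IsCompact K) (hne : K.Nonempty) {v : ℝ} (hv0 : 0 ≤ v)
    (hvL : v ≤ (volume K).toReal) : ∃ y ∈ K, phi K y = v := by
  obtain ⟨m, hm, hmin⟩ := hK.exists_isLeast hne
  obtain ⟨M, hM, hmax⟩ := hK.exists_isGreatest hne
  have h1 : phi K m = 0 := by
    have : volume (K ∩ Iic m) = 0 := by
      refine measure_mono_null ?_ (measure_singleton m)
      rintro z ⟨hz1, hz2⟩
      exact le_antisymm hz2 (hmin hz1)
    rw [phi, this, ENNReal.toReal_zero]
  have h2 : phi K M = (volume K).toReal := by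
    have : K ∩ Iic M = K := by
      apply inter_eq_left.2
      intro z hz
      exact hmax hz
    rw [phi, this]
  have hmM : m ≤ M := hmin hM
  obtain ⟨x, hx, hxv⟩ := intermediate_value_Icc hmM (phi_continuous hK).continuousOn
    (show v ∈ Icc (phi K m) (phi K M) by rw [h1, h2]; exact ⟨hv0, hvL⟩)
  -- largest point of K below x
  have hK2 : IsCompact (K ∩ Iic x) := hK.inter_right isClosed_Iic
  obtain ⟨y, hy, hymax⟩ := hK2.exists_isGreatest ⟨m, hm, hx.1⟩
  refine ⟨y, hy.1, ?_⟩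
  have : K ∩ Iic y = K ∩ Iic x := by
    ext z
    constructor
    · rintro ⟨hz1, hz2⟩
      exact ⟨hz1, mem_Iic.2 (le_trans (mem_Iic.1 hz2) (mem_Iic.1 hy.2))⟩
    · intro hz
      exact ⟨hz.1, hymax hz⟩
  rw [← hxv, phi, phi, this]

lemma rpow_neg_anti {a b : ℝ≥0∞} {s : ℝ} (hs : 0 ≤ s) (h : a ≤ b) : b ^ (-s) ≤ a ^ (-s) := by
  rw [ENNReal.rpow_neg, ENNReal.rpow_neg]
  exact ENNReal.inv_le_inv.2 (ENNReal.rpow_le_rpow h hs)

/-- the exact upper bound for the potential -/
lemma upper_bound {K : Set ℝ} (hK : IsCompact K) (hne : K.Nonempty)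
    (hL : 0 < (volume K).toReal) (N : ℕ) (hN : 0 < N)
    (s : ℝ) (hs : 0 < s) (x : Fin N → ℝ) :
    ⨅ y ∈ K, ∑ j, (ENNReal.ofReal |y - x j|) ^ (-s) ≤
      ENNReal.ofReal (2 * ∑ i ∈ Finset.range N,
        (((i : ℝ) + 1 / 2) * ((volume K).toReal / N)) ^ (-s)) := by
  classical
  set L := (volume K).toReal with hLdef
  set σ := Tuple.sort (fun j => phi K (x j)) with hσ
  have hmon : Monotone (fun j => phi K (x (σ j))) := Tuple.monotone_sort (fun j => phi K (x j))
  set u : ℕ → ℝ := fun n => if h : n < N then phi K (x (σ ⟨n, h⟩)) else 0 with hu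
  have hu' : ∀ j : Fin N, u j = phi K (x (σ j)) := by
    intro j
    simp [hu, j.2]
  obtain ⟨z, hz0, hzL, hzpos, hzsum⟩ := interval_upper N hN L hL u
    (by
      intro j hj
      have := hu' ⟨j, hj⟩
      simp only at this
      rw [this]
      exact phi_nonneg _ _)
    (by
      intro j hj
      have := hu' ⟨j, hj⟩
      simp only at this
      rw [this]
      exact phi_le hK _)
    (by
      intro i hi
      have h1 := hu' ⟨i, by omega⟩
      have h2 := hu' ⟨i + 1, hi⟩
      simp only at h1 h2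
      rw [h1, h2]
      exact hmon (by simp [Fin.le_def])) s hs
  obtain ⟨y, hyK, hyz⟩ := phi_surj hK hne hz0 hzL
  refine (iInf₂_le y hyK).trans ?_
  have hterm : ∀ j : Fin N, (ENNReal.ofReal |y - x (σ j)|) ^ (-s) ≤
      ENNReal.ofReal (|z - u j| ^ (-s)) := by
    intro j
    have h1 : |z - u j| ≤ |y - x (σ j)| := by
      rw [hu' j, ← hyz]
      exact abs_phi_sub_le hK _ _
    have h2 := hzpos j j.2
    rw [← ENNReal.ofReal_rpow_of_pos h2]
    exact rpow_neg_anti hs.le (ENNReal.ofReal_le_ofReal h1)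
  have hsum : ∑ j, (ENNReal.ofReal |y - x j|) ^ (-s)
      = ∑ j, (ENNReal.ofReal |y - x (σ j)|) ^ (-s) :=
    (Equiv.sum_comp σ (fun j => (ENNReal.ofReal |y - x j|) ^ (-s))).symm
  rw [hsum]
  calc ∑ j, (ENNReal.ofReal |y - x (σ j)|) ^ (-s)
      ≤ ∑ j : Fin N, ENNReal.ofReal (|z - u j| ^ (-s)) := Finset.sum_le_sum fun j _ => hterm j
    _ = ENNReal.ofReal (∑ j : Fin N, |z - u j| ^ (-s)) := by
        rw [ENNReal.ofReal_sum_of_nonneg]
        intro j _
        exact Real.rpow_nonneg (abs_nonneg _) _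
    _ ≤ _ := by
        apply ENNReal.ofReal_le_ofReal
        rw [Fin.sum_univ_eq_sum_range (fun n => |z - u n| ^ (-s))]
        exact hzsum

end Pool.Agent.helper35.Polar
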