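import Mathlib
import Pool.Agent.helper35.Polar2

open MeasureTheory Set Filter Topology
open scoped ENNReal

namespace Pool.Agent.helper35.Polar

/-- transfer of a configuration indexed by a finite type -/
lemma pol_ge_of_config {K : Set ℝ} (hne : K.Nonempty) {ι : Type} [Fintype ι] (x : ι → ℝ)
    (hx : ∀ i, x i ∈ K) (N : ℕ) (hN : Fintype.card ι ≤ N) (s : ℝ) (V : ℝ≥0∞)
    (hV : ∀ y ∈ K, V ≤ ∑ i, (ENNReal.ofReal |y - x i|) ^ (-s)) :
    V ≤ ⨆ (x : Fin N → ℝ) (_ : ∀ i, x i ∈ K),
      ⨅ y ∈ K, ∑ j, (ENNReal.ofReal |y - x j|) ^ (-s) := by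
  classical
  obtain ⟨k0, hk0⟩ := hne
  obtain ⟨e⟩ : Nonempty (ι ↪ Fin N) := Function.Embedding.nonempty_of_card_le (by simpa using hN)
  set x' : Fin N → ℝ := Function.extend e x (fun _ => k0) with hx'
  have hxe : ∀ i, x' (e i) = x i := fun i => e.injective.extend_apply x _ i
  have hx'K : ∀ j, x' j ∈ K := by
    intro j
    by_cases hj : ∃ i, e i = j
    · obtain ⟨i, rfl⟩ := hj
      rw [hxe]
      exact hx i
    · rw [hx', Function.extend_apply' _ _ _ hj]
      exact hk0
  refine le_trans ?_ (le_iSup₂ (f := fun (x : Fin N → ℝ) (_ : ∀ i, x i ∈ K) =>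
    ⨅ y ∈ K, ∑ j, (ENNReal.ofReal |y - x j|) ^ (-s)) x' hx'K)
  refine le_iInf₂ fun y hy => (hV y hy).trans ?_
  calc ∑ i, (ENNReal.ofReal |y - x i|) ^ (-s)
      = ∑ i, (ENNReal.ofReal |y - x' (e i)|) ^ (-s) := by simp only [hxe]
    _ = ∑ j ∈ Finset.univ.map e, (ENNReal.ofReal |y - x' j|) ^ (-s) := by
        rw [Finset.sum_map]
    _ ≤ ∑ j, (ENNReal.ofReal |y - x' j|) ^ (-s) :=
        Finset.sum_le_sum_of_subset (Finset.subset_univ _)

/-- missing mass near `y` -/
noncomputable def miss (K : Set ℝ) (r y : ℝ) : ℝ := (volume (Ioc (y - r) (y + r) \ K)).toReal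

lemma miss_ne_top (K : Set ℝ) (r y : ℝ) : volume (Ioc (y - r) (y + r) \ K) ≠ ⊤ :=
  ne_top_of_le_ne_top (by rw [Real.volume_Ioc]; exact ENNReal.ofReal_ne_top)
    (measure_mono sdiff_subset)

lemma interval_split {K : Set ℝ} (hK : IsCompact K) {a b r y : ℝ} (hab : a ≤ b)
    (h1 : y - r ≤ a) (h2 : b ≤ y + r) : b - a ≤ (phi K b - phi K a) + miss K r y := by
  have e1 : Ioc a b = (K ∩ Ioc a b) ∪ (Ioc a b \ K) := by
    rw [inter_comm, inter_union_sdiff]
  have e2 : volume (Ioc a b) ≤ volume (K ∩ Ioc a b) + volume (Ioc (y - r) (y + r) \ K) := by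
    conv_lhs => rw [e1]
    refine (measure_union_le _ _).trans (add_le_add le_rfl (measure_mono ?_))
    intro z hz
    exact ⟨⟨lt_of_le_of_lt h1 hz.1.1, le_trans hz.1.2 h2⟩, hz.2⟩
  have e3 := ENNReal.toReal_mono (ENNReal.add_ne_top.2 ⟨vol_ne_top hK _, miss_ne_top K r y⟩) e2
  rw [ENNReal.toReal_add (vol_ne_top hK _) (miss_ne_top K r y), Real.volume_Ioc,
    ENNReal.toReal_ofReal (by linarith), ← phi_sub hK hab] at e3
  exact e3

/-- at a good point, distances to the left are controlled by the collapse map -/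
lemma good_left {K : Set ℝ} (hK : IsCompact K) {h ε y x : ℝ} {M : ℕ} (hh : 0 < h) (hε : ε < 1)
    (hgood : miss K ((M + 2) * h) y ≤ ε * h) (hxy : x ≤ y)
    (hφ : phi K y - phi K x ≤ (M + 1) * h) : y - x ≤ (phi K y - phi K x) + ε * h := by
  have hr : 0 < (M + 2 : ℝ) * h := by positivity
  by_cases hx : y - (M + 2) * h ≤ x
  · have := interval_split hK hxy hx (show y ≤ y + (M + 2) * h by linarith)
    linarith
  · exfalso
    have h1 := interval_split hK (show y - (M + 2) * h ≤ y by linarith) le_rfl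
      (show y ≤ y + (M + 2) * h by linarith)
    have h2 := phi_mono hK (not_le.1 hx).le
    nlinarith

lemma good_right {K : Set ℝ} (hK : IsCompact K) {h ε y x : ℝ} {M : ℕ} (hh : 0 < h) (hε : ε < 1)
    (hgood : miss K ((M + 2) * h) y ≤ ε * h) (hxy : y ≤ x)
    (hφ : phi K x - phi K y ≤ (M + 1) * h) : x - y ≤ (phi K x - phi K y) + ε * h := by
  have hr : 0 < (M + 2 : ℝ) * h := by positivity
  by_cases hx : x ≤ y + (M + 2) * h
  · have := interval_split hK hxy (show y - (M + 2) * h ≤ y by linarith) hx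
    linarith
  · exfalso
    have h1 := interval_split hK (show y ≤ y + (M + 2) * h by linarith)
      (show y - (M + 2) * h ≤ y by linarith) le_rfl
    have h2 := phi_mono hK (not_le.1 hx).le
    nlinarith

lemma good_room_left {K : Set ℝ} (hK : IsCompact K) {h ε y : ℝ} {M : ℕ} (hh : 0 < h) (hε : ε < 1)
    (hgood : miss K ((M + 2) * h) y ≤ ε * h) : (M + 1) * h ≤ phi K y := by
  have hr : 0 < (M + 2 : ℝ) * h := by positivity
  have h1 := interval_split hK (show y - (M + 2) * h ≤ y by linarith) le_rfl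
      (show y ≤ y + (M + 2) * h by linarith)
  have h2 := phi_nonneg K (y - (M + 2) * h)
  nlinarith

lemma good_room_right {K : Set ℝ} (hK : IsCompact K) {h ε y : ℝ} {M : ℕ} (hh : 0 < h) (hε : ε < 1)
    (hgood : miss K ((M + 2) * h) y ≤ ε * h) : phi K y + (M + 1) * h ≤ (volume K).toReal := by
  have hr : 0 < (M + 2 : ℝ) * h := by positivity
  have h1 := interval_split hK (show y ≤ y + (M + 2) * h by linarith)
      (show y - (M + 2) * h ≤ y by linarith) le_rfl
  have h2 := phi_le hK (y + (M + 2) * h)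
  nlinarith

/-- the potential of the base points at a good point -/
lemma good_potential {K : Set ℝ} (hK : IsCompact K) {h ε y s : ℝ} {M : ℕ} (hh : 0 < h)
    (hε0 : 0 < ε) (hε : ε < 1) (hs : 0 < s)
    (hgood : miss K ((M + 2) * h) y ≤ ε * h) (n : ℕ) (hn : (volume K).toReal < (n + 1) * h)
    (p : ℕ → ℝ) (hp : ∀ j ≤ n, phi K (p j) = j * h) :
    ENNReal.ofReal (2 * ∑ k ∈ Finset.range M, (((k : ℝ) + 1 / 2 + ε) * h) ^ (-s)) ≤
      ∑ j ∈ Finset.range (n + 1), (ENNReal.ofReal |y - p j|) ^ (-s) := by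
  have hroomL := good_room_left hK hh hε hgood
  have hroomR := good_room_right hK hh hε hgood
  set v := phi K y with hv
  have hv0 : 0 ≤ v := phi_nonneg K y
  set i := ⌊v / h⌋₊ with hi
  have hi1 : (i : ℝ) * h ≤ v := by
    have := Nat.floor_le (show 0 ≤ v / h by positivity)
    rw [← hi] at this
    rwa [le_div_iff₀ hh] at this
  have hi2 : v < (i + 1) * h := by
    have := Nat.lt_floor_add_one (v / h)
    rw [← hi] at this
    rwa [div_lt_iff₀ hh] at this
  have hMi : M + 1 ≤ i := by
    rw [hi]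
    apply Nat.le_floor
    rw [le_div_iff₀ hh]
    push_cast
    exact hroomL
  have hin : i + M ≤ n := by
    have h1 : ((i + M : ℕ) : ℝ) * h < (n + 1) * h := by
      push_cast
      nlinarith
    have h2 := lt_of_mul_lt_mul_right h1 hh.le
    have h3 : i + M < n + 1 := by exact_mod_cast h2
    omega
  set t : ℝ := v - i * h with ht
  have ht0 : 0 ≤ t := by linarith
  have ht1 : t < h := by linarith [hi2]
  -- distances
  have hdl : ∀ k < M, |y - p (i - k)| ≤ t + k * h + ε * h := by
    intro k hk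
    have e1 : phi K (p (i - k)) = ((i:ℝ) - k) * h := by
      rw [hp (i - k) (by omega), Nat.cast_sub (by omega)]
    have hle : p (i - k) ≤ y ∨ y < p (i - k) := le_or_gt _ _
    rcases hle with hle | hlt
    · have h1 := good_left hK hh hε hgood hle (by
        rw [e1, ← hv]
        have : (k:ℝ) ≤ M := by exact_mod_cast hk.le
        nlinarith)
      rw [e1, ← hv] at h1
      rw [abs_of_nonneg (by linarith)]
      linarith
    · have h1 := good_right hK hh hε hgood hlt.le (by
        rw [e1, ← hv]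
        have : (0:ℝ) ≤ k := Nat.cast_nonneg k
        nlinarith)
      rw [e1, ← hv] at h1
      rw [abs_sub_comm, abs_of_nonneg (by linarith)]
      have : (0:ℝ) ≤ k * h := by positivity
      linarith
  have hdr : ∀ k < M, |y - p (i + 1 + k)| ≤ (h - t) + k * h + ε * h := by
    intro k hk
    have e1 : phi K (p (i + 1 + k)) = ((i:ℝ) + 1 + k) * h := by
      rw [hp (i + 1 + k) (by omega)]
      push_cast
      ring
    have hle : y ≤ p (i + 1 + k) := by
      by_contra hcon
      have h1 := phi_mono hK (not_le.1 hcon).le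
      rw [e1, ← hv] at h1
      have : (0:ℝ) ≤ k * h := by positivity
      nlinarith
    have h1 := good_right hK hh hε hgood hle (by
      rw [e1, ← hv]
      have : (k:ℝ) + 1 ≤ M := by exact_mod_cast hk
      nlinarith)
    rw [e1, ← hv] at h1
    rw [abs_sub_comm, abs_of_nonneg (by linarith)]
    linarith
  -- sum over a block
  have hblock : ∑ k ∈ Finset.range M, ((ENNReal.ofReal |y - p (i - k)|) ^ (-s)
      + (ENNReal.ofReal |y - p (i + 1 + k)|) ^ (-s)) ≤
      ∑ j ∈ Finset.range (n + 1), (ENNReal.ofReal |y - p j|) ^ (-s) := by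
    have hsub : Finset.Ico (i + 1 - M) (i + 1 + M) ⊆ Finset.range (n + 1) := by
      intro j hj
      rw [Finset.mem_Ico] at hj
      rw [Finset.mem_range]
      omega
    refine le_trans (le_of_eq ?_) (Finset.sum_le_sum_of_subset hsub)
    rw [Finset.sum_Ico_eq_sum_range]
    have e1 : i + 1 + M - (i + 1 - M) = M + M := by omega
    rw [e1, Finset.sum_range_add, Finset.sum_add_distrib]
    congr 1
    · rw [← Finset.sum_range_reflect]
      refine Finset.sum_congr rfl fun k hk => ?_
      have hk' := Finset.mem_range.1 hk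
      have e2 : i - (M - 1 - k) = i + 1 - M + k := by omega
      rw [e2]
    · refine Finset.sum_congr rfl fun k hk => ?_
      have e2 : i + 1 - M + (M + k) = i + 1 + k := by omega
      rw [e2]
  refine le_trans ?_ hblock
  rw [Finset.mul_sum, ENNReal.ofReal_sum_of_nonneg]
  swap
  · intro k _
    have : 0 < ((k : ℝ) + 1 / 2 + ε) * h := by positivity
    have := Real.rpow_pos_of_pos this (-s)
    positivity
  refine Finset.sum_le_sum fun k hk => ?_
  have hk' := Finset.mem_range.1 hk
  have hk0 : (0:ℝ) ≤ k * h := by positivity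
  have hεh : 0 < ε * h := by positivity
  have a1 : 0 < t + k * h + ε * h := by linarith
  have a2 : 0 < (h - t) + k * h + ε * h := by linarith
  have hmid := midpoint_convex a1 a2 hs
  have e3 : (t + k * h + ε * h + ((h - t) + k * h + ε * h)) / 2 = ((k : ℝ) + 1 / 2 + ε) * h := by
    ring
  rw [e3] at hmid
  calc ENNReal.ofReal (2 * (((k : ℝ) + 1 / 2 + ε) * h) ^ (-s))
      ≤ ENNReal.ofReal ((t + k * h + ε * h) ^ (-s) + ((h - t) + k * h + ε * h) ^ (-s)) :=
        ENNReal.ofReal_le_ofReal hmid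
    _ = ENNReal.ofReal (t + k * h + ε * h) ^ (-s) + ENNReal.ofReal ((h - t) + k * h + ε * h) ^ (-s) := by
        rw [ENNReal.ofReal_add (Real.rpow_nonneg a1.le _) (Real.rpow_nonneg a2.le _),
          ENNReal.ofReal_rpow_of_pos a1, ENNReal.ofReal_rpow_of_pos a2]
    _ ≤ _ := by
        refine add_le_add ?_ ?_
        · exact rpow_neg_anti hs.le (ENNReal.ofReal_le_ofReal (hdl k hk'))
        · exact rpow_neg_anti hs.le (ENNReal.ofReal_le_ofReal (hdr k hk'))

/-- number of separated points in a set of bad points -/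
lemma separated_count {K : Set ℝ} (hK : IsCompact K) {r c : ℝ} (_hr : 0 < r) (_hc : 0 < c) {m : ℕ}
    (z : Fin m → ℝ) (hzK : ∀ i, z i ∈ K) (hbad : ∀ i, c < miss K r (z i))
    (hsep : ∀ i j, i ≠ j → 2 * r ≤ |z i - z j|) :
    (m : ℝ) * c ≤ (volume (Metric.cthickening r K)).toReal - (volume K).toReal := by
  have hdisj : Pairwise (Function.onFun Disjoint fun i => Ioc (z i - r) (z i + r) \ K) := by
    intro i j hij
    simp only [Function.onFun]
    rw [Set.disjoint_left]
    rintro w ⟨⟨h1, h2⟩, _⟩ ⟨⟨h3, h4⟩, _⟩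
    have h5 := hsep i j hij
    rcases le_abs.1 h5 with h6 | h6 <;> linarith
  have hmeas : ∀ i, MeasurableSet (Ioc (z i - r) (z i + r) \ K) := fun i =>
    measurableSet_Ioc.diff hK.measurableSet
  have hsub : (⋃ i, (Ioc (z i - r) (z i + r) \ K)) ⊆ Metric.cthickening r K \ K := by
    intro w hw
    obtain ⟨i, hi⟩ := mem_iUnion.1 hw
    refine ⟨?_, hi.2⟩
    apply Metric.mem_cthickening_of_dist_le w (z i) r K (hzK i)
    rw [Real.dist_eq, abs_le]
    constructor <;> linarith [hi.1.1, hi.1.2]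
  have hKsub : K ⊆ Metric.cthickening r K := Metric.self_subset_cthickening K
  have hcomp : IsCompact (Metric.cthickening r K) := hK.cthickening
  have h1 : ∑ i, volume (Ioc (z i - r) (z i + r) \ K) ≤ volume (Metric.cthickening r K \ K) := by
    have e1 : volume (⋃ i, (Ioc (z i - r) (z i + r) \ K))
        = ∑ i, volume (Ioc (z i - r) (z i + r) \ K) := by
      rw [measure_iUnion hdisj hmeas, tsum_fintype]
    rw [← e1]
    exact measure_mono hsub
  rw [measure_sdiff hKsub hK.measurableSet.nullMeasurableSet hK.measure_lt_top.ne] at h1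
  have h2 : (∑ i, volume (Ioc (z i - r) (z i + r) \ K)).toReal ≤
      (volume (Metric.cthickening r K)).toReal - (volume K).toReal := by
    rw [← ENNReal.toReal_sub_of_le (measure_mono hKsub) hcomp.measure_lt_top.ne]
    exact ENNReal.toReal_mono (ENNReal.sub_ne_top hcomp.measure_lt_top.ne) h1
  rw [ENNReal.toReal_sum (fun i _ => miss_ne_top K r (z i))] at h2
  calc (m : ℝ) * c = ∑ i : Fin m, c := by simp
    _ ≤ ∑ i, miss K r (z i) := Finset.sum_le_sum fun i _ => (hbad i).le
    _ ≤ _ := h2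

end Pool.Agent.helper35.Polar
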