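import Mathlib
import Pool.Agent.helper35.Polar3

open MeasureTheory Set Filter Topology
open scoped ENNReal

namespace Pool.Agent.helper35.Polar

/-- maximal separated family -/
lemma exists_maximal_separated (B : Set ℝ) (ρ C : ℝ)
    (hC : ∀ (m : ℕ) (z : Fin m → ℝ), (∀ i, z i ∈ B) → (∀ i j, i ≠ j → ρ ≤ |z i - z j|) →
      (m : ℝ) ≤ C) :
    ∃ (m : ℕ) (z : Fin m → ℝ), (∀ i, z i ∈ B) ∧ (∀ i j, i ≠ j → ρ ≤ |z i - z j|) ∧
      ∀ y ∈ B, ∃ i, |y - z i| < ρ := by
  by_contra hcon
  push Not at hcon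
  have key : ∀ m : ℕ, ∃ z : Fin m → ℝ, (∀ i, z i ∈ B) ∧ (∀ i j, i ≠ j → ρ ≤ |z i - z j|) := by
    intro m
    induction m with
    | zero => exact ⟨Fin.elim0, fun i => i.elim0, fun i => i.elim0⟩
    | succ m ih =>
      obtain ⟨z, hz1, hz2⟩ := ih
      obtain ⟨y, hyB, hy⟩ := hcon m z hz1 hz2
      refine ⟨Fin.cons y z, ?_, ?_⟩
      · intro i
        refine Fin.cases ?_ ?_ i
        · simpa using hyB
        · intro i
          simpa using hz1 i
      · intro i j
        refine Fin.cases ?_ ?_ i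
        · refine Fin.cases ?_ ?_ j
          · intro h
            exact absurd rfl h
          · intro j _
            simpa using hy j
        · intro i
          refine Fin.cases ?_ ?_ j
          · intro _
            simpa [abs_sub_comm] using hy i
          · intro j hij
            have : i ≠ j := fun e => hij (by rw [e])
            simpa using hz2 i j this
  obtain ⟨m, hm⟩ := exists_nat_gt C
  obtain ⟨z, hz1, hz2⟩ := key m
  exact absurd (hC m z hz1 hz2) (not_le.2 hm)

/-- the construction of good configurations -/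
lemma lower_config {K : Set ℝ} (hK : IsCompact K) (hne : K.Nonempty)
    (hL : 0 < (volume K).toReal) {ε s : ℝ} (hε0 : 0 < ε) (hε : ε < 1) (hs : 0 < s) (M : ℕ) :
    ∀ᶠ h in 𝓝[>] (0:ℝ), ∃ (ι : Type) (_ : Fintype ι) (x : ι → ℝ), (∀ i, x i ∈ K) ∧
      (Fintype.card ι : ℝ) * h ≤ (1 + ε) * (volume K).toReal ∧
      ∀ y ∈ K, ENNReal.ofReal (2 * ∑ k ∈ Finset.range M, (((k : ℝ) + 1 / 2 + ε) * h) ^ (-s)) ≤
        ∑ i, (ENNReal.ofReal |y - x i|) ^ (-s) := by
  set L := (volume K).toReal with hLdef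
  -- choice of T
  set W : ℝ := 2 * ∑ k ∈ Finset.range M, ((k : ℝ) + 1 / 2 + ε) ^ (-s) with hW
  obtain ⟨T, hT0, hT⟩ : ∃ T : ℕ, 0 < T ∧ W ≤ (4 * ((M:ℝ) + 2) / T) ^ (-s) := by
    have h1 : Tendsto (fun T : ℕ => ((T : ℝ) / (4 * ((M:ℝ) + 2))) ^ s) atTop atTop := by
      have h2 : Tendsto (fun T : ℕ => (T : ℝ) / (4 * ((M:ℝ) + 2))) atTop atTop :=
        Tendsto.atTop_div_const (by positivity) tendsto_natCast_atTop_atTop
      exact (tendsto_rpow_atTop hs).comp h2
    obtain ⟨T, hT1, hT2⟩ := ((h1.eventually_ge_atTop W).and (eventually_gt_atTop 0)).exists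
    refine ⟨T, hT2, ?_⟩
    have hTr : (0:ℝ) < T := by exact_mod_cast hT2
    rw [Real.rpow_neg (by positivity), ← Real.inv_rpow (by positivity), inv_div]
    exact hT1
  have hTr : (0:ℝ) < T := by exact_mod_cast hT0
  -- smallness
  have hlim : Tendsto (fun h : ℝ => L + h +
      T / ε * ((volume (Metric.cthickening (((M:ℝ) + 2) * h) K)).toReal - L)) (𝓝[>] 0) (𝓝 L) := by
    have h1 : Tendsto (fun h : ℝ => ((M:ℝ) + 2) * h) (𝓝[>] 0) (𝓝 0) := by
      have : Tendsto (fun h : ℝ => ((M:ℝ) + 2) * h) (𝓝 0) (𝓝 (((M:ℝ) + 2) * 0)) :=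
        tendsto_const_nhds.mul tendsto_id
      rw [mul_zero] at this
      exact this.mono_left nhdsWithin_le_nhds
    have h2 : Tendsto (fun h : ℝ => (volume (Metric.cthickening (((M:ℝ) + 2) * h) K)).toReal)
        (𝓝[>] 0) (𝓝 L) :=
      (ENNReal.tendsto_toReal hK.measure_lt_top.ne).comp
        ((tendsto_measure_cthickening_of_isCompact hK).comp h1)
    have h3 : Tendsto (fun h : ℝ => h) (𝓝[>] (0:ℝ)) (𝓝 0) := nhdsWithin_le_nhds
    have h4 := (tendsto_const_nhds (x := L)).add h3 |>.add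
      ((tendsto_const_nhds (x := (T:ℝ) / ε)).mul (h2.sub (tendsto_const_nhds (x := L))))
    simpa using h4
  have hev := hlim.eventually (gt_mem_nhds (show L < (1 + ε) * L by nlinarith))
  filter_upwards [hev, self_mem_nhdsWithin] with h hh1 hh0
  have hh : 0 < h := hh0
  set r : ℝ := ((M:ℝ) + 2) * h with hr
  have hrpos : 0 < r := by positivity
  -- base points
  set n : ℕ := ⌊L / h⌋₊ with hn
  have hn1 : (n:ℝ) * h ≤ L := by
    have := Nat.floor_le (show 0 ≤ L / h by positivity)
    rw [← hn] at this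
    rwa [le_div_iff₀ hh] at this
  have hn2 : L < (n + 1) * h := by
    have := Nat.lt_floor_add_one (L / h)
    rw [← hn] at this
    rwa [div_lt_iff₀ hh] at this
  have hbase : ∀ j : ℕ, ∃ p ∈ K, j ≤ n → phi K p = j * h := by
    intro j
    by_cases hj : j ≤ n
    · have : (j:ℝ) * h ≤ L := by
        have : (j:ℝ) ≤ n := by exact_mod_cast hj
        nlinarith
      obtain ⟨p, hp1, hp2⟩ := phi_surj hK hne (show 0 ≤ (j:ℝ) * h by positivity) this
      exact ⟨p, hp1, fun _ => hp2⟩
    · obtain ⟨k0, hk0⟩ := hne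
      exact ⟨k0, hk0, fun h => absurd h hj⟩
  choose p hpK hp using hbase
  -- bad points
  set B : Set ℝ := {y | y ∈ K ∧ ε * h < miss K r y} with hB
  obtain ⟨m, z, hzB, hzsep, hzmax⟩ := exists_maximal_separated B (2 * r)
    (((volume (Metric.cthickening r K)).toReal - L) / (ε * h)) (by
      intro m z hz1 hz2
      rw [le_div_iff₀ (by positivity)]
      exact separated_count hK hrpos (by positivity) z (fun i => (hz1 i).1) (fun i => (hz1 i).2) hz2)
  have hm : (m : ℝ) * (ε * h) ≤ (volume (Metric.cthickening r K)).toReal - L :=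
    separated_count hK hrpos (by positivity) z (fun i => (hzB i).1) (fun i => (hzB i).2) hzsep
  -- filling points
  have hfill : ∀ (i : Fin m) (c : Fin T), ∃ q ∈ K, ∀ y ∈ K,
      z i - 2 * r + c * (4 * r / T) ≤ y → y ≤ z i - 2 * r + (c + 1) * (4 * r / T) →
      |y - q| ≤ 4 * r / T := by
    intro i c
    by_cases hex : ∃ q ∈ K, z i - 2 * r + c * (4 * r / T) ≤ q ∧
        q ≤ z i - 2 * r + (c + 1) * (4 * r / T)
    · obtain ⟨q, hqK, hq1, hq2⟩ := hex
      refine ⟨q, hqK, fun y _ hy1 hy2 => ?_⟩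
      rw [abs_le]
      constructor <;> nlinarith
    · obtain ⟨k0, hk0⟩ := hne
      refine ⟨k0, hk0, fun y hyK hy1 hy2 => ?_⟩
      exact absurd ⟨y, hyK, hy1, hy2⟩ hex
  choose q hqK hq using hfill
  refine ⟨Fin (n + 1) ⊕ (Fin m × Fin T), inferInstance,
    Sum.elim (fun j => p j) (fun a => q a.1 a.2), ?_, ?_, ?_⟩
  · rintro (j | a)
    · exact hpK _
    · exact hqK _ _
  · rw [Fintype.card_sum, Fintype.card_prod, Fintype.card_fin, Fintype.card_fin, Fintype.card_fin]
    push_cast
    have h1 : (m : ℝ) * T * h ≤ T / ε * ((volume (Metric.cthickening r K)).toReal - L) := by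
      have : (m : ℝ) * T * h = T / ε * (m * (ε * h)) := by
        field_simp
      rw [this]
      gcongr
    have h2 : ((n:ℝ) + 1 + m * T) * h = n * h + h + m * T * h := by ring
    rw [h2]
    linarith
  · intro y hyK
    rw [Fintype.sum_sum_type]
    simp only [Sum.elim_inl, Sum.elim_inr]
    by_cases hgood : miss K r y ≤ ε * h
    · refine le_trans ?_ (le_add_of_nonneg_right zero_le)
      rw [Fin.sum_univ_eq_sum_range (fun j => (ENNReal.ofReal |y - p j|) ^ (-s))]
      exact good_potential hK hh hε0 hε hs hgood n hn2 p hp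
    · refine le_trans ?_ (le_add_of_nonneg_left zero_le)
      obtain ⟨i, hi⟩ := hzmax y ⟨hyK, not_le.1 hgood⟩
      rw [abs_lt] at hi
      -- the cell
      set a : ℝ := y - (z i - 2 * r) with ha
      have ha0 : 0 ≤ a := by linarith
      have ha1 : a < 4 * r := by linarith
      have hcell : 0 < 4 * r / T := by positivity
      set c := ⌊a / (4 * r / T)⌋₊ with hc
      have hc1 : (c:ℝ) * (4 * r / T) ≤ a := by
        have := Nat.floor_le (show 0 ≤ a / (4 * r / T) by positivity)
        rw [← hc] at this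
        rwa [le_div_iff₀ hcell] at this
      have hc2 : a < (c + 1) * (4 * r / T) := by
        have := Nat.lt_floor_add_one (a / (4 * r / T))
        rw [← hc] at this
        rwa [div_lt_iff₀ hcell] at this
      have hcT : c < T := by
        rw [hc, Nat.floor_lt (by positivity), div_lt_iff₀ hcell]
        have : (T:ℝ) * (4 * r / T) = 4 * r := by field_simp
        rw [this]
        exact ha1
      have hdist := hq i ⟨c, hcT⟩ y hyK (by simp only; linarith) (by simp only; linarith)
      have hsingle : (ENNReal.ofReal |y - q i ⟨c, hcT⟩|) ^ (-s) ≤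
          ∑ a : Fin m × Fin T, (ENNReal.ofReal |y - q a.1 a.2|) ^ (-s) :=
        Finset.single_le_sum (f := fun a : Fin m × Fin T => (ENNReal.ofReal |y - q a.1 a.2|) ^ (-s))
          (fun _ _ => zero_le) (Finset.mem_univ (i, (⟨c, hcT⟩ : Fin T)))
      refine le_trans ?_ hsingle
      refine le_trans ?_ (rpow_neg_anti hs.le (ENNReal.ofReal_le_ofReal hdist))
      rw [ENNReal.ofReal_rpow_of_pos hcell]
      apply ENNReal.ofReal_le_ofReal
      have e1 : 2 * ∑ k ∈ Finset.range M, (((k : ℝ) + 1 / 2 + ε) * h) ^ (-s) = W * h ^ (-s) := by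
        rw [hW, mul_assoc, Finset.sum_mul]
        congr 1
        refine Finset.sum_congr rfl fun k _ => ?_
        rw [Real.mul_rpow (by positivity) hh.le]
      have e2 : 4 * r / T = (4 * ((M:ℝ) + 2) / T) * h := by rw [hr]; ring
      rw [e1, e2, Real.mul_rpow (by positivity) hh.le]
      gcongr

end Pool.Agent.helper35.Polar
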