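import Mathlib
import Pool.Agent.helper35.Polar4

open MeasureTheory Set Filter Topology
open scoped ENNReal

namespace Pool.Agent.helper35.Polar

/-- the constant -/
noncomputable def cst (s : ℝ) : ℝ := 2 * ∑' k : ℕ, ((k : ℝ) + 1 / 2) ^ (-s)

lemma summable_half {s : ℝ} (hs : 1 < s) : Summable fun k : ℕ => ((k : ℝ) + 1 / 2) ^ (-s) := by
  have h := (Real.summable_one_div_nat_add_rpow (1 / 2) s).2 hs
  refine h.congr fun k => ?_
  have hk : (0:ℝ) < (k:ℝ) + 1 / 2 := by positivity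
  rw [abs_of_pos hk, Real.rpow_neg hk.le, one_div ((_ : ℝ) ^ s)]

lemma cst_nonneg (s : ℝ) : 0 ≤ cst s := by
  have : 0 ≤ ∑' k : ℕ, ((k : ℝ) + 1 / 2) ^ (-s) :=
    tsum_nonneg fun k => Real.rpow_nonneg (by positivity) _
  rw [cst]
  positivity

lemma cst_eq {s : ℝ} (hs : 1 < s) : cst s = 2 * (2 ^ s - 1) * (riemannZeta (s : ℂ)).re := by
  set Z : ℝ := ∑' n : ℕ, 1 / ((n : ℝ) + 1) ^ s with hZ
  have hsumZ : Summable fun n : ℕ => 1 / ((n : ℝ) + 1) ^ s := by
    have h := (Real.summable_one_div_nat_add_rpow 1 s).2 hs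
    refine h.congr fun k => ?_
    have hk : (0:ℝ) < (k:ℝ) + 1 := by positivity
    rw [abs_of_pos hk]
  have hzeta : (riemannZeta (s : ℂ)).re = Z := by
    rw [zeta_eq_tsum_one_div_nat_add_one_cpow (by simpa using hs)]
    have : ∀ n : ℕ, (1 : ℂ) / ((n : ℂ) + 1) ^ (s : ℂ) = ((1 / ((n : ℝ) + 1) ^ s : ℝ) : ℂ) := by
      intro n
      rw [Complex.ofReal_div, Complex.ofReal_cpow (by positivity)]
      push_cast
      rfl
    simp_rw [this]
    rw [← Complex.ofReal_tsum, Complex.ofReal_re]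
  have hsum := summable_half hs
  have h2s : (0:ℝ) < 2 ^ s := Real.rpow_pos_of_pos (by norm_num) s
  have hodd : ∀ k : ℕ, 1 / (((2 * k : ℕ) : ℝ) + 1) ^ s = (2 ^ s)⁻¹ * ((k : ℝ) + 1 / 2) ^ (-s) := by
    intro k
    have hk : (0:ℝ) < (k:ℝ) + 1 / 2 := by positivity
    have : ((2 * k : ℕ) : ℝ) + 1 = 2 * ((k:ℝ) + 1 / 2) := by push_cast; ring
    rw [this, Real.mul_rpow (by norm_num) hk.le, Real.rpow_neg hk.le]
    field_simp
  have heven : ∀ k : ℕ, 1 / (((2 * k + 1 : ℕ) : ℝ) + 1) ^ s = (2 ^ s)⁻¹ * (1 / ((k : ℝ) + 1) ^ s) := by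
    intro k
    have hk : (0:ℝ) < (k:ℝ) + 1 := by positivity
    have : ((2 * k + 1 : ℕ) : ℝ) + 1 = 2 * ((k:ℝ) + 1) := by push_cast; ring
    rw [this, Real.mul_rpow (by norm_num) hk.le]
    field_simp
  have hsplit := tsum_even_add_odd (f := fun n : ℕ => 1 / ((n : ℝ) + 1) ^ s)
    (by
      refine (hsum.mul_left ((2:ℝ) ^ s)⁻¹).congr fun k => ?_
      exact (hodd k).symm)
    (by
      refine (hsumZ.mul_left ((2:ℝ) ^ s)⁻¹).congr fun k => ?_
      exact (heven k).symm)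
  simp_rw [hodd, heven] at hsplit
  rw [tsum_mul_left, tsum_mul_left, ← hZ] at hsplit
  rw [hzeta, cst]
  set S : ℝ := ∑' k : ℕ, ((k : ℝ) + 1 / 2) ^ (-s) with hS
  have h3 : (2:ℝ) ^ s * ((2 ^ s)⁻¹ * S + (2 ^ s)⁻¹ * Z) = 2 ^ s * Z := by rw [hsplit]
  have h4 : (2:ℝ) ^ s * ((2 ^ s)⁻¹ * S + (2 ^ s)⁻¹ * Z) = S + Z := by
    field_simp
  rw [h4] at h3
  linarith

/-- polarization constant -/
noncomputable def pol (K : Set ℝ) (s : ℝ) (N : ℕ) : ℝ≥0∞ :=
  ⨆ (x : Fin N → ℝ) (_ : ∀ i, x i ∈ K), ⨅ y ∈ K, ∑ j, (ENNReal.ofReal |y - x j|) ^ (-s)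

lemma pol_le {K : Set ℝ} (hK : IsCompact K) (hne : K.Nonempty) (hL : 0 < (volume K).toReal)
    {s : ℝ} (hs : 1 < s) {N : ℕ} (hN : 0 < N) :
    pol K s N / (N : ℝ≥0∞) ^ s ≤ ENNReal.ofReal (cst s / (volume K).toReal ^ s) := by
  set L := (volume K).toReal with hLdef
  have hNr : (0:ℝ) < N := by exact_mod_cast hN
  have h1 : pol K s N ≤ ENNReal.ofReal (cst s / L ^ s * (N:ℝ) ^ s) := by
    refine iSup₂_le fun x _ => ?_
    refine (upper_bound hK hne hL N hN s (by linarith) x).trans ?_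
    apply ENNReal.ofReal_le_ofReal
    have e1 : ∀ i : ℕ, (((i : ℝ) + 1 / 2) * (L / N)) ^ (-s)
        = ((i : ℝ) + 1 / 2) ^ (-s) * ((N:ℝ) ^ s / L ^ s) := by
      intro i
      rw [Real.mul_rpow (by positivity) (by positivity), Real.rpow_neg (x := L / N) (by positivity),
        Real.div_rpow hL.le hNr.le, inv_div]
    simp_rw [← hLdef, e1]
    rw [← Finset.sum_mul, ← mul_assoc]
    have h2 : 2 * ∑ i ∈ Finset.range N, ((i : ℝ) + 1 / 2) ^ (-s) ≤ cst s := by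
      rw [cst]
      have := (summable_half hs).sum_le_tsum (Finset.range N)
        (fun k _ => Real.rpow_nonneg (by positivity) _)
      linarith
    have h3 : 0 < (N:ℝ) ^ s / L ^ s :=
      div_pos (Real.rpow_pos_of_pos hNr s) (Real.rpow_pos_of_pos hL s)
    calc 2 * (∑ i ∈ Finset.range N, ((i : ℝ) + 1 / 2) ^ (-s)) * ((N:ℝ) ^ s / L ^ s)
        ≤ cst s * ((N:ℝ) ^ s / L ^ s) := by gcongr
      _ = cst s / L ^ s * (N:ℝ) ^ s := by ring
  have hNe : (N : ℝ≥0∞) ^ s = ENNReal.ofReal ((N:ℝ) ^ s) := by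
    rw [← ENNReal.ofReal_rpow_of_pos hNr, ENNReal.ofReal_natCast]
  have hNs : 0 < (N:ℝ) ^ s := Real.rpow_pos_of_pos hNr s
  rw [hNe]
  refine ENNReal.div_le_of_le_mul ?_
  rw [← ENNReal.ofReal_mul (div_nonneg (cst_nonneg s) (Real.rpow_nonneg hL.le s))]
  exact h1

lemma eventually_lt_pol {K : Set ℝ} (hK : IsCompact K) (hne : K.Nonempty)
    (hL : 0 < (volume K).toReal) {s : ℝ} (hs : 1 < s) (c : ℝ) (hc0 : 0 ≤ c)
    (hc : c < cst s / (volume K).toReal ^ s) :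
    ∀ᶠ N : ℕ in atTop, ENNReal.ofReal c < pol K s N / (N : ℝ≥0∞) ^ s := by
  set L := (volume K).toReal with hLdef
  have hLs : 0 < L ^ s := Real.rpow_pos_of_pos hL s
  -- choose M
  obtain ⟨M, hM⟩ : ∃ M : ℕ, c < 2 * (∑ k ∈ Finset.range M, ((k : ℝ) + 1 / 2) ^ (-s)) / L ^ s := by
    have h1 : Tendsto (fun M : ℕ => 2 * (∑ k ∈ Finset.range M, ((k : ℝ) + 1 / 2) ^ (-s)) / L ^ s)
        atTop (𝓝 (cst s / L ^ s)) := by
      have := (summable_half hs).hasSum.tendsto_sum_nat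
      exact (tendsto_const_nhds.mul this).div_const _
    exact (h1.eventually (lt_mem_nhds hc)).exists
  -- choose ε
  obtain ⟨ε, hε0, hε1, hε⟩ : ∃ ε : ℝ, 0 < ε ∧ ε < 1 ∧
      c < 2 * (∑ k ∈ Finset.range M, ((k : ℝ) + 1 / 2 + ε) ^ (-s)) / ((1 + ε) * L) ^ s := by
    have h1 : ContinuousAt (fun ε : ℝ =>
        2 * (∑ k ∈ Finset.range M, ((k : ℝ) + 1 / 2 + ε) ^ (-s)) / ((1 + ε) * L) ^ s) 0 := by
      refine ContinuousAt.div ?_ ?_ ?_
      · refine continuousAt_const.mul ?_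
        refine tendsto_finsetSum _ fun k _ => ?_
        refine ContinuousAt.rpow_const (by fun_prop) (Or.inl ?_)
        positivity
      · refine ContinuousAt.rpow_const (by fun_prop) (Or.inr (by linarith))
      · rw [add_zero, one_mul]
        exact hLs.ne'
    have h2 : c < (fun ε : ℝ =>
        2 * (∑ k ∈ Finset.range M, ((k : ℝ) + 1 / 2 + ε) ^ (-s)) / ((1 + ε) * L) ^ s) 0 := by
      simpa using hM
    have h3 := (h1.eventually (lt_mem_nhds h2)).filter_mono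
      (nhdsWithin_le_nhds (s := Ioi (0:ℝ)))
    obtain ⟨ε, h4, h5⟩ := (h3.and (Ioo_mem_nhdsGT (show (0:ℝ) < 1 by norm_num))).exists
    exact ⟨ε, h5.1, h5.2, h4⟩
  have hconf := lower_config hK hne hL hε0 hε1 (show 0 < s by linarith) M
  have hhN : Tendsto (fun N : ℕ => (1 + ε) * L / (N:ℝ)) atTop (𝓝[>] 0) := by
    rw [tendsto_nhdsWithin_iff]
    refine ⟨tendsto_const_div_atTop_nhds_zero_nat _, ?_⟩
    filter_upwards [eventually_gt_atTop 0] with N hN
    have : (0:ℝ) < N := by exact_mod_cast hN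
    exact div_pos (by positivity) this
  filter_upwards [hhN.eventually hconf, eventually_gt_atTop 0] with N hN1 hN0
  have hNr : (0:ℝ) < N := by exact_mod_cast hN0
  obtain ⟨ι, hι, x, hxK, hcard, hpot⟩ := hN1
  set h : ℝ := (1 + ε) * L / N with hh
  have hpos : 0 < h := by positivity
  have hcardN : Fintype.card ι ≤ N := by
    have e1 : (N:ℝ) * h = (1 + ε) * L := by rw [hh]; field_simp
    have h1 : (Fintype.card ι : ℝ) * h ≤ N * h := by rw [e1]; exact hcard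
    exact_mod_cast le_of_mul_le_mul_right h1 hpos
  have hge := pol_ge_of_config hne x hxK N hcardN s _ hpot
  have hNs : 0 < (N:ℝ) ^ s := Real.rpow_pos_of_pos hNr s
  have hNe : (N : ℝ≥0∞) ^ s = ENNReal.ofReal ((N:ℝ) ^ s) := by
    rw [← ENNReal.ofReal_rpow_of_pos hNr, ENNReal.ofReal_natCast]
  have e2 : 2 * ∑ k ∈ Finset.range M, (((k : ℝ) + 1 / 2 + ε) * h) ^ (-s)
      = 2 * (∑ k ∈ Finset.range M, ((k : ℝ) + 1 / 2 + ε) ^ (-s)) / ((1 + ε) * L) ^ s * (N:ℝ) ^ s := by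
    have e3 : ∀ k : ℕ, (((k : ℝ) + 1 / 2 + ε) * h) ^ (-s)
        = ((k : ℝ) + 1 / 2 + ε) ^ (-s) * ((N:ℝ) ^ s / ((1 + ε) * L) ^ s) := by
      intro k
      rw [Real.mul_rpow (by positivity) hpos.le, Real.rpow_neg (x := h) hpos.le, hh,
        Real.div_rpow (by positivity) hNr.le, inv_div]
    simp_rw [e3]
    rw [← Finset.sum_mul]
    ring
  rw [hNe, ENNReal.lt_div_iff_mul_lt (Or.inl (by
      rw [ne_eq, ENNReal.ofReal_eq_zero, not_le]; exact hNs)) (Or.inl ENNReal.ofReal_ne_top),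
    ← ENNReal.ofReal_mul hc0]
  refine lt_of_lt_of_le ?_ hge
  rw [e2, ENNReal.ofReal_lt_ofReal_iff_of_nonneg (by positivity)]
  gcongr

/-- **Asymptotics of the polarization constants of compact sets of positive length.** -/
theorem tendsto_pol {K : Set ℝ} (hK : IsCompact K) (hpos : 0 < volume K) {s : ℝ} (hs : 1 < s) :
    Tendsto (fun N : ℕ => pol K s N / (N : ℝ≥0∞) ^ s) atTop
      (𝓝 (ENNReal.ofReal (cst s / (volume K).toReal ^ s))) := by
  have hne : K.Nonempty := by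
    rw [Set.nonempty_iff_ne_empty]
    rintro rfl
    simp at hpos
  have hL : 0 < (volume K).toReal := ENNReal.toReal_pos hpos.ne' hK.measure_lt_top.ne
  rw [tendsto_order]
  constructor
  · intro a ha
    have hatop : a ≠ ⊤ := (lt_of_lt_of_le ha le_top).ne
    have h1 : a.toReal < cst s / (volume K).toReal ^ s := by
      have := (ENNReal.lt_ofReal_iff_toReal_lt hatop).1 ha
      exact this
    have h2 := eventually_lt_pol hK hne hL hs a.toReal ENNReal.toReal_nonneg h1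
    rwa [ENNReal.ofReal_toReal hatop] at h2
  · intro a ha
    filter_upwards [eventually_gt_atTop 0] with N hN
    exact lt_of_le_of_lt (pol_le hK hne hL hs hN) ha

end Pool.Agent.helper35.Polar
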