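import Mathlib

open MeasureTheory Set Filter Topology
open scoped BoundedContinuousFunction ComplexConjugate

namespace Pool.Agent.helper35.Chi

/-- the exponential as a bounded continuous function -/
noncomputable def ex (x : ℝ) : ℝ →ᵇ ℂ :=
  BoundedContinuousFunction.ofNormedAddCommGroup
    (fun t : ℝ => Complex.exp (Complex.I * x * t)) (by fun_prop) 1
    (by
      intro t
      have : Complex.I * (x:ℂ) * (t:ℂ) = ((x * t : ℝ) : ℂ) * Complex.I := by push_cast; ring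
      rw [this, Complex.norm_exp_ofReal_mul_I])

lemma ex_apply (x t : ℝ) : ex x t = Complex.exp (Complex.I * x * t) := rfl

lemma norm_ex_apply (x t : ℝ) : ‖ex x t‖ = 1 := by
  have : Complex.I * (x:ℂ) * (t:ℂ) = ((x * t : ℝ) : ℂ) * Complex.I := by push_cast; ring
  rw [ex_apply, this, Complex.norm_exp_ofReal_mul_I]

lemma norm_ex_le (x : ℝ) : ‖ex x‖ ≤ 1 := by
  rw [BoundedContinuousFunction.norm_le (by norm_num)]
  intro t
  rw [norm_ex_apply]

lemma ex_mul (x y : ℝ) : ex x * ex y = ex (x + y) := by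
  ext t
  simp only [BoundedContinuousFunction.coe_mul, Pi.mul_apply, ex_apply]
  rw [← Complex.exp_add]
  congr 1
  push_cast
  ring

lemma ex_zero : ex 0 = 1 := by
  ext t
  simp [ex_apply]

lemma star_ex (x : ℝ) : star (ex x) = ex (-x) := by
  ext t
  simp only [BoundedContinuousFunction.star_apply, ex_apply]
  rw [Complex.star_def, ← Complex.exp_conj]
  congr 1
  simp

/-- Hahn-Banach in moment form. -/
lemma exists_functional {E : Type*} [NormedAddCommGroup E] [NormedSpace ℂ E] {ι : Type*}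
    (v : ι → E) (w : ι → ℂ) (S : Set ι) (M : ℝ) (hM : 0 ≤ M)
    (h : ∀ c : ι →₀ ℂ, (c.support : Set ι) ⊆ S →
      ‖Finsupp.linearCombination ℂ w c‖ ≤ M * ‖Finsupp.linearCombination ℂ v c‖) :
    ∃ Φ : E →L[ℂ] ℂ, ‖Φ‖ ≤ M ∧ ∀ x ∈ S, Φ (v x) = w x := by
  classical
  set V := Finsupp.supported ℂ ℂ S with hV
  set L : V →ₗ[ℂ] E := (Finsupp.linearCombination ℂ v).domRestrict V with hL
  set Fn : V →ₗ[ℂ] ℂ := (Finsupp.linearCombination ℂ w).domRestrict V with hFn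
  have hbound : ∀ c : V, ‖Fn c‖ ≤ M * ‖L c‖ := by
    intro c
    exact h c.1 ((Finsupp.mem_supported ℂ c.1).1 c.2)
  obtain ⟨s, hs⟩ := L.rangeRestrict.exists_rightInverse_of_surjective L.range_rangeRestrict
  have hs' : ∀ y : LinearMap.range L, L (s y) = (y : E) := by
    intro y
    have := congrArg (fun T => ((T y : LinearMap.range L) : E)) hs
    simpa using this
  set g : LinearMap.range L →ₗ[ℂ] ℂ := Fn.comp s with hg
  have hgb : ∀ y, ‖g y‖ ≤ M * ‖y‖ := by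
    intro y
    have := hbound (s y)
    rw [hs' y] at this
    simpa [hg] using this
  have hgL : ∀ c : V, g ⟨L c, LinearMap.mem_range_self L c⟩ = Fn c := by
    intro c
    have h1 : L (s ⟨L c, LinearMap.mem_range_self L c⟩ - c) = 0 := by
      rw [map_sub, hs']
      simp
    have h2 := hbound (s ⟨L c, LinearMap.mem_range_self L c⟩ - c)
    rw [h1, norm_zero, mul_zero, map_sub] at h2
    have h3 := norm_le_zero_iff.1 h2
    have : Fn (s ⟨L c, LinearMap.mem_range_self L c⟩) = Fn c := sub_eq_zero.1 h3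
    simpa [hg] using this
  obtain ⟨Φ, hΦ1, hΦ2⟩ := exists_extension_norm_eq (LinearMap.range L) (g.mkContinuous M hgb)
  refine ⟨Φ, ?_, ?_⟩
  · rw [hΦ2]
    exact LinearMap.mkContinuous_norm_le _ hM _
  · intro x hx
    have hmem : Finsupp.single x (1:ℂ) ∈ V := Finsupp.single_mem_supported ℂ 1 hx
    have h1 := hgL ⟨Finsupp.single x 1, hmem⟩
    have h2 := hΦ1 ⟨L ⟨Finsupp.single x 1, hmem⟩, LinearMap.mem_range_self L _⟩
    have h3 : L ⟨Finsupp.single x 1, hmem⟩ = v x := by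
      simp [hL]
    have h4 : Fn ⟨Finsupp.single x 1, hmem⟩ = w x := by
      simp [hFn]
    rw [LinearMap.mkContinuous_apply, h1, h4] at h2
    rw [← h2]
    exact congrArg Φ h3.symm

/-- a unimodular number rotating `z` to its modulus -/
lemma exists_phase (z : ℂ) : ∃ u : ℂ, ‖u‖ = 1 ∧ u * z = (‖z‖ : ℂ) := by
  by_cases hz : z = 0
  · exact ⟨1, by simp, by simp [hz]⟩
  · refine ⟨conj z / ‖z‖, ?_, ?_⟩
    · rw [norm_div, RCLike.norm_conj, Complex.norm_real, norm_norm, div_self]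
      exact (norm_pos_iff.2 hz).ne'
    · have hn : (‖z‖ : ℂ) ≠ 0 := by exact_mod_cast (norm_pos_iff.2 hz).ne'
      field_simp
      rw [mul_comm, Complex.mul_conj, Complex.normSq_eq_norm_sq]
      push_cast
      ring

/-- Norm additivity for multipliers between 0 and 1. -/
lemma norm_split (Φ : (ℝ →ᵇ ℂ) →L[ℂ] ℂ) (K : ℝ →ᵇ ℂ) (κ : ℝ → ℝ)
    (hK : ∀ t, K t = (κ t : ℂ)) (h0 : ∀ t, 0 ≤ κ t) (h1 : ∀ t, κ t ≤ 1)
    (b₁ b₂ : ℝ →ᵇ ℂ) (hb₁ : ‖b₁‖ ≤ 1) (hb₂ : ‖b₂‖ ≤ 1) :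
    ‖Φ (K * b₁)‖ + ‖Φ ((1 - K) * b₂)‖ ≤ ‖Φ‖ := by
  obtain ⟨u₁, hu₁, hz₁⟩ := exists_phase (Φ (K * b₁))
  obtain ⟨u₂, hu₂, hz₂⟩ := exists_phase (Φ ((1 - K) * b₂))
  set R : ℝ →ᵇ ℂ := u₁ • (K * b₁) + u₂ • ((1 - K) * b₂) with hR
  have hΦR : Φ R = ((‖Φ (K * b₁)‖ + ‖Φ ((1 - K) * b₂)‖ : ℝ) : ℂ) := by
    rw [hR, map_add, map_smul, map_smul, smul_eq_mul, smul_eq_mul, hz₁, hz₂]
    push_cast
    ring
  have hRn : ‖R‖ ≤ 1 := by
    rw [BoundedContinuousFunction.norm_le (by norm_num)]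
    intro t
    have e1 : R t = u₁ * (κ t * b₁ t) + u₂ * ((1 - κ t) * b₂ t) := by
      simp [hR, hK]
    rw [e1]
    have hb1 : ‖b₁ t‖ ≤ 1 := (b₁.norm_coe_le_norm t).trans hb₁
    have hb2 : ‖b₂ t‖ ≤ 1 := (b₂.norm_coe_le_norm t).trans hb₂
    calc ‖u₁ * (κ t * b₁ t) + u₂ * ((1 - κ t) * b₂ t)‖
        ≤ ‖u₁ * (κ t * b₁ t)‖ + ‖u₂ * ((1 - κ t) * b₂ t)‖ := _root_.norm_add_le _ _
      _ = κ t * ‖b₁ t‖ + (1 - κ t) * ‖b₂ t‖ := by
          rw [norm_mul, norm_mul, norm_mul, norm_mul, hu₁, hu₂]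
          have a1 : ‖(κ t : ℂ)‖ = κ t := by
            rw [Complex.norm_real, Real.norm_of_nonneg (h0 t)]
          have a2 : ‖(1 - κ t : ℂ)‖ = 1 - κ t := by
            have : (1 - κ t : ℂ) = ((1 - κ t : ℝ) : ℂ) := by push_cast; ring
            rw [this, Complex.norm_real, Real.norm_of_nonneg (by linarith [h1 t])]
          rw [a1, a2]
          ring
      _ ≤ κ t * 1 + (1 - κ t) * 1 := by
          have g0 := h0 t
          have g1 : 0 ≤ 1 - κ t := by linarith [h1 t]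
          gcongr
      _ = 1 := by ring
  have := Φ.le_opNorm R
  rw [hΦR, Complex.norm_real, Real.norm_of_nonneg (by positivity)] at this
  calc _ ≤ ‖Φ‖ * ‖R‖ := this
    _ ≤ ‖Φ‖ * 1 := by gcongr
    _ = ‖Φ‖ := mul_one _

/-- Cauchy-Schwarz substitute. -/
lemma cs_bound (Φ : (ℝ →ᵇ ℂ) →L[ℂ] ℂ) (k : ℝ →ᵇ ℂ) (M₂ : ℝ)
    (hM₂ : ∀ b : ℝ →ᵇ ℂ, ‖b‖ ≤ 1 → ‖Φ (k * star k * b)‖ ≤ M₂)
    (b : ℝ →ᵇ ℂ) (hb : ‖b‖ ≤ 1) (s : ℝ) (hs : 0 < s) :
    ‖Φ (k * b)‖ ≤ s / 2 * M₂ + 1 / (2 * s) * ‖Φ‖ := by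
  set a : ℝ → ℝ := fun t => (s * ‖k t‖ ^ 2 + 1 / s) / 2 with ha
  have hapos : ∀ t, 0 < a t := by
    intro t
    simp only [ha]
    positivity
  have hak : ∀ t, ‖k t‖ ≤ a t := by
    intro t
    simp only [ha]
    have : 0 ≤ (s * ‖k t‖ - 1) ^ 2 / s := by positivity
    have h2 : (s * ‖k t‖ - 1) ^ 2 / s = s * ‖k t‖ ^ 2 - 2 * ‖k t‖ + 1 / s := by
      field_simp
      ring
    linarith
  have hcont : Continuous fun t : ℝ => k t * b t / (a t : ℂ) := by
    have h1 : Continuous a := by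
      simp only [ha]
      have := k.continuous
      fun_prop
    have h2 : Continuous fun t : ℝ => k t * b t := k.continuous.mul b.continuous
    refine h2.div (Complex.continuous_ofReal.comp h1) ?_
    intro t
    exact_mod_cast (hapos t).ne'
  have hqb : ∀ t : ℝ, ‖k t * b t / (a t : ℂ)‖ ≤ 1 := by
    intro t
    rw [norm_div, norm_mul, Complex.norm_real, Real.norm_of_nonneg (hapos t).le,
      div_le_one (hapos t)]
    have hb1 : ‖b t‖ ≤ 1 := (b.norm_coe_le_norm t).trans hb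
    calc ‖k t‖ * ‖b t‖ ≤ a t * 1 :=
          mul_le_mul (hak t) hb1 (norm_nonneg _) (hapos t).le
      _ = a t := mul_one _
  set q : ℝ →ᵇ ℂ := BoundedContinuousFunction.ofNormedAddCommGroup _ hcont 1 hqb with hq
  have hqn : ‖q‖ ≤ 1 := by
    rw [BoundedContinuousFunction.norm_le (by norm_num)]
    exact hqb
  have hdec : k * b = ((s / 2 : ℝ) : ℂ) • (k * star k * q) + ((1 / (2 * s) : ℝ) : ℂ) • q := by
    ext t
    have hqt : q t = k t * b t / (a t : ℂ) := rfl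
    simp only [BoundedContinuousFunction.coe_mul, Pi.mul_apply, BoundedContinuousFunction.coe_add,
      Pi.add_apply, BoundedContinuousFunction.coe_smul, smul_eq_mul,
      BoundedContinuousFunction.star_apply]
    have hkk : k t * star (k t) = ((‖k t‖ ^ 2 : ℝ) : ℂ) := by
      rw [Complex.star_def, Complex.mul_conj, Complex.normSq_eq_norm_sq]
    rw [hkk]
    have hat : (a t : ℂ) ≠ 0 := by exact_mod_cast (hapos t).ne'
    have h3 : ((s / 2 : ℝ) : ℂ) * (((‖k t‖ ^ 2 : ℝ) : ℂ) * q t) + ((1 / (2 * s) : ℝ) : ℂ) * q t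
        = (a t : ℂ) * q t := by
      simp only [ha]
      push_cast
      field_simp
    rw [h3, hqt]
    field_simp
  rw [hdec, map_add, map_smul, map_smul, smul_eq_mul, smul_eq_mul]
  calc ‖((s / 2 : ℝ) : ℂ) * Φ (k * star k * q) + ((1 / (2 * s) : ℝ) : ℂ) * Φ q‖
      ≤ ‖((s / 2 : ℝ) : ℂ) * Φ (k * star k * q)‖ + ‖((1 / (2 * s) : ℝ) : ℂ) * Φ q‖ :=
        _root_.norm_add_le _ _
    _ = s / 2 * ‖Φ (k * star k * q)‖ + 1 / (2 * s) * ‖Φ q‖ := by
        rw [norm_mul, norm_mul, Complex.norm_real, Complex.norm_real,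
          Real.norm_of_nonneg (by positivity), Real.norm_of_nonneg (by positivity)]
    _ ≤ s / 2 * M₂ + 1 / (2 * s) * ‖Φ‖ := by
        have h1 := hM₂ q hqn
        have h2 : ‖Φ q‖ ≤ ‖Φ‖ := by
          calc ‖Φ q‖ ≤ ‖Φ‖ * ‖q‖ := Φ.le_opNorm q
            _ ≤ ‖Φ‖ * 1 := by gcongr
            _ = ‖Φ‖ := mul_one _
        gcongr


/-- linear combination of exponentials -/
noncomputable def lin (c : ℝ →₀ ℂ) : ℝ →ᵇ ℂ := Finsupp.linearCombination ℂ ex c

lemma Phi_lin (Φ : (ℝ →ᵇ ℂ) →L[ℂ] ℂ) (c : ℝ →₀ ℂ) :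
    Φ (lin c) = ∑ l ∈ c.support, c l * Φ (ex l) := by
  simp [lin, Finsupp.linearCombination_apply, Finsupp.sum, map_sum]

lemma Phi_ex_mul_lin (Φ : (ℝ →ᵇ ℂ) →L[ℂ] ℂ) (c : ℝ →₀ ℂ) (x : ℝ) :
    Φ (ex x * lin c) = ∑ l ∈ c.support, c l * Φ (ex (l + x)) := by
  have : ex x * lin c = ∑ l ∈ c.support, c l • ex (l + x) := by
    simp only [lin, Finsupp.linearCombination_apply, Finsupp.sum, Finset.mul_sum]
    refine Finset.sum_congr rfl fun l _ => ?_
    rw [mul_smul_comm, ex_mul, add_comm]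
  rw [this, map_sum]
  simp

/-- a norming pair controls translations -/
lemma translation_bound (Φ : (ℝ →ᵇ ℂ) →L[ℂ] ℂ) (x : ℝ) (Q : ℝ →ᵇ ℂ) (z : ℂ) (ε : ℝ)
    (hQ : ‖Q‖ ≤ 1) (hz : ‖Φ‖ - ε ≤ ‖z‖) (h0 : ‖Φ Q - z‖ ≤ ε) (h1 : ‖Φ (ex x * Q) - z‖ ≤ ε)
    (h2 : ‖Φ (ex (-x) * Q) - z‖ ≤ ε) (y s : ℝ) (hs : 0 < s) :
    ‖Φ (ex (y + x)) - Φ (ex y)‖ ≤ 4 * s * ε + 1 / (2 * s) * ‖Φ‖ := by
  set k : ℝ →ᵇ ℂ := ex x - 1 with hk
  set K : ℝ →ᵇ ℂ := ((1 / 4 : ℝ) : ℂ) • (k * star k) with hKdef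
  have hkk : k * star k = 2 - ex x - ex (-x) := by
    rw [hk, star_sub, star_one, star_ex]
    have : ex x * ex (-x) = 1 := by rw [ex_mul, add_neg_cancel, ex_zero]
    linear_combination this
  set κ : ℝ → ℝ := fun t => ‖k t‖ ^ 2 / 4 with hκ
  have hKκ : ∀ t, K t = (κ t : ℂ) := by
    intro t
    simp only [hKdef, BoundedContinuousFunction.coe_smul, BoundedContinuousFunction.coe_mul,
      Pi.mul_apply, smul_eq_mul, BoundedContinuousFunction.star_apply, hκ]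
    rw [Complex.star_def, Complex.mul_conj, Complex.normSq_eq_norm_sq]
    push_cast
    ring
  have hκ0 : ∀ t, 0 ≤ κ t := fun t => by simp only [hκ]; positivity
  have hκ1 : ∀ t, κ t ≤ 1 := by
    intro t
    have : ‖k t‖ ≤ 2 := by
      simp only [hk, BoundedContinuousFunction.coe_sub, Pi.sub_apply,
        BoundedContinuousFunction.coe_one, Pi.one_apply]
      calc ‖ex x t - 1‖ ≤ ‖ex x t‖ + ‖(1:ℂ)‖ := norm_sub_le _ _
        _ = 2 := by rw [norm_ex_apply]; norm_num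
    simp only [hκ]
    nlinarith [norm_nonneg (k t)]
  have hΦK : Φ ((1 - K) * Q) - z = 1 / 2 * (Φ Q - z) + 1 / 4 * (Φ (ex x * Q) - z)
      + 1 / 4 * (Φ (ex (-x) * Q) - z) := by
    have : (1 - K) * Q = (1 / 2 : ℂ) • Q + (1 / 4 : ℂ) • (ex x * Q) + (1 / 4 : ℂ) • (ex (-x) * Q) := by
      rw [hKdef, hkk]
      ext t
      simp only [BoundedContinuousFunction.coe_mul, Pi.mul_apply, BoundedContinuousFunction.coe_sub,
        Pi.sub_apply, BoundedContinuousFunction.coe_one, Pi.one_apply,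
        BoundedContinuousFunction.coe_smul, smul_eq_mul, BoundedContinuousFunction.coe_add,
        Pi.add_apply]
      have h2 : (2 : ℝ →ᵇ ℂ) t = 2 := rfl
      rw [h2]
      push_cast
      ring
    rw [this, map_add, map_add, map_smul, map_smul, map_smul]
    simp only [smul_eq_mul]
    ring
  have hbig : ‖Φ‖ - 2 * ε ≤ ‖Φ ((1 - K) * Q)‖ := by
    have e1 : ‖Φ ((1 - K) * Q) - z‖ ≤ ε := by
      rw [hΦK]
      calc ‖1 / 2 * (Φ Q - z) + 1 / 4 * (Φ (ex x * Q) - z) + 1 / 4 * (Φ (ex (-x) * Q) - z)‖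
          ≤ ‖1 / 2 * (Φ Q - z)‖ + ‖1 / 4 * (Φ (ex x * Q) - z)‖
            + ‖1 / 4 * (Φ (ex (-x) * Q) - z)‖ := norm_add₃_le
        _ = 1 / 2 * ‖Φ Q - z‖ + 1 / 4 * ‖Φ (ex x * Q) - z‖ + 1 / 4 * ‖Φ (ex (-x) * Q) - z‖ := by
            simp only [norm_mul, norm_div, norm_one]
            norm_num
        _ ≤ ε := by linarith
    have e2 : ‖z‖ ≤ ‖Φ ((1 - K) * Q)‖ + ‖Φ ((1 - K) * Q) - z‖ := by
      have := norm_sub_norm_le z (Φ ((1 - K) * Q))
      rw [norm_sub_rev] at this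
      linarith
    linarith
  have hM : ∀ b : ℝ →ᵇ ℂ, ‖b‖ ≤ 1 → ‖Φ (k * star k * b)‖ ≤ 8 * ε := by
    intro b hb
    have e1 := norm_split Φ K κ hKκ hκ0 hκ1 b Q hb hQ
    have e2 : k * star k * b = (4 : ℂ) • (K * b) := by
      rw [hKdef, smul_mul_assoc, smul_smul]
      norm_num
    rw [e2, map_smul, smul_eq_mul, norm_mul]
    have : ‖(4:ℂ)‖ = 4 := by norm_num
    rw [this]
    linarith
  have hfin := cs_bound Φ k (8 * ε) hM (ex y) (norm_ex_le y) s hs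
  have e3 : k * ex y = ex (y + x) - ex y := by
    rw [hk, sub_mul, one_mul, ex_mul, add_comm]
  rw [e3, map_sub] at hfin
  calc _ ≤ _ := hfin
    _ = 4 * s * ε + 1 / (2 * s) * ‖Φ‖ := by ring

/-- criterion for continuity of the chi-function of `Φ` -/
lemma continuous_criterion (Φ : (ℝ →ᵇ ℂ) →L[ℂ] ℂ)
    (h : ∀ ε > 0, ∃ δ > 0, ∀ x : ℝ, |x| < δ → ∃ (Q : ℝ →ᵇ ℂ) (z : ℂ), ‖Q‖ ≤ 1 ∧
      ‖Φ‖ - ε ≤ ‖z‖ ∧ ‖Φ Q - z‖ ≤ ε ∧ ‖Φ (ex x * Q) - z‖ ≤ ε ∧ ‖Φ (ex (-x) * Q) - z‖ ≤ ε) :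
    Continuous fun x => Φ (ex x) := by
  rw [Metric.continuous_iff]
  intro y ε' hε'
  set s : ℝ := (‖Φ‖ + 1) / ε' with hs
  have hspos : 0 < s := by positivity
  obtain ⟨δ, hδ, H⟩ := h (ε' / (16 * s)) (by positivity)
  refine ⟨δ, hδ, fun y' hy' => ?_⟩
  rw [Real.dist_eq] at hy'
  obtain ⟨Q, z, hQ, hz, h0, h1, h2⟩ := H (y' - y) hy'
  have := translation_bound Φ (y' - y) Q z (ε' / (16 * s)) hQ hz h0 h1 h2 y s hspos
  rw [add_sub_cancel] at this
  rw [dist_eq_norm]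
  refine this.trans_lt ?_
  have e1 : 4 * s * (ε' / (16 * s)) = ε' / 4 := by
    field_simp
    norm_num
  have e2 : 1 / (2 * s) * ‖Φ‖ ≤ ε' / 2 := by
    rw [hs]
    rw [div_mul_eq_mul_div, one_mul, div_le_div_iff₀ (by positivity) (by norm_num)]
    have : ε' * (2 * ((‖Φ‖ + 1) / ε')) = 2 * (‖Φ‖ + 1) := by
      field_simp
    rw [this]
    nlinarith [norm_nonneg Φ]
  linarith

/-- `Φ` is almost attained on polynomials with exponents in `S`. -/
def Norming (S : Set ℝ) (Φ : (ℝ →ᵇ ℂ) →L[ℂ] ℂ) : Prop :=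
  ∀ ε > 0, ∃ c : ℝ →₀ ℂ, (c.support : Set ℝ) ⊆ S ∧ ‖lin c‖ ≤ 1 ∧ ‖Φ‖ - ε ≤ ‖Φ (lin c)‖

/-- A norming extension of a continuous function is continuous. -/
lemma continuous_of_norming (A : ℝ) (Φ : (ℝ →ᵇ ℂ) →L[ℂ] ℂ) (hN : Norming (Ioo (-A) A) Φ)
    (hc : ContinuousOn (fun x => Φ (ex x)) (Ioo (-A) A)) :
    Continuous fun x => Φ (ex x) := by
  apply continuous_criterion
  intro ε hε
  obtain ⟨c, hcS, hc1, hc2⟩ := hN ε hε
  have hcont : ContinuousAt (fun x => Φ (ex x * lin c)) 0 := by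
    have : (fun x => Φ (ex x * lin c)) = fun x => ∑ l ∈ c.support, c l * Φ (ex (l + x)) := by
      funext x
      exact Phi_ex_mul_lin Φ c x
    rw [this]
    refine tendsto_finsetSum _ fun l hl => ?_
    refine Tendsto.mul tendsto_const_nhds ?_
    have h1 : ContinuousAt (fun x => Φ (ex x)) (l + 0) := by
      rw [add_zero]
      exact hc.continuousAt (Ioo_mem_nhds (hcS hl).1 (hcS hl).2)
    have h2 : ContinuousAt (fun x : ℝ => l + x) 0 := by fun_prop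
    exact ContinuousAt.comp (f := fun x : ℝ => l + x) h1 h2
  rw [Metric.continuousAt_iff] at hcont
  obtain ⟨δ, hδ, H⟩ := hcont ε hε
  refine ⟨δ, hδ, fun x hx => ⟨lin c, Φ (lin c), hc1, hc2, ?_, ?_, ?_⟩⟩
  · simpa using hε.le
  · have := H (x := x) (by simpa [Real.dist_eq] using hx)
    rw [dist_eq_norm, ex_zero, one_mul] at this
    exact this.le
  · have := H (x := -x) (by simpa [Real.dist_eq] using hx)
    rw [dist_eq_norm, ex_zero, one_mul] at this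
    exact this.le


/-! ### generic averages -/

/-- the average of exponentials -/
noncomputable def avg {n : ℕ} (x : Fin n → ℝ) : ℝ →ᵇ ℂ := ((n : ℂ)⁻¹) • ∑ j, ex (x j)

lemma norm_avg_apply_le {n : ℕ} (x : Fin n → ℝ) (t : ℝ) : ‖avg x t‖ ≤ 1 := by
  rcases Nat.eq_zero_or_pos n with hn | hn
  · subst hn
    simp [avg]
  · have hn' : (0:ℝ) < n := by exact_mod_cast hn
    have e1 : avg x t = (n : ℂ)⁻¹ * ∑ j, ex (x j) t := by
      simp [avg]
    rw [e1, norm_mul, norm_inv, Complex.norm_natCast]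
    have : ‖∑ j, ex (x j) t‖ ≤ n := by
      calc ‖∑ j, ex (x j) t‖ ≤ ∑ j : Fin n, ‖ex (x j) t‖ := norm_sum_le _ _
        _ = n := by simp [norm_ex_apply]
    rw [inv_mul_le_iff₀ hn', mul_one]
    exact this

lemma avg_sq {n : ℕ} (x : Fin n → ℝ) :
    avg x * star (avg x) = (((n : ℂ)⁻¹) ^ 2) • ∑ j, ∑ l, ex (x j - x l) := by
  have h1 : star (avg x) = ((n : ℂ)⁻¹) • ∑ j, ex (-(x j)) := by
    rw [avg, star_smul, star_sum]
    simp [star_ex]
  rw [h1, avg, smul_mul_smul_comm, Finset.sum_mul_sum, ← pow_two]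
  congr 1
  refine Finset.sum_congr rfl fun j _ => Finset.sum_congr rfl fun l _ => ?_
  rw [ex_mul, sub_eq_add_neg]

lemma Phi_avg_sq {n : ℕ} (Φ : (ℝ →ᵇ ℂ) →L[ℂ] ℂ) (x : Fin n → ℝ) (y : ℝ) :
    Φ (avg x * star (avg x) * ex y)
      = ((n : ℂ)⁻¹) ^ 2 * ∑ j, ∑ l, Φ (ex (y + (x j - x l))) := by
  rw [avg_sq, smul_mul_assoc, map_smul, Finset.sum_mul, map_sum, smul_eq_mul]
  congr 1
  refine Finset.sum_congr rfl fun j _ => ?_
  rw [Finset.sum_mul, map_sum]
  refine Finset.sum_congr rfl fun l _ => ?_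
  rw [ex_mul, add_comm]

lemma avg_split (Φ : (ℝ →ᵇ ℂ) →L[ℂ] ℂ) {n : ℕ} (x : Fin n → ℝ)
    (b₁ b₂ : ℝ →ᵇ ℂ) (hb₁ : ‖b₁‖ ≤ 1) (hb₂ : ‖b₂‖ ≤ 1) :
    ‖Φ (avg x * star (avg x) * b₁)‖ + ‖Φ ((1 - avg x * star (avg x)) * b₂)‖ ≤ ‖Φ‖ := by
  refine norm_split Φ _ (fun t => ‖avg x t‖ ^ 2) ?_ ?_ ?_ b₁ b₂ hb₁ hb₂
  · intro t
    simp only [BoundedContinuousFunction.coe_mul, Pi.mul_apply,
      BoundedContinuousFunction.star_apply]
    rw [Complex.star_def, Complex.mul_conj, Complex.normSq_eq_norm_sq]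
  · intro t
    positivity
  · intro t
    have := norm_avg_apply_le x t
    have h0 := norm_nonneg (avg x t)
    nlinarith

/-- selection of points with generic differences -/
lemma exists_generic (T N : Set ℝ) (hT : volume T ≠ 0) (hN : volume N = 0) (n : ℕ) :
    ∃ x : Fin n → ℝ, (∀ j, x j ∈ T) ∧ ∀ j l, j ≠ l → x j - x l ∉ N := by
  induction n with
  | zero => exact ⟨Fin.elim0, fun j => j.elim0, fun j => j.elim0⟩
  | succ n ih =>
    obtain ⟨x, hx1, hx2⟩ := ih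
    -- the bad set
    set B : Set ℝ := ⋃ j : Fin n, ((fun y => y - x j) ⁻¹' N ∪ (fun y => x j - y) ⁻¹' N) with hB
    have hB0 : volume B = 0 := by
      rw [hB, measure_iUnion_null_iff]
      intro j
      rw [measure_union_null_iff]
      constructor
      · have h := measure_preimage_add_right volume (-(x j)) N
        simp only [← sub_eq_add_neg] at h
        rw [h, hN]
      · have h := (Measure.measurePreserving_sub_left volume (x j)).quasiMeasurePreserving.preimage_null hN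
        exact h
    have hne : ∃ y ∈ T, y ∉ B := by
      by_contra hcon
      push Not at hcon
      exact hT (measure_mono_null hcon hB0)
    obtain ⟨y, hyT, hyB⟩ := hne
    simp only [hB, mem_iUnion, mem_union, mem_preimage, not_exists, not_or] at hyB
    refine ⟨Fin.cons y x, ?_, ?_⟩
    · intro j
      refine Fin.cases ?_ ?_ j
      · simpa using hyT
      · intro i
        simpa using hx1 i
    · intro j l
      refine Fin.cases ?_ ?_ j
      · refine Fin.cases ?_ ?_ l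
        · intro h
          exact absurd rfl h
        · intro i _
          simpa using (hyB i).1
      · intro i
        refine Fin.cases ?_ ?_ l
        · intro _
          simpa using (hyB i).2
        · intro i' h
          have h' : i ≠ i' := fun e => h (by rw [e])
          simpa using hx2 i i' h'

/-- the value of a generic average -/
lemma generic_sum {n : ℕ} (x : Fin n → ℝ) (F : ℝ → ℂ) (y : ℝ)
    (hF : ∀ j l, j ≠ l → F (y + (x j - x l)) = 0) :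
    ∑ j, ∑ l, F (y + (x j - x l)) = n * F y := by
  have : ∀ j, ∑ l, F (y + (x j - x l)) = F y := by
    intro j
    rw [Finset.sum_eq_single j]
    · simp
    · intro l _ hl
      exact hF j l (Ne.symm hl)
    · intro h
      exact absurd (Finset.mem_univ j) h
  simp [this]

/-- if `F` is not a.e. zero, then near some point it is essentially near a nonzero constant -/
lemma exists_nonnull (F : ℝ → ℂ) (hF : ¬ (F =ᵐ[volume] 0)) :
    ∃ (y : ℝ) (η : ℝ), 0 < η ∧ ∀ δ > 0, volume {x : ℝ | |x| < δ ∧ η < ‖F (y + x)‖} ≠ 0 := by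
  by_contra hcon
  push Not at hcon
  apply hF
  have hη : ∀ η > 0, volume {x : ℝ | η < ‖F x‖} = 0 := by
    intro η hη
    refine measure_null_of_locally_null _ fun x hx => ?_
    obtain ⟨δ, hδ, hδ0⟩ := hcon x η hη
    refine ⟨{z : ℝ | |z - x| < δ ∧ η < ‖F z‖}, ?_, ?_⟩
    · have h1 : Metric.ball x δ ∈ 𝓝 x := Metric.ball_mem_nhds x hδ
      filter_upwards [mem_nhdsWithin_of_mem_nhds h1, self_mem_nhdsWithin] with z hz1 hz2
      exact ⟨by simpa [Real.dist_eq] using hz1, hz2⟩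
    · have h1 : {z : ℝ | |z - x| < δ ∧ η < ‖F z‖} =
          (fun z => z + (-x)) ⁻¹' {z : ℝ | |z| < δ ∧ η < ‖F (x + z)‖} := by
        ext z
        simp only [mem_preimage, mem_ofPred_eq]
        have : x + (z + -x) = z := by ring
        rw [this, ← sub_eq_add_neg]
      rw [h1, measure_preimage_add_right]
      exact hδ0
  have h2 : {x : ℝ | ¬ (F x = (0 : ℝ → ℂ) x)} ⊆ ⋃ m : ℕ, {x : ℝ | 1 / ((m:ℝ) + 1) < ‖F x‖} := by
    intro x hx
    have hx' : F x ≠ 0 := hx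
    have : 0 < ‖F x‖ := norm_pos_iff.2 hx'
    obtain ⟨m, hm⟩ := exists_nat_one_div_lt this
    simp only [mem_iUnion]
    exact ⟨m, hm⟩
  refine measure_mono_null h2 ?_
  rw [measure_iUnion_null_iff]
  intro m
  exact hη _ (by positivity)

lemma exists_ultralimit {ι : Type*} (U : Ultrafilter ι) (Ψ : ι → ((ℝ →ᵇ ℂ) →L[ℂ] ℂ)) (M : ℝ)
    (h : ∀ i, ‖Ψ i‖ ≤ M) :
    ∃ Ψ₀ : (ℝ →ᵇ ℂ) →L[ℂ] ℂ, ∀ b, Tendsto (fun i => Ψ i b) U (𝓝 (Ψ₀ b)) := by
  have hc := WeakDual.isCompact_closedBall (𝕜 := ℂ) (E := (ℝ →ᵇ ℂ)) 0 M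
  have h1 : ((U.map fun i => StrongDual.toWeakDual (Ψ i)) : Filter (WeakDual ℂ (ℝ →ᵇ ℂ))) ≤
      𝓟 (WeakDual.toStrongDual ⁻¹' Metric.closedBall 0 M) := by
    rw [Ultrafilter.coe_map, le_principal_iff, mem_map]
    refine Filter.univ_mem' fun i => ?_
    simp only [mem_preimage, Metric.mem_closedBall, dist_zero_right]
    exact h i
  obtain ⟨Ψ₀, -, hΨ₀⟩ := hc.ultrafilter_le_nhds _ h1
  refine ⟨WeakDual.toStrongDual Ψ₀, fun b => ?_⟩
  have := (WeakDual.eval_continuous b).tendsto Ψ₀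
  exact this.comp hΨ₀

/-- A norming extension of an a.e. zero function is a.e. zero. -/
lemma zero_of_norming (A : ℝ) (Φ : (ℝ →ᵇ ℂ) →L[ℂ] ℂ) (hN : Norming (Ioo (-A) A) Φ)
    (h0 : ∀ᵐ x : ℝ, x ∈ Ioo (-A) A → Φ (ex x) = 0) :
    (fun x => Φ (ex x)) =ᵐ[volume] 0 := by
  by_contra hcon
  obtain ⟨y, η, hη, hT⟩ := exists_nonnull _ hcon
  -- parameters
  set s : ℝ := 4 * (‖Φ‖ + 1) / η with hs
  have hspos : 0 < s := by positivity
  set ε : ℝ := η / (8 * s) with hε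
  have hεpos : 0 < ε := by positivity
  obtain ⟨n, hn⟩ := exists_nat_gt (8 * s * (‖Φ‖ + 1) / η)
  have hnpos : (0:ℝ) < n := lt_of_le_of_lt (by positivity) hn
  have hn0 : n ≠ 0 := by
    rintro rfl
    simp at hnpos
  obtain ⟨c, hcS, hc1, hc2⟩ := hN ε hεpos
  -- choose δ
  have hδ : ∀ᶠ δ in 𝓝[>] (0:ℝ), ∀ l ∈ c.support, ∀ u : ℝ, |u| < 2 * δ → l + u ∈ Ioo (-A) A := by
    rw [Finset.eventually_all]
    intro l hl
    have hl' := hcS hl
    have : Ioo (0:ℝ) (min ((l + A) / 2) ((A - l) / 2)) ∈ 𝓝[>] (0:ℝ) := by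
      refine Ioo_mem_nhdsGT ?_
      rw [lt_min_iff]
      constructor <;> linarith [hl'.1, hl'.2]
    filter_upwards [this] with δ hδ u hu
    rw [abs_lt] at hu
    have h1 := hδ.2
    rw [lt_min_iff] at h1
    constructor <;> linarith [hu.1, hu.2, h1.1, h1.2]
  obtain ⟨δ, hδ1, hδ0⟩ := (hδ.and self_mem_nhdsWithin).exists
  have hδpos : (0:ℝ) < δ := hδ0
  -- refine the set to a set with nearly constant value
  obtain ⟨ζ, hζ⟩ : ∃ ζ : ℂ, volume {x : ℝ | |x| < δ ∧ η < ‖Φ (ex (y + x))‖ ∧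
      ‖Φ (ex (y + x)) - ζ‖ < η / 4} ≠ 0 := by
    by_contra hcon2
    push Not at hcon2
    apply hT δ hδpos
    obtain ⟨D, hDc, hDd⟩ := TopologicalSpace.exists_countable_dense ℂ
    have hcov : {x : ℝ | |x| < δ ∧ η < ‖Φ (ex (y + x))‖} ⊆
        ⋃ ζ ∈ D, {x : ℝ | |x| < δ ∧ η < ‖Φ (ex (y + x))‖ ∧ ‖Φ (ex (y + x)) - ζ‖ < η / 4} := by
      intro x hx
      obtain ⟨ζ, hζD, hζ⟩ := Metric.mem_closure_iff.1 (hDd (Φ (ex (y + x)))) (η / 4) (by positivity)
      simp only [mem_iUnion]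
      refine ⟨ζ, hζD, hx.1, hx.2, ?_⟩
      rwa [dist_eq_norm] at hζ
    refine measure_mono_null hcov ?_
    rw [measure_biUnion_null_iff hDc]
    exact fun ζ _ => hcon2 ζ
  -- bad set
  set N : Set ℝ := ⋃ l ∈ c.support, {u : ℝ | l + u ∈ Ioo (-A) A ∧ Φ (ex (l + u)) ≠ 0} with hNdef
  have hNnull : volume N = 0 := by
    rw [hNdef]
    refine (measure_biUnion_null_iff (I := (c.support : Set ℝ)) c.support.countable_toSet).2 ?_
    intro l _
    have h1 : {u : ℝ | l + u ∈ Ioo (-A) A ∧ Φ (ex (l + u)) ≠ 0} =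
        (fun u => l + u) ⁻¹' {x : ℝ | ¬ (x ∈ Ioo (-A) A → Φ (ex x) = 0)} := by
      ext u
      simp [and_assoc]
    rw [h1, measure_preimage_add]
    exact h0
  obtain ⟨x, hxT, hxN⟩ := exists_generic _ N hζ hNnull n
  have hxd : ∀ j l, |x j - x l| < 2 * δ := by
    intro j l
    have h1 := (hxT j).1
    have h2 := (hxT l).1
    rw [abs_lt] at *
    constructor <;> linarith [h1.1, h1.2, h2.1, h2.2]
  -- the value on the polynomial
  have hval : Φ (avg x * star (avg x) * lin c) = (n : ℂ)⁻¹ * Φ (lin c) := by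
    have e1 : avg x * star (avg x) * lin c
        = ∑ l ∈ c.support, c l • (avg x * star (avg x) * ex l) := by
      simp only [lin, Finsupp.linearCombination_apply, Finsupp.sum, Finset.mul_sum]
      refine Finset.sum_congr rfl fun l _ => ?_
      rw [mul_smul_comm]
    rw [e1, map_sum, Phi_lin, Finset.mul_sum]
    refine Finset.sum_congr rfl fun l hl => ?_
    rw [map_smul, Phi_avg_sq, generic_sum x (fun z => Φ (ex z)) l, smul_eq_mul]
    · have : (n:ℂ) ≠ 0 := by exact_mod_cast hn0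
      field_simp
    · intro j i hji
      by_contra hne
      apply hxN j i hji
      simp only [hNdef, mem_iUnion]
      exact ⟨l, hl, hδ1 l hl _ (hxd j i), hne⟩
  have hval2 : ‖Φ‖ - ‖Φ‖ / n - ε ≤ ‖Φ ((1 - avg x * star (avg x)) * lin c)‖ := by
    have e1 : Φ ((1 - avg x * star (avg x)) * lin c) = ((1 - (n:ℝ)⁻¹ : ℝ) : ℂ) * Φ (lin c) := by
      rw [sub_mul, one_mul, map_sub, hval]
      push_cast
      ring
    have h1n : (1:ℝ) ≤ n := by exact_mod_cast Nat.one_le_iff_ne_zero.2 hn0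
    have h2n : (n:ℝ)⁻¹ ≤ 1 := inv_le_one_of_one_le₀ h1n
    have h3n : 0 < (n:ℝ)⁻¹ := by positivity
    rw [e1, norm_mul, Complex.norm_real, Real.norm_of_nonneg (by linarith)]
    have : (1 - (n:ℝ)⁻¹) * (‖Φ‖ - ε) ≤ (1 - (n:ℝ)⁻¹) * ‖Φ (lin c)‖ :=
      mul_le_mul_of_nonneg_left hc2 (by linarith)
    have e2 : (1 - (n:ℝ)⁻¹) * (‖Φ‖ - ε) = ‖Φ‖ - ‖Φ‖ / n - ε + (n:ℝ)⁻¹ * ε := by
      rw [div_eq_mul_inv]
      ring
    nlinarith [mul_pos h3n hεpos]
  have hM : ∀ b : ℝ →ᵇ ℂ, ‖b‖ ≤ 1 → ‖Φ (avg x * star (avg x) * b)‖ ≤ ‖Φ‖ / n + ε := by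
    intro b hb
    have := avg_split Φ x b (lin c) hb hc1
    linarith
  have hfin := cs_bound Φ (avg x) _ hM (ex y) (norm_ex_le y) s hspos
  -- lower bound
  have hlow : η / 2 < ‖Φ (avg x * ex y)‖ := by
    have e1 : Φ (avg x * ex y) = (n:ℂ)⁻¹ * ∑ j, Φ (ex (y + x j)) := by
      rw [avg, smul_mul_assoc, map_smul, Finset.sum_mul, map_sum, smul_eq_mul]
      congr 1
      refine Finset.sum_congr rfl fun j _ => ?_
      rw [ex_mul, add_comm]
    have e2 : Φ (avg x * ex y) - ζ = (n:ℂ)⁻¹ * ∑ j, (Φ (ex (y + x j)) - ζ) := by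
      rw [e1, Finset.sum_sub_distrib]
      have : (n:ℂ) ≠ 0 := by exact_mod_cast hn0
      simp
      field_simp
    have e3 : ‖Φ (avg x * ex y) - ζ‖ ≤ η / 4 := by
      rw [e2, norm_mul, norm_inv, Complex.norm_natCast, inv_mul_le_iff₀ hnpos]
      calc ‖∑ j, (Φ (ex (y + x j)) - ζ)‖ ≤ ∑ j, ‖Φ (ex (y + x j)) - ζ‖ := norm_sum_le _ _
        _ ≤ ∑ j : Fin n, η / 4 := Finset.sum_le_sum fun j _ => (hxT j).2.2.le
        _ = n * (η / 4) := by simp
    have e4 : 3 * η / 4 < ‖ζ‖ := by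
      obtain ⟨j⟩ : Nonempty (Fin n) := ⟨⟨0, Nat.pos_of_ne_zero hn0⟩⟩
      have h1 := (hxT j).2.1
      have h2 := (hxT j).2.2
      have h3 := norm_sub_norm_le (Φ (ex (y + x j))) ζ
      linarith
    have e5 := norm_sub_norm_le ζ (Φ (avg x * ex y))
    rw [norm_sub_rev] at e5
    linarith
  -- contradiction
  have f1 : s / 2 * ε = η / 16 := by
    rw [hε]
    field_simp
    norm_num
  have f2 : s / 2 * (‖Φ‖ / n) ≤ η / 16 := by
    rw [div_lt_iff₀ hη] at hn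
    rw [← mul_div_assoc, div_le_iff₀ hnpos]
    nlinarith [norm_nonneg Φ]
  have f3 : 1 / (2 * s) * ‖Φ‖ ≤ η / 8 := by
    rw [hs, div_mul_eq_mul_div, one_mul, div_le_div_iff₀ (by positivity) (by norm_num)]
    have : η * (2 * (4 * (‖Φ‖ + 1) / η)) = 8 * (‖Φ‖ + 1) := by
      field_simp
      norm_num
    rw [this]
    nlinarith [norm_nonneg Φ]
  rw [mul_add] at hfin
  linarith


/-- isometric splitting of `Φ` into the continuous and the a.e. zero part -/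
lemma splitting (A : ℝ) (Φ : (ℝ →ᵇ ℂ) →L[ℂ] ℂ) (g : ℝ → ℂ) (hg : Continuous g)
    (hfg : ∀ᵐ x : ℝ, x ∈ Ioo (-A) A → Φ (ex x) = g x) :
    ∃ Φ₁ : (ℝ →ᵇ ℂ) →L[ℂ] ℂ, (∀ x ∈ Ioo (-A) A, Φ₁ (ex x) = g x) ∧
      ∀ b₁ b₂ : ℝ →ᵇ ℂ, ‖b₁‖ ≤ 1 → ‖b₂‖ ≤ 1 → ‖Φ₁ b₁‖ + ‖(Φ - Φ₁) b₂‖ ≤ ‖Φ‖ := by
  classical
  -- approximate multipliers
  have key : ∀ i : Finset (Ioo (-A) A) × ℕ, ∃ (n : ℕ) (x : Fin n → ℝ), ∀ l ∈ i.1,
      ‖Φ (avg x * star (avg x) * ex (l : ℝ)) - g l‖ ≤ 1 / ((i.2 : ℝ) + 1) := by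
    rintro ⟨s, m⟩
    set ε : ℝ := 1 / ((m : ℝ) + 1) with hε
    have hεpos : 0 < ε := by positivity
    have hδ : ∀ᶠ δ in 𝓝[>] (0:ℝ), ∀ l ∈ s, ∀ u : ℝ, |u| < 2 * δ →
        ((l:ℝ) + u ∈ Ioo (-A) A ∧ ‖g (l + u) - g l‖ ≤ ε / 2) := by
      rw [Finset.eventually_all]
      intro l _
      have hl' := l.2
      have hcont : Tendsto (fun u : ℝ => g (l + u)) (𝓝 0) (𝓝 (g l)) := by
        have h1 : Continuous fun u : ℝ => g (l + u) := by fun_prop
        have := h1.tendsto 0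
        simpa using this
      have hev1 : ∀ᶠ u : ℝ in 𝓝 0, (l:ℝ) + u ∈ Ioo (-A) A := by
        have h1 : Continuous fun u : ℝ => (l:ℝ) + u := by fun_prop
        have := h1.tendsto 0
        rw [add_zero] at this
        exact this (Ioo_mem_nhds hl'.1 hl'.2)
      have hev2 : ∀ᶠ u : ℝ in 𝓝 0, ‖g (l + u) - g l‖ ≤ ε / 2 := by
        have := hcont (Metric.closedBall_mem_nhds (g l) (show 0 < ε / 2 by positivity))
        filter_upwards [this] with u hu
        simpa [dist_eq_norm] using hu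
      obtain ⟨r, hr, hr2⟩ := Metric.eventually_nhds_iff.1 (hev1.and hev2)
      have : Ioo (0:ℝ) (r / 2) ∈ 𝓝[>] (0:ℝ) := Ioo_mem_nhdsGT (by positivity)
      filter_upwards [this] with δ hδ u hu
      apply hr2
      rw [Real.dist_eq, sub_zero]
      linarith [hδ.2]
    obtain ⟨δ, hδ1, hδ0⟩ := (hδ.and self_mem_nhdsWithin).exists
    have hδpos : (0:ℝ) < δ := hδ0
    -- n large
    obtain ⟨n, hn⟩ := exists_nat_gt ((∑ l ∈ s, ‖Φ (ex (l:ℝ)) - g l‖) * (2 / ε))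
    have hnpos : (0:ℝ) < n := lt_of_le_of_lt (by positivity) hn
    have hn0 : n ≠ 0 := by
      rintro rfl
      simp at hnpos
    set N : Set ℝ := ⋃ l ∈ s, {u : ℝ | (l:ℝ) + u ∈ Ioo (-A) A ∧ Φ (ex (l + u)) ≠ g (l + u)} with hNdef
    have hNnull : volume N = 0 := by
      rw [hNdef]
      refine (measure_biUnion_null_iff (I := (s : Set (Ioo (-A) A))) s.countable_toSet).2 ?_
      intro l _
      have h1 : {u : ℝ | (l:ℝ) + u ∈ Ioo (-A) A ∧ Φ (ex (l + u)) ≠ g (l + u)} =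
          (fun u => (l:ℝ) + u) ⁻¹' {x : ℝ | ¬ (x ∈ Ioo (-A) A → Φ (ex x) = g x)} := by
        ext u
        simp [and_assoc]
      rw [h1, measure_preimage_add]
      exact hfg
    have hT : volume (Ioo (-δ) δ) ≠ 0 := by
      rw [Real.volume_Ioo]
      simp
      linarith
    obtain ⟨x, hxT, hxN⟩ := exists_generic _ N hT hNnull n
    have hxd : ∀ j l, |x j - x l| < 2 * δ := by
      intro j l
      have h1 := (hxT j)
      have h2 := (hxT l)
      rw [abs_lt]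
      constructor <;> linarith [h1.1, h1.2, h2.1, h2.2]
    refine ⟨n, x, fun l hl => ?_⟩
    simp only at hl ⊢
    have hgen : ∀ j i, j ≠ i → Φ (ex ((l:ℝ) + (x j - x i))) = g (l + (x j - x i)) := by
      intro j i hji
      by_contra hne
      apply hxN j i hji
      simp only [hNdef, mem_iUnion]
      exact ⟨l, hl, (hδ1 l hl _ (hxd j i)).1, hne⟩
    -- decompose
    set F : ℝ → ℂ := fun z => Φ (ex z) with hF
    have e1 : ∑ j, ∑ i, F (l + (x j - x i)) = ∑ j, ∑ i, g (l + (x j - x i))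
        + ∑ j, ∑ i, (fun z => F z - g z) (l + (x j - x i)) := by
      rw [← Finset.sum_add_distrib]
      refine Finset.sum_congr rfl fun j _ => ?_
      rw [← Finset.sum_add_distrib]
      refine Finset.sum_congr rfl fun i _ => ?_
      simp
    have e2 : ∑ j, ∑ i, (fun z => F z - g z) (l + (x j - x i)) = n * (F l - g l) := by
      apply generic_sum x (fun z => F z - g z)
      intro j i hji
      simp only [hF]
      rw [hgen j i hji, sub_self]
    have hnC : (n:ℂ) ≠ 0 := by exact_mod_cast hn0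
    have e3 : Φ (avg x * star (avg x) * ex (l:ℝ)) - g l
        = ((n:ℂ)⁻¹) ^ 2 * ∑ j, ∑ i, (g (l + (x j - x i)) - g l) + (n:ℂ)⁻¹ * (F l - g l) := by
      rw [Phi_avg_sq, e1, e2]
      simp only [Finset.sum_sub_distrib, Finset.sum_const, Finset.card_univ, Fintype.card_fin,
        nsmul_eq_mul]
      field_simp
      ring
    rw [e3]
    have f1 : ‖((n:ℂ)⁻¹) ^ 2 * ∑ j, ∑ i, (g (l + (x j - x i)) - g l)‖ ≤ ε / 2 := by
      rw [norm_mul, norm_pow, norm_inv, Complex.norm_natCast]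
      have : ‖∑ j, ∑ i, (g (l + (x j - x i)) - g l)‖ ≤ n * (n * (ε / 2)) := by
        calc ‖∑ j, ∑ i, (g (l + (x j - x i)) - g l)‖
            ≤ ∑ j, ‖∑ i, (g (l + (x j - x i)) - g l)‖ := norm_sum_le _ _
          _ ≤ ∑ j : Fin n, (n * (ε / 2)) := by
              refine Finset.sum_le_sum fun j _ => ?_
              calc ‖∑ i, (g (l + (x j - x i)) - g l)‖
                  ≤ ∑ i, ‖g (l + (x j - x i)) - g l‖ := norm_sum_le _ _
                _ ≤ ∑ i : Fin n, (ε / 2) :=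
                    Finset.sum_le_sum fun i _ => (hδ1 l hl _ (hxd j i)).2
                _ = n * (ε / 2) := by simp
          _ = n * (n * (ε / 2)) := by simp
      calc ((n:ℝ)⁻¹) ^ 2 * ‖∑ j, ∑ i, (g (l + (x j - x i)) - g l)‖
          ≤ ((n:ℝ)⁻¹) ^ 2 * (n * (n * (ε / 2))) := by gcongr
        _ = ε / 2 := by field_simp
    have f2 : ‖(n:ℂ)⁻¹ * (F l - g l)‖ ≤ ε / 2 := by
      rw [norm_mul, norm_inv, Complex.norm_natCast, inv_mul_le_iff₀ hnpos]
      have h1 : ‖F l - g l‖ ≤ ∑ l ∈ s, ‖Φ (ex (l:ℝ)) - g l‖ :=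
        Finset.single_le_sum (f := fun l : Ioo (-A) A => ‖Φ (ex (l:ℝ)) - g l‖)
          (fun _ _ => norm_nonneg _) hl
      rw [← mul_div_assoc, div_lt_iff₀ hεpos] at hn
      linarith
    calc _ ≤ _ := norm_add_le _ _
      _ ≤ ε / 2 + ε / 2 := add_le_add f1 f2
      _ = ε := by ring
  choose n x hx using key
  -- the compactness argument
  set K : Finset (Ioo (-A) A) × ℕ → (ℝ →ᵇ ℂ) := fun i => avg (x i) * star (avg (x i)) with hK
  set Ψ : Finset (Ioo (-A) A) × ℕ → ((ℝ →ᵇ ℂ) →L[ℂ] ℂ) :=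
    fun i => Φ.comp (ContinuousLinearMap.mul ℂ (ℝ →ᵇ ℂ) (K i)) with hΨ
  have hΨa : ∀ i b, Ψ i b = Φ (K i * b) := fun i b => rfl
  have hsplit : ∀ i (b₁ b₂ : ℝ →ᵇ ℂ), ‖b₁‖ ≤ 1 → ‖b₂‖ ≤ 1 →
      ‖Ψ i b₁‖ + ‖Φ b₂ - Ψ i b₂‖ ≤ ‖Φ‖ := by
    intro i b₁ b₂ hb₁ hb₂
    have := avg_split Φ (x i) b₁ b₂ hb₁ hb₂
    rw [sub_mul, one_mul, map_sub] at this
    exact this
  have hΨn : ∀ i, ‖Ψ i‖ ≤ ‖Φ‖ := by
    intro i
    refine ContinuousLinearMap.opNorm_le_of_unit_norm (norm_nonneg _) ?_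
    intro b hb
    have := hsplit i b 0 hb.le (by simp)
    simpa using this
  set U : Ultrafilter (Finset (Ioo (-A) A) × ℕ) := Ultrafilter.of atTop with hU
  have hUle : (U : Filter (Finset (Ioo (-A) A) × ℕ)) ≤ atTop := Ultrafilter.of_le atTop
  obtain ⟨Φ₁, hΦ₁⟩ := exists_ultralimit U Ψ ‖Φ‖ hΨn
  refine ⟨Φ₁, ?_, ?_⟩
  · intro l hl
    have h1 : Tendsto (fun i => Ψ i (ex l)) atTop (𝓝 (g l)) := by
      rw [tendsto_iff_norm_sub_tendsto_zero]
      have h2 : Tendsto (fun i : Finset (Ioo (-A) A) × ℕ => 1 / ((i.2 : ℝ) + 1)) atTop (𝓝 0) :=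
        tendsto_one_div_add_atTop_nhds_zero_nat.comp
          (by rw [← prod_atTop_atTop_eq]; exact tendsto_snd)
      refine squeeze_zero' (Eventually.of_forall fun _ => norm_nonneg _) ?_ h2
      filter_upwards [eventually_ge_atTop (({⟨l, hl⟩} : Finset (Ioo (-A) A)), 0)] with i hi
      have h3 : (⟨l, hl⟩ : Ioo (-A) A) ∈ i.1 := hi.1 (Finset.mem_singleton_self _)
      exact hx i ⟨l, hl⟩ h3
    exact tendsto_nhds_unique (hΦ₁ (ex l)) (h1.mono_left hUle)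
  · intro b₁ b₂ hb₁ hb₂
    have h1 : Tendsto (fun i => ‖Ψ i b₁‖ + ‖Φ b₂ - Ψ i b₂‖) U
        (𝓝 (‖Φ₁ b₁‖ + ‖Φ b₂ - Φ₁ b₂‖)) :=
      (hΦ₁ b₁).norm.add ((tendsto_const_nhds.sub (hΦ₁ b₂)).norm)
    exact le_of_tendsto h1 (Eventually.of_forall fun i => hsplit i b₁ b₂ hb₁ hb₂)


/-- extension with the least norm, almost attained on polynomials with exponents in `S` -/
lemma exists_norming_functional (S : Set ℝ) (f : ℝ → ℂ) (M : ℝ) (hM : 0 ≤ M)
    (h : ∀ c : ℝ →₀ ℂ, (c.support : Set ℝ) ⊆ S →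
      ‖Finsupp.linearCombination ℂ f c‖ ≤ M * ‖lin c‖) :
    ∃ Φ : (ℝ →ᵇ ℂ) →L[ℂ] ℂ, ‖Φ‖ ≤ M ∧ (∀ x ∈ S, Φ (ex x) = f x) ∧ Norming S Φ := by
  set V : Set ℝ := {r : ℝ | ∃ c : ℝ →₀ ℂ, (c.support : Set ℝ) ⊆ S ∧ ‖lin c‖ ≤ 1 ∧
    ‖Finsupp.linearCombination ℂ f c‖ = r} with hV
  have hVne : V.Nonempty := ⟨0, 0, by simp, by simp [lin], by simp⟩
  have hVb : BddAbove V := by
    refine ⟨M, ?_⟩
    rintro r ⟨c, hc, hc1, rfl⟩
    calc _ ≤ M * ‖lin c‖ := h c hc
      _ ≤ M * 1 := by gcongr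
      _ = M := mul_one M
  set C := sSup V with hC
  have hC0 : 0 ≤ C := le_csSup hVb ⟨0, by simp, by simp [lin], by simp⟩
  have hCM : C ≤ M := by
    refine csSup_le hVne ?_
    rintro r ⟨c, hc, hc1, rfl⟩
    calc _ ≤ M * ‖lin c‖ := h c hc
      _ ≤ M * 1 := by gcongr
      _ = M := mul_one M
  have hCb : ∀ c : ℝ →₀ ℂ, (c.support : Set ℝ) ⊆ S →
      ‖Finsupp.linearCombination ℂ f c‖ ≤ C * ‖Finsupp.linearCombination ℂ ex c‖ := by
    intro c hc
    by_cases h0 : ‖lin c‖ = 0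
    · have h1 := h c hc
      rw [h0, mul_zero] at h1
      have h2 : 0 ≤ C * ‖Finsupp.linearCombination ℂ ex c‖ := by positivity
      exact h1.trans h2
    · have hpos : 0 < ‖lin c‖ := lt_of_le_of_ne (norm_nonneg _) (Ne.symm h0)
      set a : ℂ := ((‖lin c‖⁻¹ : ℝ) : ℂ) with ha
      have han : ‖a‖ = ‖lin c‖⁻¹ := by
        rw [ha, Complex.norm_real, Real.norm_of_nonneg (by positivity)]
      have h1 : ‖Finsupp.linearCombination ℂ f (a • c)‖ ≤ C := by
        refine le_csSup hVb ⟨a • c, ?_, ?_, rfl⟩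
        · exact (Finset.coe_subset.2 Finsupp.support_smul).trans hc
        · rw [lin, map_smul, norm_smul, han]
          exact (inv_mul_cancel₀ hpos.ne').le
      rw [map_smul, norm_smul, han, inv_mul_le_iff₀ hpos] at h1
      rw [mul_comm]
      exact h1
  obtain ⟨Φ, hΦ1, hΦ2⟩ := exists_functional ex f S C hC0 hCb
  refine ⟨Φ, hΦ1.trans hCM, hΦ2, ?_⟩
  intro ε hε
  obtain ⟨r, ⟨c, hc, hc1, rfl⟩, hr⟩ := exists_lt_of_lt_csSup hVne (show C - ε < sSup V by linarith)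
  refine ⟨c, hc, hc1, ?_⟩
  have e1 : Φ (lin c) = Finsupp.linearCombination ℂ f c := by
    rw [Phi_lin, Finsupp.linearCombination_apply, Finsupp.sum]
    refine Finset.sum_congr rfl fun l hl => ?_
    rw [hΦ2 l (hc hl), smul_eq_mul]
  rw [e1]
  linarith

/-- approximate continuity -/
def ApCont (f : ℝ → ℂ) (x : ℝ) : Prop :=
  ∀ ε > 0, ∀ θ > 0, ∀ᶠ r in 𝓝[>] (0:ℝ),
    volume {u : ℝ | |u| < r ∧ ε ≤ ‖f (x + u) - f x‖} ≤ ENNReal.ofReal (θ * r)

lemma ae_apCont (f : ℝ → ℂ) (hf : LocallyIntegrable f volume) : ∀ᵐ x : ℝ, ApCont f x := by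
  filter_upwards [IsUnifLocDoublingMeasure.ae_tendsto_average_norm_sub volume hf 1] with x hx
  intro ε hε θ hθ
  have h1 := hx (l := 𝓝[>] (0:ℝ)) (fun _ : ℝ => x) (fun r : ℝ => r) tendsto_id (by
    filter_upwards [self_mem_nhdsWithin] with r hr
    have hr' : (0:ℝ) < r := hr
    simp [hr'.le])
  have h2 : ∀ᶠ r in 𝓝[>] (0:ℝ), ⨍ y in Metric.closedBall x r, ‖f y - f x‖ < ε * θ / 2 :=
    h1.eventually (gt_mem_nhds (by positivity))
  filter_upwards [h2, self_mem_nhdsWithin] with r hr hr0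
  have hr0' : (0:ℝ) < r := hr0
  have hint : IntegrableOn (fun y => ‖f y - f x‖) (Metric.closedBall x r) volume := by
    have h3 : IntegrableOn f (Metric.closedBall x r) volume :=
      hf.integrableOn_isCompact (isCompact_closedBall x r)
    exact (h3.sub (integrableOn_const (by
      exact (isCompact_closedBall x r).measure_lt_top.ne))).norm
  rw [setAverage_eq, smul_eq_mul] at hr
  have hvol : volume.real (Metric.closedBall x r) = 2 * r := by
    rw [Measure.real, Real.volume_closedBall, ENNReal.toReal_ofReal (by positivity)]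
  rw [hvol, inv_mul_lt_iff₀ (by positivity)] at hr
  -- Markov
  have hM := mul_meas_ge_le_integral_of_nonneg (μ := volume.restrict (Metric.closedBall x r))
    (f := fun y => ‖f y - f x‖) (Eventually.of_forall fun _ => norm_nonneg _) hint ε
  have hsub : {u : ℝ | |u| < r ∧ ε ≤ ‖f (x + u) - f x‖} ⊆
      (fun u => x + u) ⁻¹' ({y | ε ≤ ‖f y - f x‖} ∩ Metric.closedBall x r) := by
    intro u hu
    refine ⟨hu.2, ?_⟩
    simp only [Metric.mem_closedBall, Real.dist_eq]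
    rw [add_sub_cancel_left]
    exact hu.1.le
  have hlt : volume ({y | ε ≤ ‖f y - f x‖} ∩ Metric.closedBall x r) ≠ ⊤ :=
    ne_top_of_le_ne_top (isCompact_closedBall x r).measure_lt_top.ne (measure_mono inter_subset_right)
  calc volume {u : ℝ | |u| < r ∧ ε ≤ ‖f (x + u) - f x‖}
      ≤ volume ((fun u => x + u) ⁻¹' ({y | ε ≤ ‖f y - f x‖} ∩ Metric.closedBall x r)) :=
        measure_mono hsub
    _ = volume ({y | ε ≤ ‖f y - f x‖} ∩ Metric.closedBall x r) := measure_preimage_add _ _ _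
    _ = ENNReal.ofReal (volume.real ({y | ε ≤ ‖f y - f x‖} ∩ Metric.closedBall x r)) := by
        rw [Measure.real, ENNReal.ofReal_toReal hlt]
    _ ≤ ENNReal.ofReal (θ * r) := by
        apply ENNReal.ofReal_le_ofReal
        have h4 : (volume.restrict (Metric.closedBall x r)).real {y | ε ≤ ‖f y - f x‖}
            = volume.real ({y | ε ≤ ‖f y - f x‖} ∩ Metric.closedBall x r) := by
          rw [Measure.real, Measure.real, Measure.restrict_apply' Metric.isClosed_closedBall.measurableSet]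
        rw [h4] at hM
        have h5 : ε * volume.real ({y | ε ≤ ‖f y - f x‖} ∩ Metric.closedBall x r) ≤ ε * (θ * r) := by
          nlinarith
        exact le_of_mul_le_mul_left h5 hε


/-- local Riesz theorem: a measurable chi-function is a.e. equal to a continuous function -/
lemma local_riesz (A : ℝ) (f : ℝ → ℂ) (M : ℝ) (hM : 0 ≤ M)
    (h : ∀ c : ℝ →₀ ℂ, (c.support : Set ℝ) ⊆ Ioo (-A) A →
      ‖Finsupp.linearCombination ℂ f c‖ ≤ M * ‖lin c‖)
    (hm : AEMeasurable f (volume.restrict (Ioo (-A) A))) :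
    ∃ g : ℝ → ℂ, Continuous g ∧ ∀ᵐ x : ℝ, x ∈ Ioo (-A) A → f x = g x := by
  classical
  set f₀ : ℝ → ℂ := (Ioo (-A) A).indicator f with hf₀
  have hf₀eq : ∀ x ∈ Ioo (-A) A, f₀ x = f x := fun x hx => indicator_of_mem hx f
  have hbd : ∀ x ∈ Ioo (-A) A, ‖f x‖ ≤ M := by
    intro x hx
    have h1 := h (Finsupp.single x 1) (by
      intro y hy
      have := Finsupp.support_single_subset hy
      rw [Finset.mem_singleton] at this
      rw [this]
      exact hx)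
    simp only [Finsupp.linearCombination_single, one_smul, lin] at h1
    calc ‖f x‖ ≤ M * ‖ex x‖ := h1
      _ ≤ M * 1 := by gcongr; exact norm_ex_le x
      _ = M := mul_one M
  have hint : Integrable f₀ volume := by
    rw [hf₀, integrable_indicator_iff measurableSet_Ioo]
    refine Integrable.of_bound hm.aestronglyMeasurable M ?_
    filter_upwards [ae_restrict_mem measurableSet_Ioo] with x hx
    exact hbd x hx
  have hap := ae_apCont f₀ hint.locallyIntegrable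
  set S : Set ℝ := {x : ℝ | x ∈ Ioo (-A) A ∧ ApCont f₀ x} with hS
  have hSA : S ⊆ Ioo (-A) A := fun x hx => hx.1
  have hSae : volume {x : ℝ | x ∈ Ioo (-A) A ∧ x ∉ S} = 0 := by
    refine measure_mono_null ?_ hap
    intro x hx
    simp only [hS, mem_ofPred_eq, not_and] at hx
    exact hx.2 hx.1
  obtain ⟨Φ, hΦ1, hΦ2, hN⟩ := exists_norming_functional S f M hM (fun c hc => h c (hc.trans hSA))
  refine ⟨fun x => Φ (ex x), ?_, ?_⟩
  swap
  · rw [ae_iff]
    refine measure_mono_null ?_ hSae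
    intro x hx
    simp only [mem_ofPred_eq, Classical.not_imp] at hx
    refine ⟨hx.1, fun hxS => hx.2 (hΦ2 x hxS).symm⟩
  apply continuous_criterion
  intro ε hε
  obtain ⟨c, hcS, hc1, hc2⟩ := hN ε hε
  set W : ℝ := ∑ l ∈ c.support, ‖c l‖ + 1 with hW
  have hWpos : 0 < W := by positivity
  set ε' : ℝ := ε / W with hε'
  have hε'pos : 0 < ε' := by positivity
  set θ : ℝ := 1 / (4 * ((c.support.card : ℝ) + 1)) with hθ
  have hθpos : 0 < θ := by positivity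
  -- choice of r
  have hr : ∀ᶠ r in 𝓝[>] (0:ℝ), ∀ l ∈ c.support,
      volume {u : ℝ | |u| < r ∧ ε' ≤ ‖f₀ (l + u) - f₀ l‖} ≤ ENNReal.ofReal (θ * r) ∧
      ∀ u : ℝ, |u| < r → l + u ∈ Ioo (-A) A := by
    rw [Finset.eventually_all]
    intro l hl
    have hl' := hSA (hcS hl)
    have : Ioo (0:ℝ) (min (l + A) (A - l)) ∈ 𝓝[>] (0:ℝ) := by
      refine Ioo_mem_nhdsGT ?_
      rw [lt_min_iff]
      constructor <;> linarith [hl'.1, hl'.2]
    filter_upwards [(hcS hl).2 ε' hε'pos θ hθpos, this] with r hr1 hr2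
    refine ⟨hr1, fun u hu => ?_⟩
    rw [abs_lt] at hu
    have h1 := hr2.2
    rw [lt_min_iff] at h1
    constructor <;> linarith [hu.1, hu.2, h1.1, h1.2]
  obtain ⟨r, hr1, hr0⟩ := (hr.and self_mem_nhdsWithin).exists
  have hrpos : (0:ℝ) < r := hr0
  set good : ℝ → Prop := fun v => ∀ l ∈ c.support, l + v ∈ S ∧ ‖f₀ (l + v) - f₀ l‖ < ε' with hgood
  have hgoodΦ : ∀ v, good v → ‖Φ (ex v * lin c) - Φ (lin c)‖ ≤ ε := by
    intro v hv
    rw [Phi_ex_mul_lin, Phi_lin, ← Finset.sum_sub_distrib]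
    calc ‖∑ l ∈ c.support, (c l * Φ (ex (l + v)) - c l * Φ (ex l))‖
        ≤ ∑ l ∈ c.support, ‖c l * Φ (ex (l + v)) - c l * Φ (ex l)‖ := norm_sum_le _ _
      _ ≤ ∑ l ∈ c.support, ‖c l‖ * ε' := by
          refine Finset.sum_le_sum fun l hl => ?_
          rw [← mul_sub, norm_mul, hΦ2 _ (hv l hl).1, hΦ2 l (hcS hl),
            ← hf₀eq _ (hSA (hv l hl).1), ← hf₀eq _ (hSA (hcS hl))]
          exact mul_le_mul_of_nonneg_left (hv l hl).2.le (norm_nonneg _)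
      _ = (∑ l ∈ c.support, ‖c l‖) * ε' := by rw [Finset.sum_mul]
      _ ≤ W * ε' := by
          gcongr
          linarith
      _ = ε := by rw [hε']; field_simp
  set Bad : Set ℝ := {v : ℝ | |v| < r ∧ ¬ good v} with hBad
  have hBadvol : volume Bad ≤ ENNReal.ofReal (r / 4) := by
    have hsub : Bad ⊆ ⋃ l ∈ c.support, ({u : ℝ | |u| < r ∧ ε' ≤ ‖f₀ (l + u) - f₀ l‖} ∪
        (fun u => l + u) ⁻¹' {x : ℝ | x ∈ Ioo (-A) A ∧ x ∉ S}) := by
      rintro v ⟨hv1, hv2⟩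
      simp only [hgood, not_forall, exists_prop] at hv2
      obtain ⟨l, hl, hv3⟩ := hv2
      simp only [mem_iUnion]
      refine ⟨l, hl, ?_⟩
      by_cases hvS : l + v ∈ S
      · left
        refine ⟨hv1, ?_⟩
        by_contra hlt
        exact hv3 ⟨hvS, not_le.1 hlt⟩
      · right
        exact ⟨(hr1 l hl).2 v hv1, hvS⟩
    calc volume Bad ≤ volume (⋃ l ∈ c.support, ({u : ℝ | |u| < r ∧ ε' ≤ ‖f₀ (l + u) - f₀ l‖} ∪
        (fun u => l + u) ⁻¹' {x : ℝ | x ∈ Ioo (-A) A ∧ x ∉ S})) := measure_mono hsub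
      _ ≤ ∑ l ∈ c.support, volume ({u : ℝ | |u| < r ∧ ε' ≤ ‖f₀ (l + u) - f₀ l‖} ∪
        (fun u => l + u) ⁻¹' {x : ℝ | x ∈ Ioo (-A) A ∧ x ∉ S}) := measure_biUnion_finset_le _ _
      _ ≤ ∑ l ∈ c.support, ENNReal.ofReal (θ * r) := by
          refine Finset.sum_le_sum fun l hl => ?_
          calc _ ≤ volume {u : ℝ | |u| < r ∧ ε' ≤ ‖f₀ (l + u) - f₀ l‖} +
                volume ((fun u => l + u) ⁻¹' {x : ℝ | x ∈ Ioo (-A) A ∧ x ∉ S}) := measure_union_le _ _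
            _ = volume {u : ℝ | |u| < r ∧ ε' ≤ ‖f₀ (l + u) - f₀ l‖} := by
                rw [measure_preimage_add, hSae, add_zero]
            _ ≤ _ := (hr1 l hl).1
      _ = ENNReal.ofReal (c.support.card * (θ * r)) := by
          rw [Finset.sum_const, nsmul_eq_mul, ENNReal.ofReal_mul (p := (c.support.card : ℝ)) (by positivity),
            ENNReal.ofReal_natCast]
      _ ≤ ENNReal.ofReal (r / 4) := by
          apply ENNReal.ofReal_le_ofReal
          rw [hθ]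
          have : (c.support.card : ℝ) * (1 / (4 * ((c.support.card : ℝ) + 1)) * r)
              = (c.support.card : ℝ) / ((c.support.card : ℝ) + 1) * (r / 4) := by
            field_simp
          rw [this]
          have h2 : (c.support.card : ℝ) / ((c.support.card : ℝ) + 1) ≤ 1 := by
            rw [div_le_one (by positivity)]
            linarith
          nlinarith
  refine ⟨r / 2, by positivity, fun x hx => ?_⟩
  -- find a good point
  obtain ⟨u, hu1, hu2, hu3⟩ : ∃ u : ℝ, good u ∧ good (x + u) ∧ good (-x + u) := by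
    by_contra hcon
    push Not at hcon
    have hsub : Ioo (-(r / 2)) (r / 2) ⊆ Bad ∪ ((fun u => x + u) ⁻¹' Bad ∪ (fun u => -x + u) ⁻¹' Bad) := by
      intro u hu
      have hu' : |u| < r / 2 := abs_lt.2 ⟨by linarith [hu.1], hu.2⟩
      have h1 : |u| < r := by linarith
      have h2 : |x + u| < r := by
        calc |x + u| ≤ |x| + |u| := abs_add_le _ _
          _ < r := by linarith
      have h3 : |-x + u| < r := by
        calc |-x + u| ≤ |-x| + |u| := abs_add_le _ _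
          _ = |x| + |u| := by rw [abs_neg]
          _ < r := by linarith
      by_cases g1 : good u
      · right
        by_cases g2 : good (x + u)
        · right
          exact ⟨h3, hcon u g1 g2⟩
        · left
          exact ⟨h2, g2⟩
      · left
        exact ⟨h1, g1⟩
    have hv := measure_mono (μ := volume) hsub
    rw [Real.volume_Ioo] at hv
    have hv2 : volume (Bad ∪ ((fun u => x + u) ⁻¹' Bad ∪ (fun u => -x + u) ⁻¹' Bad)) ≤
        ENNReal.ofReal (3 * (r / 4)) := by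
      calc _ ≤ volume Bad + (volume ((fun u => x + u) ⁻¹' Bad) + volume ((fun u => -x + u) ⁻¹' Bad)) :=
            (measure_union_le _ _).trans (add_le_add le_rfl (measure_union_le _ _))
        _ = volume Bad + (volume Bad + volume Bad) := by
            rw [measure_preimage_add, measure_preimage_add]
        _ ≤ ENNReal.ofReal (r / 4) + (ENNReal.ofReal (r / 4) + ENNReal.ofReal (r / 4)) := by
            gcongr
        _ = ENNReal.ofReal (3 * (r / 4)) := by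
            rw [← ENNReal.ofReal_add (by positivity) (by positivity),
              ← ENNReal.ofReal_add (by positivity) (by positivity)]
            congr 1
            ring
    have hv3 := hv.trans hv2
    rw [ENNReal.ofReal_le_ofReal_iff (by positivity)] at hv3
    linarith
  refine ⟨ex u * lin c, Φ (lin c), ?_, hc2, hgoodΦ u hu1, ?_, ?_⟩
  · calc ‖ex u * lin c‖ ≤ ‖ex u‖ * ‖lin c‖ := norm_mul_le _ _
      _ ≤ 1 * 1 := by
          gcongr
          exact norm_ex_le u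
      _ = 1 := one_mul 1
  · rw [← mul_assoc, ex_mul]
    exact hgoodΦ _ hu2
  · rw [← mul_assoc, ex_mul]
    exact hgoodΦ _ hu3

/-- The main statement at the level of functionals. -/
lemma main_functional (A : ℝ) (Φ : (ℝ →ᵇ ℂ) →L[ℂ] ℂ) (hN : Norming (Ioo (-A) A) Φ)
    (hm : AEMeasurable (fun x => Φ (ex x)) (volume.restrict (Ioo (-A) A))) :
    AEMeasurable (fun x => Φ (ex x)) volume := by
  obtain ⟨g, hg, hfg⟩ := local_riesz A (fun x => Φ (ex x)) ‖Φ‖ (norm_nonneg _) (by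
    intro c _
    have : Finsupp.linearCombination ℂ (fun x => Φ (ex x)) c = Φ (lin c) := by
      rw [Phi_lin, Finsupp.linearCombination_apply, Finsupp.sum]
      rfl
    rw [this]
    exact Φ.le_opNorm _) hm
  obtain ⟨Φ₁, h1, h2⟩ := splitting A Φ g hg hfg
  have hnorm : ‖Φ₁‖ + ‖Φ - Φ₁‖ ≤ ‖Φ‖ := by
    have e1 : ∀ b₂ : ℝ →ᵇ ℂ, ‖b₂‖ ≤ 1 → ‖Φ₁‖ ≤ ‖Φ‖ - ‖(Φ - Φ₁) b₂‖ := by
      intro b₂ hb₂
      refine ContinuousLinearMap.opNorm_le_of_unit_norm ?_ ?_
      · have := h2 0 b₂ (by simp) hb₂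
        have h0 := norm_nonneg (Φ₁ 0)
        linarith
      · intro b₁ hb₁
        have := h2 b₁ b₂ hb₁.le hb₂
        linarith
    have e2 : ‖Φ - Φ₁‖ ≤ ‖Φ‖ - ‖Φ₁‖ := by
      refine ContinuousLinearMap.opNorm_le_of_unit_norm ?_ ?_
      · have := e1 0 (by simp)
        rw [map_zero, norm_zero] at this
        linarith
      · intro b₂ hb₂
        have := e1 b₂ hb₂.le
        linarith
    linarith
  have hN1 : Norming (Ioo (-A) A) Φ₁ := by
    intro ε hε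
    obtain ⟨c, hc, hc1, hc2⟩ := hN ε hε
    refine ⟨c, hc, hc1, ?_⟩
    have e1 : ‖Φ (lin c)‖ ≤ ‖Φ₁ (lin c)‖ + ‖(Φ - Φ₁) (lin c)‖ := by
      have : Φ (lin c) = Φ₁ (lin c) + (Φ - Φ₁) (lin c) := by simp
      rw [this]
      exact norm_add_le _ _
    have e2 : ‖(Φ - Φ₁) (lin c)‖ ≤ ‖Φ - Φ₁‖ := by
      calc _ ≤ ‖Φ - Φ₁‖ * ‖lin c‖ := (Φ - Φ₁).le_opNorm _
        _ ≤ ‖Φ - Φ₁‖ * 1 := by gcongr
        _ = ‖Φ - Φ₁‖ := mul_one _
    linarith
  have hN2 : Norming (Ioo (-A) A) (Φ - Φ₁) := by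
    intro ε hε
    obtain ⟨c, hc, hc1, hc2⟩ := hN ε hε
    refine ⟨c, hc, hc1, ?_⟩
    have e1 : ‖Φ (lin c)‖ ≤ ‖Φ₁ (lin c)‖ + ‖(Φ - Φ₁) (lin c)‖ := by
      have : Φ (lin c) = Φ₁ (lin c) + (Φ - Φ₁) (lin c) := by simp
      rw [this]
      exact norm_add_le _ _
    have e2 : ‖Φ₁ (lin c)‖ ≤ ‖Φ₁‖ := by
      calc _ ≤ ‖Φ₁‖ * ‖lin c‖ := Φ₁.le_opNorm _
        _ ≤ ‖Φ₁‖ * 1 := by gcongr
        _ = ‖Φ₁‖ := mul_one _
    linarith
  have hc1 : Continuous fun x => Φ₁ (ex x) := by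
    apply continuous_of_norming A Φ₁ hN1
    refine hg.continuousOn.congr ?_
    intro x hx
    exact h1 x hx
  have hz : (fun x => (Φ - Φ₁) (ex x)) =ᵐ[volume] 0 := by
    apply zero_of_norming A (Φ - Φ₁) hN2
    filter_upwards [hfg] with x hx hxA
    rw [sub_apply, h1 x hxA, hx hxA, sub_self]
  have : (fun x => Φ (ex x)) =ᵐ[volume] fun x => Φ₁ (ex x) := by
    filter_upwards [hz] with x hx
    rw [sub_apply] at hx
    exact sub_eq_zero.1 hx
  exact hc1.aemeasurable.congr this.symm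

end Pool.Agent.helper35.Chi
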