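import Pool.Agent.helper39.CliqueGame.Game

/-!
# The clique game: forcing a property, and strategies from backward induction
-/

set_option autoImplicit false

namespace Pool.Agent.helper35.CliqueUp

open Pool.Agent.CliqueGame

/-- Maker can play `n` more rounds so that the set of his edges satisfies `P` after that. -/
def Force (P : Finset (Sym2 ℕ) → Prop) : ℕ → Finset (Sym2 ℕ) → Finset (Sym2 ℕ) → Prop
  | 0, M, _ => P M
  | n + 1, M, B => ∃ e : Sym2 ℕ, ¬ e.IsDiag ∧ e ∉ M ∧ e ∉ B ∧
      ∀ f : Sym2 ℕ, ¬ f.IsDiag → f ∉ insert e M → f ∉ B → Force P n (insert e M) (insert f B)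

theorem force_iff_win (q n : ℕ) : ∀ M B : Finset (Sym2 ℕ),
    Force (fun M => HasClique q (M : Set (Sym2 ℕ))) n M B ↔ Win q n M B := by
  induction n with
  | zero => intro M B; exact Iff.rfl
  | succ n ih =>
    intro M B
    simp only [Force, Win, ih]

/-- on the infinite board there is always a free edge -/
theorem exists_free (M B : Finset (Sym2 ℕ)) : ∃ e : Sym2 ℕ, ¬ e.IsDiag ∧ e ∉ M ∧ e ∉ B := by
  classical
  have hinj : Function.Injective (fun n : ℕ => (s(n, n + 1) : Sym2 ℕ)) := by
    intro a b h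
    simp only [Sym2.eq_iff] at h
    omega
  have hinf : (Set.range (fun n : ℕ => (s(n, n + 1) : Sym2 ℕ))).Infinite :=
    Set.infinite_range_of_injective hinj
  obtain ⟨e, ⟨n, rfl⟩, he⟩ := hinf.exists_notMem_finset (M ∪ B)
  rw [Finset.mem_union, not_or] at he
  refine ⟨s(n, n + 1), ?_, he.1, he.2⟩
  rw [Sym2.mk_isDiag_iff]
  omega

/-- `P` is preserved when Maker gets more edges -/
def Mono (P : Finset (Sym2 ℕ) → Prop) : Prop := ∀ M M' : Finset (Sym2 ℕ), M ⊆ M' → P M → P M'

theorem Force.of_target {P : Finset (Sym2 ℕ) → Prop} (hP : Mono P) (n : ℕ) :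
    ∀ M B : Finset (Sym2 ℕ), P M → Force P n M B := by
  induction n with
  | zero => intro M B h; exact h
  | succ n ih =>
    intro M B h
    obtain ⟨e, h1, h2, h3⟩ := exists_free M B
    exact ⟨e, h1, h2, h3, fun f _ _ _ => ih _ _ (hP _ _ (Finset.subset_insert _ _) h)⟩

theorem Force.mono_n {P : Finset (Sym2 ℕ) → Prop} (hP : Mono P) {n : ℕ} :
    ∀ {m : ℕ} {M B : Finset (Sym2 ℕ)}, n ≤ m → Force P n M B → Force P m M B := by
  induction n with
  | zero => intro m M B _ h; exact Force.of_target hP m M B h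
  | succ n ih =>
    intro m M B hm h
    obtain ⟨m, rfl⟩ : ∃ m', m = m' + 1 := ⟨m - 1, by omega⟩
    obtain ⟨e, h1, h2, h3, h4⟩ := h
    exact ⟨e, h1, h2, h3, fun f hf1 hf2 hf3 => ih (by omega) (h4 f hf1 hf2 hf3)⟩

theorem Force.mono_B {P : Finset (Sym2 ℕ) → Prop} {n : ℕ} :
    ∀ {M B B' : Finset (Sym2 ℕ)}, B' ⊆ B → Force P n M B → Force P n M B' := by
  induction n with
  | zero => intro M B B' _ h; exact h
  | succ n ih =>
    intro M B B' hB h
    obtain ⟨e, h1, h2, h3, h4⟩ := h
    refine ⟨e, h1, h2, fun h => h3 (hB h), ?_⟩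
    intro f hf1 hf2 hf3
    by_cases hf : f ∈ B
    · obtain ⟨g, hg1, hg2, hg3⟩ := exists_free (insert e M) B
      refine ih ?_ (h4 g hg1 hg2 hg3)
      intro x hx
      rw [Finset.mem_insert] at hx
      rcases hx with rfl | hx
      · exact Finset.mem_insert_of_mem hf
      · exact Finset.mem_insert_of_mem (hB hx)
    · exact ih (Finset.insert_subset_insert _ hB) (h4 f hf1 hf2 hf)

/-- change of the target, using that Maker's set only grows -/
theorem Force.mono_P {P Q : Finset (Sym2 ℕ) → Prop} {n : ℕ} :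
    ∀ {M B : Finset (Sym2 ℕ)}, (∀ M', M ⊆ M' → P M' → Q M') → Force P n M B → Force Q n M B := by
  induction n with
  | zero => intro M B hPQ h; exact hPQ M (Finset.Subset.refl _) h
  | succ n ih =>
    intro M B hPQ h
    obtain ⟨e, h1, h2, h3, h4⟩ := h
    refine ⟨e, h1, h2, h3, fun f hf1 hf2 hf3 => ih ?_ (h4 f hf1 hf2 hf3)⟩
    intro M' hM' hP'
    exact hPQ M' ((Finset.subset_insert _ _).trans hM') hP'

/-! ### From backward induction to strategies -/

theorem strategy_of_force {P : Finset (Sym2 ℕ) → Prop} (n : ℕ) :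
    ∀ M B : Finset (Sym2 ℕ), Force P n M B →
      ∃ σ : MakerStrategy, ∀ b : ℕ → Sym2 ℕ,
        (∀ i < n, (∀ j < i, BreakerLegal σ b j ∧ b j ∉ M ∧ b j ∉ B) →
          MakerLegal σ b i ∧ makerMove σ b i ∉ M ∧ makerMove σ b i ∉ B) ∧
        ((∀ j < n, BreakerLegal σ b j ∧ b j ∉ M ∧ b j ∉ B) →
          P (M ∪ (Finset.range n).image (makerMove σ b))) := by
  classical
  induction n with
  | zero =>
    intro M B h
    refine ⟨fun _ => s(0, 1), fun b => ⟨fun i hi => absurd hi (Nat.not_lt_zero _), fun _ => ?_⟩⟩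
    have h' : P M := h
    simpa using h'
  | succ n ih =>
    intro M B h
    obtain ⟨e, h1, h2, h3, h4⟩ := h
    -- for every reply a strategy
    have hτ : ∀ f : Sym2 ℕ, ∃ τ : MakerStrategy, (¬ f.IsDiag ∧ f ∉ insert e M ∧ f ∉ B) →
        ∀ b : ℕ → Sym2 ℕ,
        (∀ i < n, (∀ j < i, BreakerLegal τ b j ∧ b j ∉ insert e M ∧ b j ∉ insert f B) →
          MakerLegal τ b i ∧ makerMove τ b i ∉ insert e M ∧ makerMove τ b i ∉ insert f B) ∧
        ((∀ j < n, BreakerLegal τ b j ∧ b j ∉ insert e M ∧ b j ∉ insert f B) →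
          P (insert e M ∪ (Finset.range n).image (makerMove τ b))) := by
      intro f
      by_cases hf : ¬ f.IsDiag ∧ f ∉ insert e M ∧ f ∉ B
      · obtain ⟨τ, hτ⟩ := ih _ _ (h4 f hf.1 hf.2.1 hf.2.2)
        exact ⟨τ, fun _ => hτ⟩
      · exact ⟨fun _ => e, fun h => absurd h hf⟩
    choose τ hτ using hτ
    let σ : MakerStrategy := fun l => match l with
      | [] => e
      | f :: l => τ f l
    have hs0 : ∀ b : ℕ → Sym2 ℕ, makerMove σ b 0 = e := fun b => rfl
    have hs1 : ∀ (b : ℕ → Sym2 ℕ) (i : ℕ),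
        makerMove σ b (i + 1) = makerMove (τ (b 0)) (fun k => b (k + 1)) i := by
      intro b i
      simp only [makerMove]
      rw [List.range_succ_eq_map, List.map_cons, List.map_map]
      rfl
    refine ⟨σ, fun b => ?_⟩
    set b' : ℕ → Sym2 ℕ := fun k => b (k + 1) with hb'
    -- transfer of legality of Breaker's moves
    have key : ∀ m : ℕ, (∀ j < m + 1, BreakerLegal σ b j ∧ b j ∉ M ∧ b j ∉ B) →
        (¬ (b 0).IsDiag ∧ b 0 ∉ insert e M ∧ b 0 ∉ B) ∧
        (∀ j < m, BreakerLegal (τ (b 0)) b' j ∧ b' j ∉ insert e M ∧ b' j ∉ insert (b 0) B) := by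
      intro m hm
      have h0 := hm 0 (Nat.succ_pos _)
      have h01 : b 0 ≠ e := by
        have := h0.1.2.1 0 le_rfl
        rwa [hs0] at this
      refine ⟨⟨h0.1.1, ?_, h0.2.2⟩, ?_⟩
      · rw [Finset.mem_insert, not_or]; exact ⟨h01, h0.2.1⟩
      · intro j hj
        have hj' := hm (j + 1) (by omega)
        refine ⟨⟨hj'.1.1, ?_, ?_⟩, ?_, ?_⟩
        · intro k hk
          have := hj'.1.2.1 (k + 1) (by omega)
          rwa [hs1] at this
        · intro k hk
          exact hj'.1.2.2 (k + 1) (by omega)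
        · rw [Finset.mem_insert, not_or]
          refine ⟨?_, hj'.2.1⟩
          have := hj'.1.2.1 0 (by omega)
          rwa [hs0] at this
        · rw [Finset.mem_insert, not_or]
          exact ⟨hj'.1.2.2 0 (by omega), hj'.2.2⟩
    constructor
    · intro i hi hleg
      cases i with
      | zero =>
        refine ⟨⟨by rw [hs0]; exact h1, ?_, ?_⟩, by rw [hs0]; exact h2, by rw [hs0]; exact h3⟩
        · intro j hj; exact absurd hj (Nat.not_lt_zero _)
        · intro j hj; exact absurd hj (Nat.not_lt_zero _)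
      | succ i =>
        obtain ⟨hk1, hk2⟩ := key i hleg
        obtain ⟨⟨g1, g2, g3⟩, g4, g5⟩ := (hτ (b 0) hk1 b').1 i (by omega) hk2
        rw [Finset.mem_insert, not_or] at g4 g5
        refine ⟨⟨by rw [hs1]; exact g1, ?_, ?_⟩, by rw [hs1]; exact g4.2, by rw [hs1]; exact g5.2⟩
        · intro j hj
          cases j with
          | zero => rw [hs1, hs0]; exact g4.1
          | succ j => rw [hs1, hs1]; exact g2 j (by omega)
        · intro j hj
          cases j with
          | zero => rw [hs1]; exact g5.1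
          | succ j => rw [hs1]; exact g3 j (by omega)
    · intro hleg
      obtain ⟨hk1, hk2⟩ := key n hleg
      have := (hτ (b 0) hk1 b').2 hk2
      have e1 : M ∪ (Finset.range (n + 1)).image (makerMove σ b)
          = insert e M ∪ (Finset.range n).image (makerMove (τ (b 0)) b') := by
        ext x
        simp only [Finset.mem_union, Finset.mem_image, Finset.mem_range, Finset.mem_insert]
        constructor
        · rintro (h | ⟨i, hi, rfl⟩)
          · exact Or.inl (Or.inr h)
          · cases i with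
            | zero => exact Or.inl (Or.inl (hs0 b))
            | succ i => exact Or.inr ⟨i, by omega, (hs1 b i).symm⟩
        · rintro ((rfl | h) | ⟨i, hi, rfl⟩)
          · exact Or.inr ⟨0, by omega, hs0 b⟩
          · exact Or.inl h
          · exact Or.inr ⟨i + 1, by omega, hs1 b i⟩
      rw [e1]
      exact this

theorem makerWins_of_win {q m : ℕ} (h : Win q m (∅ : Finset (Sym2 ℕ)) ∅) : MakerWinsWithin q m := by
  classical
  rw [← force_iff_win] at h
  obtain ⟨σ, hσ⟩ := strategy_of_force m ∅ ∅ h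
  refine ⟨σ, fun b => ⟨?_, ?_⟩⟩
  · intro i hi hleg
    exact ((hσ b).1 i hi (fun j hj => ⟨hleg j hj, Finset.notMem_empty _, Finset.notMem_empty _⟩)).1
  · intro hleg
    have := (hσ b).2 (fun j hj => ⟨hleg j hj, Finset.notMem_empty _, Finset.notMem_empty _⟩)
    refine this.mono ?_
    intro x hx
    rw [Finset.empty_union, Finset.coe_image] at hx
    obtain ⟨i, hi, rfl⟩ := hx
    exact ⟨i, by simpa using hi, rfl⟩

end Pool.Agent.helper35.CliqueUp
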