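import Pool.Agent.helper35.CliqueUp1

/-!
# A second moment criterion for Maker
-/

set_option autoImplicit false

namespace Pool.Agent.helper35.CliqueUp

open Pool.Agent.CliqueGame

/-- the weight of a single edge -/
noncomputable def th (M B : Finset (Sym2 ℕ)) (e : Sym2 ℕ) : ℝ :=
  if e ∈ M then 1 else if e ∈ B then 0 else 1 / 2

/-- the weight of a set of edges -/
noncomputable def wt (M B : Finset (Sym2 ℕ)) (G : Finset (Sym2 ℕ)) : ℝ := ∏ e ∈ G, th M B e

theorem th_nonneg (M B : Finset (Sym2 ℕ)) (e : Sym2 ℕ) : 0 ≤ th M B e := by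
  unfold th; split_ifs <;> norm_num

theorem th_le_one (M B : Finset (Sym2 ℕ)) (e : Sym2 ℕ) : th M B e ≤ 1 := by
  unfold th; split_ifs <;> norm_num

theorem wt_nonneg (M B G : Finset (Sym2 ℕ)) : 0 ≤ wt M B G :=
  Finset.prod_nonneg (fun e _ => th_nonneg M B e)

theorem wt_le_one (M B G : Finset (Sym2 ℕ)) : wt M B G ≤ 1 :=
  Finset.prod_le_one (fun e _ => th_nonneg M B e) (fun e _ => th_le_one M B e)

/-- the weight of a union is at least the product of the weights -/
theorem wt_union (M B G H : Finset (Sym2 ℕ)) : wt M B G * wt M B H ≤ wt M B (G ∪ H) := by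
  have h1 : wt M B (G ∪ H) * wt M B (G ∩ H) = wt M B G * wt M B H :=
    Finset.prod_union_inter
  rw [← h1]
  calc wt M B (G ∪ H) * wt M B (G ∩ H) ≤ wt M B (G ∪ H) * 1 :=
        mul_le_mul_of_nonneg_left (wt_le_one _ _ _) (wt_nonneg _ _ _)
    _ = _ := mul_one _

/-- `1` if `e ∈ G`, else `0` -/
noncomputable def ind (G : Finset (Sym2 ℕ)) (e : Sym2 ℕ) : ℝ := if e ∈ G then 1 else 0

theorem ind_nonneg (G : Finset (Sym2 ℕ)) (e : Sym2 ℕ) : 0 ≤ ind G e := by
  unfold ind; split_ifs <;> norm_num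

theorem th_step {M B : Finset (Sym2 ℕ)} {e f : Sym2 ℕ} (he : e ∉ M) (he' : e ∉ B)
    (hf : f ∉ M) (hf' : f ∉ B) (hef : e ≠ f) (x : Sym2 ℕ) :
    th (insert e M) (insert f B) x
      = th M B x * (if x = e then 2 else 1) * (if x = f then 0 else 1) := by
  unfold th
  by_cases hxe : x = e
  · subst hxe
    simp [he, he', hef]
  · by_cases hxf : x = f
    · subst hxf
      simp [hf, hxe]
    · by_cases hxM : x ∈ M
      · simp [hxe, hxf, hxM]
      · by_cases hxB : x ∈ B
        · simp [hxe, hxf, hxM, hxB]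
        · simp [hxe, hxf, hxM, hxB]

theorem wt_step {M B : Finset (Sym2 ℕ)} {e f : Sym2 ℕ} (he : e ∉ M) (he' : e ∉ B)
    (hf : f ∉ M) (hf' : f ∉ B) (hef : e ≠ f) (G : Finset (Sym2 ℕ)) :
    wt (insert e M) (insert f B) G
      = wt M B G * (1 + ind G e - ind G f - ind G e * ind G f) := by
  unfold wt
  have h1 : ∏ x ∈ G, th (insert e M) (insert f B) x
      = (∏ x ∈ G, th M B x) * (∏ x ∈ G, (if x = e then (2:ℝ) else 1))
        * (∏ x ∈ G, (if x = f then (0:ℝ) else 1)) := by
    rw [← Finset.prod_mul_distrib, ← Finset.prod_mul_distrib]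
    exact Finset.prod_congr rfl (fun x _ => th_step he he' hf hf' hef x)
  rw [h1, Finset.prod_ite_eq' , Finset.prod_ite_eq']
  unfold ind
  by_cases h2 : e ∈ G <;> by_cases h3 : f ∈ G <;> simp [h2, h3] <;> norm_num

theorem wt_insert_B {M B : Finset (Sym2 ℕ)} {f : Sym2 ℕ} {G : Finset (Sym2 ℕ)} (hf : f ∉ G) :
    wt M (insert f B) G = wt M B G := by
  unfold wt
  refine Finset.prod_congr rfl (fun x hx => ?_)
  have : x ≠ f := fun h => hf (h ▸ hx)
  unfold th
  simp [this]

theorem wt_pos_iff {M B G : Finset (Sym2 ℕ)} (h : 0 < wt M B G) : ∀ x ∈ G, x ∈ M ∨ x ∉ B := by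
  intro x hx
  by_contra hcon
  push Not at hcon
  have : wt M B G = 0 := by
    unfold wt
    apply Finset.prod_eq_zero hx
    unfold th
    simp [hcon.1, hcon.2]
  rw [this] at h
  exact lt_irrefl _ h

section crit

variable {ι : Type*} (I : Finset ι) (E : ι → Finset (Sym2 ℕ)) (J : Finset (ι × ι)) (l : ℝ)

/-- the potential `T - l Y` -/
noncomputable def pot (M B : Finset (Sym2 ℕ)) : ℝ :=
  (∑ i ∈ I, wt M B (E i)) - l * ∑ p ∈ J, wt M B (E p.1 ∪ E p.2)

/-- the derivative of the potential -/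
noncomputable def dpot (M B : Finset (Sym2 ℕ)) (e : Sym2 ℕ) : ℝ :=
  (∑ i ∈ I, wt M B (E i) * ind (E i) e)
    - l * ∑ p ∈ J, wt M B (E p.1 ∪ E p.2) * ind (E p.1 ∪ E p.2) e

variable {I E J l}

theorem pot_step {M B : Finset (Sym2 ℕ)} {e f : Sym2 ℕ} (he : e ∉ M) (he' : e ∉ B)
    (hf : f ∉ M) (hf' : f ∉ B) (hef : e ≠ f) :
    pot I E J l (insert e M) (insert f B)
      = pot I E J l M B + dpot I E J l M B e - dpot I E J l M B f
        - (∑ i ∈ I, wt M B (E i) * (ind (E i) e * ind (E i) f))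
        + l * ∑ p ∈ J, wt M B (E p.1 ∪ E p.2) * (ind (E p.1 ∪ E p.2) e * ind (E p.1 ∪ E p.2) f) := by
  unfold pot dpot
  have h1 : ∑ i ∈ I, wt (insert e M) (insert f B) (E i)
      = (∑ i ∈ I, wt M B (E i)) + (∑ i ∈ I, wt M B (E i) * ind (E i) e)
        - (∑ i ∈ I, wt M B (E i) * ind (E i) f)
        - (∑ i ∈ I, wt M B (E i) * (ind (E i) e * ind (E i) f)) := by
    rw [← Finset.sum_add_distrib, ← Finset.sum_sub_distrib, ← Finset.sum_sub_distrib]
    refine Finset.sum_congr rfl (fun i _ => ?_)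
    rw [wt_step he he' hf hf' hef]; ring
  have h2 : ∑ p ∈ J, wt (insert e M) (insert f B) (E p.1 ∪ E p.2)
      = (∑ p ∈ J, wt M B (E p.1 ∪ E p.2))
        + (∑ p ∈ J, wt M B (E p.1 ∪ E p.2) * ind (E p.1 ∪ E p.2) e)
        - (∑ p ∈ J, wt M B (E p.1 ∪ E p.2) * ind (E p.1 ∪ E p.2) f)
        - (∑ p ∈ J, wt M B (E p.1 ∪ E p.2)
            * (ind (E p.1 ∪ E p.2) e * ind (E p.1 ∪ E p.2) f)) := by
    rw [← Finset.sum_add_distrib, ← Finset.sum_sub_distrib, ← Finset.sum_sub_distrib]
    refine Finset.sum_congr rfl (fun i _ => ?_)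
    rw [wt_step he he' hf hf' hef]; ring
  rw [h1, h2]
  ring

/-- the square of the first sum is at most the second sum -/
theorem sq_le (hJ : ∀ i ∈ I, ∀ j ∈ I, ∀ e f, e ≠ f → e ∈ E i → f ∈ E i → e ∈ E j → f ∈ E j →
      (i, j) ∈ J) {M B : Finset (Sym2 ℕ)} {e f : Sym2 ℕ} (hef : e ≠ f) :
    (∑ i ∈ I, wt M B (E i) * (ind (E i) e * ind (E i) f)) ^ 2
      ≤ ∑ p ∈ J, wt M B (E p.1 ∪ E p.2)
          * (ind (E p.1 ∪ E p.2) e * ind (E p.1 ∪ E p.2) f) := by
  classical
  have hfil : ∑ i ∈ I, wt M B (E i) * (ind (E i) e * ind (E i) f)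
      = ∑ i ∈ I.filter (fun i => e ∈ E i ∧ f ∈ E i), wt M B (E i) := by
    rw [Finset.sum_filter]
    refine Finset.sum_congr rfl (fun i _ => ?_)
    unfold ind
    by_cases h2 : e ∈ E i <;> by_cases h3 : f ∈ E i <;> simp [h2, h3]
  rw [hfil, sq, Finset.sum_mul_sum, ← Finset.sum_product']
  have hsub : (I.filter (fun i => e ∈ E i ∧ f ∈ E i)) ×ˢ (I.filter (fun i => e ∈ E i ∧ f ∈ E i))
      ⊆ J := by
    intro p hp
    rw [Finset.mem_product, Finset.mem_filter, Finset.mem_filter] at hp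
    exact hJ p.1 hp.1.1 p.2 hp.2.1 e f hef hp.1.2.1 hp.1.2.2 hp.2.2.1 hp.2.2.2
  refine le_trans ?_ (Finset.sum_le_sum_of_subset_of_nonneg hsub ?_)
  · refine Finset.sum_le_sum (fun p hp => ?_)
    rw [Finset.mem_product, Finset.mem_filter, Finset.mem_filter] at hp
    have h1 : ind (E p.1 ∪ E p.2) e = 1 := by
      unfold ind; rw [if_pos (Finset.mem_union_left _ hp.1.2.1)]
    have h2 : ind (E p.1 ∪ E p.2) f = 1 := by
      unfold ind; rw [if_pos (Finset.mem_union_left _ hp.1.2.2)]
    rw [h1, h2, mul_one, mul_one]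
    exact wt_union _ _ _ _
  · intro p _ _
    exact mul_nonneg (wt_nonneg _ _ _) (mul_nonneg (ind_nonneg _ _) (ind_nonneg _ _))

theorem pot_step_ge (hl : 0 < l)
    (hJ : ∀ i ∈ I, ∀ j ∈ I, ∀ e f, e ≠ f → e ∈ E i → f ∈ E i → e ∈ E j → f ∈ E j → (i, j) ∈ J)
    {M B : Finset (Sym2 ℕ)} {e f : Sym2 ℕ} (he : e ∉ M) (he' : e ∉ B)
    (hf : f ∉ M) (hf' : f ∉ B) (hef : e ≠ f) (hmax : dpot I E J l M B f ≤ dpot I E J l M B e) :
    pot I E J l M B - 1 / (4 * l) ≤ pot I E J l (insert e M) (insert f B) := by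
  rw [pot_step he he' hf hf' hef]
  have h1 := sq_le hJ (M := M) (B := B) hef
  set z := ∑ i ∈ I, wt M B (E i) * (ind (E i) e * ind (E i) f) with hz
  set y := ∑ p ∈ J, wt M B (E p.1 ∪ E p.2)
          * (ind (E p.1 ∪ E p.2) e * ind (E p.1 ∪ E p.2) f) with hy
  have h2 : l * z ^ 2 ≤ l * y := mul_le_mul_of_nonneg_left h1 hl.le
  have h3 : 0 ≤ l * z ^ 2 - z + 1 / (4 * l) := by
    have : l * z ^ 2 - z + 1 / (4 * l) = l * (z - 1 / (2 * l)) ^ 2 := by
      field_simp; ring
    rw [this]
    positivity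
  linarith

theorem exists_of_pot_pos (hl : 0 < l) {M B : Finset (Sym2 ℕ)} (h : 0 < pot I E J l M B) :
    ∃ i ∈ I, ∀ x ∈ E i, x ∈ M ∨ x ∉ B := by
  have h1 : 0 ≤ l * ∑ p ∈ J, wt M B (E p.1 ∪ E p.2) :=
    mul_nonneg hl.le (Finset.sum_nonneg (fun p _ => wt_nonneg _ _ _))
  have h2 : 0 < ∑ i ∈ I, wt M B (E i) := by
    unfold pot at h; linarith
  obtain ⟨i, hi, hpos⟩ := Finset.exists_lt_of_sum_lt (s := I) (f := fun _ => (0:ℝ))
    (g := fun i => wt M B (E i)) (by simpa using h2)
  exact ⟨i, hi, wt_pos_iff hpos⟩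

/-- second moment criterion for Maker's win on the board `X` -/
theorem crit {X : Finset (Sym2 ℕ)} (hX : ∀ e ∈ X, ¬ e.IsDiag) (hE : ∀ i ∈ I, E i ⊆ X)
    (hJI : ∀ p ∈ J, p.1 ∈ I ∧ p.2 ∈ I) (hl : 0 < l)
    (hJ : ∀ i ∈ I, ∀ j ∈ I, ∀ e f, e ≠ f → e ∈ E i → f ∈ E i → e ∈ E j → f ∈ E j → (i, j) ∈ J)
    {P : Finset (Sym2 ℕ) → Prop} (hmono : Mono P) (hP : ∀ M, ∀ i ∈ I, E i ⊆ M → P M) (k : ℕ) :
    ∀ M B : Finset (Sym2 ℕ), (X \ (M ∪ B)).card ≤ k → (k : ℝ) / (4 * l) < pot I E J l M B →
      Force P k M B := by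
  classical
  induction k with
  | zero =>
    intro M B hk hpot
    have h0 : 0 < pot I E J l M B := by simpa using hpot
    obtain ⟨i, hi, hx⟩ := exists_of_pot_pos hl h0
    have hempty : X \ (M ∪ B) = ∅ := Finset.card_eq_zero.1 (Nat.le_zero.1 hk)
    apply hP M i hi
    intro x hxi
    rcases hx x hxi with h | h
    · exact h
    · by_contra hM
      have : x ∈ X \ (M ∪ B) := by
        rw [Finset.mem_sdiff, Finset.mem_union, not_or]
        exact ⟨hE i hi hxi, hM, h⟩
      rw [hempty] at this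
      exact Finset.notMem_empty _ this
  | succ k ih =>
    intro M B hk hpot
    have hl4 : 0 < 1 / (4 * l) := by positivity
    have hpot0 : 0 < pot I E J l M B := lt_of_le_of_lt (by positivity) hpot
    obtain ⟨i, hi, hx⟩ := exists_of_pot_pos hl hpot0
    by_cases hne : (X \ (M ∪ B)).Nonempty
    · obtain ⟨e, he, hmax⟩ := Finset.exists_max_image _ (dpot I E J l M B) hne
      rw [Finset.mem_sdiff, Finset.mem_union, not_or] at he
      refine ⟨e, hX e he.1, he.2.1, he.2.2, ?_⟩
      intro f hf1 hf2 hf3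
      have hf2' : f ≠ e ∧ f ∉ M := by
        rw [Finset.mem_insert, not_or] at hf2; exact hf2
      -- the pretended move
      by_cases hne2 : ((X \ (M ∪ B)).erase e).Nonempty
      · obtain ⟨f', hf'1, hf'2⟩ : ∃ f', f' ∈ (X \ (M ∪ B)).erase e ∧ (f ∈ X → f' = f) := by
          by_cases hfX : f ∈ X
          · refine ⟨f, ?_, fun _ => rfl⟩
            rw [Finset.mem_erase, Finset.mem_sdiff, Finset.mem_union, not_or]
            exact ⟨hf2'.1, hfX, hf2'.2, hf3⟩
          · obtain ⟨f', hf'⟩ := hne2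
            exact ⟨f', hf', fun h => absurd h hfX⟩
        have hf'3 := hf'1
        rw [Finset.mem_erase, Finset.mem_sdiff, Finset.mem_union, not_or] at hf'3
        have hstep := pot_step_ge (I := I) (E := E) (J := J) hl hJ he.2.1 he.2.2
          hf'3.2.2.1 hf'3.2.2.2 (Ne.symm hf'3.1) (hmax f' (Finset.mem_of_mem_erase hf'1))
        -- position with both `f` and `f'`
        have hB : pot I E J l (insert e M) (insert f (insert f' B))
            = pot I E J l (insert e M) (insert f' B) := by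
          by_cases hfX : f ∈ X
          · rw [hf'2 hfX, Finset.insert_eq_of_mem (Finset.mem_insert_self _ _)]
          · unfold pot
            have e1 : ∀ i ∈ I, wt (insert e M) (insert f (insert f' B)) (E i)
                = wt (insert e M) (insert f' B) (E i) := fun i hi =>
              wt_insert_B (fun h => hfX (hE i hi h))
            have e2 : ∀ p ∈ J, wt (insert e M) (insert f (insert f' B)) (E p.1 ∪ E p.2)
                = wt (insert e M) (insert f' B) (E p.1 ∪ E p.2) := fun p hp =>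
              wt_insert_B (fun h => by
                rw [Finset.mem_union] at h
                rcases h with h | h
                · exact hfX (hE _ (hJI p hp).1 h)
                · exact hfX (hE _ (hJI p hp).2 h))
            rw [Finset.sum_congr rfl e1, Finset.sum_congr rfl e2]
        have hcard : (X \ (insert e M ∪ insert f (insert f' B))).card ≤ k := by
          have hsub : X \ (insert e M ∪ insert f (insert f' B)) ⊆ (X \ (M ∪ B)).erase e := by
            intro x hx
            simp only [Finset.mem_sdiff, Finset.mem_union, Finset.mem_insert, not_or,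
              Finset.mem_erase] at hx ⊢
            exact ⟨hx.2.1.1, hx.1, hx.2.1.2, hx.2.2.2.2⟩
          have h1 := Finset.card_le_card hsub
          rw [Finset.card_erase_of_mem (by
            rw [Finset.mem_sdiff, Finset.mem_union, not_or]; exact he)] at h1
          omega
        have hpk : (k : ℝ) / (4 * l) < pot I E J l (insert e M) (insert f (insert f' B)) := by
          rw [hB]
          have : ((k + 1 : ℕ) : ℝ) / (4 * l) = (k : ℝ) / (4 * l) + 1 / (4 * l) := by
            push_cast; ring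
          rw [this] at hpot
          linarith
        refine Force.mono_B ?_ (ih _ _ hcard hpk)
        exact Finset.insert_subset_insert _ (Finset.subset_insert _ _)
      · -- no other free edge: Maker already has everything
        apply Force.of_target hmono
        apply hP _ i hi
        intro x hxi
        rcases hx x hxi with h | h
        · exact Finset.mem_insert_of_mem h
        · by_contra hM
          rw [Finset.mem_insert, not_or] at hM
          apply hne2
          refine ⟨x, ?_⟩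
          rw [Finset.mem_erase, Finset.mem_sdiff, Finset.mem_union, not_or]
          exact ⟨hM.1, hE i hi hxi, hM.2, h⟩
    · -- no free edge
      apply Force.of_target hmono
      apply hP M i hi
      intro x hxi
      rcases hx x hxi with h | h
      · exact h
      · by_contra hM
        apply hne
        refine ⟨x, ?_⟩
        rw [Finset.mem_sdiff, Finset.mem_union, not_or]
        exact ⟨hE i hi hxi, hM, h⟩

end crit

end Pool.Agent.helper35.CliqueUp
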