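import Pool.Agent.helper35.CliqueUp2

/-!
# Building a clique quickly inside a set of vertices that is almost untouched
-/

set_option autoImplicit false

namespace Pool.Agent.helper35.CliqueUp

open Pool.Agent.CliqueGame

/-- Maker's edge set contains a clique of size `s` inside `U` -/
def KK (U : Finset ℕ) (s : ℕ) (M : Finset (Sym2 ℕ)) : Prop :=
  ∃ S ⊆ U, S.card = s ∧ ∀ x ∈ S, ∀ y ∈ S, x ≠ y → s(x, y) ∈ M

theorem KK_mono (U : Finset ℕ) (s : ℕ) : Mono (KK U s) := by
  rintro M M' hM ⟨S, h1, h2, h3⟩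
  exact ⟨S, h1, h2, fun x hx y hy hxy => hM (h3 x hx y hy hxy)⟩

/-- the edges inside `A` -/
def EE (A : Finset ℕ) : Finset (Sym2 ℕ) := A.sym2.filter (fun e => ¬ e.IsDiag)

theorem mk_mem_EE {A : Finset ℕ} {x y : ℕ} : s(x, y) ∈ EE A ↔ (x ∈ A ∧ y ∈ A) ∧ x ≠ y := by
  rw [EE, Finset.mem_filter, Finset.mk_mem_sym2_iff, Sym2.mk_isDiag_iff]

theorem EE_mono {A A' : Finset ℕ} (h : A ⊆ A') : EE A ⊆ EE A' := by
  intro e
  induction e with
  | h x y => rw [mk_mem_EE, mk_mem_EE]; exact fun ⟨⟨h1, h2⟩, h3⟩ => ⟨⟨h h1, h h2⟩, h3⟩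

theorem EE_inter (A A' : Finset ℕ) : EE A ∩ EE A' = EE (A ∩ A') := by
  ext e
  induction e with
  | h x y =>
    rw [Finset.mem_inter, mk_mem_EE, mk_mem_EE, mk_mem_EE, Finset.mem_inter, Finset.mem_inter]
    tauto

theorem EE_not_diag {A : Finset ℕ} {e : Sym2 ℕ} (h : e ∈ EE A) : ¬ e.IsDiag := by
  rw [EE, Finset.mem_filter] at h; exact h.2

theorem card_EE (A : Finset ℕ) : (EE A).card = A.card.choose 2 := by
  rw [← Sym2.card_image_offDiag]
  congr 1
  ext e
  induction e with
  | h x y =>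
    rw [mk_mem_EE, Finset.mem_image]
    constructor
    · rintro ⟨⟨h1, h2⟩, h3⟩
      exact ⟨(x, y), Finset.mem_offDiag.2 ⟨h1, h2, h3⟩, rfl⟩
    · rintro ⟨⟨a, b⟩, h1, h2⟩
      rw [Finset.mem_offDiag] at h1
      have h3 : s(a, b) = s(x, y) := h2
      rw [Sym2.eq_iff] at h3
      rcases h3 with ⟨rfl, rfl⟩ | ⟨rfl, rfl⟩
      · exact ⟨⟨h1.1, h1.2.1⟩, h1.2.2⟩
      · exact ⟨⟨h1.2.1, h1.1⟩, h1.2.2.symm⟩

theorem card_EE_union {A A' : Finset ℕ} {s : ℕ} (hA : A.card = s) (hA' : A'.card = s) :
    (EE A ∪ EE A').card + (A ∩ A').card.choose 2 = 2 * s.choose 2 := by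
  have h := Finset.card_union_add_card_inter (EE A) (EE A')
  rw [EE_inter, card_EE, card_EE, card_EE, hA, hA'] at h
  omega

/-- number of `s`-subsets of `U` containing `T` -/
theorem card_superset {U T : Finset ℕ} {s : ℕ} (hT : T ⊆ U) :
    ((U.powersetCard s).filter (fun A => T ⊆ A)).card
      ≤ (U.card - T.card).choose (s - T.card) := by
  classical
  rw [← Finset.card_sdiff_of_subset hT, ← Finset.card_powersetCard]
  refine Finset.card_le_card_of_injOn (fun A => A \ T) ?_ ?_
  · intro A hA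
    have hA' := Finset.mem_coe.1 hA
    rw [Finset.mem_filter, Finset.mem_powersetCard] at hA'
    rw [Finset.mem_coe, Finset.mem_powersetCard]
    refine ⟨Finset.sdiff_subset_sdiff hA'.1.1 (Finset.Subset.refl _), ?_⟩
    rw [Finset.card_sdiff_of_subset hA'.2, hA'.1.2]
  · intro A hA A' hA' h
    have hA1 := Finset.mem_coe.1 hA
    have hA1' := Finset.mem_coe.1 hA'
    rw [Finset.mem_filter, Finset.mem_powersetCard] at hA1 hA1'
    have h' : A \ T = A' \ T := h
    rw [← Finset.sdiff_union_of_subset hA1.2, h', Finset.sdiff_union_of_subset hA1'.2]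

/-- `C(u-j, s-j) u^j ≤ C(u,s) s^j` -/
theorem choose_ratio {u s : ℕ} (hsu : s ≤ u) :
    ∀ j : ℕ, j ≤ s → (u - j).choose (s - j) * u ^ j ≤ u.choose s * s ^ j := by
  intro j
  induction j with
  | zero => intro _; simp
  | succ j ih =>
    intro hj
    have ih' := ih (by omega)
    -- (u-j) * C(u-j-1, s-j-1) = C(u-j,s-j) * (s-j)
    obtain ⟨v, hv⟩ : ∃ v, u - j = v + 1 := ⟨u - j - 1, by omega⟩
    obtain ⟨t, ht⟩ : ∃ t, s - j = t + 1 := ⟨s - j - 1, by omega⟩
    have e1 : u - (j + 1) = v := by omega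
    have e2 : s - (j + 1) = t := by omega
    rw [e1, e2]
    rw [hv, ht] at ih'
    have h1 := Nat.add_one_mul_choose_eq v t
    -- C(v,t) * u ≤ C(v+1,t+1) * s
    have h2 : v.choose t * u ≤ (v + 1).choose (t + 1) * s := by
      have h3 : (t + 1) * u ≤ s * (v + 1) := by
        have hs : s = t + 1 + j := by omega
        have hu : u = v + 1 + j := by omega
        have htv : t ≤ v := by omega
        rw [hs, hu]
        nlinarith
      have h4 : v.choose t * u * (v + 1) ≤ (v + 1).choose (t + 1) * s * (v + 1) := by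
        calc v.choose t * u * (v + 1) = ((v + 1) * v.choose t) * u := by ring
          _ = ((v + 1).choose (t + 1) * (t + 1)) * u := by rw [h1]
          _ = (v + 1).choose (t + 1) * ((t + 1) * u) := by ring
          _ ≤ (v + 1).choose (t + 1) * (s * (v + 1)) := Nat.mul_le_mul_left _ h3
          _ = _ := by ring
      exact Nat.le_of_mul_le_mul_right h4 (Nat.succ_pos v)
    calc v.choose t * u ^ (j + 1) = (v.choose t * u) * u ^ j := by ring
      _ ≤ ((v + 1).choose (t + 1) * s) * u ^ j := Nat.mul_le_mul_right _ h2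
      _ = ((v + 1).choose (t + 1) * u ^ j) * s := by ring
      _ ≤ (u.choose s * s ^ j) * s := Nat.mul_le_mul_right _ ih'
      _ = _ := by ring

/-- the `s`-subsets of `U` without an edge of `B` inside -/
def FF (U : Finset ℕ) (s : ℕ) (B : Finset (Sym2 ℕ)) : Finset (Finset ℕ) :=
  (U.powersetCard s).filter (fun A => Disjoint (EE A) B)

theorem card_FF {U : Finset ℕ} {s : ℕ} {B : Finset (Sym2 ℕ)} :
    (U.card).choose s ≤ (FF U s B).card + B.card * (U.card - 2).choose (s - 2) := by
  classical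
  have h1 : (U.powersetCard s).card = (FF U s B).card
      + ((U.powersetCard s).filter (fun A => ¬ Disjoint (EE A) B)).card := by
    rw [FF, Finset.card_filter_add_card_filter_not]
  rw [Finset.card_powersetCard] at h1
  rw [h1]
  apply Nat.add_le_add_left
  have h2 : (U.powersetCard s).filter (fun A => ¬ Disjoint (EE A) B)
      ⊆ B.biUnion (fun e => (U.powersetCard s).filter (fun A => e ∈ EE A)) := by
    intro A hA
    rw [Finset.mem_filter, Finset.not_disjoint_iff] at hA
    obtain ⟨hA1, e, he1, he2⟩ := hA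
    rw [Finset.mem_biUnion]
    exact ⟨e, he2, Finset.mem_filter.2 ⟨hA1, he1⟩⟩
  refine (Finset.card_le_card h2).trans ?_
  refine Finset.card_biUnion_le_card_mul _ _ _ ?_
  intro e _
  induction e with
  | h x y =>
    by_cases hxy : (x ∈ U ∧ y ∈ U) ∧ x ≠ y
    · have hT : ({x, y} : Finset ℕ) ⊆ U := by
        intro z hz
        rw [Finset.mem_insert, Finset.mem_singleton] at hz
        rcases hz with rfl | rfl
        · exact hxy.1.1
        · exact hxy.1.2
      have hc : ({x, y} : Finset ℕ).card = 2 := Finset.card_pair hxy.2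
      have h3 := card_superset (s := s) hT
      rw [hc] at h3
      refine (Finset.card_le_card ?_).trans h3
      intro A hA
      rw [Finset.mem_filter, mk_mem_EE] at hA
      rw [Finset.mem_filter]
      refine ⟨hA.1, ?_⟩
      intro z hz
      rw [Finset.mem_insert, Finset.mem_singleton] at hz
      rcases hz with rfl | rfl
      · exact hA.2.1.1
      · exact hA.2.1.2
    · have : (U.powersetCard s).filter (fun A => s(x, y) ∈ EE A) = ∅ := by
        rw [Finset.filter_eq_empty_iff]
        intro A hA hxA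
        rw [Finset.mem_powersetCard] at hA
        rw [mk_mem_EE] at hxA
        exact hxy ⟨⟨hA.1 hxA.1.1, hA.1 hxA.1.2⟩, hxA.2⟩
      rw [this]; simp

/-- pairs of members of `FF` that share at least three vertices -/
def JJ (U : Finset ℕ) (s : ℕ) (B : Finset (Sym2 ℕ)) : Finset (Finset ℕ × Finset ℕ) :=
  (FF U s B ×ˢ FF U s B).filter (fun p => 3 ≤ (p.1 ∩ p.2).card)

theorem sum_JJ {U : Finset ℕ} {s : ℕ} {B : Finset (Sym2 ℕ)} :
    ∑ p ∈ JJ U s B, 2 ^ ((p.1 ∩ p.2).card.choose 2)
      ≤ U.card.choose s * ∑ j ∈ Finset.Icc 3 s,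
          2 ^ (j.choose 2) * (s.choose j * (U.card - j).choose (s - j)) := by
  classical
  have hsub : FF U s B ⊆ U.powersetCard s := Finset.filter_subset _ _
  have h1 : ∑ p ∈ JJ U s B, 2 ^ ((p.1 ∩ p.2).card.choose 2)
      ≤ ∑ A ∈ U.powersetCard s, ∑ A' ∈ (U.powersetCard s).filter (fun A' => 3 ≤ (A ∩ A').card),
          2 ^ ((A ∩ A').card.choose 2) := by
    have h2 : JJ U s B ⊆ ((U.powersetCard s) ×ˢ (U.powersetCard s)).filter
        (fun p => 3 ≤ (p.1 ∩ p.2).card) :=
      Finset.filter_subset_filter _ (Finset.product_subset_product hsub hsub)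
    refine (Finset.sum_le_sum_of_subset h2).trans ?_
    rw [Finset.sum_filter, Finset.sum_product]
    refine Finset.sum_le_sum (fun A _ => ?_)
    rw [Finset.sum_filter]
  refine h1.trans ?_
  rw [← Finset.card_powersetCard s U, ← smul_eq_mul, ← Finset.sum_const]
  refine Finset.sum_le_sum (fun A hA => ?_)
  rw [Finset.mem_powersetCard] at hA
  -- group by the size of the intersection
  have hmaps : ∀ A' ∈ (U.powersetCard s).filter (fun A' => 3 ≤ (A ∩ A').card),
      (A ∩ A').card ∈ Finset.Icc 3 s := by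
    intro A' hA'
    rw [Finset.mem_filter] at hA'
    rw [Finset.mem_Icc]
    refine ⟨hA'.2, ?_⟩
    rw [← hA.2]
    exact Finset.card_le_card Finset.inter_subset_left
  rw [← Finset.sum_fiberwise_of_maps_to hmaps]
  refine Finset.sum_le_sum (fun j hj => ?_)
  rw [Finset.mem_Icc] at hj
  have h3 : ∑ A' ∈ ((U.powersetCard s).filter (fun A' => 3 ≤ (A ∩ A').card)).filter
        (fun A' => (A ∩ A').card = j), 2 ^ ((A ∩ A').card.choose 2)
      = (((U.powersetCard s).filter (fun A' => 3 ≤ (A ∩ A').card)).filter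
        (fun A' => (A ∩ A').card = j)).card * 2 ^ (j.choose 2) := by
    rw [Finset.card_eq_sum_ones, Finset.sum_mul]
    refine Finset.sum_congr rfl (fun A' hA' => ?_)
    rw [Finset.mem_filter] at hA'
    rw [hA'.2, one_mul]
  rw [h3, mul_comm]
  apply Nat.mul_le_mul_left
  have h4 : ((U.powersetCard s).filter (fun A' => 3 ≤ (A ∩ A').card)).filter
        (fun A' => (A ∩ A').card = j)
      ⊆ (A.powersetCard j).biUnion (fun T => (U.powersetCard s).filter (fun A' => T ⊆ A')) := by
    intro A' hA'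
    rw [Finset.mem_filter, Finset.mem_filter] at hA'
    rw [Finset.mem_biUnion]
    refine ⟨A ∩ A', ?_, ?_⟩
    · rw [Finset.mem_powersetCard]
      exact ⟨Finset.inter_subset_left, hA'.2⟩
    · rw [Finset.mem_filter]
      exact ⟨hA'.1.1, Finset.inter_subset_right⟩
  refine (Finset.card_le_card h4).trans ?_
  have h5 : s.choose j = (A.powersetCard j).card := by
    rw [Finset.card_powersetCard, hA.2]
  rw [h5]
  refine Finset.card_biUnion_le_card_mul _ _ _ ?_
  intro T hT
  rw [Finset.mem_powersetCard] at hT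
  have := card_superset (s := s) (hT.1.trans hA.1)
  rwa [hT.2] at this

end Pool.Agent.helper35.CliqueUp
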