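import Pool.Agent.helper35.CliqueUp3

/-!
# Building a clique quickly inside a set of vertices that is almost untouched (continued)
-/

set_option autoImplicit false

namespace Pool.Agent.helper35.CliqueUp

open Pool.Agent.CliqueGame

theorem wt_free {M B G : Finset (Sym2 ℕ)} (h : ∀ e ∈ G, e ∉ M ∧ e ∉ B) :
    wt M B G = (1 / 2 : ℝ) ^ G.card := by
  unfold wt
  rw [← Finset.prod_const]
  refine Finset.prod_congr rfl (fun e he => ?_)
  unfold th
  rw [if_neg (h e he).1, if_neg (h e he).2]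

/-- the arithmetic behind phase two -/
theorem count_ineq {U : Finset ℕ} {s u : ℕ} (hu : U.card = u) (hs3 : 3 ≤ s) (hsu : s ≤ u)
    {B : Finset (Sym2 ℕ)} (hB : 2 * (B.card * s ^ 2) ≤ u ^ 2)
    (hnum : ∀ j, 3 ≤ j → j ≤ s → 2 * u ^ 2 * (2 ^ (j.choose 2) * s ^ (2 * j + 1)) < u ^ j) :
    0 < (FF U s B).card ∧
    u.choose 2 * ∑ p ∈ JJ U s B, 2 ^ ((p.1 ∩ p.2).card.choose 2) < (FF U s B).card ^ 2 := by
  have hu0 : 0 < u := by omega
  have hC : 0 < u.choose s := Nat.choose_pos hsu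
  -- the number of good sets
  have hF := card_FF (U := U) (s := s) (B := B)
  rw [hu] at hF
  have h1 : 2 * (B.card * (u - 2).choose (s - 2)) ≤ u.choose s := by
    have h2 := choose_ratio hsu 2 (by omega)
    have h3 : 2 * (B.card * (u - 2).choose (s - 2)) * u ^ 2 ≤ u.choose s * u ^ 2 := by
      calc 2 * (B.card * (u - 2).choose (s - 2)) * u ^ 2
          = 2 * B.card * ((u - 2).choose (s - 2) * u ^ 2) := by ring
        _ ≤ 2 * B.card * (u.choose s * s ^ 2) := Nat.mul_le_mul_left _ h2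
        _ = u.choose s * (2 * (B.card * s ^ 2)) := by ring
        _ ≤ u.choose s * u ^ 2 := Nat.mul_le_mul_left _ hB
    exact Nat.le_of_mul_le_mul_right h3 (by positivity)
  have h2F : u.choose s ≤ 2 * (FF U s B).card := by omega
  have hFpos : 0 < (FF U s B).card := by omega
  refine ⟨hFpos, ?_⟩
  -- the sum over pairs
  set S := ∑ j ∈ Finset.Icc 3 s, 2 ^ (j.choose 2) * (s.choose j * (u - j).choose (s - j)) with hS
  have hZ := sum_JJ (U := U) (s := s) (B := B)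
  rw [hu, ← hS] at hZ
  have hterm : ∀ j ∈ Finset.Icc 3 s,
      s * (2 * u ^ 2 * (2 ^ (j.choose 2) * (s.choose j * (u - j).choose (s - j)))) < u.choose s := by
    intro j hj
    rw [Finset.mem_Icc] at hj
    have h3 := choose_ratio hsu j hj.2
    have h4 := hnum j hj.1 hj.2
    have h5 : s.choose j ≤ s ^ j := Nat.choose_le_pow s j
    have h6 : s * (2 * u ^ 2 * (2 ^ (j.choose 2) * (s.choose j * (u - j).choose (s - j)))) * u ^ j
        < u.choose s * u ^ j := by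
      calc s * (2 * u ^ 2 * (2 ^ (j.choose 2) * (s.choose j * (u - j).choose (s - j)))) * u ^ j
          = s * (2 * u ^ 2 * 2 ^ (j.choose 2)) * s.choose j * ((u - j).choose (s - j) * u ^ j) := by
            ring
        _ ≤ s * (2 * u ^ 2 * 2 ^ (j.choose 2)) * s ^ j * (u.choose s * s ^ j) :=
            Nat.mul_le_mul (Nat.mul_le_mul_left _ h5) h3
        _ = u.choose s * (2 * u ^ 2 * (2 ^ (j.choose 2) * s ^ (2 * j + 1))) := by ring
        _ < u.choose s * u ^ j := Nat.mul_lt_mul_of_pos_left h4 hC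
    exact lt_of_mul_lt_mul_right h6 (Nat.zero_le _)
  have hsum : 2 * u ^ 2 * S < u.choose s := by
    have h7 : s * (2 * u ^ 2 * S) ≤ (Finset.Icc 3 s).card * u.choose s := by
      rw [hS, Finset.mul_sum, Finset.mul_sum, ← smul_eq_mul (a := (Finset.Icc 3 s).card),
        ← Finset.sum_const]
      exact Finset.sum_le_sum (fun j hj => (hterm j hj).le)
    rw [Nat.card_Icc] at h7
    have h8 : (s + 1 - 3) * u.choose s < s * u.choose s := by
      apply Nat.mul_lt_mul_of_pos_right _ hC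
      omega
    exact lt_of_mul_lt_mul_left (lt_of_le_of_lt h7 h8) (Nat.zero_le _)
  have h2R : 2 * u.choose 2 ≤ u ^ 2 := by
    rw [Nat.choose_two_right, sq]
    calc 2 * (u * (u - 1) / 2) ≤ u * (u - 1) := Nat.mul_div_le _ _
      _ ≤ u * u := Nat.mul_le_mul_left _ (Nat.sub_le _ _)
  have hfin : 4 * (u.choose 2 * ∑ p ∈ JJ U s B, 2 ^ ((p.1 ∩ p.2).card.choose 2))
      < 4 * (FF U s B).card ^ 2 := by
    calc 4 * (u.choose 2 * ∑ p ∈ JJ U s B, 2 ^ ((p.1 ∩ p.2).card.choose 2))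
        ≤ 4 * (u.choose 2 * (u.choose s * S)) :=
          Nat.mul_le_mul_left _ (Nat.mul_le_mul_left _ hZ)
      _ = (2 * u.choose 2) * (2 * (u.choose s * S)) := by ring
      _ ≤ u ^ 2 * (2 * (u.choose s * S)) := Nat.mul_le_mul_right _ h2R
      _ = u.choose s * (2 * u ^ 2 * S) := by ring
      _ < u.choose s * u.choose s := Nat.mul_lt_mul_of_pos_left hsum hC
      _ ≤ (2 * (FF U s B).card) * (2 * (FF U s B).card) := Nat.mul_le_mul h2F h2F
      _ = _ := by ring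
  exact lt_of_mul_lt_mul_left hfin (Nat.zero_le _)

theorem phase2 {U : Finset ℕ} {s u : ℕ} (hu : U.card = u) (hs3 : 3 ≤ s) (hsu : s ≤ u)
    {M B : Finset (Sym2 ℕ)} (hM : ∀ x ∈ U, ∀ y ∈ U, s(x, y) ∉ M)
    (hB : 2 * (B.card * s ^ 2) ≤ u ^ 2)
    (hnum : ∀ j, 3 ≤ j → j ≤ s → 2 * u ^ 2 * (2 ^ (j.choose 2) * s ^ (2 * j + 1)) < u ^ j) :
    Force (KK U s) (u.choose 2) M B := by
  classical
  obtain ⟨hFpos, hcount⟩ := count_ineq hu hs3 hsu hB hnum
  set m := s.choose 2 with hm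
  set F := FF U s B with hFdef
  set J := JJ U s B with hJdef
  have hFmem : ∀ A ∈ F, A ⊆ U ∧ A.card = s ∧ Disjoint (EE A) B := by
    intro A hA
    rw [hFdef, FF, Finset.mem_filter, Finset.mem_powersetCard] at hA
    exact ⟨hA.1.1, hA.1.2, hA.2⟩
  have hfree : ∀ A ∈ F, ∀ e ∈ EE A, e ∉ M ∧ e ∉ B := by
    intro A hA e he
    refine ⟨?_, Finset.disjoint_left.1 (hFmem A hA).2.2 he⟩
    induction e with
    | h x y =>
      rw [mk_mem_EE] at he
      exact hM x ((hFmem A hA).1 he.1.1) y ((hFmem A hA).1 he.1.2)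
  have hJmem : ∀ p ∈ J, p.1 ∈ F ∧ p.2 ∈ F ∧ 3 ≤ (p.1 ∩ p.2).card := by
    intro p hp
    rw [hJdef, JJ, Finset.mem_filter, Finset.mem_product] at hp
    exact ⟨hp.1.1, hp.1.2, hp.2⟩
  -- the two sums at the beginning
  have hT : ∑ A ∈ F, wt M B (EE A) = F.card * (1 / 2 : ℝ) ^ m := by
    rw [← nsmul_eq_mul, ← Finset.sum_const]
    refine Finset.sum_congr rfl (fun A hA => ?_)
    rw [wt_free (hfree A hA), card_EE, (hFmem A hA).2.1]
  have hY : ∑ p ∈ J, wt M B (EE p.1 ∪ EE p.2)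
      = (1 / 2 : ℝ) ^ (2 * m) * ((∑ p ∈ J, 2 ^ ((p.1 ∩ p.2).card.choose 2) : ℕ) : ℝ) := by
    rw [Nat.cast_sum, Finset.mul_sum]
    refine Finset.sum_congr rfl (fun p hp => ?_)
    have hp' := hJmem p hp
    rw [wt_free (fun e he => by
      rw [Finset.mem_union] at he
      rcases he with he | he
      · exact hfree _ hp'.1 e he
      · exact hfree _ hp'.2.1 e he)]
    have h1 := card_EE_union (hFmem _ hp'.1).2.1 (hFmem _ hp'.2.1).2.1
    rw [← hm] at h1
    rw [← h1, pow_add, mul_assoc]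
    have h2 : (1 / 2 : ℝ) ^ ((p.1 ∩ p.2).card.choose 2)
        * ((2 ^ ((p.1 ∩ p.2).card.choose 2) : ℕ) : ℝ) = 1 := by
      push_cast
      rw [← mul_pow]
      norm_num
    rw [h2, mul_one]
  set Z : ℕ := ∑ p ∈ J, 2 ^ ((p.1 ∩ p.2).card.choose 2) with hZ
  have hZpos : 0 < Z := by
    obtain ⟨A, hA⟩ := Finset.card_pos.1 hFpos
    apply Finset.sum_pos (fun p _ => by positivity)
    refine ⟨(A, A), ?_⟩
    rw [hJdef, JJ, Finset.mem_filter, Finset.mem_product]
    refine ⟨⟨hA, hA⟩, ?_⟩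
    simp only [Finset.inter_self]
    rw [(hFmem A hA).2.1]; exact hs3
  have hZr : (0 : ℝ) < Z := by exact_mod_cast hZpos
  have hFr : (0 : ℝ) < F.card := by exact_mod_cast hFpos
  have hh : (0 : ℝ) < (1 / 2 : ℝ) ^ m := by positivity
  have hcount' : ((u.choose 2 : ℕ) : ℝ) * Z < (F.card : ℝ) ^ 2 := by exact_mod_cast hcount
  set T0 : ℝ := F.card * (1 / 2 : ℝ) ^ m with hT0
  set Y0 : ℝ := (1 / 2 : ℝ) ^ (2 * m) * (Z : ℝ) with hY0
  have hT0pos : 0 < T0 := by positivity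
  have hY0pos : 0 < Y0 := by positivity
  have hmain : ((u.choose 2 : ℕ) : ℝ) * Y0 < T0 ^ 2 := by
    have e1 : ((u.choose 2 : ℕ) : ℝ) * Y0
        = (((u.choose 2 : ℕ) : ℝ) * Z) * ((1 / 2 : ℝ) ^ m) ^ 2 := by
      rw [hY0, mul_comm 2 m, pow_mul]; ring
    rw [e1, hT0, mul_pow]
    exact mul_lt_mul_of_pos_right hcount' (by positivity)
  set l : ℝ := T0 / (2 * Y0) with hl
  have hlpos : 0 < l := by positivity
  refine crit (X := EE U) (I := F) (E := EE) (J := J) (l := l) (fun e he => EE_not_diag he)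
    (fun A hA => EE_mono (hFmem A hA).1) (fun p hp => ⟨(hJmem p hp).1, (hJmem p hp).2.1⟩)
    hlpos ?_ (KK_mono U s) ?_ _ M B ?_ ?_
  · intro A hA A' hA' e f hef h1 h2 h3 h4
    rw [hJdef, JJ, Finset.mem_filter, Finset.mem_product]
    refine ⟨⟨hA, hA'⟩, ?_⟩
    have h5 : ({e, f} : Finset (Sym2 ℕ)) ⊆ EE (A ∩ A') := by
      rw [← EE_inter]
      intro x hx
      rw [Finset.mem_insert, Finset.mem_singleton] at hx
      rw [Finset.mem_inter]
      rcases hx with rfl | rfl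
      · exact ⟨h1, h3⟩
      · exact ⟨h2, h4⟩
    have h6 := Finset.card_le_card h5
    rw [Finset.card_pair hef, card_EE] at h6
    show 3 ≤ (A ∩ A').card
    by_contra hcon
    have h7 : (A ∩ A').card ≤ 2 := by omega
    have h8 := Nat.choose_le_choose 2 h7
    have h9 : (2 : ℕ).choose 2 = 1 := rfl
    omega
  · intro M' A hA hM'
    refine ⟨A, (hFmem A hA).1, (hFmem A hA).2.1, ?_⟩
    intro x hx y hy hxy
    apply hM'
    rw [mk_mem_EE]
    exact ⟨⟨hx, hy⟩, hxy⟩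
  · refine (Finset.card_le_card Finset.sdiff_subset).trans ?_
    rw [card_EE, hu]
  · unfold pot
    rw [hT, hY]
    have e1 : T0 - l * Y0 = T0 / 2 := by
      rw [hl]; field_simp; ring
    have e2 : ((u.choose 2 : ℕ) : ℝ) / (4 * l) = ((u.choose 2 : ℕ) : ℝ) * Y0 / (2 * T0) := by
      rw [hl]; field_simp; ring
    rw [e1, e2, div_lt_div_iff₀ (by positivity) (by norm_num)]
    nlinarith

end Pool.Agent.helper35.CliqueUp
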