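import Pool.Agent.helper35.CliqueUp4

/-!
# Phase one: a clique completely joined to a large almost untouched set
-/

set_option autoImplicit false

namespace Pool.Agent.helper35.CliqueUp

open Pool.Agent.CliqueGame

/-- Breaker's degree of `v` into `U` -/
def deg (B : Finset (Sym2 ℕ)) (U : Finset ℕ) (v : ℕ) : ℕ :=
  ((U.erase v).filter (fun x => s(v, x) ∈ B)).card

theorem sum_deg_le (B : Finset (Sym2 ℕ)) (U : Finset ℕ) : ∑ v ∈ U, deg B U v ≤ 2 * B.card := by
  classical
  -- count the pairs
  set Q : Finset (ℕ × ℕ) := (U ×ˢ U).filter (fun p => p.1 ≠ p.2 ∧ s(p.1, p.2) ∈ B) with hQ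
  have h1 : ∑ v ∈ U, deg B U v = Q.card := by
    rw [hQ, Finset.card_filter, Finset.sum_product]
    refine Finset.sum_congr rfl (fun v _ => ?_)
    rw [deg, Finset.card_filter, ← Finset.sum_filter_add_sum_filter_not U (fun x => x ≠ v)]
    have e1 : U.filter (fun x => x ≠ v) = U.erase v := by
      ext x; rw [Finset.mem_filter, Finset.mem_erase]; tauto
    have e2 : ∑ x ∈ U.filter (fun x => ¬ x ≠ v), (if v ≠ x ∧ s(v, x) ∈ B then 1 else 0) = 0 := by
      apply Finset.sum_eq_zero
      intro x hx
      rw [Finset.mem_filter] at hx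
      rw [if_neg]
      rintro ⟨h, _⟩
      exact h (not_not.1 hx.2).symm
    have e3 : ∑ x ∈ U.erase v, (if v ≠ x ∧ s(v, x) ∈ B then 1 else 0)
        = ∑ x ∈ U.erase v, (if s(v, x) ∈ B then 1 else 0) := by
      refine Finset.sum_congr rfl (fun x hx => ?_)
      rw [Finset.mem_erase] at hx
      have : v ≠ x := fun h => hx.1 h.symm
      simp [this]
    rw [e1, e2, add_zero, e3]
  rw [h1]
  have h2 : ∀ p ∈ Q, s(p.1, p.2) ∈ B := by
    intro p hp
    rw [hQ, Finset.mem_filter] at hp
    exact hp.2.2
  refine Finset.card_le_mul_card_image_of_maps_to (f := fun p : ℕ × ℕ => s(p.1, p.2)) h2 2 ?_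
  intro e _
  induction e with
  | h x y =>
    have hsub : Q.filter (fun p => s(p.1, p.2) = s(x, y)) ⊆ {(x, y), (y, x)} := by
      intro p hp
      rw [Finset.mem_filter, Sym2.eq_iff] at hp
      rw [Finset.mem_insert, Finset.mem_singleton]
      rcases hp.2 with ⟨h, h'⟩ | ⟨h, h'⟩
      · left; exact Prod.ext h h'
      · right; exact Prod.ext h h'
    exact (Finset.card_le_card hsub).trans Finset.card_le_two

theorem exists_small_deg {B : Finset (Sym2 ℕ)} {U : Finset ℕ} {d : ℕ}
    (h : 2 * B.card < U.card * (d + 1)) : ∃ v ∈ U, deg B U v ≤ d := by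
  by_contra hcon
  push Not at hcon
  have h1 : U.card * (d + 1) ≤ ∑ v ∈ U, deg B U v := by
    rw [← smul_eq_mul, ← Finset.sum_const]
    exact Finset.sum_le_sum (fun v hv => hcon v hv)
  have := sum_deg_le B U
  omega

theorem deg_insert (B : Finset (Sym2 ℕ)) (U : Finset ℕ) (v : ℕ) (f : Sym2 ℕ) :
    deg (insert f B) U v ≤ deg B U v + 1 := by
  classical
  unfold deg
  by_cases hf : ∃ x, f = s(v, x)
  · obtain ⟨x, rfl⟩ := hf
    have hsub : (U.erase v).filter (fun y => s(v, y) ∈ insert s(v, x) B)
        ⊆ insert x ((U.erase v).filter (fun y => s(v, y) ∈ B)) := by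
      intro y hy
      rw [Finset.mem_filter, Finset.mem_insert] at hy
      rw [Finset.mem_insert, Finset.mem_filter]
      rcases hy.2 with h | h
      · left
        rw [Sym2.eq_iff] at h
        rcases h with ⟨_, h⟩ | ⟨h, h'⟩
        · exact h
        · rw [h', h]
      · right; exact ⟨hy.1, h⟩
    exact (Finset.card_le_card hsub).trans (Finset.card_insert_le _ _)
  · have hsub : (U.erase v).filter (fun y => s(v, y) ∈ insert f B)
        ⊆ ((U.erase v).filter (fun y => s(v, y) ∈ B)) := by
      intro y hy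
      rw [Finset.mem_filter, Finset.mem_insert] at hy
      rw [Finset.mem_filter]
      rcases hy.2 with h | h
      · exact absurd ⟨y, h.symm⟩ hf
      · exact ⟨hy.1, h⟩
    exact (Finset.card_le_card hsub).trans (Nat.le_succ _)

/-- one stage: Maker builds a star at a vertex `v` -/
theorem star {U : Finset ℕ} {s n' d R b : ℕ}
    (H : ∀ (U' : Finset ℕ) (M' B' : Finset (Sym2 ℕ)), U' ⊆ U → U'.card = n' →
      (∀ x ∈ U', ∀ y ∈ U', s(x, y) ∉ M') → B'.card ≤ b + n' → Force (KK U' s) R M' B')
    {v : ℕ} (hv : v ∈ U) (hcard : 2 * n' + d ≤ U.card) (k : ℕ) :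
    ∀ (X : Finset ℕ) (M B : Finset (Sym2 ℕ)), X ⊆ U.erase v → X.card + k = n' →
      (∀ x ∈ X, s(v, x) ∈ M) → (∀ x ∈ U.erase v, x ∉ X → s(v, x) ∉ M) →
      (∀ x ∈ U.erase v, ∀ y ∈ U.erase v, s(x, y) ∉ M) →
      deg B U v ≤ d + X.card → B.card ≤ b + X.card →
      Force (KK U (s + 1)) (k + R) M B := by
  classical
  induction k with
  | zero =>
    intro X M B hX hXc hX1 hX2 hX3 hdeg hBc
    have h1 := H X M B (hX.trans (Finset.erase_subset _ _)) (by omega)
      (fun x hx y hy => hX3 x (hX hx) y (hX hy)) (by omega)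
    rw [Nat.zero_add]
    refine Force.mono_P ?_ h1
    rintro M' hM' ⟨S, hS1, hS2, hS3⟩
    have hvS : v ∉ S := fun h => Finset.notMem_erase v U (hX (hS1 h))
    refine ⟨insert v S, ?_, ?_, ?_⟩
    · intro x hx
      rw [Finset.mem_insert] at hx
      rcases hx with rfl | hx
      · exact hv
      · exact Finset.mem_of_mem_erase (hX (hS1 hx))
    · rw [Finset.card_insert_of_notMem hvS, hS2]
    · intro x hx y hy hxy
      rw [Finset.mem_insert] at hx hy
      rcases hx with rfl | hx <;> rcases hy with rfl | hy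
      · exact absurd rfl hxy
      · exact hM' (hX1 y (hS1 hy))
      · rw [Sym2.eq_swap]; exact hM' (hX1 x (hS1 hx))
      · exact hS3 x hx y hy hxy
  | succ k ih =>
    intro X M B hX hXc hX1 hX2 hX3 hdeg hBc
    -- a free edge at `v`
    have hfree : ∃ x ∈ U.erase v, x ∉ X ∧ s(v, x) ∉ B := by
      by_contra hcon
      push Not at hcon
      have hsub : U.erase v ⊆ X ∪ (U.erase v).filter (fun x => s(v, x) ∈ B) := by
        intro x hx
        rw [Finset.mem_union, Finset.mem_filter]
        by_cases hxX : x ∈ X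
        · exact Or.inl hxX
        · exact Or.inr ⟨hx, hcon x hx hxX⟩
      have h1 := Finset.card_le_card hsub
      have h2 := Finset.card_union_le X ((U.erase v).filter (fun x => s(v, x) ∈ B))
      rw [Finset.card_erase_of_mem hv] at h1
      have h3 : ((U.erase v).filter (fun x => s(v, x) ∈ B)).card ≤ d + X.card := hdeg
      have h4 : 0 < U.card := Finset.card_pos.2 ⟨v, hv⟩
      omega
    obtain ⟨x, hx1, hx2, hx3⟩ := hfree
    have hxv : x ≠ v := Finset.ne_of_mem_erase hx1
    have e1 : k + 1 + R = (k + R) + 1 := by omega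
    rw [e1]
    refine ⟨s(v, x), ?_, hX2 x hx1 hx2, hx3, ?_⟩
    · rw [Sym2.mk_isDiag_iff]; exact hxv.symm
    intro f hf1 hf2 hf3
    have hXi : (insert x X).card = X.card + 1 := Finset.card_insert_of_notMem hx2
    apply ih (insert x X)
    · intro y hy
      rw [Finset.mem_insert] at hy
      rcases hy with rfl | hy
      · exact hx1
      · exact hX hy
    · omega
    · intro y hy
      rw [Finset.mem_insert] at hy
      rcases hy with rfl | hy
      · exact Finset.mem_insert_self _ _
      · exact Finset.mem_insert_of_mem (hX1 y hy)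
    · intro y hy hyX
      rw [Finset.mem_insert, not_or] at hyX
      rw [Finset.mem_insert, not_or]
      refine ⟨?_, hX2 y hy hyX.2⟩
      intro h
      rw [Sym2.eq_iff] at h
      rcases h with ⟨_, h⟩ | ⟨h, _⟩
      · exact hyX.1 h
      · exact hxv h.symm
    · intro y hy z hz
      rw [Finset.mem_insert, not_or]
      refine ⟨?_, hX3 y hy z hz⟩
      intro h
      rw [Sym2.eq_iff] at h
      rcases h with ⟨h, _⟩ | ⟨_, h⟩
      · exact Finset.ne_of_mem_erase hy h
      · exact Finset.ne_of_mem_erase hz h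
    · have := deg_insert B U v f
      omega
    · have := Finset.card_insert_le f B
      omega

/-- the sizes of the candidate sets -/
def NN (u : ℕ) : ℕ → ℕ
  | 0 => u
  | i + 1 => 2 * NN u i + u

/-- number of rounds in the last `i` stages -/
def SS (u : ℕ) : ℕ → ℕ
  | 0 => 0
  | i + 1 => SS u i + NN u i

theorem SS_le (u : ℕ) (i : ℕ) : SS u i ≤ NN u i := by
  induction i with
  | zero => exact Nat.zero_le _
  | succ i ih => simp only [SS, NN]; omega

theorem NN_le (u : ℕ) (i : ℕ) : NN u i + u = u * 2 ^ (i + 1) := by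
  induction i with
  | zero => simp only [NN]; ring
  | succ i ih =>
    simp only [NN]
    rw [pow_succ, ← mul_assoc, ← ih]; ring

theorem NN_ge (u : ℕ) (i : ℕ) : u ≤ NN u i := by
  cases i with
  | zero => exact le_rfl
  | succ i => simp only [NN]; omega

theorem phase1 {u s R b : ℕ} (hb : 2 * b < u * (u + 1))
    (H : ∀ (U : Finset ℕ) (M B : Finset (Sym2 ℕ)), U.card = u →
      (∀ x ∈ U, ∀ y ∈ U, s(x, y) ∉ M) → B.card ≤ b → Force (KK U s) R M B) (i : ℕ) :
    ∀ (U : Finset ℕ) (M B : Finset (Sym2 ℕ)), U.card = NN u i →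
      (∀ x ∈ U, ∀ y ∈ U, s(x, y) ∉ M) → B.card + SS u i ≤ b →
      Force (KK U (s + i)) (SS u i + R) M B := by
  classical
  induction i with
  | zero =>
    intro U M B hU hM hB
    have := H U M B hU hM (by omega)
    simpa [SS] using this
  | succ i ih =>
    intro U M B hU hM hB
    simp only [SS, NN] at hU hB ⊢
    have hU' : u ≤ U.card := by omega
    obtain ⟨v, hv, hdeg⟩ := exists_small_deg (B := B) (U := U) (d := u) (by
      have : u * (u + 1) ≤ U.card * (u + 1) := Nat.mul_le_mul_right _ hU'
      omega)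
    have h1 := star (U := U) (s := s + i) (n' := NN u i) (d := u) (R := SS u i + R)
      (b := b - SS u i - NN u i)
      (fun U' M' B' hU' hc hM' hB' => ih U' M' B' hc hM' (by omega)) hv (by omega) (NN u i)
      ∅ M B (Finset.empty_subset _) (by simp) (by simp)
      (fun x hx _ => hM v hv x (Finset.mem_of_mem_erase hx))
      (fun x hx y hy => hM x (Finset.mem_of_mem_erase hx) y (Finset.mem_of_mem_erase hy))
      (by simpa using hdeg) (by simp; omega)
    have e1 : SS u i + NN u i + R = NN u i + (SS u i + R) := by omega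
    rw [e1]
    exact h1

end Pool.Agent.helper35.CliqueUp
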