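import Pool.Agent.helper35.CliqueUp5

/-!
# The upper bound for the move number: `M(q) ≤ q^27 * 2^(2q/3)`
-/

set_option autoImplicit false

namespace Pool.Agent.helper35.CliqueUp

open Pool.Agent.CliqueGame

theorem num_ineq {s A u : ℕ} (hs : 3 ≤ s) (hsA : s ≤ 2 * A) (hu : u = s ^ 12 * 2 ^ A) (j : ℕ)
    (hj3 : 3 ≤ j) (hjs : j ≤ s) :
    2 * u ^ 2 * (2 ^ (j.choose 2) * s ^ (2 * j + 1)) < u ^ j := by
  have hs2 : 2 ≤ s := by omega
  have hu0 : 0 < u := by rw [hu]; positivity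
  obtain ⟨i, rfl⟩ : ∃ i, j = i + 2 := ⟨j - 2, by omega⟩
  have hC : (i + 2).choose 2 ≤ A * i + (i + 2) := by
    have h1 : 2 * (i + 2).choose 2 ≤ (i + 2) * (i + 1) := by
      rw [Nat.choose_two_right]
      exact Nat.mul_div_le _ _
    nlinarith
  have h2 : 2 ^ ((i + 2).choose 2) ≤ 2 ^ (A * i) * 2 ^ (i + 2) := by
    rw [← pow_add]
    exact Nat.pow_le_pow_right (by norm_num) hC
  have h3 : 2 * (2 ^ ((i + 2).choose 2) * s ^ (2 * (i + 2) + 1)) < u ^ i := by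
    calc 2 * (2 ^ ((i + 2).choose 2) * s ^ (2 * (i + 2) + 1))
        ≤ 2 * ((2 ^ (A * i) * 2 ^ (i + 2)) * s ^ (2 * (i + 2) + 1)) :=
          Nat.mul_le_mul_left _ (Nat.mul_le_mul_right _ h2)
      _ = 2 ^ (i + 3) * s ^ (2 * (i + 2) + 1) * 2 ^ (A * i) := by ring
      _ ≤ s ^ (i + 3) * s ^ (2 * (i + 2) + 1) * 2 ^ (A * i) :=
          Nat.mul_le_mul_right _ (Nat.mul_le_mul_right _ (Nat.pow_le_pow_left hs2 _))
      _ = s ^ (3 * i + 8) * 2 ^ (A * i) := by rw [← pow_add]; congr 2; ring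
      _ < s ^ (12 * i) * 2 ^ (A * i) := by
          apply Nat.mul_lt_mul_of_pos_right _ (by positivity)
          exact Nat.pow_lt_pow_right (by omega) (by omega)
      _ = u ^ i := by rw [hu, mul_pow, ← pow_mul, ← pow_mul]
  calc 2 * u ^ 2 * (2 ^ ((i + 2).choose 2) * s ^ (2 * (i + 2) + 1))
      = u ^ 2 * (2 * (2 ^ ((i + 2).choose 2) * s ^ (2 * (i + 2) + 1))) := by ring
    _ < u ^ 2 * u ^ i := Nat.mul_lt_mul_of_pos_left h3 (by positivity)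
    _ = u ^ (i + 2) := by ring

/-- Maker wins the `K_q`-game within `8 q^24 4^⌊q/3⌋` moves -/
theorem upper_nat {q : ℕ} (hq : 5 ≤ q) :
    ∃ m : ℕ, MakerWinsWithin q m ∧ m ≤ 8 * q ^ 24 * 2 ^ (2 * (q / 3)) := by
  classical
  set a := q / 3 with ha
  set s := q - a with hs
  set A := a + 1 with hA
  set u := s ^ 12 * 2 ^ A with hu
  have haq : a ≤ q := Nat.div_le_self _ _
  have hs3 : 3 ≤ s := by omega
  have hsA : s ≤ 2 * A := by omega
  have hsq : s ≤ q := by omega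
  have hqsa : s + a = q := by omega
  have hpA : 0 < 2 ^ A := by positivity
  have hs2 : 2 * s ^ 2 ≤ s ^ 12 := by
    calc 2 * s ^ 2 ≤ s * s ^ 2 := Nat.mul_le_mul_right _ (by omega)
      _ = s ^ 3 := by ring
      _ ≤ s ^ 12 := Nat.pow_le_pow_right (by omega) (by norm_num)
  have hs12 : 2 ≤ s ^ 12 := by
    have : 1 ≤ s ^ 2 := Nat.one_le_pow _ _ (by omega)
    omega
  have hsu : s ≤ u := by
    calc s = s * 1 := (mul_one s).symm
      _ ≤ s ^ 12 * 2 ^ A := Nat.mul_le_mul (by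
          calc s = s ^ 1 := (pow_one s).symm
            _ ≤ s ^ 12 := Nat.pow_le_pow_right (by omega) (by norm_num)) hpA
  have hu0 : 0 < u := by omega
  have hSN : SS u a ≤ u * 2 ^ A := by
    have h1 := SS_le u a
    have h2 := NN_le u a
    rw [← hA] at h2
    omega
  have h2u : 2 * 2 ^ A ≤ u := Nat.mul_le_mul_right _ hs12
  have hph2 : ∀ (U : Finset ℕ) (M B : Finset (Sym2 ℕ)), U.card = u →
      (∀ x ∈ U, ∀ y ∈ U, s(x, y) ∉ M) → B.card ≤ SS u a → Force (KK U s) (u.choose 2) M B := by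
    intro U M B hU hM hB
    refine phase2 hU hs3 hsu hM ?_ (fun j hj3 hjs => num_ineq hs3 hsA hu j hj3 hjs)
    calc 2 * (B.card * s ^ 2) ≤ 2 * ((u * 2 ^ A) * s ^ 2) :=
          Nat.mul_le_mul_left _ (Nat.mul_le_mul_right _ (hB.trans hSN))
      _ = u * ((2 * s ^ 2) * 2 ^ A) := by ring
      _ ≤ u * (s ^ 12 * 2 ^ A) := Nat.mul_le_mul_left _ (Nat.mul_le_mul_right _ hs2)
      _ = u ^ 2 := by rw [← hu, sq]
  have hb : 2 * SS u a < u * (u + 1) := by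
    calc 2 * SS u a ≤ 2 * (u * 2 ^ A) := Nat.mul_le_mul_left _ hSN
      _ = u * (2 * 2 ^ A) := by ring
      _ ≤ u * u := Nat.mul_le_mul_left _ h2u
      _ < u * (u + 1) := Nat.mul_lt_mul_of_pos_left (Nat.lt_succ_self u) hu0
  have hph1 := phase1 hb hph2 a (Finset.range (NN u a)) ∅ ∅ (Finset.card_range _)
    (fun _ _ _ _ => Finset.notMem_empty _) (by simp)
  rw [hqsa] at hph1
  refine ⟨SS u a + u.choose 2, ?_, ?_⟩
  · apply makerWins_of_win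
    rw [← force_iff_win]
    refine Force.mono_P ?_ hph1
    rintro M' _ ⟨S, _, h2, h3⟩
    exact ⟨S, h2, fun x hx y hy hxy => by exact_mod_cast h3 x hx y hy hxy⟩
  · have hch : u.choose 2 ≤ u ^ 2 := Nat.choose_le_pow u 2
    calc SS u a + u.choose 2 ≤ u * 2 ^ A + u ^ 2 := Nat.add_le_add hSN hch
      _ ≤ u ^ 2 + u ^ 2 := by
          apply Nat.add_le_add_right
          rw [sq]
          exact Nat.mul_le_mul_left _ (by omega)
      _ = 8 * s ^ 24 * 2 ^ (2 * a) := by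
          rw [hu, hA]; ring
      _ ≤ 8 * q ^ 24 * 2 ^ (2 * a) :=
          Nat.mul_le_mul_right _ (Nat.mul_le_mul_left _ (Nat.pow_le_pow_left hsq _))

/-- **Upper bound.** `M(q) ≤ q^27 * 2^(2q/3)`. -/
theorem upper {q : ℕ} (hq : 5 ≤ q) :
    ∃ m : ℕ, MakerWinsWithin q m ∧ (m : ℝ) ≤ (q : ℝ) ^ 27 * (2 : ℝ) ^ ((2 : ℝ) * q / 3) := by
  obtain ⟨m, h1, h2⟩ := upper_nat hq
  refine ⟨m, h1, ?_⟩
  have h3 : (m : ℝ) ≤ 8 * (q : ℝ) ^ 24 * 2 ^ (2 * (q / 3)) := by exact_mod_cast h2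
  have h4 : (2 : ℝ) ^ (2 * (q / 3)) ≤ (2 : ℝ) ^ ((2 : ℝ) * q / 3) := by
    rw [← Real.rpow_natCast]
    apply Real.rpow_le_rpow_of_exponent_le (by norm_num)
    have h5 : 3 * (q / 3) ≤ q := Nat.mul_div_le q 3
    have h6 : (3 : ℝ) * ((q / 3 : ℕ) : ℝ) ≤ q := by exact_mod_cast h5
    push_cast
    linarith
  have hq2 : (2 : ℝ) ≤ q := by
    have : (5 : ℝ) ≤ q := by exact_mod_cast hq
    linarith
  have h7 : 8 * (q : ℝ) ^ 24 ≤ (q : ℝ) ^ 27 := by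
    have h8 : (8 : ℝ) ≤ (q : ℝ) ^ 3 := by
      calc (8 : ℝ) = 2 ^ 3 := by norm_num
        _ ≤ _ := pow_le_pow_left₀ (by norm_num) hq2 3
    calc 8 * (q : ℝ) ^ 24 ≤ (q : ℝ) ^ 3 * (q : ℝ) ^ 24 :=
          mul_le_mul_of_nonneg_right h8 (by positivity)
      _ = _ := by ring
  calc (m : ℝ) ≤ 8 * (q : ℝ) ^ 24 * 2 ^ (2 * (q / 3)) := h3
    _ ≤ (q : ℝ) ^ 27 * (2 : ℝ) ^ ((2 : ℝ) * q / 3) :=
        mul_le_mul h7 h4 (by positivity) (by positivity)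

theorem moveNumber_le {q : ℕ} (hq : 5 ≤ q) :
    (moveNumber q : ℝ) ≤ (q : ℝ) ^ 27 * (2 : ℝ) ^ ((2 : ℝ) * q / 3) := by
  obtain ⟨m, h1, h2⟩ := upper hq
  refine le_trans ?_ h2
  have : moveNumber q ≤ m := Nat.sInf_le h1
  exact_mod_cast this

end Pool.Agent.helper35.CliqueUp
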