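import Mathlib

open MvPolynomial

namespace Pool.Agent.helper35.Nuc

section general

variable {σ R : Type*} [CommRing R]

lemma hc_mul (c p : MvPolynomial σ R) {i : ℕ} (hp : p.IsHomogeneous i) (n : ℕ) :
    homogeneousComponent n (c * p) =
      if i ≤ n then homogeneousComponent (n - i) c * p else 0 := by
  classical
  conv_lhs => rw [← sum_homogeneousComponent c, Finset.sum_mul, map_sum]
  have key : ∀ j, homogeneousComponent n (homogeneousComponent j c * p)
      = if j + i = n then homogeneousComponent j c * p else 0 := by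
    intro j
    have h1 : (homogeneousComponent j c * p).IsHomogeneous (j + i) :=
      (homogeneousComponent_isHomogeneous j c).mul hp
    rw [homogeneousComponent_of_mem ((mem_homogeneousSubmodule _ _).2 h1)]
    by_cases h : j + i = n
    · simp [h]
    · rw [if_neg (fun h' => h h'.symm), if_neg h]
  simp only [key]
  split_ifs with h
  · by_cases hc : n - i < c.totalDegree + 1
    · rw [Finset.sum_eq_single_of_mem (n - i) (Finset.mem_range.2 hc)]
      · rw [if_pos (by omega)]
      · intro b _ hb
        rw [if_neg (by omega)]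
    · rw [homogeneousComponent_eq_zero (n - i) c (by omega), zero_mul]
      apply Finset.sum_eq_zero
      intro j hj
      rw [Finset.mem_range] at hj
      rw [if_neg (by omega)]
  · apply Finset.sum_eq_zero
    intro j hj
    rw [if_neg (by omega)]

lemma hc_self {p : MvPolynomial σ R} {i : ℕ} (hp : p.IsHomogeneous i) (n : ℕ) :
    homogeneousComponent n p = if n = i then p else 0 := by
  classical
  rw [homogeneousComponent_of_mem ((mem_homogeneousSubmodule _ _).2 hp)]

end general

variable {F : Type*} [Field F]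

/-- The linear form `w ↦ w · v`. -/
noncomputable def lin (v : Fin 3 → F) : MvPolynomial (Fin 3) F := ∑ i, C (v i) * X i

lemma lin_eq (v : Fin 3 → F) : lin v = C (v 0) * X 0 + C (v 1) * X 1 + C (v 2) * X 2 := by
  rw [lin, Fin.sum_univ_three]

lemma lin_homog (v : Fin 3 → F) : (lin v).IsHomogeneous 1 := by
  unfold lin
  apply IsHomogeneous.sum
  intro i _
  exact isHomogeneous_C_mul_X _ _

lemma lin_smul (c : F) (v : Fin 3 → F) : lin (c • v) = C c * lin v := by
  simp only [lin, Finset.mul_sum, Pi.smul_apply, smul_eq_mul, C_mul, mul_assoc]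

lemma lin_add (v w : Fin 3 → F) : lin (v + w) = lin v + lin w := by
  simp only [lin, Pi.add_apply, C_add, add_mul, Finset.sum_add_distrib]

lemma lin_sub (v w : Fin 3 → F) : lin (v - w) = lin v - lin w := by
  simp only [lin, Pi.sub_apply, C_sub, sub_mul, Finset.sum_sub_distrib]

lemma lin_zero : lin (0 : Fin 3 → F) = 0 := by
  simp [lin]

lemma eval_lin (v w : Fin 3 → F) : eval w (lin v) = ∑ i, v i * w i := by
  simp [lin]

lemma pderiv_lin (v : Fin 3 → F) (i : Fin 3) : pderiv i (lin v) = C (v i) := by
  classical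
  simp only [lin, map_sum, Derivation.leibniz, pderiv_X, smul_eq_mul]
  simp [Pi.single_apply]

lemma lin_inj {v w : Fin 3 → F} (h : lin v = lin w) : v = w := by
  funext i
  have := congrArg (pderiv i) h
  rw [pderiv_lin, pderiv_lin] at this
  exact C_injective _ _ this

lemma lin_ne_zero {v : Fin 3 → F} (hv : v ≠ 0) : lin v ≠ 0 := by
  intro h
  exact hv (lin_inj (h.trans lin_zero.symm))

lemma lin_totalDegree {v : Fin 3 → F} (hv : v ≠ 0) : (lin v).totalDegree = 1 :=
  (lin_homog v).totalDegree (lin_ne_zero hv)

lemma lin_prime {v : Fin 3 → F} (hv : v ≠ 0) : Prime (lin v) := by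
  apply Irreducible.prime
  apply irreducible_of_totalDegree_eq_one (lin_totalDegree hv)
  intro x hx
  rw [isUnit_iff_ne_zero]
  rintro rfl
  apply lin_ne_zero hv
  ext m
  simpa using hx m

lemma dvd_lin {v w : Fin 3 → F} (h : lin v ∣ lin w) : ∃ c : F, w = c • v := by
  by_cases hw : w = 0
  · exact ⟨0, by rw [hw, zero_smul]⟩
  obtain ⟨g, hg⟩ := h
  have hne := lin_ne_zero hw
  have hv : v ≠ 0 := by
    rintro rfl
    rw [lin_zero, zero_mul] at hg
    exact hne hg
  have hg0 : g ≠ 0 := by
    rintro rfl
    rw [mul_zero] at hg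
    exact hne hg
  have := congrArg MvPolynomial.totalDegree hg
  rw [totalDegree_mul_of_isDomain (lin_ne_zero hv) hg0, lin_totalDegree hw,
    lin_totalDegree hv] at this
  have h0 : g.totalDegree = 0 := by omega
  rw [totalDegree_eq_zero_iff_eq_C] at h0
  refine ⟨coeff 0 g, lin_inj ?_⟩
  rw [lin_smul, hg, mul_comm]
  congr 1

lemma lin_relprime {v w : Fin 3 → F} (hv : v ≠ 0) (h : ∀ c : F, w ≠ c • v) :
    IsRelPrime (lin v) (lin w) := by
  rw [(lin_prime hv).irreducible.isRelPrime_iff_not_dvd]
  intro hd
  obtain ⟨c, hc⟩ := dvd_lin hd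
  exact h c hc

end Pool.Agent.helper35.Nuc
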