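import Pool.Agent.helper35.Nuc9

open MvPolynomial

namespace Pool.Agent.helper35.Nuc

variable {F : Type*} [Field F]

/-- derivation along the constant direction `v` -/
noncomputable def Dv (v : Fin 3 → F) :
    Derivation F (MvPolynomial (Fin 3) F) (MvPolynomial (Fin 3) F) :=
  mkDerivation F (fun j => C (v j))

lemma Dv_C (v : Fin 3 → F) (c : F) : Dv v (C c) = 0 := by
  have := (Dv v).map_algebraMap c
  rwa [algebraMap_eq] at this

lemma Dv_lin (v n : Fin 3 → F) : Dv v (lin n) = C (∑ i, n i * v i) := by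
  unfold lin
  rw [map_sum, map_sum]
  apply Finset.sum_congr rfl
  intro i _
  rw [Derivation.leibniz, Dv_C, smul_zero, add_zero]
  unfold Dv
  rw [mkDerivation_X, smul_eq_mul, C_mul]

lemma Dv_mul (v : Fin 3 → F) (f g : MvPolynomial (Fin 3) F) :
    Dv v (f * g) = Dv v f * g + f * Dv v g := by
  rw [Derivation.leibniz, smul_eq_mul, smul_eq_mul]; ring

lemma Dv_pow (v n : Fin 3 → F) (m : ℕ) :
    Dv v (lin n ^ m) = (m : MvPolynomial (Fin 3) F) * lin n ^ (m - 1) * C (∑ i, n i * v i) := by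
  rw [Derivation.leibniz_pow, Dv_lin, smul_eq_mul, nsmul_eq_mul]
  ring

lemma Dv_natCast (v : Fin 3 → F) (m : ℕ) : Dv v (m : MvPolynomial (Fin 3) F) = 0 := by
  have : (m : MvPolynomial (Fin 3) F) = C (m : F) := by simp
  rw [this, Dv_C]

/-- polynomial with coefficients `c 0, c 1, …` from the top -/
noncomputable def pol (r : ℕ) (c : ℕ → F) : Polynomial F :=
  ∑ l ∈ Finset.range (r + 1), Polynomial.C (c l) * Polynomial.X ^ (r - l)

lemma pol_coeff (r : ℕ) (c : ℕ → F) {i : ℕ} (hi : i ≤ r) : (pol r c).coeff i = c (r - i) := by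
  rw [pol, Polynomial.finsetSum_coeff, Finset.sum_eq_single_of_mem (r - i)
    (Finset.mem_range.2 (by omega))]
  · rw [Polynomial.coeff_C_mul_X_pow, if_pos (by omega)]
  · intro l hl hne
    rw [Finset.mem_range] at hl
    rw [Polynomial.coeff_C_mul_X_pow, if_neg (by omega)]

lemma pol_dlt (r : ℕ) (c : ℕ → F) : DLt (pol r c) (r + 1) := by
  intro i hi
  rw [pol, Polynomial.finsetSum_coeff]
  apply Finset.sum_eq_zero
  intro l hl
  rw [Polynomial.coeff_C_mul_X_pow, if_neg (by omega)]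

lemma pol_dlt' (r : ℕ) (c : ℕ → F) (h0 : c 0 = 0) : DLt (pol r c) r := by
  intro i hi
  by_cases h : i = r
  · rw [h, pol_coeff r c le_rfl, Nat.sub_self, h0]
  · exact pol_dlt r c i (by omega)

lemma pol_eval (r : ℕ) (c : ℕ → F) (T : F) :
    (pol r c).eval T = ∑ l ∈ Finset.range (r + 1), c l * T ^ (r - l) := by
  rw [pol, Polynomial.eval_finsetSum]
  simp

lemma pol_deriv_eval (r : ℕ) (c : ℕ → F) (T : F) :
    (Polynomial.derivative (pol r c)).eval T
      = ∑ l ∈ Finset.range (r + 1), c l * ((r - l : ℕ) : F) * T ^ (r - l - 1) := by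
  rw [pol, Polynomial.derivative_sum, Polynomial.eval_finsetSum]
  apply Finset.sum_congr rfl
  intro l _
  rw [Polynomial.derivative_C_mul_X_pow]
  simp

lemma pol_deriv2_eval (r : ℕ) (c : ℕ → F) (T : F) :
    (Polynomial.derivative (Polynomial.derivative (pol r c))).eval T
      = ∑ l ∈ Finset.range (r + 1),
          c l * ((r - l : ℕ) : F) * ((r - l - 1 : ℕ) : F) * T ^ (r - l - 1 - 1) := by
  rw [pol, Polynomial.derivative_sum, Polynomial.derivative_sum, Polynomial.eval_finsetSum]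
  apply Finset.sum_congr rfl
  intro l _
  rw [Polynomial.derivative_C_mul_X_pow, Polynomial.derivative_C_mul_X_pow]
  simp

variable [Fintype F]

namespace Conf

variable {S N : Finset (Fin 3 → F)} {r : ℕ} {B : Fin 3 → MvPolynomial (Fin 3) F}
  {A : ℕ → MvPolynomial (Fin 3) F} {a : F}

lemma id1 (hb : Big S N r B A a) (v : Fin 3 → F) {n : Fin 3 → F} (hn : n ∈ N) :
    ∑ i, Dv v (B i) * C (n i) = ∑ l ∈ Finset.range (r + 1),
      (Dv v (A l) * lin n ^ (r - l)
        + A l * (((r - l : ℕ) : MvPolynomial (Fin 3) F) * lin n ^ (r - l - 1)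
            * C (∑ i, n i * v i))) := by
  have h := congrArg (Dv v) (hb.hBA n hn)
  rw [map_sum, map_sum] at h
  simp only [Dv_mul, Dv_C, Dv_pow, mul_zero, add_zero] at h
  exact h

lemma id2 (hb : Big S N r B A a) (v : Fin 3 → F) {n : Fin 3 → F} (hn : n ∈ N) :
    ∑ i, Dv v (Dv v (B i)) * C (n i) = ∑ l ∈ Finset.range (r + 1),
      (Dv v (Dv v (A l)) * lin n ^ (r - l)
        + 2 * (Dv v (A l) * (((r - l : ℕ) : MvPolynomial (Fin 3) F) * lin n ^ (r - l - 1)
            * C (∑ i, n i * v i)))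
        + A l * (((r - l : ℕ) : MvPolynomial (Fin 3) F) *
            (((r - l - 1 : ℕ) : MvPolynomial (Fin 3) F) * lin n ^ (r - l - 1 - 1)
            * C (∑ i, n i * v i)) * C (∑ i, n i * v i))) := by
  have h := congrArg (Dv v) (id1 hb v hn)
  rw [map_sum, map_sum] at h
  simp only [Dv_mul, Dv_C, Dv_pow, map_add, mul_zero, add_zero, Dv_natCast, zero_mul,
    zero_add] at h
  rw [h]
  apply Finset.sum_congr rfl
  intro l _
  ring

/-- value polynomial `y` at `w` -/
noncomputable def yy (r : ℕ) (A : ℕ → MvPolynomial (Fin 3) F) (w : Fin 3 → F) : Polynomial F :=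
  pol r (fun l => eval w (A l))

/-- first derivative coefficients -/
noncomputable def d1 (r : ℕ) (A : ℕ → MvPolynomial (Fin 3) F) (w v : Fin 3 → F) : Polynomial F :=
  pol r (fun l => eval w (Dv v (A l)))

/-- second derivative coefficients -/
noncomputable def d2 (r : ℕ) (A : ℕ → MvPolynomial (Fin 3) F) (w v : Fin 3 → F) : Polynomial F :=
  pol r (fun l => eval w (Dv v (Dv v (A l))))

lemma val0 (hb : Big S N r B A a) (w : Fin 3 → F) {n : Fin 3 → F} (hn : n ∈ N) :
    ∑ i, n i * eval w (B i) = (yy r A w).eval (∑ i, n i * w i) := by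
  have h := congrArg (eval w) (hb.hBA n hn)
  rw [map_sum, map_sum] at h
  simp only [map_mul, map_pow, eval_C, eval_lin] at h
  rw [yy, pol_eval, ← h]
  apply Finset.sum_congr rfl
  intro i _
  ring

lemma val1 (hb : Big S N r B A a) (w v : Fin 3 → F) {n : Fin 3 → F} (hn : n ∈ N) :
    ∑ i, n i * eval w (Dv v (B i))
      = (Polynomial.derivative (yy r A w)).eval (∑ i, n i * w i) * (∑ i, n i * v i)
        + (d1 r A w v).eval (∑ i, n i * w i) := by
  have h := congrArg (eval w) (id1 hb v hn)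
  rw [map_sum, map_sum] at h
  simp only [map_mul, map_pow, eval_C, eval_lin, map_add, map_natCast] at h
  rw [yy, d1, pol_eval, pol_deriv_eval, Finset.sum_mul, ← Finset.sum_add_distrib]
  have h2 : ∑ i, n i * eval w (Dv v (B i)) = ∑ i, eval w (Dv v (B i)) * n i :=
    Finset.sum_congr rfl (fun i _ => mul_comm _ _)
  rw [h2, h]
  apply Finset.sum_congr rfl
  intro i _
  ring

lemma val2 (hb : Big S N r B A a) (w v : Fin 3 → F) {n : Fin 3 → F} (hn : n ∈ N) :
    ∑ i, n i * eval w (Dv v (Dv v (B i)))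
      = (Polynomial.derivative (Polynomial.derivative (yy r A w))).eval (∑ i, n i * w i)
          * ((∑ i, n i * v i) * (∑ i, n i * v i))
        + 2 * ((Polynomial.derivative (d1 r A w v)).eval (∑ i, n i * w i) * (∑ i, n i * v i))
        + (d2 r A w v).eval (∑ i, n i * w i) := by
  have h := congrArg (eval w) (id2 hb v hn)
  rw [map_sum, map_sum] at h
  simp only [map_mul, map_pow, eval_C, eval_lin, map_add, map_natCast, map_ofNat] at h
  have h2 : ∑ i, n i * eval w (Dv v (Dv v (B i))) = ∑ i, eval w (Dv v (Dv v (B i))) * n i :=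
    Finset.sum_congr rfl (fun i _ => mul_comm _ _)
  rw [yy, d1, d2, pol_eval, pol_deriv_eval, pol_deriv2_eval, h2, h]
  generalize (∑ i, n i * v i) = V
  generalize (∑ i, n i * w i) = T
  rw [Finset.sum_mul, Finset.sum_mul,
    Finset.mul_sum, ← Finset.sum_add_distrib, ← Finset.sum_add_distrib]
  apply Finset.sum_congr rfl
  intro i _
  ring

lemma A0_const (hb : Big S N r B A a) (v w : Fin 3 → F) : eval w (Dv v (A 0)) = 0 := by
  rw [hb.hA0, Dv_C, map_zero]

lemma yy_lead (hb : Big S N r B A a) (w : Fin 3 → F) : (yy r A w).coeff r = a := by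
  rw [yy, pol_coeff _ _ le_rfl, Nat.sub_self, hb.hA0, eval_C]

lemma yy_dlt (w : Fin 3 → F) : DLt (yy r A w) (r + 1) := pol_dlt _ _

lemma yy_zero (hc : Conf S N) (hb : Big S N r B A a) {w : Fin 3 → F} (hw : Ext S w) :
    (yy r A w).coeff 0 = 0 := by
  rw [yy, pol_coeff _ _ (Nat.zero_le _), Nat.sub_zero, hb.hAr]
  exact hc.ext_sig hw (by have := hb.hr2; omega) (by have := hb.hrq; have := hb.hr2; omega)

lemma d1_dlt (hb : Big S N r B A a) (w v : Fin 3 → F) : DLt (d1 r A w v) r :=
  pol_dlt' _ _ (A0_const hb v w)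

lemma d2_dlt (w v : Fin 3 → F) : DLt (d2 r A w v) (r + 1) := pol_dlt _ _

end Conf

end Pool.Agent.helper35.Nuc
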