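import Pool.Agent.helper35.Nuc10

open MvPolynomial

namespace Pool.Agent.helper35.Nuc

variable {F : Type*} [Field F] [Fintype F]

/-- A polynomial of degree at most `q - 2` vanishing at all nonzero elements is zero. -/
lemma poly_zero_of_nonzero (P : Polynomial F) (hP : P.natDegree + 2 ≤ Fintype.card F)
    (h : ∀ T : F, T ≠ 0 → P.eval T = 0) : P = 0 := by
  classical
  by_contra hne
  have h7 : (Finset.univ.erase (0 : F)) ⊆ P.roots.toFinset := by
    intro Z hZ
    rw [Multiset.mem_toFinset, Polynomial.mem_roots hne]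
    exact h Z (Finset.ne_of_mem_erase hZ)
  have h8 : Fintype.card F - 1 ≤ P.natDegree := by
    calc Fintype.card F - 1 = (Finset.univ.erase (0 : F)).card := by
          rw [Finset.card_erase_of_mem (Finset.mem_univ _), Finset.card_univ]
      _ ≤ _ := Finset.card_le_card h7
      _ ≤ _ := Multiset.toFinset_card_le _
      _ ≤ _ := Polynomial.card_roots' _
  omega

/-- A polynomial of degree at most `q - 1` vanishing at all nonzero elements has zero middle
coefficients. -/
lemma poly_coeff_of_nonzero (P : Polynomial F) (hP : DLt P (Fintype.card F))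
    (h : ∀ T : F, T ≠ 0 → P.eval T = 0) {e : ℕ} (he1 : 1 ≤ e) (he : e + 2 ≤ Fintype.card F) :
    P.coeff e = 0 := by
  classical
  have hq : 2 ≤ Fintype.card F := Fintype.one_lt_card
  set c := P.coeff (Fintype.card F - 1) with hc
  set Q := P - Polynomial.C c * (Polynomial.X ^ (Fintype.card F - 1) - 1) with hQ
  have hQdlt : DLt Q (Fintype.card F - 1) := by
    intro i hi
    rw [hQ, Polynomial.coeff_sub, Polynomial.coeff_C_mul, Polynomial.coeff_sub,
      Polynomial.coeff_X_pow, Polynomial.coeff_one]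
    by_cases h1 : i = Fintype.card F - 1
    · rw [if_pos h1, if_neg (by omega), h1, hc]; ring
    · rw [if_neg h1, if_neg (by omega), hP i (by omega)]; ring
  have hQ0 : Q = 0 := by
    apply poly_zero_of_nonzero
    · have : DLt Q (Fintype.card F - 2 + 1) := hQdlt.mono (by omega)
      have := this.natDegree_lt
      omega
    · intro T hT
      rw [hQ]
      simp [h T hT, FiniteField.pow_card_sub_one_eq_one T hT]
  have h2 : P = Polynomial.C c * (Polynomial.X ^ (Fintype.card F - 1) - 1) := by
    rw [← sub_eq_zero, ← hQ, hQ0]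
  rw [h2, Polynomial.coeff_C_mul, Polynomial.coeff_sub, Polynomial.coeff_X_pow,
    Polynomial.coeff_one, if_neg (by omega), if_neg (by omega)]
  ring

/-- product of leading terms -/
lemma coeff_mul_top {p q : Polynomial F} {m n : ℕ} (hp : DLt p (m + 1)) (hq : DLt q (n + 1)) :
    (p * q).coeff (m + n) = p.coeff m * q.coeff n := by
  rw [Polynomial.coeff_mul, Finset.sum_eq_single (m, n)]
  · intro x hx hne
    rw [Finset.HasAntidiagonal.mem_antidiagonal] at hx
    by_cases h1 : m + 1 ≤ x.1
    · rw [hp _ h1, zero_mul]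
    · by_cases h2 : n + 1 ≤ x.2
      · rw [hq _ h2, mul_zero]
      · exfalso
        apply hne
        ext <;> simp <;> omega
  · intro h
    exfalso
    apply h
    rw [Finset.HasAntidiagonal.mem_antidiagonal]

namespace Conf

variable {S N : Finset (Fin 3 → F)} {r : ℕ} {B : Fin 3 → MvPolynomial (Fin 3) F}
  {A : ℕ → MvPolynomial (Fin 3) F} {a : F}

/-- the vector `b = B(w)` -/
noncomputable def vb (B : Fin 3 → MvPolynomial (Fin 3) F) (w : Fin 3 → F) : Fin 3 → F :=
  fun i => eval w (B i)

/-- the vector `D_v B (w)` -/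
noncomputable def vd (B : Fin 3 → MvPolynomial (Fin 3) F) (w v : Fin 3 → F) : Fin 3 → F :=
  fun i => eval w (Dv v (B i))

/-- the vector `D_v D_v B (w)` -/
noncomputable def vdd (B : Fin 3 → MvPolynomial (Fin 3) F) (w v : Fin 3 → F) : Fin 3 → F :=
  fun i => eval w (Dv v (Dv v (B i)))

/-- the polynomial `z` -/
noncomputable def zz (r : ℕ) (B : Fin 3 → MvPolynomial (Fin 3) F)
    (A : ℕ → MvPolynomial (Fin 3) F) (w : Fin 3 → F) : Polynomial F :=
  Polynomial.derivative (yy r A w) * yy r A w + d1 r A w (vb B w)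

lemma zz_val (hb : Big S N r B A a) (w : Fin 3 → F) {n : Fin 3 → F} (hn : n ∈ N) :
    ∑ i, n i * vd B w (vb B w) i = (zz r B A w).eval (∑ i, n i * w i) := by
  have h := val1 hb w (vb B w) hn
  have h0 := val0 hb w hn
  rw [zz, Polynomial.eval_add, Polynomial.eval_mul]
  unfold vd
  rw [h]
  congr 2

lemma yy_deriv_dlt (hb : Big S N r B A a) (w : Fin 3 → F) :
    DLt (Polynomial.derivative (yy r A w)) r := (yy_dlt w).deriv

lemma yyp_coeff (hb : Big S N r B A a) (w : Fin 3 → F) :
    (Polynomial.derivative (yy r A w)).coeff (r - 1) = a * (r : F) := by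
  have := hb.hr2
  have h1 : r - 1 + 1 = r := by omega
  rw [Polynomial.coeff_derivative, h1, yy_lead hb w]
  congr 1
  have : ((r - 1 : ℕ) : F) + 1 = ((r - 1 + 1 : ℕ) : F) := by push_cast; ring
  rw [this, h1]

lemma yypy_dlt (hb : Big S N r B A a) (w : Fin 3 → F) :
    DLt (Polynomial.derivative (yy r A w) * yy r A w) (2 * r) := by
  have := (yy_deriv_dlt hb w).mul (yy_dlt (r := r) (A := A) w)
  exact this.mono (by omega)

lemma zz_dlt (hb : Big S N r B A a) (w : Fin 3 → F) : DLt (zz r B A w) (2 * r) := by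
  apply (yypy_dlt hb w).add
  exact (d1_dlt hb w _).mono (by omega)

lemma zz_coeff (hb : Big S N r B A a) (w : Fin 3 → F) :
    (zz r B A w).coeff (2 * r - 1) = a * (r : F) * a := by
  have h2 := hb.hr2
  rw [zz, Polynomial.coeff_add]
  have h1 : (Polynomial.derivative (yy r A w) * yy r A w).coeff (2 * r - 1) = a * (r : F) * a := by
    have : 2 * r - 1 = (r - 1) + r := by omega
    rw [this, coeff_mul_top (m := r - 1) (n := r) ((yy_deriv_dlt hb w).mono (by omega))
      (yy_dlt w), yyp_coeff hb w, yy_lead hb w]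
  rw [h1, d1_dlt hb w _ (2 * r - 1) (by omega), add_zero]

/-- the three vectors form a basis -/
lemma indep3 (hc : Conf S N) (hb : Big S N r B A a) {w : Fin 3 → F} (hw : Ext S w) :
    LinearIndependent F ![w, vb B w, vd B w (vb B w)] := by
  have hr2 := hb.hr2
  have hrq := hb.hrq
  rw [Fintype.linearIndependent_iff]
  intro g hg
  rw [Fin.sum_univ_three] at hg
  simp only [Matrix.cons_val_zero, Matrix.cons_val_one, Matrix.cons_val_two, Matrix.head_cons,
    Matrix.tail_cons, Matrix.cons_val] at hg
  set P : Polynomial F := Polynomial.C (g 0) * Polynomial.X + Polynomial.C (g 1) * yy r A w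
    + Polynomial.C (g 2) * zz r B A w with hP
  have hPval : ∀ T : F, T ≠ 0 → P.eval T = 0 := by
    intro T hT
    obtain ⟨n, hn, hnT⟩ := hc.ext_exists hw hT
    have h0 := val0 hb w hn
    have h1 := zz_val hb w hn
    rw [hnT] at h0 h1
    rw [hP]
    simp only [Polynomial.eval_add, Polynomial.eval_mul, Polynomial.eval_C, Polynomial.eval_X]
    rw [← h0, ← h1, ← hnT]
    have h2 : ∑ i, n i * (g 0 • w + g 1 • vb B w + g 2 • vd B w (vb B w)) i = 0 := by
      rw [hg]; simp
    rw [← h2, Finset.mul_sum, Finset.mul_sum, Finset.mul_sum, ← Finset.sum_add_distrib,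
      ← Finset.sum_add_distrib]
    apply Finset.sum_congr rfl
    intro i _
    simp only [Pi.add_apply, Pi.smul_apply, smul_eq_mul, vb]
    ring
  have hPd : DLt P (2 * r) := by
    apply DLt.add
    · apply DLt.add
      · intro i hi
        rw [Polynomial.coeff_C_mul, Polynomial.coeff_X_of_ne_one (by omega), mul_zero]
      · intro i hi
        rw [Polynomial.coeff_C_mul, yy_dlt w i (by omega), mul_zero]
    · intro i hi
      rw [Polynomial.coeff_C_mul, zz_dlt hb w i hi, mul_zero]
  have hP0 : P = 0 := by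
    apply poly_zero_of_nonzero P _ hPval
    have : DLt P (2 * r - 1 + 1) := hPd.mono (by omega)
    have := this.natDegree_lt
    omega
  have ha := hb.ha
  have hrF := hb.hrF
  have hg2 : g 2 = 0 := by
    have h3 : P.coeff (2 * r - 1) = 0 := by rw [hP0]; simp
    rw [hP, Polynomial.coeff_add, Polynomial.coeff_add, Polynomial.coeff_C_mul,
      Polynomial.coeff_C_mul, Polynomial.coeff_C_mul, Polynomial.coeff_X_of_ne_one (by omega),
      yy_dlt w _ (by omega), zz_coeff hb w] at h3
    have : g 2 * (a * (r : F) * a) = 0 := by linear_combination h3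
    exact (mul_eq_zero.1 this).resolve_right (mul_ne_zero (mul_ne_zero ha hrF) ha)
  have hg1 : g 1 = 0 := by
    have h3 : P.coeff r = 0 := by rw [hP0]; simp
    rw [hP, hg2, Polynomial.coeff_add, Polynomial.coeff_add, Polynomial.coeff_C_mul,
      Polynomial.coeff_C_mul, Polynomial.coeff_C_mul, Polynomial.coeff_X_of_ne_one (by omega),
      yy_lead hb w] at h3
    have : g 1 * a = 0 := by linear_combination h3
    exact (mul_eq_zero.1 this).resolve_right ha
  have hg0 : g 0 = 0 := by
    have h3 : P.coeff 1 = 0 := by rw [hP0]; simp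
    rw [hP, hg2, hg1] at h3
    simpa using h3
  intro i
  fin_cases i
  · exact hg0
  · exact hg1
  · exact hg2

lemma exists_comb (hc : Conf S N) (hb : Big S N r B A a) {w : Fin 3 → F} (hw : Ext S w)
    (v : Fin 3 → F) : ∃ α β γ : F, v = α • w + β • vb B w + γ • vd B w (vb B w) := by
  have hli := indep3 hc hb hw
  have hspan := hli.span_eq_top_of_card_eq_finrank (by simp)
  have hv : v ∈ Submodule.span F (Set.range ![w, vb B w, vd B w (vb B w)]) := by
    rw [hspan]; trivial
  rw [Submodule.mem_span_range_iff_exists_fun] at hv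
  obtain ⟨c, hcv⟩ := hv
  refine ⟨c 0, c 1, c 2, ?_⟩
  rw [← hcv, Fin.sum_univ_three]
  simp

/-- any linear functional is, as a function of `T = w·n`, a polynomial of degree `< 2r`. -/
lemma functional (hc : Conf S N) (hb : Big S N r B A a) {w : Fin 3 → F} (hw : Ext S w)
    (v : Fin 3 → F) : ∃ P : Polynomial F, DLt P (2 * r) ∧
      ∀ n ∈ N, ∑ i, n i * v i = P.eval (∑ i, n i * w i) := by
  have hr2 := hb.hr2
  obtain ⟨α, β, γ, hv⟩ := exists_comb hc hb hw v
  refine ⟨Polynomial.C α * Polynomial.X + Polynomial.C β * yy r A w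
    + Polynomial.C γ * zz r B A w, ?_, ?_⟩
  · apply DLt.add
    · apply DLt.add
      · intro i hi
        rw [Polynomial.coeff_C_mul, Polynomial.coeff_X_of_ne_one (by omega), mul_zero]
      · intro i hi
        rw [Polynomial.coeff_C_mul, yy_dlt w i (by omega), mul_zero]
    · intro i hi
      rw [Polynomial.coeff_C_mul, zz_dlt hb w i hi, mul_zero]
  · intro n hn
    have h0 := val0 hb w hn
    have h1 := zz_val hb w hn
    simp only [Polynomial.eval_add, Polynomial.eval_mul, Polynomial.eval_C, Polynomial.eval_X]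
    rw [← h0, ← h1, hv, Finset.mul_sum, Finset.mul_sum, Finset.mul_sum,
      ← Finset.sum_add_distrib, ← Finset.sum_add_distrib]
    apply Finset.sum_congr rfl
    intro i _
    simp only [Pi.add_apply, Pi.smul_apply, smul_eq_mul, vb]
    ring

/-- key vanishing -/
lemma coeff_vanish (hc : Conf S N) (hb : Big S N r B A a) {w : Fin 3 → F} (hw : Ext S w)
    (v : Fin 3 → F) (P : Polynomial F) (hP : DLt P (Fintype.card F))
    (hPv : ∀ n ∈ N, ∑ i, n i * v i = P.eval (∑ i, n i * w i))
    {e : ℕ} (he : 2 * r ≤ e) (heq : e + 2 ≤ Fintype.card F) : P.coeff e = 0 := by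
  have hr2 := hb.hr2
  have hrq := hb.hrq
  obtain ⟨Q, hQ, hQv⟩ := functional hc hb hw v
  have h1 : (P - Q).coeff e = 0 := by
    apply poly_coeff_of_nonzero (P - Q) _ _ (by omega) heq
    · intro i hi
      rw [Polynomial.coeff_sub, hP i hi, hQ i (by omega), sub_zero]
    · intro T hT
      obtain ⟨n, hn, hnT⟩ := hc.ext_exists hw hT
      have e1 := hPv n hn
      have e2 := hQv n hn
      rw [hnT] at e1 e2
      rw [Polynomial.eval_sub, ← e1, ← e2, sub_self]
  rw [Polynomial.coeff_sub, hQ e he, sub_zero] at h1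
  exact h1

/-- the third polynomial -/
lemma P3_val (hb : Big S N r B A a) (w : Fin 3 → F) {n : Fin 3 → F} (hn : n ∈ N) :
    ∑ i, n i * vd B w (vd B w (vb B w)) i
      = (Polynomial.derivative (yy r A w) * zz r B A w
          + d1 r A w (vd B w (vb B w))).eval (∑ i, n i * w i) := by
  have h := val1 hb w (vd B w (vb B w)) hn
  have h0 := zz_val hb w hn
  rw [Polynomial.eval_add, Polynomial.eval_mul, ← h0]
  unfold vd at h ⊢
  rw [h]

lemma P4_val (hb : Big S N r B A a) (w : Fin 3 → F) {n : Fin 3 → F} (hn : n ∈ N) :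
    ∑ i, n i * vdd B w (vb B w) i
      = (Polynomial.derivative (Polynomial.derivative (yy r A w)) * (yy r A w * yy r A w)
          + (2 : Polynomial F) * (Polynomial.derivative (d1 r A w (vb B w)) * yy r A w)
          + d2 r A w (vb B w)).eval (∑ i, n i * w i) := by
  have h := val2 hb w (vb B w) hn
  have h0 := val0 hb w hn
  have h0' : ∑ i, n i * vb B w i = (yy r A w).eval (∑ i, n i * w i) := h0
  rw [h0'] at h
  unfold vdd
  rw [h]
  simp

lemma P3_dlt (hb : Big S N r B A a) (w : Fin 3 → F) (v : Fin 3 → F) :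
    DLt (Polynomial.derivative (yy r A w) * zz r B A w + d1 r A w v) (3 * r - 1) := by
  have hr2 := hb.hr2
  apply DLt.add
  · have h1 : DLt (zz r B A w) (2 * r - 1 + 1) := (zz_dlt hb w).mono (by omega)
    exact ((yy_deriv_dlt hb w).mul h1).mono (by omega)
  · exact (d1_dlt hb w v).mono (by omega)

/-- lower bound `q + 1 ≤ 3 r` -/
theorem lower (hc : Conf S N) (hb : Big S N r B A a) {w : Fin 3 → F} (hw : Ext S w) :
    Fintype.card F + 1 ≤ 3 * r := by
  have hr2 := hb.hr2
  by_contra hcon
  have h := coeff_vanish hc hb hw (vd B w (vd B w (vb B w))) _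
    ((P3_dlt hb w _).mono (by omega)) (fun n hn => P3_val hb w hn) (e := 3 * r - 2)
    (by omega) (by omega)
  rw [Polynomial.coeff_add, d1_dlt hb w _ _ (by omega), add_zero] at h
  have h1 : 3 * r - 2 = (r - 1) + (2 * r - 1) := by omega
  rw [h1, coeff_mul_top (m := r - 1) (n := 2 * r - 1) ((yy_deriv_dlt hb w).mono (by omega))
    ((zz_dlt hb w).mono (by omega)), yyp_coeff hb w, zz_coeff hb w] at h
  have ha := hb.ha
  have hrF := hb.hrF
  exact mul_ne_zero (mul_ne_zero ha hrF) (mul_ne_zero (mul_ne_zero ha hrF) ha) h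

end Conf

end Pool.Agent.helper35.Nuc
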