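import Pool.Agent.helper35.Nuc11

open MvPolynomial

namespace Pool.Agent.helper35.Nuc

variable {F : Type*} [Field F] [Fintype F]

namespace Conf

variable {S N : Finset (Fin 3 → F)} {r : ℕ} {B : Fin 3 → MvPolynomial (Fin 3) F}
  {A : ℕ → MvPolynomial (Fin 3) F} {a : F}

/-- upper bound `3 r ≤ q + 1` -/
theorem upper (hc : Conf S N) (hb : Big S N r B A a) {w : Fin 3 → F} (hw : Ext S w) :
    3 * r ≤ Fintype.card F + 1 := by
  classical
  have hr2 := hb.hr2
  have hrq := hb.hrq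
  let ψ : MvPolynomial (Fin 3) F →+* Polynomial F :=
    eval₂Hom Polynomial.C (fun i => Polynomial.C (w i) + Polynomial.X * Polynomial.C (vb B w i))
  have hψ : ∀ n ∈ N, ψ (lin n) = Polynomial.C (∑ i, n i * w i)
      + Polynomial.X * Polynomial.C ((yy r A w).eval (∑ i, n i * w i)) := by
    intro n hn
    have h0 := val0 hb w hn
    rw [← h0]
    simp only [ψ, lin, map_sum, map_mul, coe_eval₂Hom, eval₂_C, eval₂_X, Finset.mul_sum,
      ← Finset.sum_add_distrib]
    apply Finset.sum_congr rfl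
    intro i _
    simp only [vb]
    ring
  have hH : (Polynomial.X * ∏ n ∈ N, (Polynomial.X + Polynomial.C (ψ (lin n))) :
      Polynomial (Polynomial F))
      = ∏ T : F, (Polynomial.X + Polynomial.C (Polynomial.C T
        + Polynomial.X * Polynomial.C ((yy r A w).eval T))) := by
    rw [← Finset.mul_prod_erase Finset.univ _ (Finset.mem_univ (0 : F)), ← hc.ext_prod hw]
    congr 1
    · have : (yy r A w).eval 0 = 0 := by
        rw [← Polynomial.coeff_zero_eq_eval_zero, yy_zero hc hb hw]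
      rw [this]; simp
    · apply Finset.prod_congr rfl
      intro n hn
      rw [hψ n hn]
  have hnd : (yy r A w).natDegree ≤ r := (yy_dlt w).natDegree_lt
  have h := usq (yy r A w) r (by omega) (by omega) (by omega) (by omega) _ hH
    (H_sub_natDegree ψ N hc.cardN (by omega) hb.hsig)
  have h1 : 2 * r - 1 ≤ (yy r A w * Polynomial.derivative (yy r A w)).natDegree := by
    apply Polynomial.le_natDegree_of_ne_zero
    have e1 : 2 * r - 1 = r + (r - 1) := by omega
    rw [e1, coeff_mul_top (m := r) (n := r - 1) (yy_dlt w)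
      ((yy_deriv_dlt hb w).mono (by omega)), yyp_coeff hb w, yy_lead hb w]
    exact mul_ne_zero hb.ha (mul_ne_zero hb.ha hb.hrF)
  omega

theorem three_r (hc : Conf S N) (hb : Big S N r B A a) {w : Fin 3 → F} (hw : Ext S w) :
    3 * r = Fintype.card F + 1 := le_antisymm (upper hc hb hw) (lower hc hb hw)

theorem mid_zero (hc : Conf S N) (hb : Big S N r B A a) {w : Fin 3 → F} (hw : Ext S w) :
    ∀ k, 1 ≤ k → k + 2 ≤ r → (yy r A w).coeff (r - k) = 0 := by
  have hr2 := hb.hr2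
  have h3 := three_r hc hb hw
  apply ap_main (yy r A w) r a hb.ha (yy_dlt w) (yy_lead hb w)
  · rw [h3]
    push_cast
    have : ((Fintype.card F : ℕ) : F) = 0 := FiniteField.cast_card_eq_zero F
    rw [this, zero_add]
  · intro e he1 he2
    have h := coeff_vanish hc hb hw (vd B w (vd B w (vb B w))) _
      ((P3_dlt hb w _).mono (by omega)) (fun n hn => P3_val hb w hn) (e := e)
      (by omega) (by omega)
    have hsplit : Polynomial.derivative (yy r A w) * zz r B A w
        = Polynomial.derivative (yy r A w) * (Polynomial.derivative (yy r A w) * yy r A w)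
          + Polynomial.derivative (yy r A w) * d1 r A w (vb B w) := by
      rw [zz]; ring
    have hd : DLt (Polynomial.derivative (yy r A w) * d1 r A w (vb B w)) (r + (r - 1)) :=
      (yy_deriv_dlt hb w).mul ((d1_dlt hb w _).mono (by omega))
    rw [Polynomial.coeff_add, d1_dlt hb w _ _ (by omega), add_zero, hsplit,
      Polynomial.coeff_add, hd e (by omega), add_zero] at h
    exact h
  · intro e he1 he2
    have hyy : DLt (yy r A w * yy r A w) (r + 1 + r) := (yy_dlt w).mul (yy_dlt w)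
    have hy1 : DLt (Polynomial.derivative (yy r A w)) (r - 1 + 1) :=
      (yy_deriv_dlt hb w).mono (by omega)
    have hy2 : DLt (Polynomial.derivative (Polynomial.derivative (yy r A w))) (r - 1) := hy1.deriv
    have hy3 : DLt (Polynomial.derivative (Polynomial.derivative (yy r A w))
        * (yy r A w * yy r A w)) (r - 1 + (r + r)) := hy2.mul (hyy.mono (by omega))
    have hd1 : DLt (d1 r A w (vb B w)) (r - 1 + 1) := (d1_dlt hb w _).mono (by omega)
    have hd2 : DLt (Polynomial.derivative (d1 r A w (vb B w)) * yy r A w) (r - 1 + r) :=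
      hd1.deriv.mul (yy_dlt w)
    have h2eq : (2 : Polynomial F) * (Polynomial.derivative (d1 r A w (vb B w)) * yy r A w)
        = Polynomial.derivative (d1 r A w (vb B w)) * yy r A w
          + Polynomial.derivative (d1 r A w (vb B w)) * yy r A w := by ring
    have hd3 : DLt ((2 : Polynomial F) *
        (Polynomial.derivative (d1 r A w (vb B w)) * yy r A w)) (r - 1 + r) := by
      rw [h2eq]; exact hd2.add hd2
    have hd4 : DLt (d2 r A w (vb B w)) (r + 1) := d2_dlt w _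
    have h := coeff_vanish hc hb hw (vdd B w (vb B w)) _
      (((hy3.mono (by omega)).add (hd3.mono (by omega))).add (hd4.mono (by omega)))
      (fun n hn => P4_val hb w hn) (e := e) (by omega) (by omega)
    rw [Polynomial.coeff_add, Polynomial.coeff_add, hd3 e (by omega), hd4 e (by omega),
      add_zero, add_zero] at h
    exact h

theorem A_mid (hc : Conf S N) (h0 : ∑ n ∈ N, n = 0) (hb : Big S N r B A a) {k : ℕ}
    (hk1 : 1 ≤ k) (hk : k + 2 ≤ r) : A k = 0 := by
  have hrq := hb.hrq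
  apply hc.ext_form_zero h0 hb.hsig hk1 (by omega) (by omega) (hb.hA k)
  intro w hw
  have h := mid_zero hc hb hw k hk1 hk
  rw [yy, pol_coeff _ _ (by omega)] at h
  have e : r - (r - k) = k := by omega
  rwa [e] at h

/-- the external line at infinity -/
lemma ext_inf (hc : Conf S N) : Ext S ![0, 0, 1] := by
  intro s hs
  rw [Fin.sum_univ_three]
  simp [hc.S2 s hs]

lemma yy_form (hc : Conf S N) (h0 : ∑ n ∈ N, n = 0) (hb : Big S N r B A a)
    {w : Fin 3 → F} (hw : Ext S w) :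
    ∃ c : F, yy r A w = Polynomial.C a * Polynomial.X ^ r + Polynomial.C c * Polynomial.X := by
  have hr2 := hb.hr2
  refine ⟨(yy r A w).coeff 1, ?_⟩
  ext i
  rw [Polynomial.coeff_add, Polynomial.coeff_C_mul_X_pow, Polynomial.coeff_C_mul]
  by_cases h1 : i = r
  · rw [if_pos h1, h1, yy_lead hb w, Polynomial.coeff_X_of_ne_one (by omega)]; ring
  · rw [if_neg h1, zero_add]
    by_cases h2 : i = 1
    · rw [h2, Polynomial.coeff_X_one, mul_one]
    · rw [Polynomial.coeff_X_of_ne_one h2, mul_zero]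
      by_cases h3 : i = 0
      · rw [h3, yy_zero hc hb hw]
      · by_cases h4 : r < i
        · exact yy_dlt w i (by omega)
        · have h5 := mid_zero hc hb hw (r - i) (by omega) (by omega)
          have e : r - (r - i) = i := by omega
          rwa [e] at h5

lemma d1_form (hc : Conf S N) (h0 : ∑ n ∈ N, n = 0) (hb : Big S N r B A a)
    (w v : Fin 3 → F) :
    ∃ c e : F, d1 r A w v = Polynomial.C c * Polynomial.X + Polynomial.C e := by
  have hr2 := hb.hr2
  refine ⟨(d1 r A w v).coeff 1, (d1 r A w v).coeff 0, ?_⟩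
  ext i
  rw [Polynomial.coeff_add, Polynomial.coeff_C_mul, Polynomial.coeff_C]
  by_cases h0' : i = 0
  · rw [if_pos h0', h0', Polynomial.coeff_X_zero]; ring
  · rw [if_neg h0', add_zero]
    by_cases h2 : i = 1
    · rw [h2, Polynomial.coeff_X_one, mul_one]
    · rw [Polynomial.coeff_X_of_ne_one h2, mul_zero]
      by_cases h4 : r ≤ i
      · exact d1_dlt hb w v i h4
      · rw [d1, pol_coeff _ _ (by omega), A_mid hc h0 hb (k := r - i) (by omega) (by omega)]
        simp

/-- `z(0) = 0` -/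
lemma zz_zero (hc : Conf S N) (h0 : ∑ n ∈ N, n = 0) (hb : Big S N r B A a)
    {w : Fin 3 → F} (hw : Ext S w) : (zz r B A w).coeff 0 = 0 := by
  classical
  have hr2 := hb.hr2
  have hrq := hb.hrq
  have h1 : ∑ n ∈ N, ∑ i, n i * vd B w (vb B w) i = 0 := by
    rw [Finset.sum_comm]
    apply Finset.sum_eq_zero
    intro i _
    rw [← Finset.sum_mul]
    have := congrFun h0 i
    rw [Finset.sum_apply] at this
    rw [this]
    simp
  rw [Finset.sum_congr rfl (fun n hn => zz_val hb w hn),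
    hc.ext_sum hw (fun T => (zz r B A w).eval T)] at h1
  have h2 : (zz r B A w).natDegree + 1 < Fintype.card F := by
    have : DLt (zz r B A w) (2 * r - 1 + 1) := (zz_dlt hb w).mono (by omega)
    have := this.natDegree_lt
    omega
  have h3 := sum_eval_zero _ h2
  rw [← Finset.add_sum_erase Finset.univ _ (Finset.mem_univ (0 : F)), h1, add_zero] at h3
  rw [Polynomial.coeff_zero_eq_eval_zero]
  exact h3

/-- the three power relations -/
theorem powers (hc : Conf S N) (h0 : ∑ n ∈ N, n = 0) (hb : Big S N r B A a)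
    {w : Fin 3 → F} (hw : Ext S w) {n1 n2 m1 m2 : Fin 3 → F} (hn1 : n1 ∈ N) (hn2 : n2 ∈ N)
    (hm1 : m1 ∈ N) (hm2 : m2 ∈ N) {t : F} (ht : n1 - n2 = t • (m1 - m2)) :
    (∑ i, n1 i * w i) - (∑ i, n2 i * w i) = t * ((∑ i, m1 i * w i) - (∑ i, m2 i * w i)) ∧
    (∑ i, n1 i * w i) ^ r - (∑ i, n2 i * w i) ^ r
      = t * ((∑ i, m1 i * w i) ^ r - (∑ i, m2 i * w i) ^ r) ∧
    (∑ i, n1 i * w i) ^ (2 * r - 1) - (∑ i, n2 i * w i) ^ (2 * r - 1)
      = t * ((∑ i, m1 i * w i) ^ (2 * r - 1) - (∑ i, m2 i * w i) ^ (2 * r - 1)) := by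
  have hr2 := hb.hr2
  have hdot : ∀ v : Fin 3 → F, (∑ i, n1 i * v i) - (∑ i, n2 i * v i)
      = t * ((∑ i, m1 i * v i) - (∑ i, m2 i * v i)) := by
    intro v
    rw [← dot_sub, ← dot_sub, ht, dot_smul]
  obtain ⟨c, hy⟩ := yy_form hc h0 hb hw
  obtain ⟨c', e', hd⟩ := d1_form hc h0 hb w (vb B w)
  have h1 := hdot w
  have h2 := hdot (vb B w)
  have h3 := hdot (vd B w (vb B w))
  have hv : ∀ n ∈ N, ∑ i, n i * vb B w i = (yy r A w).eval (∑ i, n i * w i) :=
    fun n hn => val0 hb w hn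
  rw [hv _ hn1, hv _ hn2, hv _ hm1, hv _ hm2, hy] at h2
  rw [zz_val hb w hn1, zz_val hb w hn2, zz_val hb w hm1, zz_val hb w hm2] at h3
  have hz0 := zz_zero hc h0 hb hw
  have hzz : zz r B A w = Polynomial.C (a * (r : F) * a) * Polynomial.X ^ (2 * r - 1)
      + Polynomial.C (a * (r : F) * c + c * a) * Polynomial.X ^ r
      + Polynomial.C (c * c + c') * Polynomial.X + Polynomial.C e' := by
    obtain ⟨d, rfl⟩ : ∃ d, r = d + 1 := ⟨r - 1, by omega⟩
    have e1 : 2 * (d + 1) - 1 = d + (d + 1) := by omega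
    have e2 : Polynomial.derivative (Polynomial.C a * Polynomial.X ^ (d + 1)
        + Polynomial.C c * Polynomial.X)
        = Polynomial.C (a * ((d + 1 : ℕ) : F)) * Polynomial.X ^ d + Polynomial.C c := by
      rw [Polynomial.derivative_add, Polynomial.derivative_C_mul_X_pow,
        Polynomial.derivative_C_mul_X, Nat.add_sub_cancel]
    rw [zz, hy, hd, e1, e2]
    simp only [Polynomial.C_mul, Polynomial.C_add, pow_add, pow_one]
    ring
  have he' : e' = 0 := by
    rw [hzz] at hz0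
    have hne1 : (0 : ℕ) ≠ 2 * r - 1 := by omega
    have hne2 : (0 : ℕ) ≠ r := by omega
    rw [Polynomial.coeff_add, Polynomial.coeff_add, Polynomial.coeff_add,
      Polynomial.coeff_C_mul_X_pow, Polynomial.coeff_C_mul_X_pow, if_neg hne1, if_neg hne2,
      Polynomial.coeff_C_mul, Polynomial.coeff_X_zero, Polynomial.coeff_C_zero] at hz0
    linear_combination hz0
  rw [hzz, he'] at h3
  simp only [Polynomial.eval_add, Polynomial.eval_mul, Polynomial.eval_C, Polynomial.eval_pow,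
    Polynomial.eval_X] at h2 h3
  generalize (∑ i, n1 i * w i) = T1 at *
  generalize (∑ i, n2 i * w i) = T2 at *
  generalize (∑ i, m1 i * w i) = U1 at *
  generalize (∑ i, m2 i * w i) = U2 at *
  have h2' : T1 ^ r - T2 ^ r = t * (U1 ^ r - U2 ^ r) := by
    apply mul_left_cancel₀ hb.ha
    linear_combination h2 - c * h1
  refine ⟨h1, h2', ?_⟩
  apply mul_left_cancel₀ (mul_ne_zero (mul_ne_zero hb.ha hb.hrF) hb.ha)
  linear_combination h3 - (a * (r : F) * c + c * a) * h2' - (c * c + c') * h1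

theorem pairs (hc : Conf S N) (h0 : ∑ n ∈ N, n = 0) (hb : Big S N r B A a)
    {n1 n2 m1 m2 : Fin 3 → F} (hn1 : n1 ∈ N) (hn2 : n2 ∈ N)
    (hm1 : m1 ∈ N) (hm2 : m2 ∈ N) (hn : n1 ≠ n2) {t : F}
    (ht : n1 - n2 = t • (m1 - m2)) : (n1 = m1 ∧ n2 = m2) ∨ (n1 = m2 ∧ n2 = m1) := by
  have hw := hc.ext_inf
  set w : Fin 3 → F := ![0, 0, 1] with hwdef
  have hr2 := hb.hr2
  have h3r := three_r hc hb hw
  obtain ⟨h1, h2, h3⟩ := powers hc h0 hb hw hn1 hn2 hm1 hm2 ht
  have pw : ∀ n ∈ N, ((∑ i, n i * w i) ^ (2 * r - 1)) ^ 2 = (∑ i, n i * w i) ^ r ∧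
      ((∑ i, n i * w i) ^ (2 * r - 1)) ^ 3 = (∑ i, n i * w i) := by
    intro n hn
    have hT := hc.ext_val_ne hw hn
    have hq := FiniteField.pow_card_sub_one_eq_one _ hT
    constructor
    · rw [← pow_mul]
      have : (2 * r - 1) * 2 = r + (Fintype.card F - 1) := by omega
      rw [this, pow_add, hq, mul_one]
    · rw [← pow_mul]
      have : (2 * r - 1) * 3 = 1 + ((Fintype.card F - 1) + (Fintype.card F - 1)) := by omega
      rw [this, pow_add, pow_add, hq, pow_one, mul_one, mul_one]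
  have inj := hc.ext_inj hw
  have hinj : ∀ x ∈ N, ∀ y ∈ N, (∑ i, x i * w i) ^ (2 * r - 1) = (∑ i, y i * w i) ^ (2 * r - 1) →
      x = y := by
    intro x hx y hy h
    apply inj hx hy
    show ∑ i, x i * w i = ∑ i, y i * w i
    rw [← (pw x hx).2, ← (pw y hy).2, h]
  have a1 := pw n1 hn1
  have a2 := pw n2 hn2
  have b1 := pw m1 hm1
  have b2 := pw m2 hm2
  rw [← a1.1, ← a2.1, ← b1.1, ← b2.1] at h2
  rw [← a1.2, ← a2.2, ← b1.2, ← b2.2] at h1
  have hs : (∑ i, n1 i * w i) ^ (2 * r - 1) - (∑ i, n2 i * w i) ^ (2 * r - 1) ≠ 0 := by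
    intro h
    exact hn (hinj _ hn1 _ hn2 (sub_eq_zero.1 h))
  rw [a1.2, a2.2, b1.2, b2.2] at h1
  have h1' : ((∑ i, n1 i * w i) ^ (2 * r - 1)) ^ 3 - ((∑ i, n2 i * w i) ^ (2 * r - 1)) ^ 3
      = t * (((∑ i, m1 i * w i) ^ (2 * r - 1)) ^ 3 - ((∑ i, m2 i * w i) ^ (2 * r - 1)) ^ 3) := by
    rw [a1.2, a2.2, b1.2, b2.2]; exact h1
  have goal1 : (∑ i, n1 i * w i) ^ (2 * r - 1) = (∑ i, m1 i * w i) ^ (2 * r - 1) ∧
      (∑ i, n2 i * w i) ^ (2 * r - 1) = (∑ i, m2 i * w i) ^ (2 * r - 1) ∨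
      (∑ i, n1 i * w i) ^ (2 * r - 1) = (∑ i, m2 i * w i) ^ (2 * r - 1) ∧
      (∑ i, n2 i * w i) ^ (2 * r - 1) = (∑ i, m1 i * w i) ^ (2 * r - 1) := by
    clear h1 a1 a2 b1 b2
    generalize (∑ i, n1 i * w i) ^ (2 * r - 1) = s1 at *
    generalize (∑ i, n2 i * w i) ^ (2 * r - 1) = s2 at *
    generalize (∑ i, m1 i * w i) ^ (2 * r - 1) = u1 at *
    generalize (∑ i, m2 i * w i) ^ (2 * r - 1) = u2 at *
    have e1 : s1 + s2 = u1 + u2 := by
      apply mul_left_cancel₀ hs
      linear_combination h2 - (u1 + u2) * h3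
    have e2 : s1 ^ 2 + s1 * s2 + s2 ^ 2 = u1 ^ 2 + u1 * u2 + u2 ^ 2 := by
      apply mul_left_cancel₀ hs
      linear_combination h1' - (u1 ^ 2 + u1 * u2 + u2 ^ 2) * h3
    have e3 : (s1 - u1) * (s1 - u2) = 0 := by
      linear_combination (s1 - (s1 + s2 + u1 + u2)) * e1 + e2
    rcases mul_eq_zero.1 e3 with h | h
    · left
      have := sub_eq_zero.1 h
      refine ⟨this, ?_⟩
      rw [this] at e1
      linear_combination e1
    · right
      have := sub_eq_zero.1 h
      refine ⟨this, ?_⟩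
      rw [this] at e1
      linear_combination e1
  rcases goal1 with ⟨g1, g2⟩ | ⟨g1, g2⟩
  · exact Or.inl ⟨hinj _ hn1 _ hm1 g1, hinj _ hn2 _ hm2 g2⟩
  · exact Or.inr ⟨hinj _ hn1 _ hm2 g1, hinj _ hn2 _ hm1 g2⟩

theorem core' (hc : Conf S N) (h0 : ∑ n ∈ N, n = 0) :
    Fintype.card F = 5 ∧ ∀ n1 ∈ N, ∀ n2 ∈ N, ∀ m1 ∈ N, ∀ m2 ∈ N, n1 ≠ n2 → m1 ≠ m2 →
      ∀ t : F, n1 - n2 = t • (m1 - m2) → (n1 = m1 ∧ n2 = m2) ∨ (n1 = m2 ∧ n2 = m1) := by
  classical
  obtain ⟨r, B, A, a, hb⟩ := hc.exists_big h0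
  have hp : ∀ n1 ∈ N, ∀ n2 ∈ N, ∀ m1 ∈ N, ∀ m2 ∈ N, n1 ≠ n2 → m1 ≠ m2 →
      ∀ t : F, n1 - n2 = t • (m1 - m2) → (n1 = m1 ∧ n2 = m2) ∨ (n1 = m2 ∧ n2 = m1) :=
    fun n1 hn1 n2 hn2 m1 hm1 m2 hm2 hn hm t ht => pairs hc h0 hb hn1 hn2 hm1 hm2 hn ht
  refine ⟨?_, hp⟩
  have hr2 := hb.hr2
  have hrq := hb.hrq
  -- counting
  have hdir : ∀ p ∈ N.offDiag, ∃ s ∈ S, ∃ t : F, t ≠ 0 ∧ p.1 - p.2 = t • s := by
    intro p hp
    rw [Finset.mem_offDiag] at hp
    exact hc.diff _ hp.1 _ hp.2.1 hp.2.2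
  choose! σ hσS t ht0 ht using hdir
  have hfib : ∀ s ∈ S, (N.offDiag.filter (fun p => σ p = s)).card ≤ 2 := by
    intro s hs
    by_cases hne : (N.offDiag.filter (fun p => σ p = s)).Nonempty
    · obtain ⟨p, hp'⟩ := hne
      rw [Finset.mem_filter] at hp'
      have hpo := Finset.mem_offDiag.1 hp'.1
      have hsub : N.offDiag.filter (fun p => σ p = s) ⊆ {p, (p.2, p.1)} := by
        intro x hx
        rw [Finset.mem_filter] at hx
        have hxo := Finset.mem_offDiag.1 hx.1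
        have e1 := ht p hp'.1
        have e2 := ht x hx.1
        rw [hp'.2] at e1
        rw [hx.2] at e2
        have e3 : x.1 - x.2 = (t x * (t p)⁻¹) • (p.1 - p.2) := by
          rw [e2, e1, smul_smul, mul_assoc, inv_mul_cancel₀ (ht0 p hp'.1), mul_one]
        rcases hp _ hxo.1 _ hxo.2.1 _ hpo.1 _ hpo.2.1 hxo.2.2 hpo.2.2 _ e3 with ⟨h1, h2⟩ | ⟨h1, h2⟩
        · rw [Finset.mem_insert]; left
          exact Prod.ext h1 h2
        · rw [Finset.mem_insert, Finset.mem_singleton]; right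
          exact Prod.ext h1 h2
      exact (Finset.card_le_card hsub).trans Finset.card_le_two
    · rw [Finset.not_nonempty_iff_eq_empty] at hne
      rw [hne]; simp
  have hcount := Finset.card_le_mul_card_image_of_maps_to (s := N.offDiag) (t := S) (f := σ)
    hσS 2 hfib
  rw [Finset.offDiag_card, hc.cardS] at hcount
  have hN := hc.cardN
  have hN' : N.card = Fintype.card F - 1 := by omega
  rw [hN'] at hcount
  obtain ⟨d, hd⟩ : ∃ d, Fintype.card F = d + 5 := ⟨Fintype.card F - 5, by omega⟩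
  rw [hd] at hcount ⊢
  have e1 : d + 5 - 1 = d + 4 := by omega
  rw [e1] at hcount
  have e2 : (d + 4) * (d + 4) - (d + 4) = (d + 4) * (d + 3) := by
    have : (d + 4) * (d + 4) = (d + 4) * (d + 3) + (d + 4) := by ring
    omega
  rw [e2] at hcount
  nlinarith

end Conf

end Pool.Agent.helper35.Nuc
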