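import Pool.Agent.helper35.Nuc1

open MvPolynomial

namespace Pool.Agent.helper35.Nuc

variable {F : Type*} [Field F]

lemma koszul (g : Fin 3 → MvPolynomial (Fin 3) F) (h : ∑ i, g i * X i = 0) :
    ∃ B : Fin 3 → MvPolynomial (Fin 3) F,
      g 0 = X 1 * B 2 - X 2 * B 1 ∧ g 1 = X 2 * B 0 - X 0 * B 2 ∧
      g 2 = X 0 * B 1 - X 1 * B 0 := by
  classical
  rw [Fin.sum_univ_three] at h
  have hmem : g 2 ∈ Ideal.span (X '' ({0, 1} : Set (Fin 3)) : Set (MvPolynomial (Fin 3) F)) := by
    rw [mem_ideal_span_X_image]
    have h2 : g 2 * X 2 ∈ Ideal.span (X '' ({0, 1} : Set (Fin 3)) :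
        Set (MvPolynomial (Fin 3) F)) := by
      have : g 2 * X 2 = (-g 0) * X 0 + (-g 1) * X 1 := by linear_combination h
      rw [this]
      apply Ideal.add_mem
      · apply Ideal.mul_mem_left
        apply Ideal.subset_span
        exact ⟨0, by simp, rfl⟩
      · apply Ideal.mul_mem_left
        apply Ideal.subset_span
        exact ⟨1, by simp, rfl⟩
    rw [mem_ideal_span_X_image] at h2
    intro m hm
    have hm' : m + Finsupp.single 2 1 ∈ (g 2 * X 2).support := by
      rw [mem_support_iff, coeff_mul_X]
      rwa [mem_support_iff] at hm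
    obtain ⟨i, hi, hmi⟩ := h2 _ hm'
    refine ⟨i, hi, ?_⟩
    simp only [Set.mem_insert_iff, Set.mem_singleton_iff] at hi
    rcases hi with rfl | rfl
    · simpa [Finsupp.single_apply] using hmi
    · simpa [Finsupp.single_apply] using hmi
  rw [Set.image_pair, Ideal.mem_span_pair] at hmem
  obtain ⟨a, b, hab⟩ := hmem
  have hX0 : Prime (X 0 : MvPolynomial (Fin 3) F) := X_prime
  have hd : X 0 ∣ (X 1 : MvPolynomial (Fin 3) F) * (g 1 + X 2 * b) := by
    refine ⟨-(g 0 + X 2 * a), ?_⟩
    linear_combination h + X 2 * hab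
  have hd2 : X 0 ∣ g 1 + X 2 * b := by
    rcases hX0.dvd_or_dvd hd with h1 | h1
    · rw [X_dvd_X] at h1
      norm_num at h1
    · exact h1
  obtain ⟨c, hc⟩ := hd2
  have hX0ne : (X 0 : MvPolynomial (Fin 3) F) ≠ 0 := hX0.ne_zero
  have h3 : g 0 + X 2 * a = -(X 1 * c) := by
    apply mul_left_cancel₀ hX0ne
    linear_combination h + X 2 * hab - X 1 * hc
  refine ⟨![-b, a, -c], ?_, ?_, ?_⟩
  · simp
    linear_combination h3
  · simp
    linear_combination hc
  · simp
    linear_combination -hab

variable [Fintype F]

/-- `w^q × w` -/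
noncomputable def Lam (F : Type*) [Field F] [Fintype F] : Fin 3 → MvPolynomial (Fin 3) F :=
  ![X 1 ^ Fintype.card F * X 2 - X 2 ^ Fintype.card F * X 1,
    X 2 ^ Fintype.card F * X 0 - X 0 ^ Fintype.card F * X 2,
    X 0 ^ Fintype.card F * X 1 - X 1 ^ Fintype.card F * X 0]

lemma prod_X_sub_C_univ (i : Fin 3) :
    ∏ c ∈ (Finset.univ : Finset F), (X i - C c : MvPolynomial (Fin 3) F)
      = X i ^ Fintype.card F - X i := by
  classical
  have h1 : ∏ c : F, (Polynomial.X - Polynomial.C c) =
      (Polynomial.X ^ Fintype.card F - Polynomial.X : Polynomial F) := by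
    have h2 := FiniteField.roots_X_pow_card_sub_X F
    have h3 := Polynomial.prod_multiset_X_sub_C_of_monic_of_roots_card_eq
      (p := (Polynomial.X ^ Fintype.card F - Polynomial.X : Polynomial F))
      (Polynomial.monic_X_pow_sub (by
        rw [Polynomial.degree_X]; exact_mod_cast Fintype.one_lt_card))
      (by
        rw [h2, FiniteField.X_pow_card_sub_X_natDegree_eq F Fintype.one_lt_card]; rfl)
    rw [h2] at h3
    exact h3
  have h4 := congrArg (Polynomial.aeval (X i : MvPolynomial (Fin 3) F)) h1
  simpa [map_prod, algebraMap_eq] using h4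

lemma frob_ideal {k : ℕ} (hk : k + 3 ≤ Fintype.card F) {f : MvPolynomial (Fin 3) F}
    (hf : f.IsHomogeneous (Fintype.card F + 1 + k)) (h0 : ∀ w, eval w f = 0) :
    ∃ B : Fin 3 → MvPolynomial (Fin 3) F, (∀ i, (B i).IsHomogeneous k) ∧
      f = ∑ i, B i * Lam F i := by
  classical
  obtain ⟨h, hdeg, hsum⟩ := combinatorial_nullstellensatz_exists_linearCombination
    (fun _ : Fin 3 => (Finset.univ : Finset F)) (fun _ => Finset.univ_nonempty) f
    (fun x _ => h0 x)
  simp only [prod_X_sub_C_univ] at hdeg hsum
  set q := Fintype.card F with hq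
  have hsum' : f = ∑ i, h i * (X i ^ q - X i) := by
    rw [hsum, Finsupp.linearCombination_apply, Finsupp.sum_fintype]
    · rfl
    · intro i; simp
  have hdeg' : ∀ i, (h i).totalDegree ≤ k + 1 := by
    intro i
    by_cases hi : h i = 0
    · simp [hi]
    have h1 := hdeg i
    have h2 : (X i ^ q - X i : MvPolynomial (Fin 3) F) ≠ 0 := by
      rw [← prod_X_sub_C_univ]
      apply Finset.prod_ne_zero_iff.2
      intro c _ h
      have := congrArg (eval (fun _ => c + 1)) h
      simp at this
    have h3 : (X i ^ q - X i : MvPolynomial (Fin 3) F).totalDegree = q := by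
      apply le_antisymm
      · refine (totalDegree_sub _ _).trans ?_
        simp only [totalDegree_X_pow, totalDegree_X]
        exact max_le le_rfl (by omega)
      · have : (Finsupp.single i q) ∈ (X i ^ q - X i : MvPolynomial (Fin 3) F).support := by
          rw [mem_support_iff, coeff_sub, coeff_X_pow, coeff_X, if_pos rfl, if_neg]
          · simp
          · intro h
            have := congrArg (fun f => f i) h
            simp at this
            omega
        have := le_totalDegree this
        simpa using this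
    rw [totalDegree_mul_of_isDomain h2 hi, h3] at h1
    have h4 := hf.totalDegree_le
    omega
  -- top component
  have hXq : ∀ i : Fin 3, (X i ^ q : MvPolynomial (Fin 3) F).IsHomogeneous q :=
    fun i => isHomogeneous_X_pow i q
  have hX : ∀ i : Fin 3, (X i : MvPolynomial (Fin 3) F).IsHomogeneous 1 :=
    fun i => isHomogeneous_X _ i
  have e1 : f = ∑ i, homogeneousComponent (k + 1) (h i) * X i ^ q := by
    have := congrArg (homogeneousComponent (q + 1 + k)) hsum'
    rw [hc_self hf, if_pos rfl, map_sum] at this
    rw [this]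
    apply Finset.sum_congr rfl
    intro i _
    rw [mul_sub, map_sub, hc_mul _ _ (hXq i), hc_mul _ _ (hX i), if_pos (by omega),
      if_pos (by omega), homogeneousComponent_eq_zero (q + 1 + k - 1) (h i)
        (by have := hdeg' i; omega), zero_mul, sub_zero]
    congr 3
    omega
  have e2 : ∑ i, homogeneousComponent (k + 1) (h i) * X i = 0 := by
    have := congrArg (homogeneousComponent (k + 2)) hsum'
    rw [hc_self hf, if_neg (by omega), map_sum] at this
    rw [← neg_eq_zero, this, ← Finset.sum_neg_distrib]
    apply Finset.sum_congr rfl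
    intro i _
    rw [mul_sub, map_sub, hc_mul _ _ (hXq i), hc_mul _ _ (hX i), if_neg (by omega),
      if_pos (by omega)]
    simp
  obtain ⟨B, hB0, hB1, hB2⟩ := koszul _ e2
  refine ⟨fun i => homogeneousComponent k (B i),
    fun i => homogeneousComponent_isHomogeneous k (B i), ?_⟩
  have c0 : homogeneousComponent (k + 1) (h 0) = X 1 * homogeneousComponent k (B 2)
      - X 2 * homogeneousComponent k (B 1) := by
    have := congrArg (homogeneousComponent (k + 1)) hB0
    rw [hc_self (homogeneousComponent_isHomogeneous _ _), if_pos rfl, map_sub,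
      mul_comm (X 1), mul_comm (X 2), hc_mul _ _ (hX 1), hc_mul _ _ (hX 2),
      if_pos (by omega), if_pos (by omega)] at this
    rw [this]
    simp [mul_comm]
  have c1 : homogeneousComponent (k + 1) (h 1) = X 2 * homogeneousComponent k (B 0)
      - X 0 * homogeneousComponent k (B 2) := by
    have := congrArg (homogeneousComponent (k + 1)) hB1
    rw [hc_self (homogeneousComponent_isHomogeneous _ _), if_pos rfl, map_sub,
      mul_comm (X 2), mul_comm (X 0), hc_mul _ _ (hX 2), hc_mul _ _ (hX 0),
      if_pos (by omega), if_pos (by omega)] at this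
    rw [this]
    simp [mul_comm]
  have c2 : homogeneousComponent (k + 1) (h 2) = X 0 * homogeneousComponent k (B 1)
      - X 1 * homogeneousComponent k (B 0) := by
    have := congrArg (homogeneousComponent (k + 1)) hB2
    rw [hc_self (homogeneousComponent_isHomogeneous _ _), if_pos rfl, map_sub,
      mul_comm (X 0), mul_comm (X 1), hc_mul _ _ (hX 0), hc_mul _ _ (hX 1),
      if_pos (by omega), if_pos (by omega)] at this
    rw [this]
    simp [mul_comm]
  rw [e1, Fin.sum_univ_three, Fin.sum_univ_three, c0, c1, c2]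
  simp [Lam]
  ring

end Pool.Agent.helper35.Nuc
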