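import Pool.Agent.helper35.Nuc2

open MvPolynomial

namespace Pool.Agent.helper35.Nuc

variable {F : Type*} [Field F] [Fintype F]

/-- Normalised configuration: `S` is the set of `q + 1` points and `N` the set of (suitably scaled)
`q - 1` nuclei. -/
structure Conf (S N : Finset (Fin 3 → F)) : Prop where
  S2 : ∀ s ∈ S, s 2 = 1
  cardS : S.card = Fintype.card F + 1
  cardN : N.card + 1 = Fintype.card F
  N2 : ∀ n ∈ N, n 2 ≠ 0
  Nindep : ∀ n ∈ N, ∀ m ∈ N, ∀ c : F, m = c • n → m = n
  nuc : ∀ n ∈ N, ∀ w : Fin 3 → F, w ≠ 0 → ∑ i, n i * w i = 0 →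
    ∃! s, s ∈ S ∧ ∑ i, s i * w i = 0
  diff : ∀ n ∈ N, ∀ m ∈ N, n ≠ m → ∃ s ∈ S, ∃ t : F, t ≠ 0 ∧ n - m = t • s
  modid : ∀ n ∈ N, ∀ a, lin n ∣ (∏ s ∈ S, lin s) * C (n a) - Lam F a

/-- `w` is an external line of `S`. -/
def Ext (S : Finset (Fin 3 → F)) (w : Fin 3 → F) : Prop := ∀ s ∈ S, ∑ i, s i * w i ≠ 0

lemma lin_pow_card (v : Fin 3 → F) :
    lin v ^ Fintype.card F = ∑ i, C (v i) * X i ^ Fintype.card F := by
  classical
  obtain ⟨p, hp⟩ := CharP.exists F
  have := hp
  obtain ⟨n, hpr, hn⟩ := FiniteField.card F p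
  have : Fact p.Prime := ⟨hpr⟩
  have : CharP (MvPolynomial (Fin 3) F) p := inferInstance
  rw [lin, hn, sum_pow_char_pow]
  apply Finset.sum_congr rfl
  intro i _
  rw [mul_pow, ← C_pow, ← hn, FiniteField.pow_card]

lemma lin_dvd_frob (v : Fin 3 → F) :
    lin v ∣ ∑ i, C (v i) * X i ^ Fintype.card F := by
  rw [← lin_pow_card]
  exact dvd_pow_self _ Fintype.card_ne_zero

/-- `v_a Λ_b - v_b Λ_a` is divisible by the linear form of `v`. -/
lemma cross_dvd (v : Fin 3 → F) (a b : Fin 3) :
    lin v ∣ C (v a) * Lam F b - C (v b) * Lam F a := by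
  obtain ⟨g, hg⟩ := lin_dvd_frob v
  rw [Fin.sum_univ_three] at hg
  set q := Fintype.card F with hq
  have hl : lin v = C (v 0) * X 0 + C (v 1) * X 1 + C (v 2) * X 2 := lin_eq v
  have h01 : lin v ∣ C (v 0) * Lam F 1 - C (v 1) * Lam F 0 := by
    refine ⟨X 2 ^ q - X 2 * g, ?_⟩
    have : C (v 0) * Lam F 1 - C (v 1) * Lam F 0
        = X 2 ^ q * (C (v 0) * X 0 + C (v 1) * X 1 + C (v 2) * X 2)
          - X 2 * (C (v 0) * X 0 ^ q + C (v 1) * X 1 ^ q + C (v 2) * X 2 ^ q) := by
      simp [Lam, ← hq]; ring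
    rw [this, hg, ← hl]; ring
  have h12 : lin v ∣ C (v 1) * Lam F 2 - C (v 2) * Lam F 1 := by
    refine ⟨X 0 ^ q - X 0 * g, ?_⟩
    have : C (v 1) * Lam F 2 - C (v 2) * Lam F 1
        = X 0 ^ q * (C (v 0) * X 0 + C (v 1) * X 1 + C (v 2) * X 2)
          - X 0 * (C (v 0) * X 0 ^ q + C (v 1) * X 1 ^ q + C (v 2) * X 2 ^ q) := by
      simp [Lam, ← hq]; ring
    rw [this, hg, ← hl]; ring
  have h20 : lin v ∣ C (v 2) * Lam F 0 - C (v 0) * Lam F 2 := by
    refine ⟨X 1 ^ q - X 1 * g, ?_⟩
    have : C (v 2) * Lam F 0 - C (v 0) * Lam F 2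
        = X 1 ^ q * (C (v 0) * X 0 + C (v 1) * X 1 + C (v 2) * X 2)
          - X 1 * (C (v 0) * X 0 ^ q + C (v 1) * X 1 ^ q + C (v 2) * X 2 ^ q) := by
      simp [Lam, ← hq]; ring
    rw [this, hg, ← hl]; ring
  have swap : ∀ a b : Fin 3, lin v ∣ C (v a) * Lam F b - C (v b) * Lam F a →
      lin v ∣ C (v b) * Lam F a - C (v a) * Lam F b := by
    intro a b h
    have := (dvd_neg (a := lin v)).2 h
    rwa [neg_sub] at this
  fin_cases a <;> fin_cases b
  · simp
  · exact h01
  · exact swap _ _ h20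
  · exact swap _ _ h01
  · simp
  · exact h12
  · exact h20
  · exact swap _ _ h12
  · simp

/-- If `v b ≠ 0` then `Λ_b` is not divisible by the linear form of `v`. -/
lemma not_dvd_Lam {v : Fin 3 → F} {b : Fin 3} (hb : v b ≠ 0) : ¬ lin v ∣ Lam F b := by
  classical
  intro hd
  set q := Fintype.card F with hq
  have hq1 : 1 < q := Fintype.one_lt_card
  -- substitution
  have main : ∀ (b i j : Fin 3), b ≠ i → b ≠ j → i ≠ j → v b ≠ 0 →
      ¬ lin v ∣ (X i ^ q * X j - X j ^ q * X i : MvPolynomial (Fin 3) F) := by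
    intro b i j hbi hbj hij hb hd
    let φ : MvPolynomial (Fin 3) F →ₐ[F] MvPolynomial (Fin 3) F :=
      aeval (fun t => if t = b then - (C (v b)⁻¹ * (C (v i) * X i + C (v j) * X j)) else X t)
    have huniv : (Finset.univ : Finset (Fin 3)) = {b, i, j} := by
      symm
      apply Finset.eq_univ_of_card
      rw [Finset.card_insert_of_notMem (by simp [hbi, hbj]),
        Finset.card_insert_of_notMem (by simp [hij])]
      simp
    have h1 : φ (lin v) = 0 := by
      simp only [lin, map_sum, map_mul]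
      rw [huniv, Finset.sum_insert (by simp [hbi, hbj]), Finset.sum_insert (by simp [hij]),
        Finset.sum_singleton]
      have hC : ∀ c : F, φ (C c) = C c := by
        intro c
        exact φ.commutes c
      have hXb : φ (X b) = - (C (v b)⁻¹ * (C (v i) * X i + C (v j) * X j)) := by
        simp [φ]
      have hXi : φ (X i) = X i := by simp [φ, hbi.symm]
      have hXj : φ (X j) = X j := by simp [φ, hbj.symm]
      rw [hC, hC, hC, hXb, hXi, hXj]
      have : (C (v b) * C (v b)⁻¹ : MvPolynomial (Fin 3) F) = 1 := by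
        rw [← C_mul, mul_inv_cancel₀ hb, C_1]
      linear_combination (-(C (v i) * X i + C (v j) * X j)) * this
    have h2 : φ (X i ^ q * X j - X j ^ q * X i) = X i ^ q * X j - X j ^ q * X i := by
      have hXi : φ (X i) = X i := by simp [φ, hbi.symm]
      have hXj : φ (X j) = X j := by simp [φ, hbj.symm]
      simp only [map_sub, map_mul, map_pow, hXi, hXj]
    have h3 := map_dvd φ hd
    rw [h1, h2, zero_dvd_iff] at h3
    have h4 := congrArg (coeff (Finsupp.single i q + Finsupp.single j 1)) h3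
    rw [coeff_sub, coeff_zero] at h4
    have h5 : (X i ^ q * X j : MvPolynomial (Fin 3) F)
        = monomial (Finsupp.single i q + Finsupp.single j 1) 1 := by
      rw [X_pow_eq_monomial, X, monomial_mul, one_mul]
    have h6 : (X j ^ q * X i : MvPolynomial (Fin 3) F)
        = monomial (Finsupp.single j q + Finsupp.single i 1) 1 := by
      rw [X_pow_eq_monomial, X, monomial_mul, one_mul]
    rw [h5, h6, coeff_monomial, coeff_monomial, if_pos rfl, if_neg] at h4
    · simp at h4
    · intro h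
      have := congrArg (fun f => f i) h
      simp [hij, hij.symm] at this
      omega
  fin_cases b
  · refine main 0 1 2 (by decide) (by decide) (by decide) hb ?_
    simpa [Lam, ← hq] using hd
  · refine main 1 2 0 (by decide) (by decide) (by decide) hb ?_
    simpa [Lam, ← hq] using hd
  · refine main 2 0 1 (by decide) (by decide) (by decide) hb ?_
    simpa [Lam, ← hq] using hd

lemma exists_ne {v : Fin 3 → F} (hv : v ≠ 0) : ∃ b, v b ≠ 0 := by
  by_contra h
  push_neg at h
  exact hv (funext h)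

namespace Conf

variable {S N : Finset (Fin 3 → F)}

lemma s_ne (_hc : Conf S N) {s : Fin 3 → F} (hs : s ∈ S) : s ≠ 0 := by
  rintro rfl
  have := _hc.S2 _ hs
  simp at this

lemma n_ne (hc : Conf S N) {n : Fin 3 → F} (hn : n ∈ N) : n ≠ 0 := by
  rintro rfl
  exact hc.N2 _ hn rfl

theorem exists_field (hc : Conf S N) {k : ℕ} (hk : k + 3 ≤ Fintype.card F)
    {τ : MvPolynomial (Fin 3) F} (hτ : τ.IsHomogeneous k)
    (hv : ∀ w, Ext S w → eval w τ = 0) :
    ∃ B : Fin 3 → MvPolynomial (Fin 3) F, (∀ i, (B i).IsHomogeneous k) ∧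
      (∀ s ∈ S, lin s ∣ ∑ i, B i * C (s i)) ∧
      (∀ n ∈ N, lin n ∣ (∑ i, B i * C (n i)) - τ) := by
  classical
  have hFh : (∏ s ∈ S, lin s).IsHomogeneous (Fintype.card F + 1) := by
    have := IsHomogeneous.prod S (fun s => lin s) (fun _ => 1) (fun s _ => lin_homog s)
    simpa [hc.cardS] using this
  have hf := hFh.mul hτ
  obtain ⟨B, hB, hBe⟩ := frob_ideal hk hf (by
    intro w
    rw [map_mul]
    by_cases hw : Ext S w
    · rw [hv w hw, mul_zero]
    · unfold Ext at hw
      push_neg at hw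
      obtain ⟨s, hs, hs0⟩ := hw
      rw [map_prod, Finset.prod_eq_zero hs (by rw [eval_lin]; exact hs0), zero_mul])
  refine ⟨B, hB, ?_, ?_⟩
  · intro s hs
    obtain ⟨b, hb⟩ := exists_ne (hc.s_ne hs)
    have h1 : lin s ∣ (∑ i, B i * C (s i)) * Lam F b := by
      have h2 : (∑ i, B i * C (s i)) * Lam F b
          = (∑ i, B i * (C (s i) * Lam F b - C (s b) * Lam F i))
            + C (s b) * ((∏ s ∈ S, lin s) * τ) := by
        rw [hBe, Finset.sum_mul, Finset.mul_sum, ← Finset.sum_add_distrib]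
        apply Finset.sum_congr rfl
        intro i _
        ring
      rw [h2]
      apply dvd_add
      · apply Finset.dvd_sum
        intro i _
        exact Dvd.dvd.mul_left (cross_dvd s i b) _
      · apply Dvd.dvd.mul_left
        apply Dvd.dvd.mul_right
        exact Finset.dvd_prod_of_mem _ hs
    rcases (lin_prime (hc.s_ne hs)).dvd_or_dvd h1 with h | h
    · exact h
    · exact absurd h (not_dvd_Lam hb)
  · intro n hn
    obtain ⟨b, hb⟩ := exists_ne (hc.n_ne hn)
    have h1 : lin n ∣ ((∑ i, B i * C (n i)) - τ) * Lam F b := by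
      have h2 : ((∑ i, B i * C (n i)) - τ) * Lam F b
          = (∑ i, B i * (C (n i) * Lam F b - C (n b) * Lam F i))
            + τ * ((∏ s ∈ S, lin s) * C (n b) - Lam F b) := by
        have : (∑ i, B i * C (n i)) * Lam F b
          = (∑ i, B i * (C (n i) * Lam F b - C (n b) * Lam F i))
            + C (n b) * ((∏ s ∈ S, lin s) * τ) := by
          rw [hBe, Finset.sum_mul, Finset.mul_sum, ← Finset.sum_add_distrib]
          apply Finset.sum_congr rfl
          intro i _
          ring
        rw [sub_mul, this]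
        ring
      rw [h2]
      apply dvd_add
      · apply Finset.dvd_sum
        intro i _
        exact Dvd.dvd.mul_left (cross_dvd n i b) _
      · apply Dvd.dvd.mul_left
        exact hc.modid n hn b
    rcases (lin_prime (hc.n_ne hn)).dvd_or_dvd h1 with h | h
    · exact h
    · exact absurd h (not_dvd_Lam hb)

end Conf

end Pool.Agent.helper35.Nuc
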