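import Pool.Agent.helper35.Nuc3

namespace Pool.Agent.helper35.Nuc

section abs

variable {R ι : Type*} [CommRing R] [IsDomain R]

open Polynomial in
lemma vanish_dvd (s : Finset ι) (l : ι → R) (hinj : Set.InjOn l s) (P : R[X])
    (h : ∀ n ∈ s, P.eval (l n) = 0) (x : R) : ∏ n ∈ s, (x - l n) ∣ P.eval x := by
  classical
  by_cases hP : P = 0
  · simp [hP]
  have h1 : ((s.val.map l).map fun a => (X - C a : R[X])).prod ∣ P := by
    rw [Multiset.prod_X_sub_C_dvd_iff_le_roots hP, Multiset.le_iff_subset]
    · intro a ha
      rw [Multiset.mem_map] at ha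
      obtain ⟨n, hn, rfl⟩ := ha
      rw [mem_roots hP]
      exact h n hn
    · exact Multiset.Nodup.map_on (fun x hx y hy hxy => hinj hx hy hxy) s.nodup
  obtain ⟨Q, hQ⟩ := h1
  have h2 := congrArg (eval x) hQ
  rw [eval_mul, Multiset.map_map] at h2
  refine ⟨Q.eval x, ?_⟩
  rw [h2]
  congr 1
  have : (Multiset.map ((fun a => (X - C a : R[X])) ∘ l) s.val).prod = ∏ n ∈ s, (X - C (l n)) := rfl
  rw [this, eval_prod]
  simp

open Polynomial in
lemma class_interp (s : Finset ι) (l g : ι → R) (b K : R)
    (h : ∀ n ∈ s, l n * (b - g n) = K) (hdvd : ∏ n ∈ s, l n ∣ K) (hne : ∀ n ∈ s, l n ≠ 0) :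
    ∃ G : R[X], ∀ n ∈ s, G.eval (l n) = g n := by
  classical
  obtain ⟨κ, hκ⟩ := hdvd
  set E : R[X] := ∏ n ∈ s, (C (l n) - X) with hE
  have hE0 : E.eval 0 = ∏ n ∈ s, l n := by
    rw [hE, eval_prod]; simp
  have hd : (X : R[X]) ∣ C (E.eval 0) - E := by
    rw [X_dvd_iff, coeff_zero_eq_eval_zero]
    simp
  obtain ⟨E', hE'⟩ := hd
  refine ⟨C b - C κ * E', ?_⟩
  intro n hn
  apply mul_left_cancel₀ (hne n hn)
  have h1 := congrArg (eval (l n)) hE'
  have h2 : E.eval (l n) = 0 := by
    rw [hE, eval_prod]
    exact Finset.prod_eq_zero hn (by simp)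
  rw [eval_sub, eval_mul, eval_X, eval_C, h2, sub_zero, hE0] at h1
  have h3 := h n hn
  rw [eval_sub, eval_mul, eval_C, eval_C]
  rw [hκ] at h3
  linear_combination h3 + κ * h1

end abs

open MvPolynomial

variable {F : Type*} [Field F] [Fintype F]

namespace Conf

variable {S N : Finset (Fin 3 → F)}

lemma lin_relprime_S (hc : Conf S N) {s t : Fin 3 → F} (hs : s ∈ S) (ht : t ∈ S) (hst : s ≠ t) :
    IsRelPrime (lin s) (lin t) := by
  apply lin_relprime (hc.s_ne hs)
  intro c h
  apply hst
  have h2 := congrArg (fun f => f 2) h
  simp only [Pi.smul_apply, smul_eq_mul, hc.S2 s hs, hc.S2 t ht, mul_one] at h2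
  rw [h, ← h2, one_smul]

lemma lin_relprime_N (hc : Conf S N) {n m : Fin 3 → F} (hn : n ∈ N) (hm : m ∈ N) (hnm : n ≠ m) :
    IsRelPrime (lin n) (lin m) := by
  apply lin_relprime (hc.n_ne hn)
  intro c h
  exact hnm (hc.Nindep n hn m hm c h).symm

theorem exists_G (hc : Conf S N) (B : Fin 3 → MvPolynomial (Fin 3) F)
    (τ : MvPolynomial (Fin 3) F)
    (b g : (Fin 3 → F) → MvPolynomial (Fin 3) F)
    (hb : ∀ s ∈ S, ∑ i, B i * C (s i) = lin s * b s)
    (hg : ∀ n ∈ N, ∑ i, B i * C (n i) = τ + lin n * g n) :
    ∃ G : Polynomial (MvPolynomial (Fin 3) F), ∀ n ∈ N, G.eval (lin n) = g n := by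
  classical
  have main : ∀ N' : Finset (Fin 3 → F), N' ⊆ N →
      ∃ G : Polynomial (MvPolynomial (Fin 3) F), ∀ n ∈ N', G.eval (lin n) = g n := by
    intro N'
    induction N' using Finset.induction_on with
    | empty =>
      intro _
      exact ⟨0, by simp⟩
    | insert n1 N' hn1 ih =>
      intro hsub
      have hn1N : n1 ∈ N := hsub (Finset.mem_insert_self _ _)
      have hN'N : N' ⊆ N := fun x hx => hsub (Finset.mem_insert_of_mem hx)
      obtain ⟨G, hG⟩ := ih hN'N
      -- choose directions
      have hdir : ∀ n ∈ N', ∃ s ∈ S, ∃ t : F, t ≠ 0 ∧ n1 - n = t • s := by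
        intro n hn
        exact hc.diff n1 hn1N n (hN'N hn) (by rintro rfl; exact hn1 hn)
      choose! σ hσS t ht0 ht using hdir
      have hdvd : ∏ n ∈ N', (lin n1 - lin n) ∣ G.eval (lin n1) - g n1 := by
        rw [← Finset.prod_fiberwise_of_maps_to (s := N') (t := S) (g := σ) hσS]
        apply Finset.prod_dvd_of_isRelPrime
        · intro s hs s' hs' hss'
          apply IsRelPrime.prod_left
          intro n hn
          apply IsRelPrime.prod_right
          intro m hm
          rw [Finset.mem_filter] at hn hm
          rw [← lin_sub, ← lin_sub, ht n hn.1, ht m hm.1, hn.2, hm.2, lin_smul, lin_smul]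
          have hu1 : IsUnit (C (t n) : MvPolynomial (Fin 3) F) :=
            (isUnit_iff_ne_zero.2 (ht0 n hn.1)).map C
          have hu2 : IsUnit (C (t m) : MvPolynomial (Fin 3) F) :=
            (isUnit_iff_ne_zero.2 (ht0 m hm.1)).map C
          rw [isRelPrime_mul_unit_left_left hu1, isRelPrime_mul_unit_left_right hu2]
          exact hc.lin_relprime_S hs hs' hss'
        · intro s hs
          set Cs := N'.filter (fun n => σ n = s) with hCs
          have hCsN : ∀ n ∈ Cs, n ∈ N := fun n hn => hN'N (Finset.mem_filter.1 hn).1
          have hCsdir : ∀ n ∈ Cs, n1 - n = t n • s := by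
            intro n hn
            rw [Finset.mem_filter] at hn
            rw [ht n hn.1, hn.2]
          -- class polynomial
          have hclass : ∃ Gc : Polynomial (MvPolynomial (Fin 3) F),
              ∀ n ∈ insert n1 Cs, Gc.eval (lin n) = g n := by
            apply class_interp (insert n1 Cs) lin g (b s) (lin n1 * (b s - g n1))
            · intro n hn
              rw [Finset.mem_insert] at hn
              rcases hn with rfl | hn
              · rfl
              · have h1 := hCsdir n hn
                have h2 : lin n1 - lin n = C (t n) * lin s := by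
                  rw [← lin_sub, h1, lin_smul]
                have h3 : ∑ i, B i * C (n1 i) - ∑ i, B i * C (n i)
                    = C (t n) * (lin s * b s) := by
                  rw [← hb s hs, ← Finset.sum_sub_distrib, Finset.mul_sum]
                  apply Finset.sum_congr rfl
                  intro i _
                  have := congrArg (fun f => f i) h1
                  simp only [Pi.sub_apply, Pi.smul_apply, smul_eq_mul] at this
                  rw [← mul_sub, ← C_sub, this, C_mul]
                  ring
                rw [hg n1 hn1N, hg n (hCsN n hn)] at h3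
                linear_combination (-b s) * h2 + h3
            · apply Finset.prod_dvd_of_isRelPrime
              · intro n hn m hm hnm
                have hnN : n ∈ N := by
                  rcases Finset.mem_insert.1 hn with rfl | h
                  · exact hn1N
                  · exact hCsN n h
                have hmN : m ∈ N := by
                  rcases Finset.mem_insert.1 hm with rfl | h
                  · exact hn1N
                  · exact hCsN m h
                exact hc.lin_relprime_N hnN hmN hnm
              · intro n hn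
                rcases Finset.mem_insert.1 hn with rfl | hn
                · exact dvd_mul_right _ _
                · have h1 := hCsdir n hn
                  have h2 : lin n1 - lin n = C (t n) * lin s := by
                    rw [← lin_sub, h1, lin_smul]
                  have h3 : ∑ i, B i * C (n1 i) - ∑ i, B i * C (n i)
                      = C (t n) * (lin s * b s) := by
                    rw [← hb s hs, ← Finset.sum_sub_distrib, Finset.mul_sum]
                    apply Finset.sum_congr rfl
                    intro i _
                    have := congrArg (fun f => f i) h1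
                    simp only [Pi.sub_apply, Pi.smul_apply, smul_eq_mul] at this
                    rw [← mul_sub, ← C_sub, this, C_mul]
                    ring
                  rw [hg n1 hn1N, hg n (hCsN n hn)] at h3
                  refine ⟨b s - g n, ?_⟩
                  linear_combination (b s) * h2 - h3
            · intro n hn
              have hnN : n ∈ N := by
                rcases Finset.mem_insert.1 hn with rfl | h
                · exact hn1N
                · exact hCsN n h
              exact lin_ne_zero (hc.n_ne hnN)
          obtain ⟨Gc, hGc⟩ := hclass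
          have h4 := vanish_dvd Cs lin (fun x _ y _ hxy => lin_inj hxy) (G - Gc) (by
            intro n hn
            rw [Polynomial.eval_sub, hG n (Finset.mem_filter.1 hn).1,
              hGc n (Finset.mem_insert_of_mem hn), sub_self]) (lin n1)
          rw [Polynomial.eval_sub, hGc n1 (Finset.mem_insert_self _ _)] at h4
          exact h4
      obtain ⟨h, hh⟩ := hdvd
      refine ⟨G - Polynomial.C h * ∏ n ∈ N', (Polynomial.X - Polynomial.C (lin n)), ?_⟩
      intro n hn
      rcases Finset.mem_insert.1 hn with rfl | hn
      · rw [Polynomial.eval_sub, Polynomial.eval_mul, Polynomial.eval_prod, Polynomial.eval_C]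
        simp only [Polynomial.eval_sub, Polynomial.eval_X, Polynomial.eval_C]
        linear_combination hh
      · rw [Polynomial.eval_sub, Polynomial.eval_mul, Polynomial.eval_prod,
          Finset.prod_eq_zero hn (by simp), mul_zero, sub_zero, hG n hn]
  exact main N subset_rfl

/-- The interpolation theorem: `B · n = ∑ A_l (w·n)^(k-l)`. -/
theorem exists_A (hc : Conf S N) {k : ℕ}
    {τ : MvPolynomial (Fin 3) F} (hτ : τ.IsHomogeneous k)
    {B : Fin 3 → MvPolynomial (Fin 3) F} (hB : ∀ i, (B i).IsHomogeneous k)
    (hBs : ∀ s ∈ S, lin s ∣ ∑ i, B i * C (s i))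
    (hBn : ∀ n ∈ N, lin n ∣ (∑ i, B i * C (n i)) - τ) :
    ∃ A : ℕ → MvPolynomial (Fin 3) F, (∀ l, (A l).IsHomogeneous l) ∧ A k = τ ∧
      ∀ n ∈ N, ∑ i, B i * C (n i) = ∑ l ∈ Finset.range (k + 1), A l * lin n ^ (k - l) := by
  classical
  choose! b hb using hBs
  choose! g hg using hBn
  have hg' : ∀ n ∈ N, ∑ i, B i * C (n i) = τ + lin n * g n := by
    intro n hn
    linear_combination hg n hn
  obtain ⟨G, hG⟩ := hc.exists_G B τ b g hb hg'
  -- `A l` for `l < k` is the component of degree `l` of the coefficient `k - 1 - l` of `G`
  refine ⟨fun l => if l = k then τ else homogeneousComponent l (G.coeff (k - 1 - l)), ?_, ?_, ?_⟩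
  · intro l
    by_cases h : l = k
    · simp only [h, if_true]; exact hτ
    · simp only [h, if_false]; exact homogeneousComponent_isHomogeneous _ _
  · simp
  · intro n hn
    have h1 := congrArg (homogeneousComponent k) (hg' n hn)
    have hBh : (∑ i, B i * C (n i)).IsHomogeneous k := by
      apply IsHomogeneous.sum
      intro i _
      rw [mul_comm]
      exact (hB i).C_mul _
    rw [hc_self hBh, if_pos rfl, map_add, hc_self hτ, if_pos rfl, ← hG n hn,
      Polynomial.eval_eq_sum_range, Finset.mul_sum, map_sum] at h1
    conv_rhs => rw [Finset.sum_range_succ]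
    rw [h1]
    simp only [if_true, Nat.sub_self, pow_zero, mul_one]
    rw [add_comm]
    congr 1
    have h2 : ∀ j, homogeneousComponent k (lin n * (G.coeff j * lin n ^ j))
        = if j + 1 ≤ k then homogeneousComponent (k - (j + 1)) (G.coeff j) * lin n ^ (j + 1)
          else 0 := by
      intro j
      have : lin n * (G.coeff j * lin n ^ j) = G.coeff j * lin n ^ (j + 1) := by ring
      rw [this, hc_mul _ _ (by simpa using (lin_homog n).pow (j + 1))]
    simp only [h2]
    rw [← Finset.sum_filter]
    -- compare sums
    have h3 : ∑ l ∈ Finset.range k, (if l = k then τ else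
        homogeneousComponent l (G.coeff (k - 1 - l))) * lin n ^ (k - l)
        = ∑ j ∈ Finset.range k, homogeneousComponent (k - (j + 1)) (G.coeff j)
            * lin n ^ (j + 1) := by
      rw [← Finset.sum_range_reflect]
      apply Finset.sum_congr rfl
      intro j hj
      rw [Finset.mem_range] at hj
      rw [if_neg (by omega)]
      have e1 : k - 1 - (k - 1 - j) = j := by omega
      have e2 : k - 1 - j = k - (j + 1) := by omega
      have e3 : k - (k - 1 - j) = j + 1 := by omega
      rw [e1, e3, e2]
    rw [h3]
    -- both are sums over j < k with possibly zero coefficients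
    have h4 : ∀ j, G.natDegree < j → G.coeff j = 0 := fun j hj =>
      Polynomial.coeff_eq_zero_of_natDegree_lt hj
    have h5 : Finset.filter (fun j => j + 1 ≤ k) (Finset.range (G.natDegree + 1)) ⊆
        Finset.range k := by
      intro j hj
      rw [Finset.mem_filter] at hj
      rw [Finset.mem_range]
      omega
    apply Finset.sum_subset h5
    intro j hj hj2
    rw [Finset.mem_range] at hj
    rw [Finset.mem_filter, Finset.mem_range] at hj2
    rw [h4 j (by by_contra h; exact hj2 ⟨by omega, by omega⟩), map_zero, zero_mul]

end Conf

end Pool.Agent.helper35.Nuc
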