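import Pool.Agent.helper35.Nuc4

open MvPolynomial

namespace Pool.Agent.helper35.Nuc

variable {F : Type*} [Field F] [Fintype F]

/-- elementary symmetric functions of the linear forms of `N` -/
noncomputable def sig (N : Finset (Fin 3 → F)) (k : ℕ) : MvPolynomial (Fin 3) F :=
  ∑ t ∈ N.powersetCard k, ∏ n ∈ t, lin n

/-- power sums of the linear forms of `N` -/
noncomputable def psm (N : Finset (Fin 3 → F)) (k : ℕ) : MvPolynomial (Fin 3) F :=
  ∑ n ∈ N, lin n ^ k

omit [Fintype F] in
lemma sig_homog (N : Finset (Fin 3 → F)) (k : ℕ) : (sig N k).IsHomogeneous k := by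
  apply IsHomogeneous.sum
  intro t ht
  have := IsHomogeneous.prod t (fun n => lin n) (fun _ => 1) (fun n _ => lin_homog n)
  rw [Finset.mem_powersetCard] at ht
  simpa [ht.2] using this

omit [Fintype F] in
lemma psm_homog (N : Finset (Fin 3 → F)) (k : ℕ) : (psm N k).IsHomogeneous k := by
  apply IsHomogeneous.sum
  intro n _
  simpa using (lin_homog n).pow k

omit [Fintype F] in
lemma newton (N : Finset (Fin 3 → F)) {j : ℕ} (hj : 0 < j)
    (h : ∀ i, 1 ≤ i → i < j → sig N i = 0) :
    psm N j = (-1) ^ (j + 1) * (j : MvPolynomial (Fin 3) F) * sig N j := by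
  classical
  have h1 := MvPolynomial.psum_eq_mul_esymm_sub_sum ↥N F j hj
  let φ : MvPolynomial ↥N F →ₐ[F] MvPolynomial (Fin 3) F := aeval (fun n : ↥N => lin (n : Fin 3 → F))
  have hes : ∀ i, φ (esymm ↥N F i) = sig N i := by
    intro i
    simp only [φ]
    rw [MvPolynomial.aeval_esymm_eq_multiset_esymm]
    have : (Finset.univ : Finset ↥N).val.map (fun n : ↥N => lin (n : Fin 3 → F))
        = N.val.map (fun n => lin n) := by
      have h2 := Multiset.attach_map_val N.val
      conv_rhs => rw [← h2, Multiset.map_map]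
      rfl
    rw [this, Finset.esymm_map_val]
    rfl
  have hps : ∀ i, φ (psum ↥N F i) = psm N i := by
    intro i
    simp only [φ, psum, map_sum, map_pow, aeval_X, psm]
    exact Finset.sum_coe_sort N (fun n => lin n ^ i)
  have h3 := congrArg φ h1
  rw [hps, map_sub, map_mul, hes, map_sum] at h3
  rw [h3]
  rw [Finset.sum_eq_zero, sub_zero]
  · simp
  · intro a ha
    rw [Finset.mem_filter] at ha
    rw [map_mul, map_mul, hes, h a.1 ha.2.1 ha.2.2]
    simp

/-- coefficients of `X * ∏ (X + ψ(lin n))` -/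
lemma H_coeff {R : Type*} [CommRing R] (ψ : MvPolynomial (Fin 3) F →+* R)
    (N : Finset (Fin 3 → F)) (hN : N.card + 1 = Fintype.card F) {k : ℕ} (hk1 : 1 ≤ k)
    (hk : k < Fintype.card F) :
    (Polynomial.X * ∏ n ∈ N, (Polynomial.X + Polynomial.C (ψ (lin n)))).coeff
      (Fintype.card F - k) = ψ (sig N k) := by
  have h1 : Fintype.card F - k = (N.card - k) + 1 := by omega
  rw [h1, Polynomial.coeff_X_mul]
  rw [Finset.prod_X_add_C_coeff N (fun n => ψ (lin n)) (by omega)]
  have h2 : N.card - (N.card - k) = k := by omega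
  rw [h2, sig, map_sum]
  apply Finset.sum_congr rfl
  intro t _
  rw [map_prod]

lemma H_monic {R : Type*} [CommRing R] [Nontrivial R] (ψ : MvPolynomial (Fin 3) F →+* R)
    (N : Finset (Fin 3 → F)) :
    (Polynomial.X * ∏ n ∈ N, (Polynomial.X + Polynomial.C (ψ (lin n)))).Monic := by
  apply Polynomial.monic_X.mul
  apply Polynomial.monic_prod_of_monic
  intro n _
  exact Polynomial.monic_X_add_C _

lemma H_natDegree {R : Type*} [CommRing R] [Nontrivial R] (ψ : MvPolynomial (Fin 3) F →+* R)
    (N : Finset (Fin 3 → F)) (hN : N.card + 1 = Fintype.card F) :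
    (Polynomial.X * ∏ n ∈ N, (Polynomial.X + Polynomial.C (ψ (lin n)))).natDegree
      = Fintype.card F := by
  rw [Polynomial.Monic.natDegree_mul Polynomial.monic_X
    (Polynomial.monic_prod_of_monic _ _ (fun n _ => Polynomial.monic_X_add_C _)),
    Polynomial.natDegree_prod_of_monic _ _ (fun n _ => Polynomial.monic_X_add_C _)]
  simp
  omega

/-- if `sig N k = 0` for `1 ≤ k < j` then `H - X^q` has degree at most `q - j`. -/
lemma H_sub_natDegree {R : Type*} [CommRing R] [Nontrivial R]
    (ψ : MvPolynomial (Fin 3) F →+* R)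
    (N : Finset (Fin 3 → F)) (hN : N.card + 1 = Fintype.card F) {j : ℕ}
    (hj : j ≤ Fintype.card F)
    (h : ∀ i, 1 ≤ i → i < j → sig N i = 0) :
    (Polynomial.X * ∏ n ∈ N, (Polynomial.X + Polynomial.C (ψ (lin n)))
      - Polynomial.X ^ Fintype.card F).natDegree ≤ Fintype.card F - j := by
  rw [Polynomial.natDegree_le_iff_coeff_eq_zero]
  intro i hi
  rw [Polynomial.coeff_sub, Polynomial.coeff_X_pow]
  by_cases h1 : i = Fintype.card F
  · rw [if_pos h1, h1]
    have := H_monic ψ N
    rw [Polynomial.Monic, Polynomial.leadingCoeff, H_natDegree ψ N hN] at this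
    rw [this, sub_self]
  · rw [if_neg h1, sub_zero]
    by_cases h2 : i < Fintype.card F
    · have h3 : i = Fintype.card F - (Fintype.card F - i) := by omega
      rw [h3, H_coeff ψ N hN (by omega) (by omega), h _ (by omega) (by omega), map_zero]
    · apply Polynomial.coeff_eq_zero_of_natDegree_lt
      rw [H_natDegree ψ N hN]
      omega

namespace Conf

variable {S N : Finset (Fin 3 → F)}

lemma S_nonempty (hc : Conf S N) : S.Nonempty := by
  rw [← Finset.card_pos, hc.cardS]
  omega

lemma ext_ne_zero (hc : Conf S N) {w : Fin 3 → F} (hw : Ext S w) : w ≠ 0 := by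
  rintro rfl
  obtain ⟨s, hs⟩ := hc.S_nonempty
  exact hw s hs (by simp)

lemma ext_val_ne (hc : Conf S N) {w : Fin 3 → F} (hw : Ext S w) {n : Fin 3 → F} (hn : n ∈ N) :
    ∑ i, n i * w i ≠ 0 := by
  intro h
  obtain ⟨s, ⟨hs, hs0⟩, _⟩ := hc.nuc n hn w (hc.ext_ne_zero hw) h
  exact hw s hs hs0

lemma ext_inj (hc : Conf S N) {w : Fin 3 → F} (hw : Ext S w) :
    Set.InjOn (fun n : Fin 3 → F => ∑ i, n i * w i) N := by
  intro n hn m hm h
  by_contra hnm
  obtain ⟨s, hs, t, ht, hd⟩ := hc.diff n hn m hm hnm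
  apply hw s hs
  have h1 : ∑ i, (n - m) i * w i = 0 := by
    simp only [Pi.sub_apply, sub_mul, Finset.sum_sub_distrib]
    exact sub_eq_zero.2 h
  rw [hd] at h1
  simp only [Pi.smul_apply, smul_eq_mul, mul_assoc, ← Finset.mul_sum] at h1
  exact (mul_eq_zero.1 h1).resolve_left ht

lemma ext_image [DecidableEq F] (hc : Conf S N) {w : Fin 3 → F} (hw : Ext S w) :
    N.image (fun n : Fin 3 → F => ∑ i, n i * w i) = Finset.univ.erase 0 := by
  apply Finset.eq_of_subset_of_card_le
  · intro x hx
    rw [Finset.mem_image] at hx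
    obtain ⟨n, hn, rfl⟩ := hx
    rw [Finset.mem_erase]
    exact ⟨hc.ext_val_ne hw hn, Finset.mem_univ _⟩
  · rw [Finset.card_image_of_injOn (hc.ext_inj hw), Finset.card_erase_of_mem (Finset.mem_univ _),
      Finset.card_univ]
    have := hc.cardN
    omega

lemma ext_prod [DecidableEq F] {M : Type*} [CommMonoid M] (hc : Conf S N) {w : Fin 3 → F}
    (hw : Ext S w) (f : F → M) :
    ∏ n ∈ N, f (∑ i, n i * w i) = ∏ x ∈ Finset.univ.erase 0, f x := by
  rw [← hc.ext_image hw, Finset.prod_image]
  intro a ha b hb h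
  exact hc.ext_inj hw ha hb h

lemma ext_sum [DecidableEq F] {M : Type*} [AddCommMonoid M] (hc : Conf S N) {w : Fin 3 → F}
    (hw : Ext S w) (f : F → M) :
    ∑ n ∈ N, f (∑ i, n i * w i) = ∑ x ∈ Finset.univ.erase 0, f x := by
  rw [← hc.ext_image hw, Finset.sum_image]
  intro a ha b hb h
  exact hc.ext_inj hw ha hb h

lemma ext_exists (hc : Conf S N) {w : Fin 3 → F} (hw : Ext S w) {x : F} (hx : x ≠ 0) :
    ∃ n ∈ N, ∑ i, n i * w i = x := by
  classical
  have : x ∈ N.image (fun n : Fin 3 → F => ∑ i, n i * w i) := by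
    rw [hc.ext_image hw]
    simp [hx]
  rw [Finset.mem_image] at this
  exact this

lemma ext_H (hc : Conf S N) {w : Fin 3 → F} (hw : Ext S w) :
    (Polynomial.X * ∏ n ∈ N, (Polynomial.X + Polynomial.C ((eval w) (lin n))) : Polynomial F)
      = Polynomial.X ^ Fintype.card F - Polynomial.X := by
  classical
  simp only [eval_lin]
  rw [hc.ext_prod hw (fun x => (Polynomial.X + Polynomial.C x : Polynomial F))]
  have h1 : ∏ c : F, (Polynomial.X - Polynomial.C c) =
      (Polynomial.X ^ Fintype.card F - Polynomial.X : Polynomial F) := by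
    have h2 := FiniteField.roots_X_pow_card_sub_X F
    have h3 := Polynomial.prod_multiset_X_sub_C_of_monic_of_roots_card_eq
      (p := (Polynomial.X ^ Fintype.card F - Polynomial.X : Polynomial F))
      (Polynomial.monic_X_pow_sub (by
        rw [Polynomial.degree_X]; exact_mod_cast Fintype.one_lt_card))
      (by
        rw [h2, FiniteField.X_pow_card_sub_X_natDegree_eq F Fintype.one_lt_card]; rfl)
    rw [h2] at h3
    exact h3
  have h2 : ∏ c : F, (Polynomial.X - Polynomial.C c) =
      ∏ c : F, (Polynomial.X + Polynomial.C c : Polynomial F) := by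
    rw [← Equiv.prod_comp (Equiv.neg F)]
    apply Finset.prod_congr rfl
    intro c _
    simp
  rw [← h1, h2, ← Finset.mul_prod_erase Finset.univ _ (Finset.mem_univ (0 : F))]
  simp

lemma ext_sig (hc : Conf S N) {w : Fin 3 → F} (hw : Ext S w) {k : ℕ} (hk1 : 1 ≤ k)
    (hk : k + 2 ≤ Fintype.card F) : eval w (sig N k) = 0 := by
  rw [← H_coeff (eval w) N hc.cardN hk1 (by omega), hc.ext_H hw, Polynomial.coeff_sub,
    Polynomial.coeff_X_pow, Polynomial.coeff_X, if_neg (by omega), if_neg (by omega), sub_zero]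

end Conf

end Pool.Agent.helper35.Nuc
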