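import Pool.Agent.helper35.Nuc5

namespace Pool.Agent.helper35.Nuc

open Polynomial in
lemma redei {F : Type*} [Field F] [Fintype F] (H : F[X]) (hm : H.Monic)
    (hd : H.natDegree = Fintype.card F)
    (hs : Multiset.card H.roots = H.natDegree) (hder : derivative H ≠ 0)
    (hne : H ≠ X ^ Fintype.card F - X) {j : ℕ} (hj : j < Fintype.card F)
    (hdeg : (H - X ^ Fintype.card F).natDegree ≤ Fintype.card F - j) :
    2 * j + 1 ≤ Fintype.card F := by
  classical
  set q := Fintype.card F with hq
  have hqF : (q : F) = 0 := by rw [hq]; exact FiniteField.cast_card_eq_zero F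
  set D : F[X] := H - (X ^ q - X) with hD
  have hD0 : D ≠ 0 := sub_ne_zero.2 hne
  have hfac : ∏ a ∈ H.roots.toFinset, (X - C a) ^ rootMultiplicity a H = H := by
    rw [← prod_multiset_root_eq_finset_root]
    exact prod_multiset_X_sub_C_of_monic_of_roots_card_eq hm hs
  have hdvd : H ∣ D * derivative H := by
    nth_rewrite 1 [← hfac]
    apply Finset.prod_dvd_of_coprime
    · intro a _ b _ hab
      exact (pairwise_coprime_X_sub_C (s := fun x : F => x) Function.injective_id hab).pow
    · intro a ha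
      rw [Multiset.mem_toFinset] at ha
      have hroot : H.IsRoot a := (mem_roots'.1 ha).2
      have h1 : X - C a ∣ D := by
        rw [dvd_iff_isRoot, IsRoot, hD, eval_sub, hroot.eq_zero]
        simp [hq, FiniteField.pow_card]
      have h2 : (X - C a) ^ (rootMultiplicity a H - 1) ∣ derivative H :=
        pow_sub_one_dvd_derivative_of_pow_dvd (H.pow_rootMultiplicity_dvd a)
      have h3 : 0 < rootMultiplicity a H := by
        rw [rootMultiplicity_pos (by exact hm.ne_zero)]
        exact hroot
      have h4 : (X - C a) ^ rootMultiplicity a H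
          = (X - C a) * (X - C a) ^ (rootMultiplicity a H - 1) := by
        rw [← pow_succ']
        congr 1
        omega
      rw [h4]
      exact mul_dvd_mul h1 h2
  have hle := natDegree_le_of_dvd hdvd (mul_ne_zero hD0 hder)
  have h5 : D.natDegree ≤ q - j := by
    have : D = (H - X ^ q) + X := by rw [hD]; ring
    rw [this]
    refine (natDegree_add_le _ _).trans ?_
    rw [natDegree_X]
    exact max_le hdeg (by omega)
  have h6 : derivative H = derivative (H - X ^ q) := by
    rw [derivative_sub, derivative_X_pow, hqF]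
    simp
  have h7 : (derivative H).natDegree ≤ q - j - 1 := by
    rw [h6]
    refine (natDegree_derivative_le _).trans ?_
    omega
  have h8 := natDegree_mul_le (p := D) (q := derivative H)
  rw [hd] at hle
  omega

open Polynomial in
lemma deriv_mult {F : Type*} [Field F] (a : F) (m : ℕ) (g : F[X]) (hg : g.eval a ≠ 0)
    (h : derivative ((X - C a) ^ m * g) = 0) : (m : F) = 0 := by
  rcases Nat.eq_zero_or_pos m with rfl | hm
  · simp
  have h1 : derivative ((X - C a) ^ m * g)
      = (X - C a) ^ (m - 1) * (C (m : F) * g + (X - C a) * derivative g) := by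
    rw [derivative_mul, derivative_X_sub_C_pow]
    have : (X - C a) ^ m = (X - C a) ^ (m - 1) * (X - C a) := by
      rw [← pow_succ]; congr 1; omega
    rw [this]
    ring
  rw [h1] at h
  have h2 : (X - C a) ^ (m - 1) ≠ 0 := pow_ne_zero _ (X_sub_C_ne_zero a)
  have h3 := (mul_eq_zero.1 h).resolve_left h2
  have h4 := congrArg (eval a) h3
  simp at h4
  exact h4.resolve_right hg

open MvPolynomial

variable {F : Type*} [Field F] [Fintype F]

namespace Conf

variable {S N : Finset (Fin 3 → F)}

lemma two_le_q (_hc : Conf S N) : 2 ≤ Fintype.card F := Fintype.one_lt_card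

/-- `S` and `N` are not proportional. -/
lemma indep (hc : Conf S N) {n s : Fin 3 → F} (hn : n ∈ N) (hs : s ∈ S) :
    LinearIndependent F ![n, s] := by
  classical
  -- there are two different points of S
  have hcard : 1 < S.card := by rw [hc.cardS]; have := hc.two_le_q; omega
  obtain ⟨s', hs', hss'⟩ := Finset.exists_mem_ne hcard s
  have hs0 := hc.s_ne hs
  rw [LinearIndependent.pair_iff' (hc.n_ne hn)]
  intro a ha
  have ha0 : a ≠ 0 := by
    rintro rfl
    rw [zero_smul] at ha
    exact hs0 ha.symm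
  have hind : LinearIndependent F ![s, s'] := by
    rw [LinearIndependent.pair_iff' hs0]
    intro c h
    apply hss'
    have h2 := congrArg (fun f => f 2) h
    simp only [Pi.smul_apply, smul_eq_mul, hc.S2 s hs, hc.S2 s' hs', mul_one] at h2
    rw [← h, h2, one_smul]
  have hw : crossProduct s s' ≠ 0 := crossProduct_ne_zero_iff_linearIndependent.2 hind
  have e1 : ∑ i, s i * (crossProduct s s') i = 0 := dot_self_cross s s'
  have e2 : ∑ i, s' i * (crossProduct s s') i = 0 := dot_cross_self s s'
  have e3 : ∑ i, n i * (crossProduct s s') i = 0 := by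
    have : ∑ i, s i * (crossProduct s s') i = a * ∑ i, n i * (crossProduct s s') i := by
      rw [← ha, Finset.mul_sum]
      apply Finset.sum_congr rfl
      intro i _
      simp [mul_assoc]
    rw [e1] at this
    exact (mul_eq_zero.1 this.symm).resolve_left ha0
  obtain ⟨x, _, hx⟩ := hc.nuc n hn _ hw e3
  have h1 := hx s ⟨hs, e1⟩
  have h2 := hx s' ⟨hs', e2⟩
  exact hss' (h2.trans h1.symm)

/-- given `∑ n = 0`, the nuclei are not all in one class -/
lemma exists_not_class (hc : Conf S N) (h0 : ∑ n ∈ N, n = 0) {n1 s : Fin 3 → F} (hn1 : n1 ∈ N)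
    (hs : s ∈ S) : ∃ n2 ∈ N, ∀ t : F, n2 - n1 ≠ t • s := by
  classical
  by_contra hcon
  push Not at hcon
  choose! t ht using hcon
  have hqF : ((N.card : ℕ) : F) = -1 := by
    have : ((N.card + 1 : ℕ) : F) = 0 := by
      rw [hc.cardN]; exact FiniteField.cast_card_eq_zero F
    push_cast at this
    linear_combination this
  have h1 : ∑ n ∈ N, n = -n1 + (∑ n ∈ N, t n) • s := by
    have : ∀ n ∈ N, n = n1 + t n • s := by
      intro n hn
      rw [← ht n hn]; abel
    rw [Finset.sum_congr rfl this, Finset.sum_add_distrib, Finset.sum_const, ← Finset.sum_smul]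
    congr 1
    have : (N.card • n1 : Fin 3 → F) = ((N.card : ℕ) : F) • n1 := by
      rw [Nat.cast_smul_eq_nsmul]
    rw [this, hqF, neg_one_smul]
  rw [h0] at h1
  have h2 : (-1 : F) • n1 + (∑ n ∈ N, t n) • s = 0 := by
    rw [neg_one_smul]; exact h1.symm
  have h3 := LinearIndependent.pair_iff.1 (hc.indep hn1 hs) _ _ h2
  simp at h3

lemma N_nonempty (hc : Conf S N) : N.Nonempty := by
  rw [← Finset.card_pos]
  have := hc.cardN
  have := hc.two_le_q
  omega

/-- dot product notation -/
lemma dot_smul (t : F) (s w : Fin 3 → F) : ∑ i, (t • s) i * w i = t * ∑ i, s i * w i := by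
  rw [Finset.mul_sum]
  apply Finset.sum_congr rfl
  intro i _
  simp [mul_assoc]

lemma dot_sub (s t w : Fin 3 → F) :
    ∑ i, (s - t) i * w i = ∑ i, s i * w i - ∑ i, t i * w i := by
  simp only [Pi.sub_apply, sub_mul, Finset.sum_sub_distrib]

/-- `H_w` factorisation -/
lemma roots_H (N : Finset (Fin 3 → F)) (hN : N.card + 1 = Fintype.card F)
    (ψ : MvPolynomial (Fin 3) F →+* F) :
    Multiset.card (Polynomial.X * ∏ n ∈ N, (Polynomial.X + Polynomial.C (ψ (lin n)))).roots
      = (Polynomial.X * ∏ n ∈ N, (Polynomial.X + Polynomial.C (ψ (lin n)))).natDegree := by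
  rw [H_natDegree ψ N hN]
  have hne : (∏ n ∈ N, (Polynomial.X + Polynomial.C (ψ (lin n)))) ≠ 0 :=
    Finset.prod_ne_zero_iff.2 (fun n _ => Polynomial.X_add_C_ne_zero _)
  rw [Polynomial.roots_mul (mul_ne_zero Polynomial.X_ne_zero hne), Multiset.card_add,
    Polynomial.roots_X, Polynomial.roots_prod _ _ hne]
  simp only [Polynomial.roots_X_add_C, Multiset.card_singleton, Multiset.card_bind]
  simp
  omega

theorem redei_bound (hc : Conf S N) (h0 : ∑ n ∈ N, n = 0) {j : ℕ} (hj : j < Fintype.card F)
    (h : ∀ i, 1 ≤ i → i < j → sig N i = 0) : 2 * j + 1 ≤ Fintype.card F := by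
  classical
  obtain ⟨s, hs⟩ := hc.S_nonempty
  obtain ⟨n1, hn1⟩ := hc.N_nonempty
  obtain ⟨n2, hn2, hn2s⟩ := hc.exists_not_class h0 hn1 hs
  set w1 := crossProduct n1 s with hw1
  set w2 := crossProduct n2 s with hw2
  have hw1' : w1 ≠ 0 := crossProduct_ne_zero_iff_linearIndependent.2 (hc.indep hn1 hs)
  have hw2' : w2 ≠ 0 := crossProduct_ne_zero_iff_linearIndependent.2 (hc.indep hn2 hs)
  have e11 : ∑ i, n1 i * w1 i = 0 := dot_self_cross n1 s
  have e1s : ∑ i, s i * w1 i = 0 := dot_cross_self n1 s
  have e22 : ∑ i, n2 i * w2 i = 0 := dot_self_cross n2 s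
  have e2s : ∑ i, s i * w2 i = 0 := dot_cross_self n2 s
  have hn12 : n1 ≠ n2 := by
    rintro rfl
    exact hn2s 0 (by simp)
  -- uniqueness
  have uniq1 : ∀ x ∈ S, ∑ i, x i * w1 i = 0 → x = s := by
    intro x hx hx0
    obtain ⟨y, _, hy⟩ := hc.nuc n1 hn1 w1 hw1' e11
    rw [hy x ⟨hx, hx0⟩, hy s ⟨hs, e1s⟩]
  have uniq2 : ∀ x ∈ S, ∑ i, x i * w2 i = 0 → x = s := by
    intro x hx hx0
    obtain ⟨y, _, hy⟩ := hc.nuc n2 hn2 w2 hw2' e22
    rw [hy x ⟨hx, hx0⟩, hy s ⟨hs, e2s⟩]
  have key : ∀ n ∈ N, ∑ i, n i * w1 i = 0 ↔ ∑ i, n i * w2 i = ∑ i, n1 i * w2 i := by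
    intro n hn
    by_cases hnn : n1 = n
    · subst hnn; simp [e11]
    obtain ⟨s', hs', t, ht, hd⟩ := hc.diff n1 hn1 n hn hnn
    have a1 := dot_sub n1 n w1
    have a2 := dot_sub n1 n w2
    rw [hd, dot_smul] at a1 a2
    rw [e11] at a1
    constructor
    · intro hz
      rw [hz, sub_zero] at a1
      have := uniq1 s' hs' ((mul_eq_zero.1 a1).resolve_left ht)
      rw [this, e2s, mul_zero] at a2
      exact (sub_eq_zero.1 a2.symm).symm
    · intro hz
      rw [hz, sub_self] at a2
      have := uniq2 s' hs' ((mul_eq_zero.1 a2).resolve_left ht)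
      rw [this, e1s, mul_zero, zero_sub, eq_comm, neg_eq_zero] at a1
      exact a1
  have hv : ∑ i, n1 i * w2 i ≠ 0 := by
    intro hz
    obtain ⟨s', hs', t, ht, hd⟩ := hc.diff n1 hn1 n2 hn2 hn12
    have a2 := dot_sub n1 n2 w2
    rw [hd, dot_smul, hz, e22, sub_zero] at a2
    have := uniq2 s' hs' ((mul_eq_zero.1 a2).resolve_left ht)
    subst this
    apply hn2s (-t)
    rw [neg_smul, ← hd]; abel
  -- the polynomials
  have mk : ∀ w : Fin 3 → F, (∃ n ∈ N, ∑ i, n i * w i = 0) →
      Polynomial.derivative (Polynomial.X * ∏ n ∈ N,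
        (Polynomial.X + Polynomial.C ((eval w) (lin n))) : Polynomial F) ≠ 0 →
      2 * j + 1 ≤ Fintype.card F := by
    intro w ⟨n, hn, hnw⟩ hder
    refine redei _ (H_monic (eval w) N) (H_natDegree (eval w) N hc.cardN)
      (roots_H N hc.cardN (eval w)) hder ?_ hj (H_sub_natDegree (eval w) N hc.cardN (by omega) h)
    intro heq
    have hX : (Polynomial.X : Polynomial F) * Polynomial.X ∣
        Polynomial.X ^ Fintype.card F - Polynomial.X := by
      rw [← heq]
      apply mul_dvd_mul_left
      have : (Polynomial.X : Polynomial F) = Polynomial.X + Polynomial.C ((eval w) (lin n)) := by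
        rw [eval_lin, hnw]; simp
      nth_rewrite 1 [this]
      exact Finset.dvd_prod_of_mem _ hn
    obtain ⟨g, hg⟩ := hX
    have h1q : (1 : ℕ) ≠ Fintype.card F := by have := hc.two_le_q; omega
    have h2 : (Polynomial.X ^ Fintype.card F - Polynomial.X : Polynomial F).coeff 1 = -1 := by
      rw [Polynomial.coeff_sub, Polynomial.coeff_X_pow, Polynomial.coeff_X_one, if_neg h1q,
        zero_sub]
    have h3 : (Polynomial.X * Polynomial.X * g : Polynomial F).coeff 1 = 0 := by
      have : (Polynomial.X * Polynomial.X * g : Polynomial F)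
          = Polynomial.X * (Polynomial.X * g) := by ring
      rw [this, show (1 : ℕ) = 0 + 1 from rfl, Polynomial.coeff_X_mul, Polynomial.coeff_X_mul_zero]
    rw [hg, h3] at h2
    exact one_ne_zero (neg_eq_zero.1 h2.symm)
  by_contra hcon
  have d1 : Polynomial.derivative (Polynomial.X * ∏ n ∈ N,
        (Polynomial.X + Polynomial.C ((eval w1) (lin n))) : Polynomial F) = 0 := by
    by_contra hne
    exact hcon (mk w1 ⟨n1, hn1, e11⟩ hne)
  have d2 : Polynomial.derivative (Polynomial.X * ∏ n ∈ N,
        (Polynomial.X + Polynomial.C ((eval w2) (lin n))) : Polynomial F) = 0 := by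
    by_contra hne
    exact hcon (mk w2 ⟨n2, hn2, e22⟩ hne)
  set C1 := N.filter (fun n => ∑ i, n i * w1 i = 0) with hC1
  -- H_{w1} = X^(1+|C1|) * g1
  have f1 : (Polynomial.X * ∏ n ∈ N, (Polynomial.X + Polynomial.C ((eval w1) (lin n))) :
      Polynomial F) = (Polynomial.X - Polynomial.C 0) ^ (C1.card + 1) *
        ∏ n ∈ N.filter (fun n => ¬ ∑ i, n i * w1 i = 0),
          (Polynomial.X + Polynomial.C ((eval w1) (lin n))) := by
    rw [← Finset.prod_filter_mul_prod_filter_not N (fun n => ∑ i, n i * w1 i = 0)]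
    have : ∏ n ∈ N.filter (fun n => ∑ i, n i * w1 i = 0),
        (Polynomial.X + Polynomial.C ((eval w1) (lin n)) : Polynomial F)
        = Polynomial.X ^ C1.card := by
      rw [Finset.prod_congr rfl (g := fun _ => (Polynomial.X : Polynomial F)), Finset.prod_const]
      intro n hn
      rw [Finset.mem_filter] at hn
      rw [eval_lin, hn.2]; simp
    rw [this, map_zero, sub_zero, pow_succ']
    ring
  have g1 : (C1.card : F) + 1 = 0 := by
    rw [f1] at d1
    have := deriv_mult 0 (C1.card + 1) _ ?_ d1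
    · exact_mod_cast this
    · rw [Polynomial.eval_prod]
      apply Finset.prod_ne_zero_iff.2
      intro n hn
      rw [Finset.mem_filter] at hn
      rw [eval_lin, Polynomial.eval_add, Polynomial.eval_X, Polynomial.eval_C, zero_add]
      exact hn.2
  have f2 : (Polynomial.X * ∏ n ∈ N, (Polynomial.X + Polynomial.C ((eval w2) (lin n))) :
      Polynomial F) = (Polynomial.X - Polynomial.C (-(∑ i, n1 i * w2 i))) ^ C1.card *
        (Polynomial.X * ∏ n ∈ N.filter (fun n => ¬ ∑ i, n i * w1 i = 0),
          (Polynomial.X + Polynomial.C ((eval w2) (lin n)))) := by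
    rw [← Finset.prod_filter_mul_prod_filter_not N (fun n => ∑ i, n i * w1 i = 0)]
    have : ∏ n ∈ N.filter (fun n => ∑ i, n i * w1 i = 0),
        (Polynomial.X + Polynomial.C ((eval w2) (lin n)) : Polynomial F)
        = (Polynomial.X - Polynomial.C (-(∑ i, n1 i * w2 i))) ^ C1.card := by
      rw [Finset.prod_congr rfl
        (g := fun _ => (Polynomial.X - Polynomial.C (-(∑ i, n1 i * w2 i)) : Polynomial F)),
        Finset.prod_const]
      intro n hn
      rw [Finset.mem_filter] at hn
      rw [eval_lin, (key n hn.1).1 hn.2]; simp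
    rw [this]
    ring
  have g2 : (C1.card : F) = 0 := by
    rw [f2] at d2
    refine deriv_mult _ _ _ ?_ d2
    rw [Polynomial.eval_mul, Polynomial.eval_prod, Polynomial.eval_X]
    apply mul_ne_zero (neg_ne_zero.2 hv)
    apply Finset.prod_ne_zero_iff.2
    intro n hn
    rw [Finset.mem_filter] at hn
    rw [eval_lin]
    simp only [Polynomial.eval_add, Polynomial.eval_X, Polynomial.eval_C]
    intro hz
    apply hn.2
    rw [key n hn.1]
    linear_combination hz
  rw [g2] at g1
  simp at g1

end Conf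

end Pool.Agent.helper35.Nuc
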