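import Pool.Agent.helper35.Nuc6

open MvPolynomial

namespace Pool.Agent.helper35.Nuc

variable {F : Type*} [Field F] [Fintype F]

omit [Fintype F] in
lemma lin_sum (N : Finset (Fin 3 → F)) : ∑ n ∈ N, lin n = lin (∑ n ∈ N, n) := by
  classical
  induction N using Finset.induction_on with
  | empty => simp [lin_zero]
  | insert a s ha ih => rw [Finset.sum_insert ha, Finset.sum_insert ha, lin_add, ih]

omit [Fintype F] in
lemma psm_one (N : Finset (Fin 3 → F)) (h0 : ∑ n ∈ N, n = 0) : psm N 1 = 0 := by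
  rw [psm]
  simp only [pow_one]
  rw [lin_sum, h0, lin_zero]

omit [Fintype F] in
lemma sig_one (N : Finset (Fin 3 → F)) (h0 : ∑ n ∈ N, n = 0) : sig N 1 = 0 := by
  have := newton N (j := 1) one_pos (fun i h1 h2 => by omega)
  rw [psm_one N h0] at this
  simpa using this.symm

omit [Fintype F] in
lemma psm_zero_of_sig (N : Finset (Fin 3 → F)) {j : ℕ}
    (h : ∀ i, 1 ≤ i → i < j → sig N i = 0) {k : ℕ} (hk1 : 1 ≤ k) (hk : k < j) :
    psm N k = 0 := by
  rw [newton N hk1 (fun i h1 h2 => h i h1 (by omega)), h k hk1 hk, mul_zero]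

namespace Conf

variable {S N : Finset (Fin 3 → F)}

/-- the data attached to a form vanishing on the external lines -/
structure Data (S N : Finset (Fin 3 → F)) (k : ℕ) (τ : MvPolynomial (Fin 3) F)
    (B : Fin 3 → MvPolynomial (Fin 3) F) (A : ℕ → MvPolynomial (Fin 3) F) : Prop where
  hB : ∀ i, (B i).IsHomogeneous k
  hA : ∀ l, (A l).IsHomogeneous l
  hAk : A k = τ
  hBA : ∀ n ∈ N, ∑ i, B i * C (n i) = ∑ l ∈ Finset.range (k + 1), A l * lin n ^ (k - l)

theorem exists_data (hc : Conf S N) {k : ℕ} (hk : k + 3 ≤ Fintype.card F)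
    {τ : MvPolynomial (Fin 3) F} (hτ : τ.IsHomogeneous k)
    (hv : ∀ w, Ext S w → eval w τ = 0) : ∃ B A, Data S N k τ B A := by
  obtain ⟨B, hB, hBs, hBn⟩ := hc.exists_field hk hτ hv
  obtain ⟨A, hA, hAk, hBA⟩ := hc.exists_A hτ hB hBs hBn
  exact ⟨B, A, hB, hA, hAk, hBA⟩

lemma card_cast (hc : Conf S N) : ((N.card : ℕ) : F) = -1 := by
  have : ((N.card + 1 : ℕ) : F) = 0 := by
    rw [hc.cardN]; exact FiniteField.cast_card_eq_zero F
  push_cast at this
  linear_combination this

theorem data_sum (hc : Conf S N) (h0 : ∑ n ∈ N, n = 0) {j : ℕ}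
    (hsig : ∀ i, 1 ≤ i → i < j → sig N i = 0) {k : ℕ} (hk1 : 1 ≤ k) (hkj : k ≤ j)
    {τ : MvPolynomial (Fin 3) F} {B A} (hd : Data S N k τ B A) :
    τ = A 0 * psm N k := by
  classical
  have h1 : ∑ n ∈ N, ∑ i, B i * C (n i) = 0 := by
    rw [Finset.sum_comm]
    apply Finset.sum_eq_zero
    intro i _
    rw [← Finset.mul_sum, ← map_sum]
    have := congrFun h0 i
    rw [Finset.sum_apply] at this
    rw [this]
    simp
  rw [Finset.sum_congr rfl hd.hBA, Finset.sum_comm] at h1
  have h2 : ∀ l ∈ Finset.range (k + 1), ∑ n ∈ N, A l * lin n ^ (k - l) = A l * psm N (k - l) := by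
    intro l _
    rw [psm, Finset.mul_sum]
  rw [Finset.sum_congr rfl h2, Finset.sum_range_succ, hd.hAk, Nat.sub_self] at h1
  have h3 : psm N 0 = -1 := by
    rw [psm]
    simp only [pow_zero, Finset.sum_const, nsmul_eq_mul, mul_one]
    have := congrArg (C : F → MvPolynomial (Fin 3) F) hc.card_cast
    simpa using this
  have h4 : ∑ l ∈ Finset.range k, A l * psm N (k - l) = A 0 * psm N k := by
    rw [Finset.sum_eq_single_of_mem 0 (Finset.mem_range.2 hk1)]
    · simp
    · intro b hb hb0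
      rw [Finset.mem_range] at hb
      rw [psm_zero_of_sig N hsig (by omega) (by omega), mul_zero]
  rw [h4, h3] at h1
  linear_combination -h1

/-- no nonzero form of degree `< j` vanishes on the external lines. -/
theorem ext_form_zero (hc : Conf S N) (h0 : ∑ n ∈ N, n = 0) {j : ℕ}
    (hsig : ∀ i, 1 ≤ i → i < j → sig N i = 0) {k : ℕ} (hk1 : 1 ≤ k) (hkj : k < j)
    (hk : k + 3 ≤ Fintype.card F)
    {τ : MvPolynomial (Fin 3) F} (hτ : τ.IsHomogeneous k)
    (hv : ∀ w, Ext S w → eval w τ = 0) : τ = 0 := by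
  obtain ⟨B, A, hd⟩ := hc.exists_data hk hτ hv
  rw [hc.data_sum h0 hsig hk1 hkj.le hd, psm_zero_of_sig N hsig hk1 hkj, mul_zero]

/-- summary of the structure -/
structure Big (S N : Finset (Fin 3 → F)) (r : ℕ) (B : Fin 3 → MvPolynomial (Fin 3) F)
    (A : ℕ → MvPolynomial (Fin 3) F) (a : F) : Prop where
  hr2 : 2 ≤ r
  hrq : 2 * r + 1 ≤ Fintype.card F
  hsig : ∀ i, 1 ≤ i → i < r → sig N i = 0
  hrF : (r : F) ≠ 0
  hB : ∀ i, (B i).IsHomogeneous r
  hA : ∀ l, (A l).IsHomogeneous l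
  hA0 : A 0 = C a
  ha : a ≠ 0
  hAr : A r = sig N r
  hBA : ∀ n ∈ N, ∑ i, B i * C (n i) = ∑ l ∈ Finset.range (r + 1), A l * lin n ^ (r - l)

theorem exists_big (hc : Conf S N) (h0 : ∑ n ∈ N, n = 0) : ∃ r B A a, Big S N r B A a := by
  classical
  have hex : ∃ k, 1 ≤ k ∧ sig N k ≠ 0 := by
    refine ⟨N.card, ?_, ?_⟩
    · have := hc.N_nonempty
      rwa [← Finset.card_pos] at this
    · rw [sig, Finset.powersetCard_self, Finset.sum_singleton]
      apply Finset.prod_ne_zero_iff.2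
      intro n hn
      exact lin_ne_zero (hc.n_ne hn)
  set r := Nat.find hex with hr
  obtain ⟨hr1, hrne⟩ := Nat.find_spec hex
  rw [← hr] at hr1 hrne
  have hsig : ∀ i, 1 ≤ i → i < r → sig N i = 0 := by
    intro i hi1 hi
    by_contra h
    exact Nat.find_min hex hi ⟨hi1, h⟩
  have hr2 : 2 ≤ r := by
    by_contra h
    have : r = 1 := by omega
    rw [this] at hrne
    exact hrne (sig_one N h0)
  have hrN : r ≤ N.card := by
    by_contra h
    apply hrne
    rw [sig, Finset.powersetCard_eq_empty.2 (by omega), Finset.sum_empty]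
  have hrq := hc.redei_bound h0 (j := r) (by have := hc.cardN; omega) hsig
  obtain ⟨B, A, hd⟩ := hc.exists_data (k := r) (by omega) (sig_homog N r)
    (fun w hw => hc.ext_sig hw (by omega) (by omega))
  have hsum := hc.data_sum h0 hsig hr1 le_rfl hd
  have hnew := newton N (by omega : 0 < r) hsig
  have hA0 : A 0 = C (coeff 0 (A 0)) := by
    have := hd.hA 0
    rw [← totalDegree_zero_iff_isHomogeneous, totalDegree_eq_zero_iff_eq_C] at this
    exact this
  refine ⟨r, B, A, coeff 0 (A 0), hr2, hrq, hsig, ?_, hd.hB, hd.hA, hA0, ?_, hd.hAk, hd.hBA⟩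
  · intro h
    apply hrne
    have h2 : (r : MvPolynomial (Fin 3) F) = 0 := by
      have := congrArg (C : F → MvPolynomial (Fin 3) F) h
      simpa using this
    rw [hsum, hnew, h2]
    ring
  · intro h
    apply hrne
    rw [hsum, hA0, h]
    simp

end Conf

end Pool.Agent.helper35.Nuc
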