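import Pool.Agent.helper35.Nuc7

namespace Pool.Agent.helper35.Nuc

section one
open Polynomial

variable {F : Type*} [Field F] [Fintype F]

lemma sum_eval_zero (Q : F[X]) (h : Q.natDegree + 1 < Fintype.card F) : ∑ T : F, Q.eval T = 0 := by
  classical
  simp only [eval_eq_sum_range]
  rw [Finset.sum_comm]
  apply Finset.sum_eq_zero
  intro i hi
  rw [Finset.mem_range] at hi
  rw [← Finset.mul_sum, FiniteField.sum_pow_lt_card_sub_one F i (by omega), mul_zero]

lemma sum_inv [DecidableEq F] (h : 2 < Fintype.card F) (T0 : F) :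
    ∑ T ∈ Finset.univ.erase T0, (T - T0)⁻¹ = 0 := by
  have h1 : ∑ T ∈ Finset.univ.erase T0, (T - T0)⁻¹ = ∑ T : F, (T - T0)⁻¹ := by
    rw [← Finset.add_sum_erase Finset.univ _ (Finset.mem_univ T0)]
    simp
  rw [h1]
  have h2 : ∑ T : F, (T - T0)⁻¹ = ∑ T : F, T := by
    have e1 : ∑ T : F, (T - T0)⁻¹ = ∑ T : F, T⁻¹ :=
      Equiv.sum_comp (Equiv.subRight T0) (fun x => x⁻¹)
    have e2 : ∑ T : F, T⁻¹ = ∑ T : F, T :=
      Equiv.sum_comp (Equiv.inv F) (fun x => x)
    rw [e1, e2]
  rw [h2]
  have := FiniteField.sum_pow_lt_card_sub_one F 1 (by omega)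
  simpa using this

lemma sum_div [DecidableEq F] (y : F[X]) (hy : y.natDegree < Fintype.card F)
    (h : 2 < Fintype.card F) (T0 : F) :
    ∑ T ∈ Finset.univ.erase T0, y.eval T * (T - T0)⁻¹ = - (derivative y).eval T0 := by
  set Q := y /ₘ (X - C T0) with hQ
  have h1 : y = C (y.eval T0) + (X - C T0) * Q := by
    have := modByMonic_add_div y (X - C T0)
    rw [modByMonic_X_sub_C_eq_C_eval] at this
    exact this.symm
  have h2 : Q.natDegree + 1 < Fintype.card F := by
    rw [hQ, natDegree_divByMonic _ (monic_X_sub_C T0), natDegree_X_sub_C]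
    omega
  have h3 : (derivative y).eval T0 = Q.eval T0 := by
    conv_lhs => rw [h1]
    simp
  have h4 : ∀ T ∈ Finset.univ.erase T0, y.eval T * (T - T0)⁻¹
      = y.eval T0 * (T - T0)⁻¹ + Q.eval T := by
    intro T hT
    have hne : T - T0 ≠ 0 := sub_ne_zero.2 (Finset.ne_of_mem_erase hT)
    have : y.eval T = y.eval T0 + (T - T0) * Q.eval T := by
      conv_lhs => rw [h1]
      simp
    rw [this]
    field_simp
  rw [Finset.sum_congr rfl h4, Finset.sum_add_distrib, ← Finset.mul_sum, sum_inv h, mul_zero,
    zero_add, h3]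
  have h5 := sum_eval_zero Q h2
  rw [← Finset.add_sum_erase Finset.univ _ (Finset.mem_univ T0)] at h5
  linear_combination h5

lemma prod_ne [DecidableEq F] (T0 : F) : ∏ T ∈ Finset.univ.erase T0, (T - T0) = -1 := by
  have h1 : ∏ T ∈ Finset.univ.erase T0, (T - T0) = ∏ T ∈ Finset.univ.erase (0 : F), T := by
    apply Finset.prod_bij (fun T _ => T - T0)
    · intro a ha
      rw [Finset.mem_erase] at ha ⊢
      exact ⟨sub_ne_zero.2 ha.1, Finset.mem_univ _⟩
    · intro a _ b _ hab
      exact sub_left_injective hab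
    · intro b hb
      refine ⟨b + T0, ?_, by ring⟩
      rw [Finset.mem_erase] at hb ⊢
      refine ⟨?_, Finset.mem_univ _⟩
      intro h
      apply hb.1
      linear_combination h
    · intro a _
      rfl
  rw [h1]
  have h2 := FiniteField.prod_univ_units_id_eq_neg_one (K := F)
  have h3 : ∏ T ∈ Finset.univ.erase (0 : F), T = ((∏ x : Fˣ, x : Fˣ) : F) := by
    rw [Units.coe_prod]
    symm
    apply Finset.prod_bij (fun (x : Fˣ) _ => (x : F))
    · intro a _
      simp
    · intro a _ b _ hab
      exact Units.ext hab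
    · intro b hb
      rw [Finset.mem_erase] at hb
      exact ⟨Units.mk0 b hb.1, Finset.mem_univ _, rfl⟩
    · intro a _
      rfl
  rw [h3, h2]
  simp

/-- coefficient of `u` in `∏_{T ≠ T0} ((T - T0) + u y(T))`. -/
lemma coeff_one [DecidableEq F] (y : F[X]) (hy : y.natDegree < Fintype.card F)
    (h : 2 < Fintype.card F) (T0 : F) :
    (∏ T ∈ Finset.univ.erase T0, (C (T - T0) + X * C (y.eval T)) : F[X]).coeff 1
      = (derivative y).eval T0 := by
  have h0 : (∏ T ∈ Finset.univ.erase T0, (C (T - T0) + X * C (y.eval T)) : F[X]).coeff 1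
      = (derivative (∏ T ∈ Finset.univ.erase T0, (C (T - T0) + X * C (y.eval T)) : F[X])).eval 0 := by
    rw [← coeff_zero_eq_eval_zero, coeff_derivative]
    simp
  rw [h0, derivative_prod_finset, eval_finsetSum]
  have h1 : ∀ T ∈ Finset.univ.erase T0,
      eval 0 ((∏ j ∈ (Finset.univ.erase T0).erase T, (C (j - T0) + X * C (y.eval j)))
        * derivative (C (T - T0) + X * C (y.eval T))) = - (y.eval T * (T - T0)⁻¹) := by
    intro T hT
    have hne : T - T0 ≠ 0 := sub_ne_zero.2 (Finset.ne_of_mem_erase hT)
    have h2 := Finset.mul_prod_erase (Finset.univ.erase T0) (fun j => j - T0) hT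
    rw [prod_ne] at h2
    rw [eval_mul, eval_prod]
    have h3 : ∏ j ∈ (Finset.univ.erase T0).erase T, eval 0 (C (j - T0) + X * C (y.eval j))
        = ∏ j ∈ (Finset.univ.erase T0).erase T, (j - T0) := by
      apply Finset.prod_congr rfl
      intro j _
      simp
    rw [h3]
    have h4 : eval 0 (derivative (C (T - T0) + X * C (y.eval T))) = y.eval T := by
      simp
    rw [h4]
    field_simp
    linear_combination (y.eval T) * h2
  rw [Finset.sum_congr rfl h1, Finset.sum_neg_distrib, sum_div y hy h, neg_neg]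

theorem usq (y : F[X]) (r : ℕ) (hy : 2 * y.natDegree < Fintype.card F + 1)
    (h : 2 < Fintype.card F) (hr1 : 1 ≤ r) (hr : r ≤ Fintype.card F)
    (H : F[X][X]) (hH : H = ∏ T : F, (X + C (C T + X * C (y.eval T))))
    (hdeg : (H - X ^ Fintype.card F).natDegree ≤ Fintype.card F - r) :
    (y * derivative y).natDegree ≤ Fintype.card F - r := by
  classical
  set q := Fintype.card F with hq
  set C2 : F[X] := ∑ i ∈ Finset.range (q - r + 1),
    C (((H - X ^ q).coeff i).coeff 2) * X ^ i with hC2
  have hC2deg : C2.natDegree ≤ q - r := by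
    apply natDegree_sum_le_of_forall_le
    intro i hi
    rw [Finset.mem_range] at hi
    exact (natDegree_C_mul_X_pow_le _ _).trans (by omega)
  have hev : ∀ Z : F, C2.eval Z = y.eval (-Z) * (derivative y).eval (-Z) := by
    intro Z
    have e1 : C2.eval Z = ((H - X ^ q).eval (C Z)).coeff 2 := by
      rw [hC2, eval_finsetSum, eval_eq_sum_range' (p := H - X ^ q) (n := q - r + 1) (by omega),
        finsetSum_coeff]
      apply Finset.sum_congr rfl
      intro i _
      rw [eval_mul, eval_C, eval_pow, eval_X, ← C_pow, coeff_mul_C]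
    have e2 : (H - X ^ q).eval (C Z) = H.eval (C Z) - C (Z ^ q) := by
      simp
    have e3 : H.eval (C Z) = X * C (y.eval (-Z)) *
        ∏ T ∈ Finset.univ.erase (-Z), (C (T - (-Z)) + X * C (y.eval T)) := by
      rw [hH, eval_prod, ← Finset.mul_prod_erase Finset.univ _ (Finset.mem_univ (-Z))]
      congr 1
      · simp
      · apply Finset.prod_congr rfl
        intro T _
        simp
        ring
    rw [e1, e2, coeff_sub, e3, coeff_C_of_ne_zero (by norm_num), sub_zero, mul_assoc,
      show (2 : ℕ) = 1 + 1 from rfl, coeff_X_mul, coeff_C_mul,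
      coeff_one y (by omega) h]
  have hcomp : C2 = (y * derivative y).comp (-X) := by
    have hd2 : ((y * derivative y).comp (-X)).natDegree < q := by
      rw [natDegree_comp, natDegree_neg, natDegree_X, mul_one]
      rcases Nat.eq_zero_or_pos y.natDegree with h0 | h0
      · have : derivative y = 0 := by
          rw [eq_C_of_natDegree_eq_zero h0]; simp
        rw [this]; simp; omega
      · refine lt_of_le_of_lt (natDegree_mul_le) ?_
        have := natDegree_derivative_lt (p := y) (by omega)
        omega
    rw [← sub_eq_zero]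
    by_contra hne
    have h5 : (C2 - (y * derivative y).comp (-X)).natDegree < q := by
      refine lt_of_le_of_lt (natDegree_sub_le _ _) ?_
      exact max_lt (by omega) hd2
    have h6 : Fintype.card F ≤ (C2 - (y * derivative y).comp (-X)).natDegree := by
      have h7 : Finset.univ ⊆ (C2 - (y * derivative y).comp (-X)).roots.toFinset := by
        intro Z _
        rw [Multiset.mem_toFinset, mem_roots hne, IsRoot, eval_sub, hev, eval_comp]
        simp
      calc Fintype.card F = (Finset.univ : Finset F).card := Finset.card_univ.symm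
        _ ≤ _ := Finset.card_le_card h7
        _ ≤ _ := Multiset.toFinset_card_le _
        _ ≤ _ := card_roots' _
    omega
  have h8 : (y * derivative y).natDegree = C2.natDegree := by
    rw [hcomp, natDegree_comp, natDegree_neg, natDegree_X, mul_one]
  rw [h8]
  exact hC2deg

end one

end Pool.Agent.helper35.Nuc
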