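import Pool.Agent.helper35.Nuc8

namespace Pool.Agent.helper35.Nuc

section ap
open Polynomial

variable {F : Type*} [Field F]

/-- `deg p < m` -/
def DLt (p : F[X]) (m : ℕ) : Prop := ∀ i, m ≤ i → p.coeff i = 0

lemma DLt.mono {p : F[X]} {m n : ℕ} (h : DLt p m) (hmn : m ≤ n) : DLt p n :=
  fun i hi => h i (hmn.trans hi)

lemma DLt.add {p q : F[X]} {m : ℕ} (h : DLt p m) (h' : DLt q m) : DLt (p + q) m := by
  intro i hi
  rw [coeff_add, h i hi, h' i hi, add_zero]

lemma DLt.mul {p q : F[X]} {m n : ℕ} (h : DLt p m) (h' : DLt q (n + 1)) :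
    DLt (p * q) (m + n) := by
  intro i hi
  rw [coeff_mul]
  apply Finset.sum_eq_zero
  intro x hx
  rw [Finset.HasAntidiagonal.mem_antidiagonal] at hx
  by_cases h1 : m ≤ x.1
  · rw [h _ h1, zero_mul]
  · rw [h' x.2 (by omega), mul_zero]

lemma DLt.deriv {p : F[X]} {m : ℕ} (h : DLt p (m + 1)) : DLt (derivative p) m := by
  intro i hi
  rw [coeff_derivative, h (i + 1) (by omega), zero_mul]

lemma dlt_of_natDegree {p : F[X]} {m : ℕ} (h : p.natDegree < m) : DLt p m := by
  intro i hi
  exact coeff_eq_zero_of_natDegree_lt (by omega)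

lemma DLt.natDegree_lt {p : F[X]} {m : ℕ} (h : DLt p (m + 1)) : p.natDegree ≤ m := by
  rw [natDegree_le_iff_coeff_eq_zero]
  intro i hi
  exact h i (by omega)

lemma dlt_C_mul_X_pow (c : F) (d : ℕ) : DLt (C c * X ^ d : F[X]) (d + 1) := by
  intro i hi
  rw [coeff_C_mul_X_pow, if_neg (by omega)]

/-- `f = c X^d + e X^(d-k) + lower` -/
def Ap (f : F[X]) (d k : ℕ) (c e : F) : Prop :=
  ∃ g : F[X], f = C c * X ^ (d + k) + C e * X ^ d + g ∧ DLt g d

lemma Ap.mul {f f' : F[X]} {d d' k : ℕ} {c c' e e' : F} (hk : 1 ≤ k) (h : Ap f d k c e)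
    (h' : Ap f' d' k c' e') : Ap (f * f') (d + d' + k) k (c * c') (c * e' + e * c') := by
  obtain ⟨g, rfl, hg⟩ := h
  obtain ⟨g', rfl, hg'⟩ := h'
  refine ⟨C (e * e') * X ^ (d + d') + g * (C c' * X ^ (d' + k) + C e' * X ^ d' + g')
    + (C c * X ^ (d + k) + C e * X ^ d) * g', ?_, ?_⟩
  · simp only [C_mul, C_add]
    ring
  · apply DLt.add
    · apply DLt.add
      · exact (dlt_C_mul_X_pow _ _).mono (by omega)
      · have : DLt (C c' * X ^ (d' + k) + C e' * X ^ d' + g') (d' + k + 1) := by
          apply DLt.add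
          · apply DLt.add
            · exact dlt_C_mul_X_pow _ _
            · exact (dlt_C_mul_X_pow _ _).mono (by omega)
          · exact hg'.mono (by omega)
        exact (hg.mul this).mono (by omega)
    · rw [mul_comm]
      have : DLt (C c * X ^ (d + k) + C e * X ^ d) (d + k + 1) := by
        apply DLt.add
        · exact dlt_C_mul_X_pow _ _
        · exact (dlt_C_mul_X_pow _ _).mono (by omega)
      exact (hg'.mul this).mono (by omega)

lemma Ap.deriv {f : F[X]} {d k : ℕ} {c e : F} (h : Ap f (d + 1) k c e) :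
    Ap (derivative f) d k (c * ((d + 1 + k : ℕ) : F)) (e * ((d + 1 : ℕ) : F)) := by
  obtain ⟨g, rfl, hg⟩ := h
  refine ⟨derivative g, ?_, hg.deriv⟩
  have h1 : d + 1 + k - 1 = d + k := by omega
  simp only [derivative_add, derivative_C_mul_X_pow, h1, Nat.add_sub_cancel]

lemma Ap.coeff {f : F[X]} {d k : ℕ} {c e : F} (hk : 1 ≤ k) (h : Ap f d k c e) :
    f.coeff d = e := by
  obtain ⟨g, rfl, hg⟩ := h
  rw [coeff_add, coeff_add, coeff_C_mul_X_pow, coeff_C_mul_X_pow, if_neg (by omega), if_pos rfl,
    hg d le_rfl]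
  ring

/-- The inductive vanishing of the lower coefficients. -/
theorem ap_main (y : F[X]) (r : ℕ) (a : F) (ha : a ≠ 0) (hdeg : DLt y (r + 1))
    (hlead : y.coeff r = a) (h3r : ((3 * r : ℕ) : F) = 1)
    (hI : ∀ e, 2 * r ≤ e → e + 3 ≤ 3 * r → (derivative y * (derivative y * y)).coeff e = 0)
    (hII : ∀ e, 2 * r ≤ e → e + 3 ≤ 3 * r →
      (derivative (derivative y) * (y * y)).coeff e = 0) :
    ∀ k, 1 ≤ k → k + 2 ≤ r → y.coeff (r - k) = 0 := by
  intro k
  induction k using Nat.strong_induction_on with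
  | _ k ih =>
    intro hk1 hk2
    set e := y.coeff (r - k) with he
    obtain ⟨d, hd⟩ : ∃ d, r = d + 1 + 1 + k := ⟨r - k - 2, by omega⟩
    have hA : Ap y (d + 1 + 1) k a e := by
      refine ⟨y - C a * X ^ (d + 1 + 1 + k) - C e * X ^ (d + 1 + 1), by ring, ?_⟩
      intro i hi
      rw [coeff_sub, coeff_sub, coeff_C_mul_X_pow, coeff_C_mul_X_pow]
      rcases lt_trichotomy i (d + 1 + 1 + k) with h1 | h1 | h1
      · rw [if_neg (by omega)]
        by_cases h2 : i = d + 1 + 1
        · rw [if_pos h2, he, h2]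
          have : r - k = d + 1 + 1 := by omega
          rw [this]; ring
        · rw [if_neg h2]
          have : y.coeff i = 0 := by
            have h3 := ih (r - i) (by omega) (by omega) (by omega)
            have h4 : r - (r - i) = i := by omega
            rwa [h4] at h3
          rw [this]; ring
      · rw [if_pos h1, if_neg (by omega), h1, ← hd, hlead]; ring
      · rw [if_neg (by omega), if_neg (by omega), hdeg i (by omega)]; ring
    have hD : Ap (derivative y) (d + 1) k (a * ((d + 1 + 1 + k : ℕ) : F))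
        (e * ((d + 1 + 1 : ℕ) : F)) := hA.deriv
    have hDD : Ap (derivative (derivative y)) d k
        (a * ((d + 1 + 1 + k : ℕ) : F) * ((d + 1 + k : ℕ) : F))
        (e * ((d + 1 + 1 : ℕ) : F) * ((d + 1 : ℕ) : F)) := hD.deriv
    have c1 := (hD.mul hk1 (hD.mul hk1 hA)).coeff (by omega)
    have c2 := (hDD.mul hk1 (hA.mul hk1 hA)).coeff (by omega)
    rw [hI _ (by omega) (by omega)] at c1
    rw [hII _ (by omega) (by omega)] at c2
    -- now algebra in F
    have hrF : ((d + 1 + 1 + k : ℕ) : F) = (r : F) := by rw [hd]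
    have h3 : (3 : F) * (r : F) = 1 := by exact_mod_cast h3r
    have hr0 : (r : F) ≠ 0 := by
      intro h
      rw [h, mul_zero] at h3
      exact zero_ne_one h3
    have h3ne : (3 : F) ≠ 0 := by
      intro h
      rw [h, zero_mul] at h3
      exact zero_ne_one h3
    have hdF : (d : F) = (r : F) - 2 - (k : F) := by
      rw [hd]; push_cast; ring
    push_cast at c1 c2
    rw [hdF] at c1 c2
    -- c1 : 0 = ..., c2 : 0 = ...
    have e1 : a ^ 2 * (r : F) * (e * (1 - 2 * (k : F))) = 0 := by
      have : a ^ 2 * (r : F) * (e * (3 * (r : F) - 2 * (k : F))) = 0 := by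
        linear_combination -c1
      rw [h3] at this
      exact this
    have e1' : e * (1 - 2 * (k : F)) = 0 := by
      rcases mul_eq_zero.1 e1 with h | h
      · rcases mul_eq_zero.1 h with h | h
        · exact absurd h (pow_ne_zero 2 ha)
        · exact absurd h hr0
      · exact h
    rcases mul_eq_zero.1 e1' with h | h
    · exact h
    · have hk2F : 2 * (k : F) = 1 := by linear_combination -h
      have e2 : a ^ 2 * (e * (2 * (r : F) * ((r : F) - 1)
          + ((r : F) - k) * ((r : F) - k - 1))) = 0 := by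
        linear_combination -c2
      have e2' := (mul_eq_zero.1 e2).resolve_left (pow_ne_zero 2 ha)
      have e3 : e * (-9 : F) = 0 := by
        have : e * (36 * (2 * (r : F) * ((r : F) - 1)
          + ((r : F) - k) * ((r : F) - k - 1))) = 0 := by
          linear_combination 36 * e2'
        have h36 : (36 : F) * (2 * (r : F) * ((r : F) - 1)
          + ((r : F) - k) * ((r : F) - k - 1)) = -9 := by
          have hrr : (r : F) = 3⁻¹ := by
            field_simp
            linear_combination h3
          have h2ne : (2 : F) ≠ 0 := by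
            intro h; rw [h, zero_mul] at hk2F; exact zero_ne_one hk2F
          have hkk : (k : F) = 2⁻¹ := by
            field_simp
            linear_combination hk2F
          rw [hrr, hkk]
          field_simp
          ring
        rwa [h36] at this
      rcases mul_eq_zero.1 e3 with h | h
      · exact h
      · exfalso
        have h9 : (3 : F) * 3 = 0 := by linear_combination -h
        rcases mul_eq_zero.1 h9 with h | h <;> exact h3ne h

end ap

end Pool.Agent.helper35.Nuc
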